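import Pool.Agent.Helper90.FC.CobH

/-!
# Project FC, piece COK: the key lemma
-/

set_option linter.unusedSectionVars false
set_option autoImplicit false

open scoped TensorProduct

namespace Pool.Agent.Helper90.FC

universe u v

section

variable (k : Type u) [Field k] (H : Type u) [Ring H] [Bialgebra k H]

private theorem CobK_dd_one : dd k H 1 = 0 := by
  have h := dd_mul k H 1 1
  rw [map_one, mul_one, one_mul, mul_one] at h
  exact left_eq_add.mp h

private theorem CobK_sg (x y : TA k H) (hx : sg k H x = x) (hxy : dd k H x = y) :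
    sg k H y = -y := by
  have h := dd_sg k H x
  rw [hx, hxy] at h
  rw [eq_neg_iff_add_eq_zero] at h ⊢
  rw [add_comm]
  exact h

/-- `[dd, S] = ρ y` -/
private theorem CobK_dS (x y : TA k H) (hx : sg k H x = x) (hxy : dd k H x = y) (w : TA k H) :
    dd k H (SS k H x y w) = SS k H x y (dd k H w) + sg k H w * y := by
  have hy : dd k H y = 0 := by rw [← hxy, dd_dd]
  have h1 := homotopy k H y hy (CobK_sg k H x y hx hxy) w
  have h2 := dd_mul k H x w
  rw [hx, hxy] at h2
  rw [SS, LinearMap.add_apply, LinearMap.add_apply, LinearMap.mulLeft_apply,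
    LinearMap.mulLeft_apply, map_add, h2]
  rw [sub_eq_iff_eq_add] at h1
  rw [h1]
  abel

/-- `[S, ρ z] = ρ (RR y z)` -/
private theorem CobK_Sr (x y : TA k H) (hx : sg k H x = x) (hs : sg k H y = -y)
    (w z : TA k H) : SS k H x y (sg k H w * z) =
      sg k H (SS k H x y w) * z + sg k H w * RR k H y z := by
  rw [SS, LinearMap.add_apply, LinearMap.add_apply, LinearMap.mulLeft_apply,
    LinearMap.mulLeft_apply, RR_mul, RR_sg k H y hs, map_add, map_mul, hx, add_mul, mul_assoc]
  abel

private theorem CobK_pow (x y : TA k H) (hx : sg k H x = x) (hxy : dd k H x = y) (n : ℕ) :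
    dd k H (((SS k H x y) ^ n) 1) = ∑ i ∈ Finset.range n, (n.choose (i + 1)) •
      (sg k H (((SS k H x y) ^ (n - 1 - i)) 1) * ((RR k H y) ^ i) y) := by
  induction n with
  | zero =>
    rw [pow_zero, Module.End.one_apply, CobK_dd_one, Finset.range_zero, Finset.sum_empty]
  | succ n ih =>
    rw [pow_succ', Module.End.mul_apply, CobK_dS k H x y hx hxy, ih, map_sum]
    have h1 : ∀ i ∈ Finset.range n, SS k H x y ((n.choose (i + 1)) •
        (sg k H (((SS k H x y) ^ (n - 1 - i)) 1) * ((RR k H y) ^ i) y)) =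
        (n.choose (i + 1)) • (sg k H (((SS k H x y) ^ (n - i)) 1) * ((RR k H y) ^ i) y) +
        (n.choose (i + 1)) • (sg k H (((SS k H x y) ^ (n - (i + 1))) 1) *
          ((RR k H y) ^ (i + 1)) y) := by
      intro i hi
      have hi' := Finset.mem_range.mp hi
      have e1 : n - i = (n - 1 - i) + 1 := by omega
      have e2 : n - (i + 1) = n - 1 - i := by omega
      rw [map_nsmul, CobK_Sr k H x y hx (CobK_sg k H x y hx hxy), smul_add, e1, e2,
        pow_succ' (SS k H x y), pow_succ' (RR k H y), Module.End.mul_apply, Module.End.mul_apply]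
    rw [Finset.sum_congr rfl h1, Finset.sum_add_distrib, add_assoc]
    have h2 : ∑ i ∈ Finset.range n, (n.choose (i + 1)) •
        (sg k H (((SS k H x y) ^ (n - (i + 1))) 1) * ((RR k H y) ^ (i + 1)) y) +
        sg k H (((SS k H x y) ^ n) 1) * y =
        ∑ i ∈ Finset.range (n + 1), (n.choose i) •
          (sg k H (((SS k H x y) ^ (n - i)) 1) * ((RR k H y) ^ i) y) := by
      rw [Finset.sum_range_succ']
      simp
    have h3 : ∑ i ∈ Finset.range n, (n.choose (i + 1)) •
        (sg k H (((SS k H x y) ^ (n - i)) 1) * ((RR k H y) ^ i) y) =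
        ∑ i ∈ Finset.range (n + 1), (n.choose (i + 1)) •
          (sg k H (((SS k H x y) ^ (n - i)) 1) * ((RR k H y) ^ i) y) := by
      rw [Finset.sum_range_succ, Nat.choose_succ_self, zero_smul, add_zero]
    rw [h2, h3, ← Finset.sum_add_distrib]
    refine Finset.sum_congr rfl fun i _ => ?_
    rw [← add_smul, Nat.choose_succ_succ, add_comm (n.choose (i + 1)), Nat.add_sub_cancel]

/-- The key lemma. With `ρ z w = sg w * z`: `[dd, S] = ρ y`, `[S, ρ z] = ρ (RR y z)` for `sg z = -z`;
hence `dd (S^p 1) = ∑ S^i ρ_y S^(p-1-i) 1 = (ad S)^(p-1) (ρ_y) 1 = (RR y)^(p-1) y` in characteristic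
`p`. -/
theorem key_lemma (p : ℕ) [Fact p.Prime] [CharP k p] (x y : TA k H) (hx : sg k H x = x)
    (hxy : dd k H x = y) :
    dd k H (((SS k H x y) ^ p) 1) = ((RR k H y) ^ (p - 1)) y := by
  have hp : p.Prime := Fact.out
  rw [CobK_pow k H x y hx hxy p, Finset.sum_eq_single (p - 1)]
  · have e : p - 1 + 1 = p := Nat.sub_add_cancel hp.one_lt.le
    rw [e, Nat.choose_self, one_smul, Nat.sub_self, pow_zero, Module.End.one_apply, map_one,
      one_mul]
  · intro i hi hne
    have hi' := Finset.mem_range.mp hi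
    have hd : p ∣ p.choose (i + 1) := hp.dvd_choose_self (Nat.succ_ne_zero i) (by omega)
    have h0 : ((p.choose (i + 1) : ℕ) : k) = 0 := (CharP.cast_eq_zero_iff k p _).mpr hd
    rw [← Nat.cast_smul_eq_nsmul k, h0, zero_smul]
  · intro hn
    exact absurd (Finset.mem_range.mpr (Nat.sub_lt hp.pos one_pos)) hn

end

end Pool.Agent.Helper90.FC
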