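import Mathlib

/-!
# Project FC, piece HIL: a graded form of Hilbert's basis theorem

`V` is a graded vector space (degrees `ℕ`) with finite-dimensional components and finitely many
commuting homogeneous operators `op i` of positive degree `deg i`. If in all large degrees
`V n = ∑ op_i (V m)`, the same holds for every graded subspace `W` stable under the operators.

Proof: let `U = ⨁ V n` (`DirectSum`), extend `op i` to commuting endomorphisms `T i` of `U`
(`DirectSum.toModule`; `op i : V m → V (deg i + m)`). The subalgebra
`S = Algebra.adjoin k (Set.range T)` of `Module.End k U` is commutative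
(`Algebra.adjoinCommRingOfComm`) and of finite type over `k`, so it is a noetherian ring. `U` is a
finitely generated `S`-module (generated by the components of degree `< N`, by strong induction),
hence a noetherian module; the `S`-submodule `⨁ W n` is finitely generated. Replace generators by
their homogeneous components, all of degree `< N'`; then for `n ≥ N'` every element of `W n` is a
combination of nonempty monomials in the `T i` applied to elements of `W`, i.e. it lies in
`∑ op_i (W m)` (for instance: the `k`-subspace of `U` of all `u ∈ ⨁ W n` whose component of degree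
`n` is in `∑ op_i (W m)` for every `n ≥ N'` is stable under all `T i` and contains the
generators).
An induction on the number of operators, without `S`, is also possible.
-/

set_option linter.unusedSectionVars false
set_option autoImplicit false

namespace Pool.Agent.Helper90.FC

universe u

open scoped IsMulCommutative in
theorem hilbert (k : Type u) [Field k] {ι : Type} [Finite ι] (V : ℕ → Type u)
    [∀ n, AddCommGroup (V n)] [∀ n, Module k (V n)] (hfin : ∀ n, Module.Finite k (V n))
    (deg : ι → ℕ) (hdeg : ∀ i, 0 < deg i)
    (op : ∀ (i : ι) {m n : ℕ}, deg i + m = n → (V m →ₗ[k] V n))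
    (comm : ∀ (i j : ι) {m a b n : ℕ} (h₁ : deg i + m = a) (h₂ : deg j + a = n)
      (h₃ : deg j + m = b) (h₄ : deg i + b = n) (v : V m),
        op j h₂ (op i h₁ v) = op i h₄ (op j h₃ v))
    (hV : ∃ N : ℕ, ∀ n, N ≤ n →
      (⨆ (i : ι) (m : ℕ) (h : deg i + m = n), LinearMap.range (op i h)) = ⊤)
    (W : ∀ n, Submodule k (V n))
    (hW : ∀ (i : ι) {m n : ℕ} (h : deg i + m = n), (W m).map (op i h) ≤ W n) :
    ∃ N : ℕ, ∀ n, N ≤ n →
      W n ≤ ⨆ (i : ι) (m : ℕ) (h : deg i + m = n), (W m).map (op i h) := by
  classical
  obtain ⟨N, hN⟩ := hV
  -- the operators on the direct sum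
  let U : Type u := DirectSum ℕ V
  let T : ι → Module.End k U := fun i =>
    DirectSum.toModule k ℕ U fun m =>
      (DirectSum.lof k ℕ V (deg i + m)).comp (op i (rfl : deg i + m = deg i + m))
  have hT : ∀ (i : ι) {m n : ℕ} (h : deg i + m = n) (v : V m),
      T i (DirectSum.lof k ℕ V m v) = DirectSum.lof k ℕ V n (op i h v) := by
    intro i m n h v
    subst h
    exact DirectSum.toModule_lof k m v
  have hcomm : ∀ a ∈ Set.range T, ∀ b ∈ Set.range T, a * b = b * a := by
    rintro _ ⟨i, rfl⟩ _ ⟨j, rfl⟩
    refine DirectSum.linearMap_ext k fun m => LinearMap.ext fun v => ?_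
    change T i (T j (DirectSum.lof k ℕ V m v)) = T j (T i (DirectSum.lof k ℕ V m v))
    have h1 : deg i + m = deg i + m := rfl
    have h2 : deg j + (deg i + m) = deg j + (deg i + m) := rfl
    have h3 : deg j + m = deg j + m := rfl
    have h4 : deg i + (deg j + m) = deg j + (deg i + m) := by omega
    rw [hT j h3, hT i h4, hT i h1, hT j h2, comm i j h1 h2 h3 h4]
  -- the action of the polynomial ring
  have hmc : IsMulCommutative (Algebra.adjoin k (Set.range T)) :=
    Algebra.isMulCommutative_adjoin k hcomm
  let ψ : MvPolynomial ι k →ₐ[k] Algebra.adjoin k (Set.range T) :=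
    MvPolynomial.aeval (R := k) (S₁ := Algebra.adjoin k (Set.range T))
      fun i => ⟨T i, Algebra.subset_adjoin ⟨i, rfl⟩⟩
  let φ : MvPolynomial ι k →ₐ[k] Module.End k U := (Algebra.adjoin k (Set.range T)).val.comp ψ
  have hφX : ∀ i, φ (MvPolynomial.X i) = T i := by
    intro i
    change ((ψ (MvPolynomial.X i) : Algebra.adjoin k (Set.range T)) : Module.End k U) = T i
    rw [MvPolynomial.aeval_X]
  let _ : Module (MvPolynomial ι k) U := Module.compHom U φ.toRingHom
  have hsm : ∀ (r : MvPolynomial ι k) (u : U), r • u = φ r u := fun r u => rfl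
  -- stable subspaces are submodules
  let toSub : ∀ Q : Submodule k U, (∀ i, ∀ u ∈ Q, T i u ∈ Q) → Submodule (MvPolynomial ι k) U :=
    fun Q hQ =>
    { carrier := Q
      add_mem' := fun ha hb => Q.add_mem ha hb
      zero_mem' := Q.zero_mem
      smul_mem' := by
        intro r u hu
        change r • u ∈ Q
        induction r using MvPolynomial.induction_on generalizing u with
        | C a =>
          rw [hsm, ← MvPolynomial.algebraMap_eq, AlgHom.commutes]
          exact Q.smul_mem a hu
        | add p q hp hq =>
          rw [hsm, map_add]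
          exact Q.add_mem (hp hu) (hq hu)
        | mul_X p i hp =>
          rw [hsm, map_mul, hφX]
          exact hp (hQ i u hu) }
  -- finite generation of the direct sum
  have hgen : Module.Finite (MvPolynomial ι k) U := by
    have hs : ∀ m, ∃ t : Finset (V m), Submodule.span k (t : Set (V m)) = ⊤ := fun m =>
      (hfin m).fg_top
    choose t ht using hs
    let G : Set U := ⋃ m ∈ Finset.range N, DirectSum.lof k ℕ V m '' (t m : Set (V m))
    have hGfin : G.Finite := by
      refine Set.Finite.biUnion (Finset.finite_toSet _) fun m _ => ?_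
      exact (Finset.finite_toSet _).image _
    let Y : Submodule (MvPolynomial ι k) U := Submodule.span (MvPolynomial ι k) G
    have hYk : ∀ (a : k) (u : U), u ∈ Y → a • u ∈ Y := by
      intro a u hu
      have h := Y.smul_mem (MvPolynomial.C a) hu
      rw [hsm, ← MvPolynomial.algebraMap_eq, AlgHom.commutes] at h
      exact h
    have hYn : ∀ n, ∀ v : V n, DirectSum.lof k ℕ V n v ∈ Y := by
      intro n
      induction n using Nat.strong_induction_on with
      | _ n ih =>
        intro v
        by_cases hn : n < N
        · have hv : v ∈ Submodule.span k (t n : Set (V n)) := by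
            rw [ht]
            trivial
          induction hv using Submodule.span_induction with
          | mem x hx =>
            refine Submodule.subset_span ?_
            exact Set.mem_biUnion (Finset.mem_coe.2 (Finset.mem_range.2 hn)) ⟨x, hx, rfl⟩
          | zero =>
            rw [map_zero]
            exact Y.zero_mem
          | add x y _ _ hx hy =>
            rw [map_add]
            exact Y.add_mem hx hy
          | smul a x _ hx =>
            rw [map_smul]
            exact hYk a _ hx
        · have hv : v ∈ (⨆ (i : ι) (m : ℕ) (h : deg i + m = n), LinearMap.range (op i h)) := by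
            rw [hN n (not_lt.1 hn)]
            trivial
          let Z : Submodule k (V n) :=
            { carrier := {x | DirectSum.lof k ℕ V n x ∈ Y}
              add_mem' := fun {a b} ha hb => by
                change DirectSum.lof k ℕ V n (a + b) ∈ Y
                rw [map_add]
                exact Y.add_mem ha hb
              zero_mem' := by
                change DirectSum.lof k ℕ V n 0 ∈ Y
                rw [map_zero]
                exact Y.zero_mem
              smul_mem' := fun a x hx => by
                change DirectSum.lof k ℕ V n (a • x) ∈ Y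
                rw [map_smul]
                exact hYk a _ hx }
          have hZ : (⨆ (i : ι) (m : ℕ) (h : deg i + m = n), LinearMap.range (op i h)) ≤ Z := by
            refine iSup_le fun i => iSup_le fun m => iSup_le fun h => ?_
            rintro _ ⟨x, rfl⟩
            change DirectSum.lof k ℕ V n (op i h x) ∈ Y
            rw [← hT i h, ← hφX]
            exact Y.smul_mem (MvPolynomial.X i) (ih m (by have := hdeg i; omega) x)
          exact hZ hv
    refine ⟨⟨hGfin.toFinset, ?_⟩⟩
    rw [Set.Finite.coe_toFinset, eq_top_iff]
    intro u _
    induction u using DirectSum.induction_on with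
    | zero => exact Y.zero_mem
    | of n v => exact hYn n v
    | add x y hx hy => exact Y.add_mem (hx trivial) (hy trivial)
  have hnoe : IsNoetherian (MvPolynomial ι k) U := isNoetherian_of_isNoetherianRing_of_finite _ _
  -- the components of `T i u`
  have hTc : ∀ (i : ι) (u : U), (∀ m, u m ∈ W m) → ∀ n,
      (T i u) n ∈ ⨆ (i : ι) (m : ℕ) (h : deg i + m = n), (W m).map (op i h) := by
    intro i u hu n
    have hsum : T i u = ∑ m ∈ DFinsupp.support u, DirectSum.lof k ℕ V (deg i + m)
        (op i rfl (u m)) := by
      conv_lhs => rw [← DirectSum.sum_support_of u]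
      rw [map_sum]
      refine Finset.sum_congr rfl fun m _ => ?_
      exact hT i rfl (u m)
    rw [hsum, DFinsupp.finsetSum_apply]
    refine Submodule.sum_mem _ fun m _ => ?_
    by_cases hmn : deg i + m = n
    · have : (DirectSum.lof k ℕ V (deg i + m) (op i rfl (u m)) : U) n = op i hmn (u m) := by
        subst hmn
        exact DirectSum.lof_apply (M := V) k (deg i + m) _
      rw [this]
      refine Submodule.mem_iSup_of_mem i (Submodule.mem_iSup_of_mem m
        (Submodule.mem_iSup_of_mem hmn ?_))
      exact Submodule.mem_map_of_mem (hu m)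
    · have : (DirectSum.lof k ℕ V (deg i + m) (op i rfl (u m)) : U) n = 0 :=
        DFinsupp.single_eq_of_ne fun h => hmn h.symm
      rw [this]
      exact Submodule.zero_mem _
  have hWs : ∀ n, (⨆ (i : ι) (m : ℕ) (h : deg i + m = n), (W m).map (op i h)) ≤ W n := fun n =>
    iSup_le fun i => iSup_le fun m => iSup_le fun h => hW i h
  -- the submodule `⨁ W n`
  let W' : Submodule k U :=
    { carrier := {u | ∀ n, u n ∈ W n}
      add_mem' := fun {a b} ha hb n => by
        rw [DirectSum.add_apply]
        exact (W n).add_mem (ha n) (hb n)
      zero_mem' := fun n => by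
        rw [DirectSum.zero_apply]
        exact (W n).zero_mem
      smul_mem' := fun a u hu n => (W n).smul_mem a (hu n) }
  have hW' : ∀ i, ∀ u ∈ W', T i u ∈ W' := fun i u hu n => hWs n (hTc i u hu n)
  obtain ⟨s, hs⟩ := hnoe.noetherian (toSub W' hW')
  -- a bound for the degrees of the generators
  have hb : ∃ N' : ℕ, ∀ g ∈ s, ∀ n, N' ≤ n → g n = 0 := by
    refine ⟨(s.sup fun g => (DFinsupp.support g).sup id) + 1, fun g hg n hn => ?_⟩
    by_contra hne
    have h1 : n ∈ DFinsupp.support g := DFinsupp.mem_support_iff.2 hne
    have h2 : n ≤ (DFinsupp.support g).sup id := Finset.le_sup (f := id) h1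
    have h3 : (DFinsupp.support g).sup id ≤ s.sup fun g => (DFinsupp.support g).sup id :=
      Finset.le_sup (f := fun g : U => (DFinsupp.support g).sup id) hg
    omega
  obtain ⟨N', hN'⟩ := hb
  refine ⟨N', fun n hn w hw => ?_⟩
  let Q : Submodule k U :=
    { carrier := {u | (∀ n, u n ∈ W n) ∧ ∀ n, N' ≤ n →
        u n ∈ ⨆ (i : ι) (m : ℕ) (h : deg i + m = n), (W m).map (op i h)}
      add_mem' := fun {a b} ha hb => ⟨W'.add_mem ha.1 hb.1, fun n hn => by
        rw [DirectSum.add_apply]
        exact Submodule.add_mem _ (ha.2 n hn) (hb.2 n hn)⟩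
      zero_mem' := ⟨W'.zero_mem, fun n _ => by
        rw [DirectSum.zero_apply]
        exact Submodule.zero_mem _⟩
      smul_mem' := fun a u hu => ⟨W'.smul_mem a hu.1, fun n hn =>
        Submodule.smul_mem _ a (hu.2 n hn)⟩ }
  have hQ : ∀ i, ∀ u ∈ Q, T i u ∈ Q := fun i u hu => ⟨hW' i u hu.1, fun n _ => hTc i u hu.1 n⟩
  have hle : toSub W' hW' ≤ toSub Q hQ := by
    rw [← hs, Submodule.span_le]
    intro g hg
    have hgW : g ∈ toSub W' hW' := by
      rw [← hs]
      exact Submodule.subset_span hg
    refine ⟨hgW, fun n hn => ?_⟩
    rw [hN' g hg n hn]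
    exact Submodule.zero_mem _
  have hwm : DirectSum.lof k ℕ V n w ∈ toSub W' hW' := by
    intro m
    by_cases hmn : n = m
    · subst hmn
      rw [DirectSum.lof_apply]
      exact hw
    · have : (DirectSum.lof k ℕ V n w : U) m = 0 :=
        DFinsupp.single_eq_of_ne fun h => hmn h.symm
      rw [this]
      exact Submodule.zero_mem _
  have h5 := (hle hwm).2 n hn
  rwa [DirectSum.lof_apply] at h5

end Pool.Agent.Helper90.FC
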