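import Pool.Agent.Helper90.FC.Ev

/-!
# Restriction of cohomology along homomorphisms of augmented algebras
-/

set_option linter.unusedSectionVars false
set_option autoImplicit false

open CategoryTheory CategoryTheory.Abelian CategoryTheory.Limits
open scoped ModuleCat TensorProduct
open Pool.Agent.Helper59.FG

namespace Pool.Agent.Helper90.FC

universe u

section

variable {k : Type u} [Field k] {A B : Type u} [Ring A] [Ring B] [Bialgebra k A] [Bialgebra k B]

/-- The restriction functor along `φ : A → B`. -/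
noncomputable abbrev res (φ : A →ₐ[k] B) : ModuleCat.{u} B ⥤ ModuleCat.{u} A :=
  ModuleCat.restrictScalars φ.toRingHom

instance res_lim (φ : A →ₐ[k] B) : PreservesFiniteLimits (res φ) := by
  have := ((Functor.exact_tfae (res φ)).out 1 3).1 (by
    intro S hS
    rw [ShortComplex.ShortExact.moduleCat_exact_iff_function_exact] at hS ⊢
    exact hS)
  exact this.1

instance res_colim (φ : A →ₐ[k] B) : PreservesFiniteColimits (res φ) := by
  have := ((Functor.exact_tfae (res φ)).out 1 3).1 (by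
    intro S hS
    rw [ShortComplex.ShortExact.moduleCat_exact_iff_function_exact] at hS ⊢
    exact hS)
  exact this.2

instance res_additive (φ : A →ₐ[k] B) : (res φ).Additive where
  map_add := rfl

instance res_linear (φ : A →ₐ[k] B) : (res φ).Linear k where
  map_smul {X Y} f c := by
    ext x
    change algebraMap k B c • f.hom x = φ (algebraMap k A c) • f.hom x
    rw [AlgHom.commutes]

/-- `φ` is a homomorphism of augmented algebras. -/
def Aug (φ : A →ₐ[k] B) : Prop :=
  ∀ a : A, Coalgebra.counit (R := k) (φ a) = Coalgebra.counit (R := k) a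

theorem aug_of_bialg (f : A →ₐc[k] B) : Aug (f : A →ₐ[k] B) := fun a =>
  CoalgHomClass.counit_comp_apply f a

/-- The trivial module restricts to the trivial module. -/
noncomputable def resTrivLin (φ : A →ₐ[k] B) (hφ : Aug φ) :
    trivObj k A →ₗ[A] (res φ).obj (trivObj k B) where
  toFun x := (show trivObj k B from (show k from x))
  map_add' _ _ := rfl
  map_smul' a x := by
    change Coalgebra.counit (R := k) a * (show k from x) =
      Coalgebra.counit (R := k) (φ a) * (show k from x)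
    rw [hφ]

/-- The trivial module restricts to the trivial module. -/
noncomputable def resTriv (φ : A →ₐ[k] B) (hφ : Aug φ) :
    trivObj k A ⟶ (res φ).obj (trivObj k B) :=
  ConcreteCategory.ofHom (C := ModuleCat.{u} A) (X := trivObj k A)
    (Y := (res φ).obj (trivObj k B)) (resTrivLin φ hφ)

theorem resTriv_apply (φ : A →ₐ[k] B) (hφ : Aug φ) (x : trivObj k A) :
    (resTriv φ hφ).hom x = resTrivLin φ hφ x := rfl

instance resTriv_iso (φ : A →ₐ[k] B) (hφ : Aug φ) : IsIso (resTriv φ hφ) :=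
  (ConcreteCategory.isIso_iff_bijective _).2 ⟨fun _ _ h => h,
    fun x => ⟨(show trivObj k A from (show k from x)), rfl⟩⟩

/-- Restriction `Ext_B(k, M) → Ext_A(k, M)`. -/
noncomputable def rs (φ : A →ₐ[k] B) (hφ : Aug φ) {M : ModuleCat.{u} B} {n : ℕ}
    (x : Ext (trivObj k B) M n) : Ext (trivObj k A) ((res φ).obj M) n :=
  (Ext.mk₀ (resTriv φ hφ)).comp (x.mapExactFunctor (res φ)) (zero_add n)

/-- Restriction `Ext_B(k, k) → Ext_A(k, k)`. -/
noncomputable def rsE (φ : A →ₐ[k] B) (hφ : Aug φ) {n : ℕ}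
    (x : Ext (trivObj k B) (trivObj k B) n) : Ext (trivObj k A) (trivObj k A) n :=
  (rs φ hφ x).comp (Ext.mk₀ (inv (resTriv φ hφ))) (add_zero n)

variable (φ : A →ₐ[k] B) (hφ : Aug φ)

theorem rs_add {M : ModuleCat.{u} B} {n : ℕ} (x y : Ext (trivObj k B) M n) :
    rs φ hφ (x + y) = rs φ hφ x + rs φ hφ y := by
  simp only [rs, Ext.mapExactFunctor_add, Ext.comp_add]

theorem rs_zero {M : ModuleCat.{u} B} {n : ℕ} :
    rs φ hφ (0 : Ext (trivObj k B) M n) = 0 := by
  simp only [rs, Ext.mapExactFunctor_zero, Ext.comp_zero]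

theorem rs_smul {M : ModuleCat.{u} B} {n : ℕ} (c : k) (x : Ext (trivObj k B) M n) :
    rs φ hφ (c • x) = c • rs φ hφ x := by
  simp only [rs, Functor.mapExactFunctor_smul, Ext.comp_smul]

theorem rs_comp {M N : ModuleCat.{u} B} {a b c : ℕ} (x : Ext (trivObj k B) M a)
    (y : Ext M N b) (h : a + b = c) :
    rs φ hφ (x.comp y h) = (rs φ hφ x).comp (y.mapExactFunctor (res φ)) h := by
  unfold rs
  rw [Ext.mapExactFunctor_comp, Ext.comp_assoc (Ext.mk₀ (resTriv φ hφ)) _ _ (zero_add a) h
    (by omega)]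

theorem rsE_comp {M : ModuleCat.{u} B} {a b c : ℕ} (x : Ext (trivObj k B) (trivObj k B) a)
    (y : Ext (trivObj k B) M b) (h : a + b = c) :
    (rsE φ hφ x).comp (rs φ hφ y) h = rs φ hφ (x.comp y h) := by
  rw [rs_comp]
  unfold rsE
  rw [Ext.comp_assoc_of_second_deg_zero]
  unfold rs
  rw [Ext.mk₀_comp_mk₀_assoc, IsIso.inv_hom_id, Ext.mk₀_id_comp]

theorem rsE_mul {a b c : ℕ} (x : Ext (trivObj k B) (trivObj k B) a)
    (y : Ext (trivObj k B) (trivObj k B) b) (h : a + b = c) :
    rsE φ hφ (x.comp y h) = (rsE φ hφ x).comp (rsE φ hφ y) h := by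
  rw [rsE, ← rsE_comp, rsE, rsE, Ext.comp_assoc_of_third_deg_zero]

theorem rsE_one : rsE φ hφ (Ext.mk₀ (𝟙 (trivObj k B))) = Ext.mk₀ (𝟙 (trivObj k A)) := by
  rw [rsE, rs, Ext.mapExactFunctor_mk₀, Ext.mk₀_comp_mk₀, Ext.mk₀_comp_mk₀,
    CategoryTheory.Functor.map_id, Category.comp_id, IsIso.hom_inv_id]

theorem rsE_add {n : ℕ} (x y : Ext (trivObj k B) (trivObj k B) n) :
    rsE φ hφ (x + y) = rsE φ hφ x + rsE φ hφ y := by
  rw [rsE, rs_add, Ext.add_comp]; rfl

theorem rsE_smul {n : ℕ} (c : k) (x : Ext (trivObj k B) (trivObj k B) n) :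
    rsE φ hφ (c • x) = c • rsE φ hφ x := by
  rw [rsE, rs_smul, Ext.smul_comp]; rfl

/-- Restriction of a family. -/
noncomputable def Fam.res {ι : Type} (ζ : Fam k B ι) : Fam k A ι where
  deg := ζ.deg
  cls := fun i => rsE φ hφ (ζ.cls i)
  pos := ζ.pos
  even := ζ.even

end

end Pool.Agent.Helper90.FC
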