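import Pool.Agent.Helper90.FC.TensL
import Pool.Agent.Helper90.FC.Hilb
import Pool.Agent.Helper90.FC.Res

/-!
# Project FC, piece EVL: elementary properties of eventual generation
-/

set_option linter.unusedSectionVars false
set_option autoImplicit false

open CategoryTheory CategoryTheory.Abelian CategoryTheory.Limits
open scoped ModuleCat TensorProduct
open Pool.Agent.Helper59.FG

namespace Pool.Agent.Helper90.FC

universe u

section

variable {k : Type u} [Field k] {A : Type u} [Ring A] [Bialgebra k A] {ι : Type}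

/-- Powers for the Yoneda product; the degree of the `r`-th power is `d * r`. -/
noncomputable def ypow {d : ℕ} (x : Ext (trivObj k A) (trivObj k A) d) :
    (r : ℕ) → Ext (trivObj k A) (trivObj k A) (d * r)
  | 0 => Ext.mk₀ (𝟙 _)
  | r + 1 => (ypow x r).comp x rfl

/-- Replace the members of a family by powers. -/
noncomputable def Fam.pow (ζ : Fam k A ι) (r : ι → ℕ) (hr : ∀ i, 0 < r i) : Fam k A ι where
  deg := fun i => ζ.deg i * r i
  cls := fun i => ypow (ζ.cls i) (r i)
  pos := fun i => Nat.mul_pos (ζ.pos i) (hr i)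
  even := fun i => (ζ.even i).mul_right _

private theorem EvLem_finite_triv : Module.Finite A (trivObj k A) := by
  refine ⟨⟨{(show trivObj k A from (1 : k))}, ?_⟩⟩
  rw [eq_top_iff]
  intro x _
  have h1 : x = (algebraMap k A (show k from x)) • (show trivObj k A from (1 : k)) := by
    change x = (show k from Coalgebra.counit (R := k) (algebraMap k A (show k from x)) * 1)
    rw [mul_one, Bialgebra.counit_algebraMap]
  rw [h1]
  apply Submodule.smul_mem
  apply Submodule.subset_span
  exact Finset.mem_coe.2 (Finset.mem_singleton_self _)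

/-- commuting past each other -/
private theorem EvLem_swap {M : ModuleCat.{u} A} {a b m p q n : ℕ}
    (x : Ext (trivObj k A) (trivObj k A) a) (y : Ext (trivObj k A) (trivObj k A) b)
    (v : Ext (trivObj k A) M m) (ha : Even a) (h₁ : b + m = p) (h₂ : a + p = n)
    (h₃ : a + m = q) (h₄ : b + q = n) :
    x.comp (y.comp v h₁) h₂ = y.comp (x.comp v h₃) h₄ := by
  have e1 : x.comp (y.comp v h₁) h₂ = (x.comp y rfl).comp v (by omega) :=
    (Ext.comp_assoc x y v rfl h₁ (by omega)).symm
  have e2 : y.comp (x.comp v h₃) h₄ = (y.comp x (add_comm b a)).comp v (by omega) :=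
    (Ext.comp_assoc y x v (add_comm b a) h₃ (by omega)).symm
  rw [e1, e2, comm_even k x y rfl (add_comm b a) ha]

/-- The theorem `hilbert` for `Ext(k, M)`. -/
theorem Fam.hilb [Module.Finite k A] [Finite ι] (ζ : Fam k A ι) (M : ModuleCat.{u} A)
    [Module.Finite A M] (hM : ζ.EvGen M) (W : ∀ n, Submodule k (Ext (trivObj k A) M n))
    (hW : ∀ (i : ι) {m n : ℕ} (h : ζ.deg i + m = n), ∀ x ∈ W m, (ζ.cls i).comp x h ∈ W n) :
    ∃ N : ℕ, ∀ n, N ≤ n →
      W n ≤ ⨆ (i : ι) (m : ℕ) (h : ζ.deg i + m = n),
        (W m).map ((ζ.cls i).precompOfLinear k M h) := by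
  have hf : Module.Finite A (trivObj k A) := EvLem_finite_triv
  refine hilbert k (fun n => Ext (trivObj k A) M n) (fun n => finite_ext k _ _ n) ζ.deg ζ.pos
    (fun i {m n} h => (ζ.cls i).precompOfLinear k M h) ?_ hM W ?_
  · intro i j m a b n h₁ h₂ h₃ h₄ v
    exact EvLem_swap (ζ.cls j) (ζ.cls i) v (ζ.even j) h₁ h₂ h₃ h₄
  · rintro i m n h _ ⟨x, hx, rfl⟩
    exact hW i h x hx

/-- Postcomposition with a morphism. -/
private noncomputable def EvLem_post {M N : ModuleCat.{u} A} (f : M ⟶ N) (n : ℕ) :
    Ext (trivObj k A) M n →ₗ[k] Ext (trivObj k A) N n :=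
  (Ext.mk₀ f).postcompOfLinear k (trivObj k A) (add_zero n)

private theorem EvLem_post_apply {M N : ModuleCat.{u} A} (f : M ⟶ N) (n : ℕ)
    (x : Ext (trivObj k A) M n) : EvLem_post f n x = x.comp (Ext.mk₀ f) (add_zero n) := rfl

private theorem EvLem_post_comp {M N : ModuleCat.{u} A} (f : M ⟶ N) {d m n : ℕ}
    (z : Ext (trivObj k A) (trivObj k A) d) (h : d + m = n) (x : Ext (trivObj k A) M m) :
    EvLem_post f n (z.comp x h) = z.comp (EvLem_post f m x) h := by
  rw [EvLem_post_apply, EvLem_post_apply, Ext.comp_assoc_of_third_deg_zero]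

private theorem EvLem_post_gen (ζ : Fam k A ι) {M N : ModuleCat.{u} A} (f : M ⟶ N) (n : ℕ) :
    (ζ.gen M n).map (EvLem_post f n) ≤ ζ.gen N n := by
  rw [Submodule.map_le_iff_le_comap, Fam.gen_le_iff]
  intro i m h x
  rw [Submodule.mem_comap, EvLem_post_comp]
  exact ζ.mem_gen i h _

/-- Eventual generation passes to extensions. (Apply `Fam.hilb` to the image of `Ext(k, X₂)` in
`Ext(k, X₃)`.) -/
theorem Fam.evGen_mid [Module.Finite k A] [Finite ι] (ζ : Fam k A ι)
    {S : ShortComplex (ModuleCat.{u} A)} (hS : S.ShortExact) [Module.Finite A S.X₁]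
    [Module.Finite A S.X₂] [Module.Finite A S.X₃] (h₁ : ζ.EvGen S.X₁) (h₃ : ζ.EvGen S.X₃) :
    ζ.EvGen S.X₂ := by
  obtain ⟨N₁, hN₁⟩ := h₁
  obtain ⟨N₂, hN₂⟩ := ζ.hilb S.X₃ h₃ (fun n => LinearMap.range (EvLem_post S.g n)) (by
    rintro i m n h _ ⟨x, rfl⟩
    exact ⟨(ζ.cls i).comp x h, EvLem_post_comp S.g _ h x⟩)
  refine ⟨max N₁ N₂, fun n hn => ?_⟩
  rw [eq_top_iff]
  intro z _
  have h1 : LinearMap.range (EvLem_post S.g n) ≤ (ζ.gen S.X₂ n).map (EvLem_post (k := k) S.g n) := by
    refine (hN₂ n ((le_max_right _ _).trans hn)).trans ?_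
    refine iSup_le fun i => iSup_le fun m => iSup_le fun h => ?_
    rintro _ ⟨_, ⟨x, rfl⟩, rfl⟩
    exact ⟨(ζ.cls i).comp x h, ζ.mem_gen i h x, EvLem_post_comp S.g _ h x⟩
  obtain ⟨z', hz', e⟩ := h1 ⟨z, rfl⟩
  have h2 : (z - z').comp (Ext.mk₀ S.g) (add_zero n) = 0 := by
    rw [← EvLem_post_apply, map_sub, e, sub_self]
  obtain ⟨w, hw⟩ := Ext.covariant_sequence_exact₂ (trivObj k A) hS (z - z') h2
  have h3 : w ∈ ζ.gen S.X₁ n := by
    rw [hN₁ n ((le_max_left _ _).trans hn)]
    exact Submodule.mem_top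
  have h4 : z - z' ∈ ζ.gen S.X₂ n := by
    rw [← hw]
    exact EvLem_post_gen ζ S.f n ⟨w, h3, rfl⟩
  have h5 : z = z' + (z - z') := by abel
  rw [h5]
  exact Submodule.add_mem _ hz' h4

theorem Fam.evGen_iso (ζ : Fam k A ι) {M N : ModuleCat.{u} A} (e : M ≅ N) (h : ζ.EvGen M) :
    ζ.EvGen N := by
  obtain ⟨N₁, hN₁⟩ := h
  refine ⟨N₁, fun n hn => ?_⟩
  rw [eq_top_iff]
  intro z _
  have h1 : z.comp (Ext.mk₀ e.inv) (add_zero n) ∈ ζ.gen M n := by
    rw [hN₁ n hn]
    exact Submodule.mem_top
  have h2 : z = EvLem_post e.hom n (z.comp (Ext.mk₀ e.inv) (add_zero n)) := by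
    rw [EvLem_post_apply, Ext.comp_assoc_of_third_deg_zero, Ext.mk₀_comp_mk₀, Iso.inv_hom_id,
      Ext.comp_mk₀_id]
  rw [h2]
  exact EvLem_post_gen ζ e.hom n ⟨_, h1, rfl⟩

private theorem EvLem_ypow_one {d : ℕ} (x : Ext (trivObj k A) (trivObj k A) d)
    {M : ModuleCat.{u} A} {m n : ℕ} (h : d + m = n) (h' : d * 1 + m = n)
    (v : Ext (trivObj k A) M m) : (ypow x 1).comp v h' = x.comp v h := by
  have h1 : (ypow x 1 : Ext (trivObj k A) (trivObj k A) (d * 1)) =
      (Ext.mk₀ (𝟙 (trivObj k A))).comp x (by omega) := rfl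
  rw [h1]
  rw [Ext.comp_assoc (Ext.mk₀ (𝟙 (trivObj k A))) x v (by omega) h (by omega), Ext.mk₀_id_comp]

private theorem EvLem_ypow_succ {d a : ℕ} (x : Ext (trivObj k A) (trivObj k A) d)
    {M : ModuleCat.{u} A} {m q n : ℕ} (h : d + m = q) (h' : d * a + q = n)
    (h'' : d * (a + 1) + m = n) (v : Ext (trivObj k A) M m) :
    (ypow x (a + 1)).comp v h'' = (ypow x a).comp (x.comp v h) h' :=
  Ext.comp_assoc (ypow x a) x v rfl h (by rw [← h'', Nat.mul_succ])

/-- Changing one exponent. -/
private theorem EvLem_step [Finite ι] (ζ : Fam k A ι) {M : ModuleCat.{u} A} [DecidableEq ι]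
    (i₀ : ι) (r : ι → ℕ) (hr : ∀ i, 0 < r i) (hr1 : ∀ i, 0 < Function.update r i₀ 1 i)
    (hr' : ∀ i, 0 < Function.update r i₀ (r i₀ + 1) i)
    (h1 : (ζ.pow (Function.update r i₀ 1) hr1).EvGen M) (h : (ζ.pow r hr).EvGen M) :
    (ζ.pow (Function.update r i₀ (r i₀ + 1)) hr').EvGen M := by
  obtain ⟨N₁, hN₁⟩ := h1
  obtain ⟨N₂, hN₂⟩ := h
  set P := ζ.pow (Function.update r i₀ (r i₀ + 1)) hr' with hP
  have hother : ∀ i, i ≠ i₀ → ∀ {m n : ℕ} (e : ζ.deg i * r i + m = n)
      (v : Ext (trivObj k A) M m), (ypow (ζ.cls i) (r i)).comp v e ∈ P.gen M n := by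
    intro i hi m n e v
    have e1 : Function.update r i₀ (r i₀ + 1) i = r i := Function.update_of_ne hi _ _
    have h2 : ∀ (s : ℕ) (hs : s = r i) (e' : ζ.deg i * s + m = n),
        (ypow (ζ.cls i) s).comp v e' = (ypow (ζ.cls i) (r i)).comp v e := by
      rintro s rfl e'
      rfl
    have h3 := P.mem_gen i (m := m) (n := n) (by
      change ζ.deg i * Function.update r i₀ (r i₀ + 1) i + m = n
      rw [e1]
      exact e) v
    rw [← h2 _ e1 (by rw [e1]; exact e)]
    exact h3
  have hmain : ∀ {m n : ℕ} (e : ζ.deg i₀ * (r i₀ + 1) + m = n)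
      (v : Ext (trivObj k A) M m), (ypow (ζ.cls i₀) (r i₀ + 1)).comp v e ∈ P.gen M n := by
    intro m n e v
    have e1 : Function.update r i₀ (r i₀ + 1) i₀ = r i₀ + 1 := Function.update_self _ _ _
    have h2 : ∀ (s : ℕ) (hs : s = r i₀ + 1) (e' : ζ.deg i₀ * s + m = n),
        (ypow (ζ.cls i₀) s).comp v e' = (ypow (ζ.cls i₀) (r i₀ + 1)).comp v e := by
      rintro s rfl e'
      rfl
    have h3 := P.mem_gen i₀ (m := m) (n := n) (by
      change ζ.deg i₀ * Function.update r i₀ (r i₀ + 1) i₀ + m = n
      rw [e1]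
      exact e) v
    rw [← h2 _ e1 (by rw [e1]; exact e)]
    exact h3
  refine ⟨max N₂ (N₁ + ζ.deg i₀ * r i₀), fun n hn => ?_⟩
  rw [eq_top_iff, ← hN₂ n ((le_max_left _ _).trans hn), Fam.gen_le_iff]
  intro i m e v
  change ζ.deg i * r i + m = n at e
  change (ypow (ζ.cls i) (r i)).comp v e ∈ P.gen M n
  by_cases hi : i = i₀
  · subst hi
    have hm : N₁ ≤ m := by
      have := (le_max_right _ _).trans hn
      omega
    -- decompose `v`
    have hv : v ∈ (ζ.pow (Function.update r i 1) hr1).gen M m := by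
      rw [hN₁ m hm]
      exact Submodule.mem_top
    have hle : (ζ.pow (Function.update r i 1) hr1).gen M m ≤
        (P.gen M n).comap ((ypow (ζ.cls i) (r i)).precompOfLinear k M e) := by
      rw [Fam.gen_le_iff]
      intro j q e' w
      change (ypow (ζ.cls i) (r i)).comp ((ypow (ζ.cls j) (Function.update r i 1 j)).comp w e') e ∈
        P.gen M n
      by_cases hj : j = i
      · subst hj
        have e1 : Function.update r j 1 j = 1 := Function.update_self _ _ _
        have h2 : ∀ (s : ℕ) (hs : s = 1) (e'' : ζ.deg j * s + q = m),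
            (ypow (ζ.cls j) s).comp w e'' = (ζ.cls j).comp w (by rw [hs] at e''; omega) := by
          rintro s rfl e''
          exact EvLem_ypow_one _ _ _ _
        rw [h2 _ e1 e']
        have e3 : ζ.deg j + q = m := by
          change ζ.deg j * Function.update r j 1 j + q = m at e'
          rw [e1] at e'
          omega
        have e4 : ζ.deg j * (r j + 1) + q = n := by
          rw [Nat.mul_succ, add_assoc, e3]
          exact e
        rw [← EvLem_ypow_succ (ζ.cls j) e3 e e4 w]
        exact hmain e4 w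
      · have e1 : Function.update r i 1 j = r j := Function.update_of_ne hj _ _
        have h2 : ∀ (s : ℕ) (hs : s = r j) (e'' : ζ.deg j * s + q = m),
            (ypow (ζ.cls j) s).comp w e'' =
              (ypow (ζ.cls j) (r j)).comp w (by rw [← hs]; exact e'') := by
          rintro s rfl e''
          rfl
        rw [h2 _ e1 e']
        have e3 : ζ.deg j * r j + q = m := by
          change ζ.deg j * Function.update r i 1 j + q = m at e'
          rwa [e1] at e'
        rw [EvLem_swap (ypow (ζ.cls i) (r i)) (ypow (ζ.cls j) (r j)) w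
          ((ζ.even i).mul_right _) e3 e (q := ζ.deg i * r i + q) rfl (by omega)]
        exact hother j hj _ _
    exact hle hv
  · exact hother i hi e v

/-- A family and its powers generate the same modules. (Induction on one exponent at a time, or
directly: for `n` large every element of `Ext^n(k, M)` is a sum of products of `L` members of the
family, `L = ∑ r i + 1`, with an element of `Ext(k, M)`; use `comm_even` to collect.) -/
theorem Fam.evGen_pow [Finite ι] (ζ : Fam k A ι) (r : ι → ℕ) (hr : ∀ i, 0 < r i)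
    {M : ModuleCat.{u} A} (hM : ζ.EvGen M) : (ζ.pow r hr).EvGen M := by
  classical
  have : Fintype ι := Fintype.ofFinite ι
  have key : ∀ s : Finset ι, ∀ r' : ι → ℕ, ∀ hr' : ∀ i, 0 < r' i, (∀ i, i ∉ s → r' i = 1) →
      (ζ.pow r' hr').EvGen M := by
    intro s
    induction s using Finset.induction_on with
    | empty =>
      intro r' hr' h
      obtain ⟨N, hN⟩ := hM
      refine ⟨N, fun n hn => ?_⟩
      rw [eq_top_iff, ← hN n hn, Fam.gen_le_iff]
      intro i m e v
      have e1 : r' i = 1 := h i (Finset.notMem_empty i)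
      have e2 : ζ.deg i * r' i + m = n := by rw [e1]; omega
      have h3 := (ζ.pow r' hr').mem_gen i (m := m) (n := n) e2 v
      have h2 : ∀ (s : ℕ) (hs : s = 1) (e'' : ζ.deg i * s + m = n),
          (ypow (ζ.cls i) s).comp v e'' = (ζ.cls i).comp v e := by
        rintro s rfl e''
        exact EvLem_ypow_one _ _ _ _
      rw [← h2 _ e1 e2]
      exact h3
    | insert i₀ s hi₀ ih =>
      intro r' hr' h
      -- induction on the exponent at `i₀`
      have h1 : ∀ a : ℕ, ∀ hpos : ∀ i, 0 < Function.update r' i₀ (a + 1) i,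
          (ζ.pow (Function.update r' i₀ (a + 1)) hpos).EvGen M := by
        intro a
        induction a with
        | zero =>
          intro hpos
          apply ih
          intro i hi
          by_cases hii : i = i₀
          · rw [hii, Function.update_self]
          · rw [Function.update_of_ne hii]
            exact h i (by
              rw [Finset.mem_insert]
              push Not
              exact ⟨hii, hi⟩)
        | succ a iha =>
          intro hpos
          have hpos0 : ∀ i, 0 < Function.update r' i₀ (a + 1) i := by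
            intro i
            by_cases hii : i = i₀
            · rw [hii, Function.update_self]
              omega
            · rw [Function.update_of_ne hii]
              exact hr' i
          have hpos1 : ∀ i, 0 < Function.update (Function.update r' i₀ (a + 1)) i₀ 1 i := by
            intro i
            by_cases hii : i = i₀
            · rw [hii, Function.update_self]
              omega
            · rw [Function.update_of_ne hii, Function.update_of_ne hii]
              exact hr' i
          have hpos2 : ∀ i, 0 < Function.update (Function.update r' i₀ (a + 1)) i₀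
              (Function.update r' i₀ (a + 1) i₀ + 1) i := by
            intro i
            by_cases hii : i = i₀
            · rw [hii, Function.update_self]
              omega
            · rw [Function.update_of_ne hii, Function.update_of_ne hii]
              exact hr' i
          have h2 := EvLem_step ζ (M := M) i₀ (Function.update r' i₀ (a + 1)) hpos0 hpos1 hpos2
            (by
              apply ih
              intro i hi
              by_cases hii : i = i₀
              · rw [hii, Function.update_self]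
              · rw [Function.update_of_ne hii, Function.update_of_ne hii]
                exact h i (by
                  rw [Finset.mem_insert]
                  push Not
                  exact ⟨hii, hi⟩)) (iha hpos0)
          have e1 : Function.update (Function.update r' i₀ (a + 1)) i₀
              (Function.update r' i₀ (a + 1) i₀ + 1) = Function.update r' i₀ (a + 1 + 1) := by
            rw [Function.update_idem, Function.update_self]
          have h3 : ∀ (s : ι → ℕ) (hs : ∀ i, 0 < s i), s = Function.update r' i₀ (a + 1 + 1) →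
              (ζ.pow s hs).EvGen M → (ζ.pow (Function.update r' i₀ (a + 1 + 1)) hpos).EvGen M := by
            rintro s hs rfl hh
            exact hh
          exact h3 _ _ e1 h2
      have e1 : Function.update r' i₀ (r' i₀ - 1 + 1) = r' := by
        have h4 : r' i₀ - 1 + 1 = r' i₀ := by
          have := hr' i₀
          omega
        rw [h4, Function.update_eq_self]
      have h3 : ∀ (s : ι → ℕ) (hs : ∀ i, 0 < s i), s = r' →
          (ζ.pow s hs).EvGen M → (ζ.pow r' hr').EvGen M := by
        rintro s hs rfl hh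
        exact hh
      exact h3 _ (by rw [e1]; exact hr') e1 (h1 (r' i₀ - 1) _)
  exact key Finset.univ r hr (fun i hi => absurd (Finset.mem_univ i) hi)

theorem Fam.evGen_sum_left {ι' : Type} (ζ : Fam k A ι) (ζ' : Fam k A ι') {M : ModuleCat.{u} A}
    (hM : ζ.EvGen M) : (ζ.sum ζ').EvGen M := by
  obtain ⟨N, hN⟩ := hM
  refine ⟨N, fun n hn => ?_⟩
  rw [eq_top_iff, ← hN n hn, Fam.gen_le_iff]
  intro i m e v
  exact (ζ.sum ζ').mem_gen (Sum.inl i) e v

theorem Fam.evGen_sum_right {ι' : Type} (ζ : Fam k A ι) (ζ' : Fam k A ι') {M : ModuleCat.{u} A}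
    (hM : ζ'.EvGen M) : (ζ.sum ζ').EvGen M := by
  obtain ⟨N, hN⟩ := hM
  refine ⟨N, fun n hn => ?_⟩
  rw [eq_top_iff, ← hN n hn, Fam.gen_le_iff]
  intro i m e v
  exact (ζ.sum ζ').mem_gen (Sum.inr i) e v

/-- More generally: if every member of `ζ` is a member of `ζ'`. -/
theorem Fam.evGen_mono {ι' : Type} (ζ : Fam k A ι) (ζ' : Fam k A ι') (f : ι → ι')
    (hd : ∀ i, ζ'.deg (f i) = ζ.deg i)
    (hc : ∀ i, (⟨_, ζ'.cls (f i)⟩ : Σ n, Ext (trivObj k A) (trivObj k A) n) =
      ⟨_, ζ.cls i⟩) {M : ModuleCat.{u} A} (hM : ζ.EvGen M) : ζ'.EvGen M := by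
  obtain ⟨N, hN⟩ := hM
  refine ⟨N, fun n hn => ?_⟩
  rw [eq_top_iff, ← hN n hn, Fam.gen_le_iff]
  intro i m e v
  have h1 : ∀ (x y : Σ n, Ext (trivObj k A) (trivObj k A) n), x = y →
      ∀ (e : x.1 + m = n) (e' : y.1 + m = n), x.2.comp v e = y.2.comp v e' := by
    rintro x y rfl e e'
    rfl
  have e' : ζ'.deg (f i) + m = n := by rw [hd]; exact e
  have h2 := h1 _ _ (hc i) e' e
  rw [← h2]
  exact ζ'.mem_gen (f i) e' v

/-- It is enough to have some finite index type. -/
theorem FGE.of_finite [Finite ι] (ζ : Fam k A ι)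
    (h : ∀ M : ModuleCat.{u} A, Module.Finite A M → ζ.EvGen M) : FGE k A := by
  obtain ⟨r, ⟨e⟩⟩ := Finite.exists_equiv_fin ι
  refine ⟨r, ζ.comap e.symm, fun M hM => ?_⟩
  refine Fam.evGen_mono ζ (ζ.comap e.symm) e (fun i => ?_) (fun i => ?_) (h M hM)
  · change ζ.deg (e.symm (e i)) = ζ.deg i
    rw [e.symm_apply_apply]
  · change (⟨_, ζ.cls (e.symm (e i))⟩ : Σ n, Ext (trivObj k A) (trivObj k A) n) = _
    rw [e.symm_apply_apply]

/-- Eventual generation by the empty family means vanishing in large degrees. -/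
theorem Fam.evGen_empty [IsEmpty ι] (ζ : Fam k A ι) {M : ModuleCat.{u} A} (hM : ζ.EvGen M) :
    ∃ N : ℕ, ∀ n, N ≤ n → ∀ x : Ext (trivObj k A) M n, x = 0 := by
  obtain ⟨N, hN⟩ := hM
  refine ⟨N, fun n hn x => ?_⟩
  have h1 : ζ.gen M n ≤ ⊥ := by
    rw [Fam.gen_le_iff]
    intro i
    exact isEmptyElim i
  rw [hN n hn] at h1
  exact (Submodule.mem_bot k).1 (h1 Submodule.mem_top)

/-- Modules whose cohomology vanishes in large degrees. -/
theorem Fam.evGen_of_vanish (ζ : Fam k A ι) {M : ModuleCat.{u} A}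
    (hM : ∃ N : ℕ, ∀ n, N ≤ n → ∀ x : Ext (trivObj k A) M n, x = 0) : ζ.EvGen M := by
  obtain ⟨N, hN⟩ := hM
  refine ⟨N, fun n hn => ?_⟩
  rw [eq_top_iff]
  intro x _
  rw [hN n hn x]
  exact Submodule.zero_mem _

end

end Pool.Agent.Helper90.FC
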