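import Pool.Agent.Helper90.FC.ClsT
import Pool.Agent.Helper90.FC.CobK
import Pool.Agent.Helper90.FC.EvLem

/-!
# Project FC, piece CHA: the sequence of iterated powers

`F → B → C` homomorphisms of bialgebras whose composite is trivial. `x` is an element of degree two
of the cobar algebra of `B` whose differential comes from an element `y` of the cobar algebra of
`C`. The restriction `x|F` is a cocycle. Then some `p^K`-th power of its class is the restriction of
a class of `B`.

`chain`: iterate the key lemma: `x_{m+1} = S^p 1` with `S = RR y_m + (x_m * ·)`,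
`y_{m+1} = (RR y_m)^(p-1) y_m`, computed in the cobar algebra of `C` (`mapT_RR`, `mapT_dd`,
`mapT_injective` as `HDmap π` is injective). For the restriction to `F`: `mapT (ι^*) (mapT (π^*) y)`
vanishes for a cocycle `y` of odd degree (`triv_odd`), so `S` restricts to multiplication.
`triv_pow`: the composite `HD C → HD B → HD F` is `a ↦ a(1) 1`, so an element of degree `n` goes to
a multiple of `(io 1)^n`; `dd ((io 1)^n) = (io 1)^(n+1)` for `n` odd and `0` for `n` even.

`transgress`: let `W n` be the subspace of `Ext_C^n(k, k)` of all `∑ e_j.comp (clsT y_j)`. By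
`FGE C` and `Fam.hilb` (for `M = k`), `W n` is generated by lower degrees for `n ≥ N`; take `K` with
`2 p^K + 1 ≥ N`: `clsT y_K = ∑_{j<K} e_j.comp (clsT y_j)`, `e_j = clsT w_j` (`clsT_surj`), so
`y_K = ∑ y_j w_j + dd u` (`clsT_mul`, `clsT_inj`), and
`η = x_K - ∑ x_j (mapT π^* w_j) - mapT π^* u` is a cocycle; its restriction to `F` is
`(x|F)^(p^K)` up to coboundaries (`w_j`, `u` have positive even degree, and
`(x|F)^(p^j) (io 1)^m` is a coboundary for `m` even, `m > 0`).
-/

set_option linter.unusedSectionVars false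
set_option autoImplicit false

open CategoryTheory CategoryTheory.Abelian CategoryTheory.Limits
open scoped ModuleCat TensorProduct
open Pool.Agent.Helper59.FG

namespace Pool.Agent.Helper90.FC

universe u

section

variable {k : Type u} [Field k] {F B C : Type u} [Ring F] [Ring B] [Ring C] [Bialgebra k F]
variable [Bialgebra k B] [Bialgebra k C] [Module.Finite k F] [Module.Finite k B]
  [Module.Finite k C]

/-- The image of an element of degree `n` under the composite is a multiple of `(io 1)^n`. -/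
theorem triv_pow (ι : F →ₐc[k] B) (π : B →ₐc[k] C)
    (hιπ : ∀ a : F, π (ι a) = algebraMap k C (Coalgebra.counit (R := k) a)) (n : ℕ)
    (w : TA k (HD k C)) (hw : w ∈ Tn k (HD k C) n) :
    ∃ c : k, mapT (HDmap ι : HD k B →ₗ[k] HD k F) (mapT (HDmap π : HD k C →ₗ[k] HD k B) w) =
      c • (io k (1 : HD k F)) ^ n := by
  set Φ : TA k (HD k C) →ₐ[k] TA k (HD k F) :=
    (mapT (HDmap ι : HD k B →ₗ[k] HD k F)).comp (mapT (HDmap π : HD k C →ₗ[k] HD k B)) with hΦ
  have h1 : Submodule.map Φ.toLinearMap (LinearMap.range (TensorAlgebra.ι k (M := HD k C))) ≤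
      Submodule.span k {io k (1 : HD k F)} := by
    rintro _ ⟨_, ⟨a, rfl⟩, rfl⟩
    rw [Submodule.mem_span_singleton]
    refine ⟨a.ofConv 1, ?_⟩
    have h2 : (HDmap ι (HDmap π a) : HD k F) = a.ofConv 1 • (1 : HD k F) := by
      apply WithConv.ofConv_injective
      ext f
      have h3 : (HDmap ι (HDmap π a) : HD k F).ofConv f = a.ofConv (π (ι f)) := rfl
      rw [h3, hιπ, Algebra.algebraMap_eq_smul_one, map_smul]
      simp [mul_comm]
    have h4 : Φ.toLinearMap (TensorAlgebra.ι k a) =
        io k (HDmap ι (HDmap π a) : HD k F) := by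
      simp only [hΦ, AlgHom.toLinearMap_apply, AlgHom.comp_apply, mapT_ι]
      rfl
    rw [h4, h2]
    simp [io]
  have h5 : Φ w ∈ Submodule.span k {(io k (1 : HD k F)) ^ n} := by
    have h6 : Φ w ∈ Submodule.map Φ.toLinearMap (Tn k (HD k C) n) := ⟨w, hw, rfl⟩
    rw [Submodule.map_pow] at h6
    have h8 : ∀ n : ℕ, (Submodule.map Φ.toLinearMap
        (LinearMap.range (TensorAlgebra.ι k (M := HD k C)))) ^ n ≤
        (Submodule.span k {io k (1 : HD k F)}) ^ n := by
      intro n
      induction n with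
      | zero => simp
      | succ n ih =>
        rw [Submodule.pow_succ, Submodule.pow_succ]
        exact mul_le_mul' ih h1
    have h7 := h8 n h6
    rwa [Submodule.span_pow, Set.singleton_pow] at h7
  obtain ⟨c, hc⟩ := Submodule.mem_span_singleton.1 h5
  exact ⟨c, hc.symm⟩

private theorem chain_dd_one (H : Type u) [Ring H] [Bialgebra k H] :
    dd k H (1 : TA k H) = 0 := by
  have h := dd_mul k H 1 1
  simpa using h

private theorem chain_RR_zero (H : Type u) [Ring H] [Bialgebra k H] : RR k H 0 = 0 := by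
  refine twDer_ext (AlgHom.id k (TA k H)) (AlgHom.id k (TA k H)) _ _ (RR_mul k H 0) ?_ ?_
  · intro w w'
    simp
  · intro a
    rw [RR_io]
    simp [actT]

theorem dd_one_pow (H : Type u) [Ring H] [Bialgebra k H] (n : ℕ) :
    dd k H ((io k (1 : H)) ^ n) = if Odd n then (io k (1 : H)) ^ (n + 1) else 0 := by
  have h1 : dd k H (io k (1 : H)) = (io k (1 : H)) ^ 2 := by
    rw [dd_io]
    have : DelT k H (1 : H) = io k 1 * io k 1 := by
      simp [DelT, Algebra.TensorProduct.one_def, io]
    rw [this, sq]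
    abel
  induction n with
  | zero => simp [chain_dd_one]
  | succ n ih =>
    rw [pow_succ', dd_mul, ih, sg_io, h1]
    by_cases hn : Odd n
    · rw [if_pos hn, if_neg (by rw [Nat.not_odd_iff_even]; exact hn.add_one)]
      rw [neg_mul, ← pow_succ', ← pow_add, neg_add_eq_zero]
      congr 1
      omega
    · rw [if_neg hn, if_pos (Even.add_one (Nat.not_odd_iff_even.1 hn)), mul_zero, zero_add,
        ← pow_add]
      congr 1
      omega

/-- For cocycles of odd degree the composite vanishes. -/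
theorem triv_odd [Nontrivial F] (ι : F →ₐc[k] B) (π : B →ₐc[k] C)
    (hιπ : ∀ a : F, π (ι a) = algebraMap k C (Coalgebra.counit (R := k) a)) (n : ℕ) (hn : Odd n)
    (w : TA k (HD k C)) (hw : w ∈ Tn k (HD k C) n) (hd : dd k (HD k C) w = 0) :
    mapT (HDmap ι : HD k B →ₗ[k] HD k F) (mapT (HDmap π : HD k C →ₗ[k] HD k B) w) = 0 := by
  obtain ⟨c, hc⟩ := triv_pow ι π hιπ n w hw
  have h1 : dd k (HD k F) (mapT (HDmap ι : HD k B →ₗ[k] HD k F)
      (mapT (HDmap π : HD k C →ₗ[k] HD k B) w)) = 0 := by
    rw [← mapT_dd, ← mapT_dd, hd, map_zero, map_zero]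
  rw [hc, map_smul, dd_one_pow, if_pos hn] at h1
  have h2 : c = 0 := by
    let ev : TA k (HD k F) →ₐ[k] k := TensorAlgebra.lift k (evA k (1 : F))
    have h3 := congrArg ev h1
    rw [map_smul, map_pow, map_zero] at h3
    have h4 : ev (io k (1 : HD k F)) = 1 := by
      have h5 : ev (io k (1 : HD k F)) = evA k (1 : F) (1 : HD k F) := by
        simp [ev, io]
      rw [h5]
      have h6 : evA k (1 : F) (1 : HD k F) = (1 : HD k F).ofConv 1 := rfl
      rw [h6]
      simp
    rw [h4, one_pow, smul_eq_mul, mul_one] at h3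
    exact h3
  rw [hc, h2, zero_smul]

theorem chain (p : ℕ) [Fact p.Prime] [CharP k p] [Nontrivial F] (ι : F →ₐc[k] B)
    (π : B →ₐc[k] C) (hπ : Function.Surjective π)
    (hιπ : ∀ a : F, π (ι a) = algebraMap k C (Coalgebra.counit (R := k) a))
    (x : TA k (HD k B)) (hx : x ∈ Tn k (HD k B) 2) (y : TA k (HD k C))
    (hy : y ∈ Tn k (HD k C) 3)
    (hxy : dd k (HD k B) x = mapT (HDmap π : HD k C →ₗ[k] HD k B) y) (m : ℕ) :
    ∃ (x' : TA k (HD k B)) (y' : TA k (HD k C)), x' ∈ Tn k (HD k B) (2 * p ^ m) ∧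
      y' ∈ Tn k (HD k C) (2 * p ^ m + 1) ∧ dd k (HD k C) y' = 0 ∧
      dd k (HD k B) x' = mapT (HDmap π : HD k C →ₗ[k] HD k B) y' ∧
      mapT (HDmap ι : HD k B →ₗ[k] HD k F) x' =
        (mapT (HDmap ι : HD k B →ₗ[k] HD k F) x) ^ (p ^ m) := by
  have hp : 1 ≤ p := (Fact.out : p.Prime).one_lt.le
  have hinj : Function.Injective (HDmap π : HD k C →ₗ[k] HD k B) := by
    intro a b hab
    apply WithConv.ofConv_injective
    ext c
    obtain ⟨b', rfl⟩ := hπ c
    exact congrArg (fun h : HD k B => h.ofConv b') hab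
  have hdy : ∀ (v : TA k (HD k B)) (z : TA k (HD k C)),
      dd k (HD k B) v = mapT (HDmap π : HD k C →ₗ[k] HD k B) z → dd k (HD k C) z = 0 := by
    intro v z h
    apply mapT_injective _ hinj
    rw [mapT_dd, ← h, dd_dd, map_zero]
  induction m with
  | zero =>
    refine ⟨x, y, by simpa using hx, by simpa using hy, hdy x y hxy, hxy, by simp⟩
  | succ m ih =>
    obtain ⟨X, Y, hX, hY, hY0, hXY, hXF⟩ := ih
    set Z := mapT (HDmap π : HD k C →ₗ[k] HD k B) Y with hZ
    have hZmem : Z ∈ Tn k (HD k B) (2 * p ^ m + 1) := mapT_pow _ _ _ hY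
    have hsX : sg k (HD k B) X = X := by
      rw [sg_Tn k (HD k B) (2 * p ^ m) X hX, pow_mul]
      simp
    have hkey := key_lemma k (HD k B) p X Z hsX hXY
    have hRRj : ∀ j : ℕ, mapT (HDmap π : HD k C →ₗ[k] HD k B) (((RR k (HD k C) Y) ^ j) Y) =
        ((RR k (HD k B) Z) ^ j) Z := by
      intro j
      induction j with
      | zero => simp [hZ]
      | succ j ihj =>
        rw [pow_succ', pow_succ', Module.End.mul_apply, Module.End.mul_apply, mapT_RR, ihj]
    have hdeg : ∀ j : ℕ, ((SS k (HD k B) X Z) ^ j) 1 ∈ Tn k (HD k B) (j * (2 * p ^ m)) := by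
      intro j
      induction j with
      | zero => simp [Tn]
      | succ j ihj =>
        rw [pow_succ', Module.End.mul_apply]
        have e1 : SS k (HD k B) X Z (((SS k (HD k B) X Z) ^ j) 1) =
            RR k (HD k B) Z (((SS k (HD k B) X Z) ^ j) 1) + X * (((SS k (HD k B) X Z) ^ j) 1) := by
          rfl
        rw [e1]
        refine Submodule.add_mem _ ?_ ?_
        · have := RR_Tn k (HD k B) (2 * p ^ m) (j * (2 * p ^ m)) Z _ hZmem ihj
          have e2 : (j + 1) * (2 * p ^ m) = j * (2 * p ^ m) + 2 * p ^ m := by ring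
          rw [e2]
          exact this
        · have e2 : (j + 1) * (2 * p ^ m) = 2 * p ^ m + j * (2 * p ^ m) := by ring
          rw [e2]
          show X * _ ∈ LinearMap.range (TensorAlgebra.ι k (M := HD k B)) ^ _
          rw [pow_add]
          exact Submodule.mul_mem_mul hX ihj
    have hdegy : ∀ j : ℕ, ((RR k (HD k C) Y) ^ j) Y ∈
        Tn k (HD k C) (j * (2 * p ^ m) + (2 * p ^ m + 1)) := by
      intro j
      induction j with
      | zero => simpa using hY
      | succ j ihj =>
        rw [pow_succ', Module.End.mul_apply]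
        have := RR_Tn k (HD k C) (2 * p ^ m) _ Y _ hY ihj
        have e2 : (j + 1) * (2 * p ^ m) + (2 * p ^ m + 1) =
            j * (2 * p ^ m) + (2 * p ^ m + 1) + 2 * p ^ m := by ring
        rw [e2]
        exact this
    have hFZ : mapT (HDmap ι : HD k B →ₗ[k] HD k F) Z = 0 :=
      triv_odd ι π hιπ (2 * p ^ m + 1) ⟨p ^ m, rfl⟩ Y hY hY0
    have hres : ∀ j : ℕ, mapT (HDmap ι : HD k B →ₗ[k] HD k F) (((SS k (HD k B) X Z) ^ j) 1) =
        (mapT (HDmap ι : HD k B →ₗ[k] HD k F) X) ^ j := by
      intro j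
      induction j with
      | zero => simp
      | succ j ihj =>
        rw [pow_succ', Module.End.mul_apply]
        have e1 : SS k (HD k B) X Z (((SS k (HD k B) X Z) ^ j) 1) =
            RR k (HD k B) Z (((SS k (HD k B) X Z) ^ j) 1) + X * (((SS k (HD k B) X Z) ^ j) 1) := by
          rfl
        rw [e1, map_add, mapT_RR, hFZ, chain_RR_zero, map_mul, ihj, pow_succ']
        simp
    have hd1 : dd k (HD k B) (((SS k (HD k B) X Z) ^ p) 1) =
        mapT (HDmap π : HD k C →ₗ[k] HD k B) (((RR k (HD k C) Y) ^ (p - 1)) Y) := by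
      rw [hRRj]
      exact hkey
    refine ⟨((SS k (HD k B) X Z) ^ p) 1, ((RR k (HD k C) Y) ^ (p - 1)) Y, ?_, ?_, ?_, hd1, ?_⟩
    · have := hdeg p
      have e2 : 2 * p ^ (m + 1) = p * (2 * p ^ m) := by ring
      rw [e2]
      exact this
    · have := hdegy (p - 1)
      have e2 : 2 * p ^ (m + 1) + 1 = (p - 1) * (2 * p ^ m) + (2 * p ^ m + 1) := by
        obtain ⟨q, rfl⟩ : ∃ q, p = q + 1 := ⟨p - 1, by omega⟩
        rw [Nat.add_sub_cancel]
        ring
      rw [e2]
      exact this
    · exact hdy _ _ hd1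
    · rw [hres, hXF, ← pow_mul, ← pow_succ]

end

end Pool.Agent.Helper90.FC
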