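import Pool.Agent.Helper90.FC.ClsT

/-!
# Project FC, piece VAL: values of cochains of degrees two and three
-/

set_option linter.unusedSectionVars false
set_option autoImplicit false

open CategoryTheory CategoryTheory.Abelian CategoryTheory.Limits
open scoped ModuleCat TensorProduct
open Pool.Agent.Helper59.FG

namespace Pool.Agent.Helper90.FC

universe u

section

variable {k : Type u} [Field k]

/-- The value at `(b₁, b₂)` of a cochain of degree two with trivial coefficients. -/
noncomputable def val2 {A : Type u} [Ring A] [Bialgebra k A] (z : Cn k 2 (trivObj k A)) (b₁ b₂ : A) : k :=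
  (show k from (fn k (fn k (show IM k (IM k (trivObj k A)) from z) b₂) b₁ : trivObj k A))

/-- The value at `(b₁, b₂, b₃)` of a cochain of degree three with trivial coefficients. -/
noncomputable def val3 {A : Type u} [Ring A] [Bialgebra k A] (z : Cn k 3 (trivObj k A)) (b₁ b₂ b₃ : A) : k :=
  (show k from (fn k (fn k (fn k (show IM k (IM k (IM k (trivObj k A))) from z) b₃) b₂) b₁ :
    trivObj k A))

private theorem val_smulA {A : Type u} [Ring A] [Bialgebra k A] (a : A) (m : trivObj k A) :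
    (show k from (a • m : trivObj k A)) = Coalgebra.counit (R := k) a * (show k from m) := rfl

private theorem val_smulK {A : Type u} [Ring A] [Bialgebra k A] (c : k) (m : trivObj k A) :
    (show k from (c • m : trivObj k A)) = c * (show k from m) := by
  have h : (show k from (c • m : trivObj k A)) =
      Coalgebra.counit (R := k) (algebraMap k A c) * (show k from m) := rfl
  rw [h, Bialgebra.counit_algebraMap]

/-- The differential of a cochain of degree two. -/
theorem val3_dC {A : Type u} [Ring A] [Bialgebra k A] (z : Cn k 2 (trivObj k A)) (b₁ b₂ b₃ : A) :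
    val3 (dC k 2 (trivObj k A) z) b₁ b₂ b₃ =
      Coalgebra.counit (R := k) b₁ * val2 z b₂ b₃ - val2 z (b₁ * b₂) b₃ + val2 z b₁ (b₂ * b₃) -
        val2 z b₁ b₂ * Coalgebra.counit (R := k) b₃ := by
  have h1 : val3 (dC k 2 (trivObj k A) z) b₁ b₂ b₃ =
      (show k from (b₁ • (fn k (fn k (show IM k (IM k (trivObj k A)) from z) b₃) b₂ :
        trivObj k A) : trivObj k A)) -
      ((show k from (fn k (fn k (show IM k (IM k (trivObj k A)) from z) b₃) (b₁ * b₂) :
        trivObj k A)) -
      ((show k from (fn k (fn k (show IM k (IM k (trivObj k A)) from z) (b₂ * b₃)) b₁ :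
        trivObj k A)) -
      (show k from (fn k (fn k (Coalgebra.counit (R := k) b₃ •
        (show IM k (IM k (trivObj k A)) from z)) b₂) b₁ : trivObj k A)))) := rfl
  rw [h1, fn_ksmul, fn_ksmul, val_smulA, val_smulK]
  unfold val2
  ring

private noncomputable def val0 {A : Type u} [Ring A] [Bialgebra k A]
    (z : Cn k 0 (trivObj k A)) : k := (show k from z)

private noncomputable def val1 {A : Type u} [Ring A] [Bialgebra k A]
    (z : Cn k 1 (trivObj k A)) (b : A) : k :=
  (show k from (fn k (show IM k (trivObj k A) from z) b : trivObj k A))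

private theorem val1_ap {A : Type u} [Ring A] [Bialgebra k A] (a : HD k A)
    (z : Cn k 0 (trivObj k A)) (b : A) :
    val1 (ap k 0 (trivObj k A) a z) b = a.ofConv b * val0 z := by
  have h : val1 (ap k 0 (trivObj k A) a z) b =
    (show k from (a.ofConv b • (show trivObj k A from z) : trivObj k A)) := rfl
  rw [h, val_smulK]
  rfl

private theorem val2_ap {A : Type u} [Ring A] [Bialgebra k A] (a : HD k A)
    (z : Cn k 1 (trivObj k A)) (b₁ b₂ : A) :
    val2 (ap k 1 (trivObj k A) a z) b₁ b₂ = a.ofConv b₂ * val1 z b₁ := by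
  have h : val2 (ap k 1 (trivObj k A) a z) b₁ b₂ =
    (show k from (fn k (a.ofConv b₂ • (show IM k (trivObj k A) from z)) b₁ :
      trivObj k A)) := rfl
  rw [h, fn_ksmul, val_smulK]
  rfl

private theorem val3_ap {A : Type u} [Ring A] [Bialgebra k A] (a : HD k A)
    (z : Cn k 2 (trivObj k A)) (b₁ b₂ b₃ : A) :
    val3 (ap k 2 (trivObj k A) a z) b₁ b₂ b₃ = a.ofConv b₃ * val2 z b₁ b₂ := by
  have h : val3 (ap k 2 (trivObj k A) a z) b₁ b₂ b₃ =
    (show k from (fn k (fn k (a.ofConv b₃ • (show IM k (IM k (trivObj k A)) from z)) b₂) b₁ :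
      trivObj k A)) := rfl
  rw [h, fn_ksmul, fn_ksmul, val_smulK]
  rfl

private theorem val0_smul {A : Type u} [Ring A] [Bialgebra k A] (c : k)
    (z : Cn k 0 (trivObj k A)) : val0 (c • z) = c * val0 z := val_smulK c _

private theorem val1_smul {A : Type u} [Ring A] [Bialgebra k A] (c : k)
    (z : Cn k 1 (trivObj k A)) (b : A) : val1 (c • z) b = c * val1 z b := by
  have h : val1 (c • z) b = (show k from (fn k (c • (show IM k (trivObj k A) from z)) b :
      trivObj k A)) := rfl
  rw [h, fn_ksmul, val_smulK]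
  rfl

private theorem val2_smul {A : Type u} [Ring A] [Bialgebra k A] (c : k)
    (z : Cn k 2 (trivObj k A)) (b₁ b₂ : A) : val2 (c • z) b₁ b₂ = c * val2 z b₁ b₂ := by
  have h : val2 (c • z) b₁ b₂ =
    (show k from (fn k (fn k (c • (show IM k (IM k (trivObj k A)) from z)) b₂) b₁ :
      trivObj k A)) := rfl
  rw [h, fn_ksmul, fn_ksmul, val_smulK]
  rfl

private theorem val3_smul {A : Type u} [Ring A] [Bialgebra k A] (c : k)
    (z : Cn k 3 (trivObj k A)) (b₁ b₂ b₃ : A) :
    val3 (c • z) b₁ b₂ b₃ = c * val3 z b₁ b₂ b₃ := by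
  have h : val3 (c • z) b₁ b₂ b₃ =
    (show k from (fn k (fn k (fn k (c • (show IM k (IM k (IM k (trivObj k A))) from z)) b₃) b₂)
      b₁ : trivObj k A)) := rfl
  rw [h, fn_ksmul, fn_ksmul, fn_ksmul, val_smulK]
  rfl

private theorem evn_succ {A : Type u} [Ring A] [Bialgebra k A] (n : ℕ)
    (v : TensorAlgebra k (HD k A)) (a : HD k A) : evn k (n + 1) (v * TensorAlgebra.ι k a) = ap k n (trivObj k A) a (evn k n v) := by
  have h : evn k (n + 1) (v * TensorAlgebra.ι k a) =
    rmul k (one0 k A) (v * TensorAlgebra.ι k a) (n + 1) := rfl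
  rw [h, rmul_mul, rmul_io]
  rfl

private theorem evn_zero {A : Type u} [Ring A] [Bialgebra k A]
    (v : TensorAlgebra k (HD k A)) (a : HD k A) : evn k 0 (v * TensorAlgebra.ι k a) = 0 := by
  have h : evn k 0 (v * TensorAlgebra.ι k a) =
    rmul k (one0 k A) (v * TensorAlgebra.ι k a) 0 := rfl
  rw [h, rmul_mul, rmul_io]
  rfl

/-- The compatibility in degrees at most three. -/
private def PV {A A' : Type u} [Ring A] [Ring A'] [Bialgebra k A] [Bialgebra k A']
    [Module.Finite k A] [Module.Finite k A'] (φ : A →ₐc[k] A') (v : TA k (HD k A')) : Prop :=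
  val0 (evn k 0 (mapT (HDmap φ : HD k A' →ₗ[k] HD k A) v)) = val0 (evn k 0 v) ∧
  (∀ b, val1 (evn k 1 (mapT (HDmap φ : HD k A' →ₗ[k] HD k A) v)) b =
    val1 (evn k 1 v) (φ b)) ∧
  (∀ b₁ b₂, val2 (evn k 2 (mapT (HDmap φ : HD k A' →ₗ[k] HD k A) v)) b₁ b₂ =
    val2 (evn k 2 v) (φ b₁) (φ b₂)) ∧
  (∀ b₁ b₂ b₃, val3 (evn k 3 (mapT (HDmap φ : HD k A' →ₗ[k] HD k A) v)) b₁ b₂ b₃ =
    val3 (evn k 3 v) (φ b₁) (φ b₂) (φ b₃))

private theorem PV_smul {A A' : Type u} [Ring A] [Ring A'] [Bialgebra k A] [Bialgebra k A']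
    [Module.Finite k A] [Module.Finite k A'] (φ : A →ₐc[k] A') (c : k) {v : TA k (HD k A')}
    (h : PV φ v) : PV φ (c • v) := by
  obtain ⟨h0, h1, h2, h3⟩ := h
  refine ⟨?_, fun b => ?_, fun b₁ b₂ => ?_, fun b₁ b₂ b₃ => ?_⟩
  · rw [map_smul, map_smul, map_smul, val0_smul, val0_smul, h0]
  · rw [map_smul, map_smul, map_smul, val1_smul, val1_smul, h1]
  · rw [map_smul, map_smul, map_smul, val2_smul, val2_smul, h2]
  · rw [map_smul, map_smul, map_smul, val3_smul, val3_smul, h3]

private theorem PV_add {A A' : Type u} [Ring A] [Ring A'] [Bialgebra k A] [Bialgebra k A']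
    [Module.Finite k A] [Module.Finite k A'] (φ : A →ₐc[k] A') {v w : TA k (HD k A')}
    (h : PV φ v) (h' : PV φ w) : PV φ (v + w) := by
  obtain ⟨h0, h1, h2, h3⟩ := h
  obtain ⟨h0', h1', h2', h3'⟩ := h'
  refine ⟨?_, fun b => ?_, fun b₁ b₂ => ?_, fun b₁ b₂ b₃ => ?_⟩
  · rw [map_add, map_add, map_add]
    exact congrArg₂ (fun x y : k => x + y) h0 h0'
  · rw [map_add, map_add, map_add]
    exact congrArg₂ (fun x y : k => x + y) (h1 b) (h1' b)
  · rw [map_add, map_add, map_add]
    exact congrArg₂ (fun x y : k => x + y) (h2 b₁ b₂) (h2' b₁ b₂)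
  · rw [map_add, map_add, map_add]
    exact congrArg₂ (fun x y : k => x + y) (h3 b₁ b₂ b₃) (h3' b₁ b₂ b₃)

private theorem PV_io {A A' : Type u} [Ring A] [Ring A'] [Bialgebra k A] [Bialgebra k A']
    [Module.Finite k A] [Module.Finite k A'] (φ : A →ₐc[k] A') (a : HD k A')
    {v : TA k (HD k A')} (h : PV φ v) : PV φ (v * TensorAlgebra.ι k a) := by
  obtain ⟨h0, h1, h2, h3⟩ := h
  have hm : mapT (HDmap φ : HD k A' →ₗ[k] HD k A) (v * TensorAlgebra.ι k a) =
      mapT (HDmap φ : HD k A' →ₗ[k] HD k A) v *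
        TensorAlgebra.ι k ((HDmap φ : HD k A' →ₗ[k] HD k A) a) := by
    rw [map_mul, mapT_ι]
  refine ⟨?_, fun b => ?_, fun b₁ b₂ => ?_, fun b₁ b₂ b₃ => ?_⟩
  · rw [hm, evn_zero, evn_zero]
    rfl
  · rw [hm, evn_succ, evn_succ, val1_ap, val1_ap, h0]
    rfl
  · rw [hm, evn_succ, evn_succ, val2_ap, val2_ap, h1]
    rfl
  · rw [hm, evn_succ, evn_succ, val3_ap, val3_ap, h2]
    rfl

private theorem PV_one {A A' : Type u} [Ring A] [Ring A'] [Bialgebra k A] [Bialgebra k A']
    [Module.Finite k A] [Module.Finite k A'] (φ : A →ₐc[k] A') :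
    PV φ (1 : TA k (HD k A')) := by
  have e : ∀ (B : Type u) [Ring B] [Bialgebra k B] (n : ℕ),
      evn k n (1 : TensorAlgebra k (HD k B)) = one0 k B n := by
    intro B _ _ n
    have h : evn k n (1 : TensorAlgebra k (HD k B)) = rmul k (one0 k B) 1 n := rfl
    rw [h, rmul_one]
  refine ⟨?_, fun b => ?_, fun b₁ b₂ => ?_, fun b₁ b₂ b₃ => ?_⟩
  · rw [map_one, e, e]
    rfl
  · rw [map_one, e, e]
    rfl
  · rw [map_one, e, e]
    rfl
  · rw [map_one, e, e]
    rfl

private theorem PV_all {A A' : Type u} [Ring A] [Ring A'] [Bialgebra k A] [Bialgebra k A']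
    [Module.Finite k A] [Module.Finite k A'] (φ : A →ₐc[k] A') (w : TA k (HD k A')) :
    PV φ w := by
  have h : ∀ v, PV φ v → PV φ (v * w) := by
    induction w using TensorAlgebra.induction with
    | algebraMap r =>
      intro v hv
      rw [← Algebra.commutes, ← Algebra.smul_def]
      exact PV_smul φ r hv
    | ι a =>
      intro v hv
      exact PV_io φ a hv
    | mul a b iha ihb =>
      intro v hv
      rw [← mul_assoc]
      exact ihb _ (iha v hv)
    | add a b iha ihb =>
      intro v hv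
      rw [mul_add]
      exact PV_add φ (iha v hv) (ihb v hv)
  have h1 := h 1 (PV_one φ)
  rwa [one_mul] at h1

/-- Naturality of the values. -/
theorem val2_mapT {A A' : Type u} [Ring A] [Ring A'] [Bialgebra k A] [Bialgebra k A']
    [Module.Finite k A] [Module.Finite k A'] (φ : A →ₐc[k] A') (w : TA k (HD k A')) (b₁ b₂ : A) :
    val2 (evn k 2 (mapT (HDmap φ : HD k A' →ₗ[k] HD k A) w)) b₁ b₂ =
      val2 (evn k 2 w) (φ b₁) (φ b₂) := (PV_all φ w).2.2.1 b₁ b₂

theorem val3_mapT {A A' : Type u} [Ring A] [Ring A'] [Bialgebra k A] [Bialgebra k A']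
    [Module.Finite k A] [Module.Finite k A'] (φ : A →ₐc[k] A') (w : TA k (HD k A'))
    (b₁ b₂ b₃ : A) :
    val3 (evn k 3 (mapT (HDmap φ : HD k A' →ₗ[k] HD k A) w)) b₁ b₂ b₃ =
      val3 (evn k 3 w) (φ b₁) (φ b₂) (φ b₃) := (PV_all φ w).2.2.2 b₁ b₂ b₃

end

end Pool.Agent.Helper90.FC
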