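import Pool.Agent.Helper90.FC.Infl

/-!
# Project FC, piece SEC: `B` is free over a local central Hopf subalgebra
-/

set_option linter.unusedSectionVars false
set_option autoImplicit false

open CategoryTheory CategoryTheory.Abelian CategoryTheory.Limits
open scoped ModuleCat TensorProduct
open Pool.Agent.Helper59.FG

namespace Pool.Agent.Helper90.FC

universe u

section

variable {k : Type u} [Field k] {F B C : Type u} [Ring F] [Ring B] [Ring C] [HopfAlgebra k F]
variable [HopfAlgebra k B] [HopfAlgebra k C]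

/-- The map `f ⊗ c ↦ ι f * s c`. -/
noncomputable def fsMap (ι : F →ₐc[k] B) (s : C →ₗ[k] B) : F ⊗[k] C →ₗ[k] B :=
  TensorProduct.lift ((LinearMap.mul k B).compl₁₂ ((ι : F →ₐ[k] B).toLinearMap) s)

/-- A linear section of `π` which makes `B` free over `F`. -/
structure Sect (ι : F →ₐc[k] B) (π : B →ₐc[k] C) where
  s : C →ₗ[k] B
  sec : ∀ c, π (s c) = c
  one : s 1 = 1
  bij : Function.Bijective (fsMap ι s)

private theorem Sect_fs (ι : F →ₐc[k] B) (s : C →ₗ[k] B) (f : F) (c : C) :
    fsMap ι s (f ⊗ₜ[k] c) = ι f * s c := by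
  simp [fsMap]

/-- Existence of a normalised linear section. -/
private theorem Sect_lin (π : B →ₐc[k] C) (hπ : Function.Surjective π) :
    ∃ s : C →ₗ[k] B, (∀ c, π (s c) = c) ∧ s 1 = 1 := by
  obtain ⟨s0, hs0⟩ := ((π : B →ₐ[k] C).toLinearMap).exists_rightInverse_of_surjective
    (LinearMap.range_eq_top.2 hπ)
  have h0 : ∀ c, π (s0 c) = c := fun c => LinearMap.congr_fun hs0 c
  refine ⟨s0 + (LinearMap.toSpanSingleton k B (1 - s0 1)) ∘ₗ (Coalgebra.counit (R := k)), ?_, ?_⟩
  · intro c
    rw [LinearMap.add_apply, map_add, h0, LinearMap.comp_apply,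
      LinearMap.toSpanSingleton_apply, map_smul, map_sub, h0, map_one, sub_self, smul_zero,
      add_zero]
  · rw [LinearMap.add_apply, LinearMap.comp_apply, LinearMap.toSpanSingleton_apply,
      Bialgebra.counit_one, one_smul, add_sub_cancel]

/-- The span of the products of `n` elements of the augmentation ideal of `F` and an element of
`B`. -/
private def SectP (ι : F →ₐc[k] B) (n : ℕ) : Submodule k B :=
  Submodule.span k {x | ∃ (l : List F) (b : B), l.length = n ∧
    (∀ a ∈ l, Coalgebra.counit (R := k) a = 0) ∧ ι l.prod * b = x}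

private theorem Sect_mul (ι : F →ₐc[k] B) (hc : ∀ (a : F) (b : B), ι a * b = b * ι a) (n : ℕ)
    (b x : B) (hx : x ∈ SectP ι n) : b * x ∈ SectP ι n := by
  refine Submodule.span_induction (p := fun x _ => b * x ∈ SectP ι n) ?_ ?_ ?_ ?_ hx
  · rintro _ ⟨l, b', hl, hl0, rfl⟩
    refine Submodule.subset_span ⟨l, b * b', hl, hl0, ?_⟩
    rw [← mul_assoc, hc, mul_assoc]
  · rw [mul_zero]
    exact zero_mem _
  · intro x y _ _ hx hy
    rw [mul_add]
    exact add_mem hx hy
  · intro c x _ hx
    rw [mul_smul_comm]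
    exact Submodule.smul_mem _ _ hx

private theorem Sect_step (ι : F →ₐc[k] B) (π : B →ₐc[k] C) (hex : CentralExact k ι π)
    (s : C →ₗ[k] B) (hs : ∀ c, π (s c) = c) (n : ℕ) :
    SectP ι n ≤ LinearMap.range (fsMap ι s) ⊔ SectP ι (n + 1) := by
  refine Submodule.span_le.2 ?_
  rintro _ ⟨l, b, hl, hl0, rfl⟩
  have h1 : π (b - s (π b)) = 0 := by rw [map_sub, hs, sub_self]
  have h2 := (hex.ker _).1 h1
  have h3 : ∀ x ∈ Ideal.span (ι '' {a : F | Coalgebra.counit (R := k) a = 0}),
      ι l.prod * x ∈ SectP ι (n + 1) := by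
    intro x hx
    refine Submodule.span_induction (p := fun x _ => ι l.prod * x ∈ SectP ι (n + 1)) ?_ ?_ ?_ ?_
      hx
    · rintro _ ⟨a, ha, rfl⟩
      refine Submodule.subset_span ⟨l ++ [a], 1, by simp [hl], ?_, ?_⟩
      · intro c hc
        rcases List.mem_append.1 hc with h | h
        · exact hl0 c h
        · rw [List.mem_singleton.1 h]
          exact ha
      · rw [List.prod_append, List.prod_singleton, map_mul, mul_one]
    · rw [mul_zero]
      exact zero_mem _
    · intro x y _ _ hx hy
      rw [mul_add]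
      exact add_mem hx hy
    · intro c x _ hx
      have h5 : ι l.prod * (c • x) = c * (ι l.prod * x) := by
        rw [smul_eq_mul, ← mul_assoc, hex.central, mul_assoc]
      rw [h5]
      exact Sect_mul ι hex.central _ _ _ hx
  have h4 : ι l.prod * b = fsMap ι s (l.prod ⊗ₜ[k] π b) + ι l.prod * (b - s (π b)) := by
    rw [Sect_fs, ← mul_add, add_sub_cancel]
  change ι l.prod * b ∈ _
  rw [h4]
  exact Submodule.add_mem_sup (LinearMap.mem_range_self _ _) (h3 _ h2)

private theorem Sect_surj (ι : F →ₐc[k] B) (π : B →ₐc[k] C) (hex : CentralExact k ι π)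
    (hF : AugNil k F) (s : C →ₗ[k] B) (hs : ∀ c, π (s c) = c) :
    Function.Surjective (fsMap ι s) := by
  have h0 : ∀ n, (⊤ : Submodule k B) ≤ LinearMap.range (fsMap ι s) ⊔ SectP ι n := by
    intro n
    induction n with
    | zero =>
      intro b _
      refine Submodule.mem_sup_right (Submodule.subset_span ⟨[], b, rfl, by simp, ?_⟩)
      rw [List.prod_nil, map_one, one_mul]
    | succ n ih =>
      refine ih.trans (sup_le le_sup_left (Sect_step ι π hex s hs n))
  obtain ⟨N, hN⟩ := hF
  have h1 : SectP ι N = ⊥ := by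
    rw [eq_bot_iff]
    refine Submodule.span_le.2 ?_
    rintro _ ⟨l, b, hl, hl0, rfl⟩
    rw [hN l hl hl0, map_zero, zero_mul]
    exact zero_mem _
  have h2 := h0 N
  rw [h1, sup_bot_eq] at h2
  exact LinearMap.range_eq_top.1 (top_le_iff.1 h2)

/-- The algebra map `(id ⊗ π) Δ`. -/
private noncomputable def SectR (π : B →ₐc[k] C) : B →ₐ[k] B ⊗[k] C :=
  (Algebra.TensorProduct.map (AlgHom.id k B) (π : B →ₐ[k] C)).comp (Bialgebra.comulAlgHom k B)

private theorem SectR_apply (π : B →ₐc[k] C) (b : B) :
    SectR π b = (TensorProduct.map LinearMap.id (π : B →ₐ[k] C).toLinearMap)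
      (Coalgebra.comul (R := k) b) := rfl

private theorem SectR_iota (ι : F →ₐc[k] B) (π : B →ₐc[k] C) (hex : CentralExact k ι π) (f : F) :
    SectR π (ι f) = ι f ⊗ₜ[k] 1 := by
  have hπι : ∀ f : F, π (ι f) = algebraMap k C (Coalgebra.counit (R := k) f) := by
    intro f
    have h1 : π (ι (f - algebraMap k F (Coalgebra.counit (R := k) f))) = 0 := by
      refine (hex.ker _).2 (Ideal.subset_span ⟨_, ?_, rfl⟩)
      change Coalgebra.counit (R := k) _ = 0
      rw [map_sub, Bialgebra.counit_algebraMap, sub_self]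
    rw [map_sub, map_sub, sub_eq_zero] at h1
    rw [h1, AlgHomClass.commutes ι, AlgHomClass.commutes π]
  have h2 : Coalgebra.comul (R := k) (ι f) = TensorProduct.map (ι : F →ₐ[k] B).toLinearMap
      (ι : F →ₐ[k] B).toLinearMap (Coalgebra.comul (R := k) f) :=
    (CoalgHomClass.map_comp_comul_apply ι f).symm
  rw [SectR_apply, h2]
  have h3 : ∀ z : F ⊗[k] F, (TensorProduct.map LinearMap.id (π : B →ₐ[k] C).toLinearMap)
      (TensorProduct.map (ι : F →ₐ[k] B).toLinearMap (ι : F →ₐ[k] B).toLinearMap z) =
      TensorProduct.map (ι : F →ₐ[k] B).toLinearMap (Algebra.linearMap k C)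
        ((Coalgebra.counit (R := k) (A := F)).lTensor F z) := by
    intro z
    induction z using TensorProduct.induction_on with
    | zero => simp
    | add x y hx hy => simp only [map_add, hx, hy]
    | tmul x y =>
      simp only [TensorProduct.map_tmul, LinearMap.lTensor_tmul, LinearMap.id_apply]
      congr 1
      exact hπι y
  rw [h3]
  have h4 := LinearMap.congr_fun (Coalgebra.lTensor_counit_comp_comul (R := k) (A := F)) f
  rw [LinearMap.comp_apply] at h4
  rw [h4]
  simp

/-- The map `b ⊗ b' ↦ (b ⊗ 1) (id ⊗ π) Δ b'`. -/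
private noncomputable def SectPsi (π : B →ₐc[k] C) : B ⊗[k] B →ₗ[k] B ⊗[k] C :=
  TensorProduct.lift ((LinearMap.mul k (B ⊗[k] C)).compl₁₂
      ((TensorProduct.mk k B C).flip 1) (SectR π).toLinearMap)

private theorem SectPsi_tmul (π : B →ₐc[k] C) (b b' : B) :
    SectPsi π (b ⊗ₜ[k] b') = (b ⊗ₜ[k] 1) * SectR π b' := by
  simp [SectPsi]

private theorem Sect_antip (π : B →ₐc[k] C) (b : B) :
    SectPsi π ((HopfAlgebra.antipode k (A := B)).rTensor B (Coalgebra.comul (R := k) b)) =
      1 ⊗ₜ[k] π b := by
  let T : B ⊗[k] (B ⊗[k] B) →ₗ[k] B ⊗[k] C :=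
    (TensorProduct.map (LinearMap.mul' k B ∘ₗ (HopfAlgebra.antipode k (A := B)).rTensor B)
      (π : B →ₐ[k] C).toLinearMap) ∘ₗ (TensorProduct.assoc k B B B).symm.toLinearMap
  have h1 : ∀ z : B ⊗[k] B, SectPsi π ((HopfAlgebra.antipode k (A := B)).rTensor B z) =
      T ((Coalgebra.comul (R := k) (A := B)).lTensor B z) := by
    intro z
    induction z using TensorProduct.induction_on with
    | zero => simp
    | add x y hx hy => simp only [map_add, hx, hy]
    | tmul x y =>
      rw [LinearMap.rTensor_tmul, LinearMap.lTensor_tmul, SectPsi_tmul, SectR_apply]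
      generalize Coalgebra.comul (R := k) y = w
      induction w using TensorProduct.induction_on with
      | zero => simp
      | add u v hu hv => rw [map_add, mul_add, hu, hv, TensorProduct.tmul_add, map_add]
      | tmul u v => simp [T]
  have h2 : ∀ z : B ⊗[k] B, T (TensorProduct.assoc k B B B
      ((Coalgebra.comul (R := k) (A := B)).rTensor B z)) =
      TensorProduct.map (Algebra.linearMap k B) (π : B →ₐ[k] C).toLinearMap
        ((Coalgebra.counit (R := k) (A := B)).rTensor B z) := by
    intro z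
    induction z using TensorProduct.induction_on with
    | zero => simp
    | add x y hx hy => simp only [map_add, hx, hy]
    | tmul x y =>
      have h3 := LinearMap.congr_fun (HopfAlgebra.mul_antipode_rTensor_comul (R := k) (A := B)) x
      simp only [LinearMap.comp_apply] at h3
      simp only [T, LinearMap.comp_apply, LinearEquiv.coe_coe, LinearEquiv.symm_apply_apply,
        LinearMap.rTensor_tmul, TensorProduct.map_tmul, h3]
  have h4 := LinearMap.congr_fun (Coalgebra.coassoc (R := k) (A := B)) b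
  simp only [LinearMap.comp_apply, LinearEquiv.coe_coe] at h4
  rw [h1, ← h4, h2]
  have h5 := LinearMap.congr_fun (Coalgebra.rTensor_counit_comp_comul (R := k) (A := B)) b
  rw [LinearMap.comp_apply] at h5
  rw [h5]
  simp

private theorem Sect_inj [Module.Finite k B] (ι : F →ₐc[k] B) (π : B →ₐc[k] C)
    (hex : CentralExact k ι π) (s : C →ₗ[k] B) (hsur : Function.Surjective (fsMap ι s)) :
    Function.Injective (fsMap ι s) := by
  have hC : Module.Finite k C := Module.Finite.of_surjective (π : B →ₐ[k] C).toLinearMap hex.surj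
  let Φ : B ⊗[k] C →ₗ[k] B ⊗[k] C := SectPsi π ∘ₗ s.lTensor B
  have h1 : ∀ (b b'' : B) (f : F), SectPsi π (b ⊗ₜ[k] (ι f * b'')) =
      SectPsi π ((b * ι f) ⊗ₜ[k] b'') := by
    intro b b'' f
    rw [SectPsi_tmul, SectPsi_tmul, map_mul, SectR_iota ι π hex, ← mul_assoc,
      Algebra.TensorProduct.tmul_mul_tmul, mul_one]
  have h2 : ∀ z : B ⊗[k] B, SectPsi π z ∈ LinearMap.range Φ := by
    intro z
    induction z using TensorProduct.induction_on with
    | zero => rw [map_zero]; exact zero_mem _
    | add x y hx hy => rw [map_add]; exact add_mem hx hy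
    | tmul x y =>
      obtain ⟨w, rfl⟩ := hsur y
      induction w using TensorProduct.induction_on with
      | zero => rw [map_zero, TensorProduct.tmul_zero, map_zero]; exact zero_mem _
      | add u v hu hv => rw [map_add, TensorProduct.tmul_add, map_add]; exact add_mem hu hv
      | tmul f c =>
        rw [Sect_fs, h1]
        exact ⟨(x * ι f) ⊗ₜ[k] c, rfl⟩
  have h3 : Function.Surjective Φ := by
    intro z
    change z ∈ LinearMap.range Φ
    induction z using TensorProduct.induction_on with
    | zero => exact zero_mem _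
    | add x y hx hy => exact add_mem hx hy
    | tmul x y =>
      obtain ⟨b, rfl⟩ := hex.surj y
      have h4 : ∀ z : B ⊗[k] B, SectPsi π ((LinearMap.mulLeft k x).rTensor B z) =
          (x ⊗ₜ[k] 1) * SectPsi π z := by
        intro z
        induction z using TensorProduct.induction_on with
        | zero => simp
        | add u v hu hv => rw [map_add, map_add, hu, hv, map_add, mul_add]
        | tmul u v =>
          rw [LinearMap.rTensor_tmul, SectPsi_tmul, SectPsi_tmul, ← mul_assoc,
            Algebra.TensorProduct.tmul_mul_tmul, mul_one]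
          rfl
      have h5 := h4 ((HopfAlgebra.antipode k (A := B)).rTensor B (Coalgebra.comul (R := k) b))
      rw [Sect_antip, Algebra.TensorProduct.tmul_mul_tmul, mul_one, one_mul] at h5
      rw [← h5]
      exact h2 _
  have h4 : Function.Injective Φ := (LinearMap.injective_iff_surjective).2 h3
  rw [← LinearMap.ker_eq_bot, LinearMap.ker_eq_bot']
  intro z hz
  have h5 : ∀ z : F ⊗[k] C, Φ ((ι : F →ₐ[k] B).toLinearMap.rTensor C z) =
      SectPsi π (1 ⊗ₜ[k] fsMap ι s z) := by
    intro z
    induction z using TensorProduct.induction_on with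
    | zero => simp
    | add u v hu hv => rw [map_add, map_add, hu, hv, map_add, TensorProduct.tmul_add, map_add]
    | tmul f c =>
      rw [Sect_fs, h1, one_mul]
      rfl
  have h6 := h5 z
  rw [hz, TensorProduct.tmul_zero, map_zero] at h6
  have h7 : (ι : F →ₐ[k] B).toLinearMap.rTensor C z = 0 := h4 (h6.trans (map_zero Φ).symm)
  have h8 : Function.Injective ((ι : F →ₐ[k] B).toLinearMap.rTensor C) :=
    Module.Flat.rTensor_preserves_injective_linearMap _ hex.inj
  exact h8 (h7.trans (map_zero _).symm)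

/-- Let `s` be any linear section with `s 1 = 1`. Surjectivity of `fsMap`: the image `W` satisfies
`B = W + F⁺ B` (`ker π = B F⁺`, `F` central), hence `B = W` as `F⁺` is nilpotent (iterate).
Injectivity: consider `Φ : B ⊗ C → B ⊗ C`, `b ⊗ c ↦ ∑ b (s c)₁ ⊗ π((s c)₂)`. It is surjective:
`b ⊗ π b'` is the image of `∑ b S(b'₁) f_i ⊗ c_i` if `b'₂ = ∑ f_i s(c_i)` (`F` is central and
`π(f) = ε(f)` for `f ∈ F`), so it is injective (finite dimension). If `∑ f_i s(c_i) = 0` with
`c_i` linearly independent then `Φ(∑ f_i ⊗ c_i) = (id ⊗ π) Δ (∑ f_i s(c_i)) = 0`, so all `f_i = 0`. -/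
theorem exists_sect [Module.Finite k B] (ι : F →ₐc[k] B) (π : B →ₐc[k] C)
    (hex : CentralExact k ι π) (hF : AugNil k F) : Nonempty (Sect ι π) := by
  obtain ⟨s, hs, h1⟩ := Sect_lin π hex.surj
  have h2 := Sect_surj ι π hex hF s hs
  exact ⟨⟨s, hs, h1, Sect_inj ι π hex s h2, h2⟩⟩

end

end Pool.Agent.Helper90.FC
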