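import Pool.Agent.Helper90.FC.Defs

/-!
# Project FC, piece HOQ: quotient Hopf algebras

* `exists_subHopf`: a subalgebra `S` of a Hopf algebra `A` with `Δ(S) ⊆ S ⊗ S` (as a subspace of
  `A ⊗ A`) and stable under the antipode is a Hopf algebra and the inclusion is a homomorphism of
  bialgebras (`S ⊗ S → A ⊗ A` is injective over a field).
* `exists_frob`: `A` commutative of characteristic `p`: the span of the `p`-th powers is such a
  subalgebra (`Δ(a^p) = (Δ a)^p`, and `(∑ t_i)^p = ∑ t_i^p` in `A ⊗ A`).
* `exists_quotHopf`: for `ι : A → B` with central image, the left ideal generated by `ι(A⁺)` is a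
  two-sided Hopf ideal `J`; `B ⧸ J` is a Hopf algebra (Mathlib: `HopfAlgebra.Quotient`), and
  `A → B → B ⧸ J` is exact if `ι` is injective.
* `exists_image`: for a homomorphism `f : A → B` of bialgebras the kernel is a Hopf ideal
  (`ker (f ⊗ f) = ker f ⊗ A + A ⊗ ker f`; over a field), so `f` factors as a surjection
  `A → F` followed by an injection `F → B`, with `F = A ⧸ ker f` a Hopf algebra, commutative if
  `A` is.
* `exists_desc`: a homomorphism `π : B → C` with `π ∘ ι` trivial factors through `B → B ⧸ J`.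
-/

set_option linter.unusedSectionVars false
set_option autoImplicit false

open scoped TensorProduct

namespace Pool.Agent.Helper90.FC

universe u

section

variable {k : Type u} [Field k]

/-- a homomorphism of bialgebras commutes with the antipodes -/
private theorem hoqAntipode {A B : Type u} [Ring A] [Ring B] [HopfAlgebra k A] [HopfAlgebra k B]
    (f : A →ₐc[k] B) (a : A) :
    f (HopfAlgebra.antipode k a) = HopfAlgebra.antipode k (f a) := by
  have h1 : WithConv.toConv (HopfAlgebra.antipode k ∘ₗ f.toCoalgHom.toLinearMap) *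
      WithConv.toConv f.toCoalgHom.toLinearMap = (1 : WithConv (A →ₗ[k] B)) := by
    apply WithConv.ofConv_injective
    have := LinearMap.convMul_comp_coalgHom_distrib (WithConv.toConv (HopfAlgebra.antipode k))
      (WithConv.toConv (LinearMap.id : B →ₗ[k] B)) f.toCoalgHom
    rw [LinearMap.antipode_mul_id, LinearMap.convOne_comp_coalgHom] at this
    exact this.symm
  have h2 : WithConv.toConv f.toCoalgHom.toLinearMap *
      WithConv.toConv (f.toCoalgHom.toLinearMap ∘ₗ HopfAlgebra.antipode k) =
        (1 : WithConv (A →ₗ[k] B)) := by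
    apply WithConv.ofConv_injective
    have := LinearMap.algHom_comp_convMul_distrib (AlgHomClass.toAlgHom f)
      (WithConv.toConv (LinearMap.id : A →ₗ[k] A)) (WithConv.toConv (HopfAlgebra.antipode k))
    rw [LinearMap.id_mul_antipode, LinearMap.algHom_comp_convOne] at this
    exact this.symm
  have h3 := left_inv_eq_right_inv h1 h2
  have h4 := congrArg WithConv.ofConv h3
  exact (LinearMap.congr_fun h4 a).symm

private theorem hoqComul {A B : Type u} [Ring A] [Ring B] [HopfAlgebra k A] [HopfAlgebra k B]
    (f : A →ₐc[k] B) (a : A) : Coalgebra.comul (R := k) (f a) =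
      TensorProduct.map f.toCoalgHom.toLinearMap f.toCoalgHom.toLinearMap
        (Coalgebra.comul (R := k) a) :=
  (LinearMap.congr_fun f.toCoalgHom.map_comp_comul a).symm

private theorem hoqCounit {A B : Type u} [Ring A] [Ring B] [HopfAlgebra k A] [HopfAlgebra k B]
    (f : A →ₐc[k] B) (a : A) : Coalgebra.counit (R := k) (f a) =
      Coalgebra.counit (R := k) a :=
  LinearMap.congr_fun f.toCoalgHom.counit_comp a

theorem exists_quotHopf {A B : Type u} [Ring A] [Ring B] [HopfAlgebra k A] [HopfAlgebra k B]
    (ι : A →ₐc[k] B) (hi : Function.Injective ι) (hc : ∀ (a : A) (b : B), ι a * b = b * ι a) :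
    ∃ (B' : Type u) (_ : Ring B') (_ : HopfAlgebra k B') (π : B →ₐc[k] B'),
      CentralExact k ι π := by
  set J : Ideal B := Ideal.span (ι '' {a : A | Coalgebra.counit (R := k) a = 0}) with hJ
  have hgen : ∀ a : A, Coalgebra.counit (R := k) a = 0 → ι a ∈ J := fun a ha =>
    Ideal.subset_span ⟨a, ha, rfl⟩
  have hts : J.IsTwoSided := by
    refine ⟨fun {x} b hx => ?_⟩
    rw [hJ] at hx
    refine Submodule.span_induction (p := fun x _ => x * b ∈ J) ?_ ?_ ?_ ?_ hx
    · rintro _ ⟨a, ha, rfl⟩
      rw [hc a b]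
      exact J.mul_mem_left b (hgen a ha)
    · rw [zero_mul]; exact J.zero_mem
    · intro x y _ _ hx hy
      rw [add_mul]; exact J.add_mem hx hy
    · intro c x _ hx
      rw [smul_eq_mul, mul_assoc]
      exact J.mul_mem_left c hx
  -- an algebra homomorphism which kills the generators kills `J`
  have hker : ∀ {D : Type u} [Ring D] [Algebra k D] (φ : B →ₐ[k] D),
      (∀ a : A, Coalgebra.counit (R := k) a = 0 → φ (ι a) = 0) → ∀ x ∈ J, φ x = 0 := by
    intro D _ _ φ hφ x hx
    have hle : J ≤ RingHom.ker φ := by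
      rw [hJ, Ideal.span_le]
      rintro _ ⟨a, ha, rfl⟩
      exact hφ a ha
    exact hle hx
  have hmk : ∀ a : A, Ideal.Quotient.mk J (ι a) =
      algebraMap k (B ⧸ J) (Coalgebra.counit (R := k) a) := by
    intro a
    have h1 : ι (a - algebraMap k A (Coalgebra.counit (R := k) a)) ∈ J := by
      apply hgen
      rw [map_sub, Bialgebra.counit_algebraMap, sub_self]
    have h2 : Ideal.Quotient.mk J (ι (a - algebraMap k A (Coalgebra.counit (R := k) a))) = 0 :=
      Ideal.Quotient.eq_zero_iff_mem.mpr h1
    rw [map_sub, map_sub, sub_eq_zero] at h2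
    rw [h2]
    have h3 : ι (algebraMap k A (Coalgebra.counit (R := k) a)) =
        algebraMap k B (Coalgebra.counit (R := k) a) := AlgHomClass.commutes ι _
    rw [h3]
    rfl
  have hco : (J.restrictScalars k).IsCoideal := by
    refine ⟨fun x hx => ?_, fun x hx => ?_⟩
    · exact hker (Bialgebra.counitAlgHom k B) (fun a ha => (hoqCounit ι a).trans ha) x hx
    · refine hker ((Algebra.TensorProduct.map (Ideal.Quotient.mkₐ k J)
        (Ideal.Quotient.mkₐ k J)).comp (Bialgebra.comulAlgHom k B)) (fun a ha => ?_) x hx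
      show TensorProduct.map (Ideal.Quotient.mkₐ k J).toLinearMap
        (Ideal.Quotient.mkₐ k J).toLinearMap (Coalgebra.comul (R := k) (ι a)) = 0
      rw [hoqComul ι a, ← LinearMap.comp_apply, ← TensorProduct.map_comp]
      have h1 : (Ideal.Quotient.mkₐ k J).toLinearMap ∘ₗ ι.toCoalgHom.toLinearMap =
          Algebra.linearMap k (B ⧸ J) ∘ₗ Coalgebra.counit (R := k) (A := A) :=
        LinearMap.ext fun a => hmk a
      rw [h1, TensorProduct.map_comp, LinearMap.comp_apply]
      have h2 : TensorProduct.map (Coalgebra.counit (R := k) (A := A))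
          (Coalgebra.counit (R := k) (A := A)) (Coalgebra.comul (R := k) a) =
            1 ⊗ₜ[k] (Coalgebra.counit (R := k) a) := by
        have h3 : TensorProduct.map (Coalgebra.counit (R := k) (A := A))
          (Coalgebra.counit (R := k) (A := A)) = (LinearMap.lTensor k
            (Coalgebra.counit (R := k) (A := A))) ∘ₗ
              (LinearMap.rTensor A (Coalgebra.counit (R := k) (A := A))) := by
          rw [LinearMap.lTensor_comp_rTensor]
        rw [h3, LinearMap.comp_apply, Coalgebra.rTensor_counit_comul, LinearMap.lTensor_tmul]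
      rw [h2, ha, TensorProduct.tmul_zero, map_zero]
  have hho : J.IsHopfIdeal k := by
    refine { hco with antipode_mem := fun x hx => ?_ }
    rw [hJ] at hx
    refine Submodule.span_induction (p := fun x _ => HopfAlgebra.antipode k x ∈ J) ?_ ?_ ?_ ?_ hx
    · rintro _ ⟨a, ha, rfl⟩
      rw [← hoqAntipode ι a]
      apply hgen
      rw [HopfAlgebra.counit_antipode]
      exact ha
    · rw [map_zero]; exact J.zero_mem
    · intro x y _ _ hx hy
      rw [map_add]; exact J.add_mem hx hy
    · intro c x _ hx
      rw [smul_eq_mul, HopfAlgebra.antipode_mul_antidistrib]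
      exact J.mul_mem_right _ hx
  refine ⟨B ⧸ J, inferInstance, inferInstance, Bialgebra.Quotient.mkBialgHom J, hi,
    Ideal.Quotient.mk_surjective, hc, fun b => ?_⟩
  exact Ideal.Quotient.eq_zero_iff_mem

theorem exists_image {A B : Type u} [CommRing A] [Ring B] [HopfAlgebra k A] [HopfAlgebra k B]
    (f : A →ₐc[k] B) : ∃ (F : Type u) (_ : CommRing F) (_ : HopfAlgebra k F) (q : A →ₐc[k] F)
      (g : F →ₐc[k] B), Function.Surjective q ∧ Function.Injective g ∧ ∀ a, g (q a) = f a := by
  set K : Ideal A := RingHom.ker (AlgHomClass.toAlgHom f : A →ₐ[k] B) with hK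
  have hmem : ∀ x, x ∈ K ↔ f x = 0 := fun x => Iff.rfl
  let g₀ : (A ⧸ K) →ₐ[k] B := Ideal.Quotient.liftₐ K (AlgHomClass.toAlgHom f) fun x hx => hx
  have hg₀ : ∀ a, g₀ (Ideal.Quotient.mk K a) = f a := fun a => rfl
  have hg₀i : Function.Injective g₀ := by
    rw [injective_iff_map_eq_zero]
    intro x hx
    obtain ⟨a, rfl⟩ := Ideal.Quotient.mk_surjective x
    rw [hg₀] at hx
    exact Ideal.Quotient.eq_zero_iff_mem.mpr hx
  have hcomp : g₀.toLinearMap ∘ₗ (Ideal.Quotient.mkₐ k K).toLinearMap =
      f.toCoalgHom.toLinearMap := LinearMap.ext fun a => hg₀ a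
  have hinj : Function.Injective (TensorProduct.map g₀.toLinearMap g₀.toLinearMap) :=
    TensorProduct.map_injective_of_flat_flat _ _ hg₀i hg₀i
  have hco : (K.restrictScalars k).IsCoideal := by
    refine ⟨fun x hx => ?_, fun x hx => ?_⟩
    · have h1 : f x = 0 := hx
      rw [← hoqCounit f x, h1, map_zero]
    · have h1 : f x = 0 := hx
      show TensorProduct.map (Ideal.Quotient.mkₐ k K).toLinearMap
        (Ideal.Quotient.mkₐ k K).toLinearMap (Coalgebra.comul (R := k) x) = 0
      apply hinj
      rw [map_zero, ← LinearMap.comp_apply, ← TensorProduct.map_comp, hcomp, ← hoqComul f x, h1,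
        map_zero]
  have hho : K.IsHopfIdeal k := by
    refine { hco with antipode_mem := fun x hx => ?_ }
    have h1 : f x = 0 := hx
    show f (HopfAlgebra.antipode k x) = 0
    rw [hoqAntipode f x, h1, map_zero]
  refine ⟨A ⧸ K, inferInstance, inferInstance, Bialgebra.Quotient.mkBialgHom K,
    BialgHom.ofAlgHom g₀ ?_ ?_, Ideal.Quotient.mk_surjective, hg₀i, hg₀⟩
  · refine AlgHom.ext fun x => ?_
    obtain ⟨a, rfl⟩ := Ideal.Quotient.mk_surjective x
    exact hoqCounit f a
  · refine AlgHom.ext fun x => ?_
    obtain ⟨a, rfl⟩ := Ideal.Quotient.mk_surjective x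
    show TensorProduct.map g₀.toLinearMap g₀.toLinearMap
      (TensorProduct.map (Ideal.Quotient.mkₐ k K).toLinearMap
        (Ideal.Quotient.mkₐ k K).toLinearMap (Coalgebra.comul (R := k) a)) =
          Coalgebra.comul (R := k) (f a)
    rw [← LinearMap.comp_apply, ← TensorProduct.map_comp, hcomp, ← hoqComul f a]

theorem exists_desc {A B B' C : Type u} [Ring A] [Ring B] [Ring B'] [Ring C] [HopfAlgebra k A]
    [HopfAlgebra k B] [HopfAlgebra k B'] [HopfAlgebra k C] (ι : A →ₐc[k] B) (π : B →ₐc[k] B')
    (hex : CentralExact k ι π) (f : B →ₐc[k] C)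
    (hf : ∀ a : A, Coalgebra.counit (R := k) a = 0 → f (ι a) = 0) :
    ∃ g : B' →ₐc[k] C, ∀ b, g (π b) = f b := by
  have h0 : ∀ b : B, π b = 0 → f b = 0 := by
    intro b hb
    have h1 := (hex.ker b).mp hb
    have hle : Ideal.span (ι '' {a : A | Coalgebra.counit (R := k) a = 0}) ≤
        RingHom.ker (AlgHomClass.toAlgHom f : B →ₐ[k] C) := by
      rw [Ideal.span_le]
      rintro _ ⟨a, ha, rfl⟩
      exact hf a ha
    exact hle h1
  have h1 : ∀ b c : B, π b = π c → f b = f c := by
    intro b c h
    have h2 := h0 (b - c) (by rw [map_sub, h, sub_self])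
    rw [map_sub, sub_eq_zero] at h2
    exact h2
  let s : B' → B := Function.surjInv hex.surj
  have hs : ∀ x, π (s x) = x := Function.surjInv_eq hex.surj
  let g₀ : B' →ₐ[k] C :=
    { toFun := fun x => f (s x)
      map_one' := by
        rw [← map_one f]; exact h1 _ _ (by rw [hs, map_one])
      map_mul' := fun x y => by
        rw [← map_mul f]; exact h1 _ _ (by rw [hs, map_mul, hs, hs])
      map_zero' := by
        rw [← map_zero f]; exact h1 _ _ (by rw [hs, map_zero])
      map_add' := fun x y => by
        rw [← map_add f]; exact h1 _ _ (by rw [hs, map_add, hs, hs])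
      commutes' := fun r => by
        have h2 : f (algebraMap k B r) = algebraMap k C r := AlgHomClass.commutes f r
        have h3 : π (algebraMap k B r) = algebraMap k B' r := AlgHomClass.commutes π r
        rw [← h2]; exact h1 _ _ (by rw [hs, h3]) }
  have hg₀ : ∀ b, g₀ (π b) = f b := fun b => h1 _ _ (hs _)
  have hcomp : g₀.toLinearMap ∘ₗ π.toCoalgHom.toLinearMap = f.toCoalgHom.toLinearMap :=
    LinearMap.ext fun b => hg₀ b
  refine ⟨BialgHom.ofAlgHom g₀ ?_ ?_, hg₀⟩
  · refine AlgHom.ext fun x => ?_
    obtain ⟨b, rfl⟩ := hex.surj x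
    show Coalgebra.counit (R := k) (g₀ (π b)) = Coalgebra.counit (R := k) (π b)
    rw [hg₀, hoqCounit, hoqCounit]
  · refine AlgHom.ext fun x => ?_
    obtain ⟨b, rfl⟩ := hex.surj x
    show TensorProduct.map g₀.toLinearMap g₀.toLinearMap (Coalgebra.comul (R := k) (π b)) =
      Coalgebra.comul (R := k) (g₀ (π b))
    rw [hg₀, hoqComul π b, hoqComul f b, ← LinearMap.comp_apply, ← TensorProduct.map_comp, hcomp]

end

end Pool.Agent.Helper90.FC
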