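import Pool.Agent.Helper90.FC.EvLem

/-!
# Project FC, piece COB: `FGE` implies `FGC`

`fgc_of_fge`: if `Ext^n(k, M) = ∑ ζ_i Ext(k, M)` for `n ≥ N` then `⨁ Ext^n(k, M)` is generated as a
module by the (finite-dimensional, `finite_ext`) components of degree `< N`; for `M = k` the algebra
is generated by the `ζ_i` and the components of degree `< N`.
-/

set_option linter.unusedSectionVars false
set_option autoImplicit false

open CategoryTheory CategoryTheory.Abelian CategoryTheory.Limits DirectSum
open scoped ModuleCat TensorProduct
open Pool.Agent.Helper59.FG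

namespace Pool.Agent.Helper90.FC

universe u

section

variable {k : Type u} [Field k] {A : Type u} [Ring A] [Bialgebra k A] [Module.Finite k A]

/-- The trivial module is finitely generated. -/
private theorem ConvB_finite_triv : Module.Finite A (trivObj k A) := by
  refine ⟨⟨{oneT k A}, ?_⟩⟩
  rw [eq_top_iff]
  intro x _
  have h : algebraMap k A (show k from x) • oneT k A = x := by
    change (Bialgebra.counitAlgHom k A (algebraMap k A (show k from x)) * 1 : k) = x
    rw [AlgHom.commutes, mul_one]
    rfl
  rw [← h]
  exact Submodule.smul_mem _ _ (Submodule.subset_span (by simp))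

/-- Products in the cohomology algebra. -/
private theorem ConvB_of_comp {a b c : ℕ} (x : Ext (trivObj k A) (trivObj k A) a)
    (y : Ext (trivObj k A) (trivObj k A) b) (h : a + b = c) :
    DirectSum.of (EndExt (trivObj k A)) c (x.comp y h) =
      DirectSum.of (EndExt (trivObj k A)) a x * DirectSum.of (EndExt (trivObj k A)) b y := by
  have h1 := DirectSum.of_mul_of (A := EndExt (trivObj k A)) (i := a) (j := b) x y
  have h2 := DirectSum.of_eq_of_gradedMonoid_eq (A := EndExt (trivObj k A)) (comp_sigma x y h)
  exact h2.symm.trans h1.symm

/-- The action in degree-free form. -/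
private theorem ConvB_of_act (M : ModuleCat.{u} A) {a b c : ℕ}
    (x : Ext (trivObj k A) (trivObj k A) a) (y : Ext (trivObj k A) M b) (h : a + b = c) :
    DirectSum.of (KExt k M) c (x.comp y h) =
      DirectSum.of (EndExt (trivObj k A)) a x • DirectSum.of (KExt k M) b y := by
  have h1 := DirectSum.Gmodule.of_smul_of (A := EndExt (trivObj k A)) (M := KExt k M)
    (i := a) (j := b) x y
  have h2 := DirectSum.of_eq_of_gradedMonoid_eq (A := KExt k M) (comp_sigma x y h)
  exact h2.symm.trans h1.symm

private theorem ConvB_of_smul (M : ModuleCat.{u} A) {n : ℕ} (c : k)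
    (y : Ext (trivObj k A) M n) :
    DirectSum.of (KExt k M) n (c • y) =
      DirectSum.of (EndExt (trivObj k A)) 0 (c • Ext.mk₀ (𝟙 (trivObj k A))) •
        DirectSum.of (KExt k M) n y := by
  have h5 := ConvB_of_act M (c • Ext.mk₀ (𝟙 (trivObj k A))) y (zero_add n)
  rw [Ext.smul_comp, Ext.mk₀_id_comp] at h5
  exact h5

private theorem ConvB_alg {ι : Type} [Finite ι] (ζ : Fam k A ι) (hζ : ζ.EvGen (trivObj k A)) :
    Algebra.FiniteType k (⨁ n, EndExt (trivObj k A) n) := by
  classical
  obtain ⟨N, hN⟩ := hζ
  have : Module.Finite A (trivObj k A) := ConvB_finite_triv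
  have h1 : ∀ n, ∃ t : Set (EndExt (trivObj k A) n), t.Finite ∧ Submodule.span k t = ⊤ := by
    intro n
    have h : Module.Finite k (EndExt (trivObj k A) n) :=
      finite_ext k (trivObj k A) (trivObj k A) n
    exact Submodule.fg_def.1 h.fg_top
  choose t ht1 ht2 using h1
  set G : Set (⨁ n, EndExt (trivObj k A) n) :=
    (Set.range fun i => DirectSum.of (EndExt (trivObj k A)) (ζ.deg i) (ζ.cls i)) ∪
    ⋃ n ∈ Set.Iio N, (DirectSum.of (EndExt (trivObj k A)) n) '' (t n) with hG
  have hGfin : G.Finite := (Set.finite_range _).union
    (Set.Finite.biUnion (Set.finite_Iio N) fun n _ => (ht1 n).image _)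
  have key : ∀ n, ∀ y : EndExt (trivObj k A) n,
      DirectSum.of (EndExt (trivObj k A)) n y ∈ Algebra.adjoin k G := by
    intro n
    induction n using Nat.strong_induction_on with
    | _ n ih =>
      intro y
      rcases Nat.lt_or_ge n N with hn | hn
      · have h2 : Submodule.span k (t n) ≤
            (Subalgebra.toSubmodule (Algebra.adjoin k G)).comap
              (DirectSum.lof k ℕ (EndExt (trivObj k A)) n) := by
          rw [Submodule.span_le]
          intro y hy
          refine Algebra.subset_adjoin (Or.inr ?_)
          rw [Set.mem_iUnion₂]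
          exact ⟨n, hn, y, hy, rfl⟩
        rw [ht2] at h2
        exact h2 (Submodule.mem_top (x := y))
      · have h2 : ζ.gen (trivObj k A) n ≤
            (Subalgebra.toSubmodule (Algebra.adjoin k G)).comap
              (DirectSum.lof k ℕ (EndExt (trivObj k A)) n) := by
          rw [Fam.gen_le_iff]
          intro i m h x
          change DirectSum.of (EndExt (trivObj k A)) n ((ζ.cls i).comp x h) ∈
            Algebra.adjoin k G
          rw [ConvB_of_comp]
          have := ζ.pos i
          exact mul_mem (Algebra.subset_adjoin (Or.inl ⟨i, rfl⟩)) (ih m (by omega) x)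
        rw [hN n hn] at h2
        exact h2 (Submodule.mem_top (x := y))
  refine ⟨Subalgebra.fg_def.2 ⟨G, hGfin, ?_⟩⟩
  rw [eq_top_iff]
  intro w _
  induction w using DirectSum.induction_on with
  | zero => exact zero_mem _
  | of n y => exact key n y
  | add y z hy hz => exact add_mem (hy trivial) (hz trivial)

private theorem ConvB_mod {ι : Type} [Finite ι] (ζ : Fam k A ι) (M : ModuleCat.{u} A)
    [Module.Finite A M] (hζ : ζ.EvGen M) :
    Module.Finite (⨁ n, EndExt (trivObj k A) n) (⨁ n, KExt k M n) := by
  classical
  obtain ⟨N, hN⟩ := hζ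
  have : Module.Finite A (trivObj k A) := ConvB_finite_triv
  have h1 : ∀ n, ∃ t : Set (Ext (trivObj k A) M n), t.Finite ∧ Submodule.span k t = ⊤ := by
    intro n
    have h : Module.Finite k (Ext (trivObj k A) M n) := finite_ext k (trivObj k A) M n
    exact Submodule.fg_def.1 h.fg_top
  choose t ht1 ht2 using h1
  set G : Set (⨁ n, KExt k M n) :=
    ⋃ n ∈ Set.Iio N, (fun y : Ext (trivObj k A) M n => DirectSum.of (KExt k M) n y) '' (t n)
    with hG
  have hGfin : G.Finite := Set.Finite.biUnion (Set.finite_Iio N) fun n _ => (ht1 n).image _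
  have key : ∀ n, ∀ y : Ext (trivObj k A) M n, DirectSum.of (KExt k M) n y ∈
      Submodule.span (⨁ n, EndExt (trivObj k A) n) G := by
    intro n
    induction n using Nat.strong_induction_on with
    | _ n ih =>
      let W : Submodule k (Ext (trivObj k A) M n) :=
        { carrier := {y | DirectSum.of (KExt k M) n y ∈
            Submodule.span (⨁ n, EndExt (trivObj k A) n) G}
          add_mem' := fun {x y} hx hy => by
            have h : DirectSum.of (KExt k M) n (x + y) =
              DirectSum.of (KExt k M) n x + DirectSum.of (KExt k M) n y := map_add _ _ _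
            change DirectSum.of (KExt k M) n (x + y) ∈
              Submodule.span (⨁ n, EndExt (trivObj k A) n) G
            rw [h]
            exact add_mem hx hy
          zero_mem' := by
            have h : DirectSum.of (KExt k M) n 0 = 0 := map_zero _
            change DirectSum.of (KExt k M) n 0 ∈
              Submodule.span (⨁ n, EndExt (trivObj k A) n) G
            rw [h]
            exact zero_mem _
          smul_mem' := fun c x hx => by
            change DirectSum.of (KExt k M) n (c • x) ∈
              Submodule.span (⨁ n, EndExt (trivObj k A) n) G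
            rw [ConvB_of_smul]
            exact Submodule.smul_mem _ _ hx }
      intro y
      suffices h : W = ⊤ by
        have : y ∈ W := by rw [h]; exact Submodule.mem_top
        exact this
      rw [eq_top_iff]
      rcases Nat.lt_or_ge n N with hn | hn
      · rw [← ht2 n, Submodule.span_le]
        intro y hy
        refine Submodule.subset_span ?_
        rw [hG, Set.mem_iUnion₂]
        exact ⟨n, hn, y, hy, rfl⟩
      · rw [← hN n hn, Fam.gen_le_iff]
        intro i m h x
        change DirectSum.of (KExt k M) n ((ζ.cls i).comp x h) ∈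
          Submodule.span (⨁ n, EndExt (trivObj k A) n) G
        rw [ConvB_of_act]
        have := ζ.pos i
        exact Submodule.smul_mem _ _ (ih m (by omega) x)
  refine ⟨Submodule.fg_def.2 ⟨G, hGfin, ?_⟩⟩
  rw [eq_top_iff]
  intro w _
  induction w using DirectSum.induction_on with
  | zero => exact zero_mem _
  | of n y => exact key n y
  | add y z hy hz => exact add_mem (hy trivial) (hz trivial)

theorem fgc_of_fge (h : FGE k A) : FGC k A := by
  obtain ⟨r, ζ, hζ⟩ := h
  exact ⟨ConvB_alg ζ (hζ (trivObj k A) ConvB_finite_triv), fun M hM => ConvB_mod ζ M (hζ M hM)⟩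

end

end Pool.Agent.Helper90.FC
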