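import Pool.Agent.Helper90.FC.IHom
import Pool.Agent.Helper90.FC.ConvB
import Pool.Agent.Helper59.FG.Fg

/-!
# Project FC: the conditions (fg1') and (fg2')

`FGH k A`: `Ext(k, k)` is a finitely generated algebra and `Ext(M, M)` is a finitely generated
module over it for all finite-dimensional `M`; it is equivalent to `FGC`, and implies that
`Ext(M, N)` is finitely generated for all finite-dimensional `M`, `N`.
-/

set_option linter.unusedSectionVars false
set_option autoImplicit false

open CategoryTheory CategoryTheory.Abelian CategoryTheory.Limits DirectSum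
open scoped ModuleCat TensorProduct
open Pool.Agent.Helper59.FG

namespace Pool.Agent.Helper90.FC

universe u

/-- (fg1') and (fg2'). -/
def FGH (k : Type u) [Field k] (A : Type u) [Ring A] [Bialgebra k A] : Prop :=
  Algebra.FiniteType k (⨁ n, EndExt (trivObj k A) n) ∧
    ∀ M : ModuleCat.{u} A, Module.Finite A M →
      Module.Finite (⨁ n, EndExt (trivObj k A) n) (⨁ n, ActExt M M n)

section

variable {k : Type u} [Field k] {A : Type u} [Ring A] [Bialgebra k A]

theorem FG2_of_act (M : ModuleCat.{u} A) {a b c : ℕ}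
    (x : Ext (trivObj k A) (trivObj k A) a) (y : Ext (trivObj k A) M b) (h : a + b = c) :
    DirectSum.of (KExt k M) c (x.comp y h) =
      DirectSum.of (EndExt (trivObj k A)) a x • DirectSum.of (KExt k M) b y := by
  have h1 := DirectSum.Gmodule.of_smul_of (A := EndExt (trivObj k A)) (M := KExt k M)
    (i := a) (j := b) x y
  have h2 := DirectSum.of_eq_of_gradedMonoid_eq (A := KExt k M) (comp_sigma x y h)
  exact h2.symm.trans h1.symm

/-- The map `y ↦ inl y snd`. -/
noncomputable def FG2_comp0 (M : ModuleCat.{u} A) (n : ℕ) :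
    Ext (trivObj k A ⊞ M) (trivObj k A ⊞ M) n →+ Ext (trivObj k A) M n where
  toFun y := (Ext.mk₀ (biprod.inl : trivObj k A ⟶ trivObj k A ⊞ M)).comp
    (y.comp (Ext.mk₀ (biprod.snd : trivObj k A ⊞ M ⟶ M)) (add_zero n)) (zero_add n)
  map_zero' := by rw [Ext.zero_comp, Ext.comp_zero]
  map_add' x y := by rw [Ext.add_comp, Ext.comp_add]

/-- The component `y ↦ inl y snd`. -/
noncomputable def FG2_comp (M : ModuleCat.{u} A) (n : ℕ) :
    ActExt (trivObj k A ⊞ M) (trivObj k A ⊞ M) n →+ KExt k M n :=
  FG2_comp0 M n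

theorem FG2_comp_act (M : ModuleCat.{u} A) {a b c : ℕ}
    (x : Ext (trivObj k A) (trivObj k A) a) (y : Ext (trivObj k A ⊞ M) (trivObj k A ⊞ M) b)
    (h : a + b = c) :
    (FG2_comp M c ((rst k (trivObj k A ⊞ M) x).comp y h) : Ext (trivObj k A) M c) =
      x.comp (FG2_comp M b y : Ext (trivObj k A) M b) h := by
  have h1 := comm_rst k (trivObj k A ⊞ M) x
    (Ext.mk₀ (biprod.inl : trivObj k A ⟶ trivObj k A ⊞ M)) (add_zero a) (zero_add a)
  rw [mul_zero, pow_zero, one_smul] at h1
  change (Ext.mk₀ (biprod.inl : trivObj k A ⟶ trivObj k A ⊞ M)).comp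
    (((rst k (trivObj k A ⊞ M) x).comp y h).comp
      (Ext.mk₀ (biprod.snd : trivObj k A ⊞ M ⟶ M)) (add_zero c)) (zero_add c) =
    x.comp ((Ext.mk₀ (biprod.inl : trivObj k A ⟶ trivObj k A ⊞ M)).comp
    (y.comp (Ext.mk₀ (biprod.snd : trivObj k A ⊞ M ⟶ M)) (add_zero b)) (zero_add b)) h
  have h2 : x.comp ((Ext.mk₀ (biprod.inl : trivObj k A ⟶ trivObj k A ⊞ M)).comp
      (y.comp (Ext.mk₀ (biprod.snd : trivObj k A ⊞ M ⟶ M)) (add_zero b)) (zero_add b)) h =
      (x.comp (Ext.mk₀ (biprod.inl : trivObj k A ⟶ trivObj k A ⊞ M)) (add_zero a)).comp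
        (y.comp (Ext.mk₀ (biprod.snd : trivObj k A ⊞ M ⟶ M)) (add_zero b)) h :=
    (Ext.comp_assoc_of_second_deg_zero _ _ _ _).symm
  rw [h2, h1, Ext.comp_assoc_of_third_deg_zero]
  exact (Ext.comp_assoc _ _ _ (zero_add a) h (by omega)).symm

/-- The map `⨁ Ext(k ⊕ M, k ⊕ M) → ⨁ Ext(k, M)`. -/
noncomputable def FG2_map (M : ModuleCat.{u} A) :
    (⨁ n, ActExt (trivObj k A ⊞ M) (trivObj k A ⊞ M) n) →ₗ[⨁ n, EndExt (trivObj k A) n]
      ⨁ n, KExt k M n where
  toFun := DirectSum.map (FG2_comp M)
  map_add' x y := map_add _ x y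
  map_smul' r y := by
    rw [RingHom.id_apply]
    induction r using DirectSum.induction_on with
    | zero => simp
    | add r s hr hs => rw [add_smul, map_add, hr, hs, add_smul]
    | of a x =>
      induction y using DirectSum.induction_on with
      | zero => simp
      | add y z hy hz => rw [smul_add, map_add, hy, hz, map_add, smul_add]
      | of b y =>
        have h1 := of_act k (trivObj k A ⊞ M) (trivObj k A ⊞ M) x y rfl
        rw [← h1, DirectSum.map_of, DirectSum.map_of]
        have h2 := FG2_of_act M x (FG2_comp M b y : Ext (trivObj k A) M b) rfl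
        rw [← FG2_comp_act] at h2
        exact h2

theorem FG2_map_surj (M : ModuleCat.{u} A) : Function.Surjective (FG2_map (k := k) M) := by
  intro w
  induction w using DirectSum.induction_on with
  | zero => exact ⟨0, map_zero _⟩
  | add y z hy hz =>
    obtain ⟨y', rfl⟩ := hy
    obtain ⟨z', rfl⟩ := hz
    exact ⟨y' + z', map_add _ _ _⟩
  | of n z =>
    have h1 : (Ext.mk₀ (biprod.inl : trivObj k A ⟶ trivObj k A ⊞ M)).comp
      (((Ext.mk₀ (biprod.fst : trivObj k A ⊞ M ⟶ trivObj k A)).comp
        ((show Ext (trivObj k A) M n from z).comp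
          (Ext.mk₀ (biprod.inr : M ⟶ trivObj k A ⊞ M)) (add_zero n)) (zero_add n)).comp
      (Ext.mk₀ (biprod.snd : trivObj k A ⊞ M ⟶ M)) (add_zero n)) (zero_add n) = z := by
      rw [Ext.comp_assoc_of_third_deg_zero, Ext.comp_assoc_of_third_deg_zero, Ext.mk₀_comp_mk₀,
        Ext.mk₀_comp_mk₀_assoc, biprod.inl_fst, biprod.inr_snd, Ext.mk₀_id_comp, Ext.comp_mk₀_id]
    refine ⟨DirectSum.of (ActExt (trivObj k A ⊞ M) (trivObj k A ⊞ M)) n
      ((Ext.mk₀ (biprod.fst : trivObj k A ⊞ M ⟶ trivObj k A)).comp
        ((show Ext (trivObj k A) M n from z).comp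
          (Ext.mk₀ (biprod.inr : M ⟶ trivObj k A ⊞ M)) (add_zero n)) (zero_add n)), ?_⟩
    refine (DirectSum.map_of _ _ _).trans ?_
    exact congrArg _ h1

theorem FG2_finite_triv [Module.Finite k A] : Module.Finite A (trivObj k A) := by
  refine ⟨⟨{oneT k A}, ?_⟩⟩
  rw [eq_top_iff]
  intro x _
  have h : algebraMap k A (show k from x) • oneT k A = x := by
    change (Bialgebra.counitAlgHom k A (algebraMap k A (show k from x)) * 1 : k) = x
    rw [AlgHom.commutes, mul_one]
    rfl
  rw [← h]
  exact Submodule.smul_mem _ _ (Submodule.subset_span (by simp))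

theorem FG2_finite_sum [Module.Finite k A] (M : ModuleCat.{u} A) [Module.Finite A M] :
    Module.Finite A (trivObj k A ⊞ M : ModuleCat.{u} A) := by
  have h0 : Module.Finite A (trivObj k A) := FG2_finite_triv
  have h1 : Module.Finite A (trivObj k A × M) := inferInstance
  exact Module.Finite.equiv (ModuleCat.biprodIsoProd (trivObj k A) M).toLinearEquiv.symm

theorem fgc_of_fgh [Module.Finite k A] (h : FGH k A) : FGC k A := by
  refine ⟨h.1, fun M hM => ?_⟩
  have h1 := h.2 (trivObj k A ⊞ M) (FG2_finite_sum M)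
  exact Module.Finite.of_surjective (FG2_map (k := k) M) (FG2_map_surj M)

end

section

variable {k : Type u} [Field k] {A : Type u} [Ring A] [HopfAlgebra k A]

/-- The map `z ↦ unit (z ⊗ M) ev`. -/
noncomputable def FG2_lam (M N : ModuleCat.{u} A) (n : ℕ) :
    Ext (trivObj k A) ((ihom k M).obj N) n →ₗ[k] Ext M N n where
  toFun z := (Ext.mk₀ (unitMap k M)).comp ((z.mapExactFunctor (tensFunctor k M)).comp
        (Ext.mk₀ ((evI k M).app N)) (add_zero n)) (zero_add n)
  map_add' x y := by rw [Ext.mapExactFunctor_add, Ext.add_comp, Ext.comp_add]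
  map_smul' c x := by
    rw [Functor.mapExactFunctor_smul, Ext.smul_comp, Ext.comp_smul]
    rfl

theorem FG2_lam_comp (M N : ModuleCat.{u} A) {a b c : ℕ}
    (x : Ext (trivObj k A) (trivObj k A) a) (z : Ext (trivObj k A) ((ihom k M).obj N) b)
    (h : a + b = c) :
    FG2_lam M N c (x.comp z h) = (rst k M x).comp (FG2_lam M N b z) h := by
  change (Ext.mk₀ (unitMap k M)).comp (((x.comp z h).mapExactFunctor (tensFunctor k M)).comp
        (Ext.mk₀ ((evI k M).app N)) (add_zero c)) (zero_add c) = (rst k M x).comp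
      ((Ext.mk₀ (unitMap k M)).comp ((z.mapExactFunctor (tensFunctor k M)).comp
        (Ext.mk₀ ((evI k M).app N)) (add_zero b)) (zero_add b)) h
  unfold rst
  rw [Ext.mapExactFunctor_comp, Ext.comp_assoc (Ext.mk₀ (unitMap k M)) _ _ (zero_add a) h
    (by omega)]
  congr 1
  rw [Ext.comp_assoc_of_second_deg_zero, Ext.mk₀_comp_mk₀_assoc, IsIso.inv_hom_id,
    Ext.mk₀_id_comp, Ext.comp_assoc_of_third_deg_zero]

theorem finite_of_fge [Module.Finite k A] (h : FGE k A) (M N : ModuleCat.{u} A)
    [Module.Finite A M] [Module.Finite A N] :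
    Module.Finite (⨁ n, EndExt (trivObj k A) n) (⨁ n, ActExt M N n) := by
  classical
  obtain ⟨r, ζ, hζ⟩ := h
  obtain ⟨N₀, hN⟩ := hζ ((ihom k M).obj N) (finite_ihom k M N)
  have h1 : ∀ n, ∃ t : Set (Ext M N n), t.Finite ∧ Submodule.span k t = ⊤ := by
    intro n
    have h : Module.Finite k (Ext M N n) := finite_ext k M N n
    exact Submodule.fg_def.1 h.fg_top
  choose t ht1 ht2 using h1
  set G : Set (⨁ n, ActExt M N n) :=
    ⋃ n ∈ Set.Iio N₀, (fun y : Ext M N n => DirectSum.of (ActExt M N) n y) '' (t n)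
    with hG
  have hGfin : G.Finite := Set.Finite.biUnion (Set.finite_Iio N₀) fun n _ => (ht1 n).image _
  have key : ∀ n, ∀ y : Ext M N n, DirectSum.of (ActExt M N) n y ∈
      Submodule.span (⨁ n, EndExt (trivObj k A) n) G := by
    intro n
    induction n using Nat.strong_induction_on with
    | _ n ih =>
      let W : Submodule k (Ext M N n) :=
        { carrier := {y | DirectSum.of (ActExt M N) n y ∈
            Submodule.span (⨁ n, EndExt (trivObj k A) n) G}
          add_mem' := fun {x y} hx hy => by
            have h : DirectSum.of (ActExt M N) n (x + y) =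
              DirectSum.of (ActExt M N) n x + DirectSum.of (ActExt M N) n y := map_add _ _ _
            change DirectSum.of (ActExt M N) n (x + y) ∈
              Submodule.span (⨁ n, EndExt (trivObj k A) n) G
            rw [h]
            exact add_mem hx hy
          zero_mem' := by
            have h : DirectSum.of (ActExt M N) n 0 = 0 := map_zero _
            change DirectSum.of (ActExt M N) n 0 ∈
              Submodule.span (⨁ n, EndExt (trivObj k A) n) G
            rw [h]
            exact zero_mem _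
          smul_mem' := fun c x hx => by
            change DirectSum.of (ActExt M N) n (c • x) ∈
              Submodule.span (⨁ n, EndExt (trivObj k A) n) G
            rw [of_smul_act]
            exact Submodule.smul_mem _ _ hx }
      intro y
      suffices h : W = ⊤ by
        have : y ∈ W := by rw [h]; exact Submodule.mem_top
        exact this
      rw [eq_top_iff]
      rcases Nat.lt_or_ge n N₀ with hn | hn
      · rw [← ht2 n, Submodule.span_le]
        intro y hy
        refine Submodule.subset_span ?_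
        rw [hG, Set.mem_iUnion₂]
        exact ⟨n, hn, y, hy, rfl⟩
      · have h2 : ζ.gen ((ihom k M).obj N) n ≤ W.comap (FG2_lam M N n) := by
          rw [Fam.gen_le_iff]
          intro i m h x
          rw [Submodule.mem_comap, FG2_lam_comp]
          change DirectSum.of (ActExt M N) n ((rst k M (ζ.cls i)).comp (FG2_lam M N m x) h) ∈
            Submodule.span (⨁ n, EndExt (trivObj k A) n) G
          rw [of_act]
          have := ζ.pos i
          exact Submodule.smul_mem _ _ (ih m (by omega) (FG2_lam M N m x))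
        rw [hN n hn] at h2
        intro y _
        obtain ⟨z, hz⟩ := exists_lift k M N y
        have h3 : FG2_lam M N n z ∈ W := h2 (Submodule.mem_top (x := z))
        exact hz ▸ h3
  refine ⟨Submodule.fg_def.2 ⟨G, hGfin, ?_⟩⟩
  rw [eq_top_iff]
  intro w _
  induction w using DirectSum.induction_on with
  | zero => exact zero_mem _
  | of n y => exact key n y
  | add y z hy hz => exact add_mem (hy trivial) (hz trivial)

end

end Pool.Agent.Helper90.FC
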