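import Pool.Agent.Helper90.FC.EvLem

/-!
# Project FC, piece COA: `FGC` implies `FGE`

`fge_of_fgc`: choose homogeneous algebra generators `a_1, …, a_s` of positive degree of
`E = ⨁ Ext^n(k, k)` (components of a finite generating set; `Ext^0(k, k) = k`), and take the family
`ζ_i = a_i²` (even degrees). Let `V` be the graded subspace of `E` whose components are
`∑ ζ_i Ext(k, k)`, and define `P_0 = k`, `P_(j+1) = P_j + a_j P_j`. By graded commutativity
(`comm_gr`) `P_s + V` is stable under multiplication by every `a_i`, so it is equal to `E`. The space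
`P_s` is finite-dimensional, so `Ext^n(k, k) = ∑ ζ_i Ext(k, k)` for `n` large, and the same follows
for `Ext^n(k, M)`, a finitely generated module (homogeneous generators).
-/

set_option linter.unusedSectionVars false
set_option autoImplicit false

open CategoryTheory CategoryTheory.Abelian CategoryTheory.Limits DirectSum
open scoped ModuleCat TensorProduct
open Pool.Agent.Helper59.FG

namespace Pool.Agent.Helper90.FC

universe u

section

variable {k : Type u} [Field k] {A : Type u} [Ring A] [Bialgebra k A]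

/-- Products in the cohomology algebra. -/
private theorem ConvA_of_comp {a b c : ℕ} (x : Ext (trivObj k A) (trivObj k A) a)
    (y : Ext (trivObj k A) (trivObj k A) b) (h : a + b = c) :
    DirectSum.of (EndExt (trivObj k A)) c (x.comp y h) =
      DirectSum.of (EndExt (trivObj k A)) a x * DirectSum.of (EndExt (trivObj k A)) b y := by
  have h1 := DirectSum.of_mul_of (A := EndExt (trivObj k A)) (i := a) (j := b) x y
  have h2 := DirectSum.of_eq_of_gradedMonoid_eq (A := EndExt (trivObj k A)) (comp_sigma x y h)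
  exact h2.symm.trans h1.symm

/-- The action in degree-free form. -/
private theorem ConvA_of_act (M : ModuleCat.{u} A) {a b c : ℕ}
    (x : Ext (trivObj k A) (trivObj k A) a) (y : Ext (trivObj k A) M b) (h : a + b = c) :
    DirectSum.of (KExt k M) c (x.comp y h) =
      DirectSum.of (EndExt (trivObj k A)) a x • DirectSum.of (KExt k M) b y := by
  have h1 := DirectSum.Gmodule.of_smul_of (A := EndExt (trivObj k A)) (M := KExt k M)
    (i := a) (j := b) x y
  have h2 := DirectSum.of_eq_of_gradedMonoid_eq (A := KExt k M) (comp_sigma x y h)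
  exact h2.symm.trans h1.symm

/-- `Ext^0(k, k) = k`. -/
private theorem ConvA_deg_zero (x : Ext (trivObj k A) (trivObj k A) 0) :
    ∃ c : k, x = c • Ext.mk₀ (𝟙 (trivObj k A)) := by
  obtain ⟨f, rfl⟩ := (Ext.mk₀_bijective _ _).2 x
  refine ⟨(show k from f.hom (oneT k A)), ?_⟩
  rw [← Ext.mk₀_smul]
  congr 1
  ext y
  have h : ∀ z : k, algebraMap k A z • oneT k A = (show trivObj k A from z) := by
    intro z
    change (Bialgebra.counitAlgHom k A (algebraMap k A z) * 1 : k) = z
    rw [AlgHom.commutes, mul_one]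
    rfl
  have h1 : ∀ (z : k) (w : trivObj k A), algebraMap k A z • w =
      (show trivObj k A from (z * (show k from w) : k)) := by
    intro z w
    change (Bialgebra.counitAlgHom k A (algebraMap k A z) * (show k from w) : k) = _
    rw [AlgHom.commutes]
    rfl
  have h2 : f.hom y = algebraMap k A (show k from y) • f.hom (oneT k A) := by
    rw [← map_smul, h]
  have h3 : ((show k from f.hom (oneT k A)) • (𝟙 (trivObj k A))).hom y =
      algebraMap k A (show k from f.hom (oneT k A)) • y := rfl
  rw [h2, h3, h1, h1]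
  exact mul_comm (show k from y) (show k from f.hom (oneT k A))

/-- The graded subspace of `E` with components `gen`. -/
private def ConvA_V {ι : Type} (ζ : Fam k A ι) : Submodule k (⨁ n, EndExt (trivObj k A) n) where
  carrier := {w | ∀ n, w n ∈ ζ.gen (trivObj k A) n}
  add_mem' {x y} hx hy n := by
    rw [DirectSum.add_apply]
    exact add_mem (hx n) (hy n)
  zero_mem' n := zero_mem _
  smul_mem' c x hx n := by
    rw [DirectSum.smul_apply]
    exact Submodule.smul_mem _ _ (hx n)

private theorem ConvA_of_mem_V {ι : Type} (ζ : Fam k A ι) {n : ℕ}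
    (x : Ext (trivObj k A) (trivObj k A) n) (hx : x ∈ ζ.gen (trivObj k A) n) :
    DirectSum.of (EndExt (trivObj k A)) n x ∈ ConvA_V ζ := by
  intro m
  rcases eq_or_ne n m with rfl | hnm
  · rw [DirectSum.of_eq_same]
    exact hx
  · rw [DirectSum.of_eq_of_ne n m x hnm.symm]
    exact zero_mem _

/-- `gen` is stable under left multiplication. -/
private theorem ConvA_gen_comp {ι : Type} (ζ : Fam k A ι) {a b c : ℕ}
    (x : Ext (trivObj k A) (trivObj k A) a) (y : Ext (trivObj k A) (trivObj k A) b)
    (hy : y ∈ ζ.gen (trivObj k A) b) (h : a + b = c) :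
    x.comp y h ∈ ζ.gen (trivObj k A) c := by
  have h1 : ζ.gen (trivObj k A) b ≤
      (ζ.gen (trivObj k A) c).comap (x.precompOfLinear k (trivObj k A) h) := by
    rw [Fam.gen_le_iff]
    intro i m hm z
    have h3 : x.comp ((ζ.cls i).comp z hm) h =
        (ζ.cls i).comp (x.comp z rfl) (show ζ.deg i + (a + m) = c by omega) := by
      rw [← Ext.comp_assoc x (ζ.cls i) z (rfl : a + ζ.deg i = a + ζ.deg i) hm (by omega),
        ← Ext.comp_assoc (ζ.cls i) x z (rfl : ζ.deg i + a = ζ.deg i + a) rfl (by omega)]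
      have h4 := comm_even k (ζ.cls i) x (show ζ.deg i + a = a + ζ.deg i by omega)
        (rfl : a + ζ.deg i = a + ζ.deg i) (ζ.even i)
      rw [← h4]
      have h5 : ∀ (e : ℕ) (he : ζ.deg i + a = e) (hc : e + m = c),
          ((ζ.cls i).comp x he).comp z hc =
            ((ζ.cls i).comp x (rfl : ζ.deg i + a = ζ.deg i + a)).comp z (by omega) := by
        intro e he hc
        subst he
        rfl
      exact h5 _ _ _
    change x.comp ((ζ.cls i).comp z hm) h ∈ ζ.gen (trivObj k A) c
    rw [h3]
    exact ζ.mem_gen i _ _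
  exact h1 hy

/-- `V` is stable under left multiplication by homogeneous elements. -/
private theorem ConvA_mul_V {ι : Type} (ζ : Fam k A ι) {a : ℕ}
    (x : Ext (trivObj k A) (trivObj k A) a) (w : ⨁ n, EndExt (trivObj k A) n)
    (hw : w ∈ ConvA_V ζ) : DirectSum.of (EndExt (trivObj k A)) a x * w ∈ ConvA_V ζ := by
  classical
  rw [← DirectSum.sum_support_of w, Finset.mul_sum]
  refine Submodule.sum_mem _ fun n _ => ?_
  rw [← ConvA_of_comp x (w n) rfl]
  exact ConvA_of_mem_V ζ _ (ConvA_gen_comp ζ x (w n) (hw n) rfl)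

/-- `(ζ i) E ⊆ V`. -/
private theorem ConvA_cls_mul {ι : Type} (ζ : Fam k A ι) (i : ι)
    (w : ⨁ n, EndExt (trivObj k A) n) :
    DirectSum.of (EndExt (trivObj k A)) (ζ.deg i) (ζ.cls i) * w ∈ ConvA_V ζ := by
  classical
  rw [← DirectSum.sum_support_of w, Finset.mul_sum]
  refine Submodule.sum_mem _ fun n _ => ?_
  rw [← ConvA_of_comp (ζ.cls i) (w n) rfl]
  exact ConvA_of_mem_V ζ _ (ζ.mem_gen i rfl _)

/-- Homogeneous elements as elements of `E`. -/
private noncomputable def ConvA_el (a : Σ n, Ext (trivObj k A) (trivObj k A) n) :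
    ⨁ n, EndExt (trivObj k A) n := DirectSum.of (EndExt (trivObj k A)) a.1 a.2

private theorem ConvA_el_comm (a b : Σ n, Ext (trivObj k A) (trivObj k A) n) :
    ∃ c : k, ConvA_el a * ConvA_el b = c • (ConvA_el b * ConvA_el a) := by
  refine ⟨(-1) ^ (a.1 * b.1), ?_⟩
  unfold ConvA_el
  rw [← ConvA_of_comp a.2 b.2 rfl, ← ConvA_of_comp b.2 a.2 (Nat.add_comm b.1 a.1),
    comm_gr k a.2 b.2 rfl (Nat.add_comm b.1 a.1)]
  rcases neg_one_pow_eq_or ℤ (a.1 * b.1) with h | h <;>
    rcases Nat.even_or_odd (a.1 * b.1) with h' | h'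
  · rw [h'.neg_one_pow, h'.neg_one_pow, one_smul, one_smul]
  · rw [h'.neg_one_pow] at h
    norm_num at h
  · rw [h'.neg_one_pow] at h
    norm_num at h
  · rw [h'.neg_one_pow, h'.neg_one_pow, neg_one_smul, neg_one_smul, map_neg]

/-- The finite-dimensional spaces `P`. -/
private noncomputable def ConvA_P :
    List (Σ n, Ext (trivObj k A) (trivObj k A) n) → Submodule k (⨁ n, EndExt (trivObj k A) n)
  | [] => Submodule.span k {1}
  | a :: L => ConvA_P L ⊔ (ConvA_P L).map (LinearMap.mulLeft k (ConvA_el a))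

private theorem ConvA_P_fg (L : List (Σ n, Ext (trivObj k A) (trivObj k A) n)) :
    (ConvA_P L).FG := by
  induction L with
  | nil => exact Submodule.fg_span (Set.finite_singleton _)
  | cons a L ih => exact ih.sup (ih.map _)

private theorem ConvA_one_mem (L : List (Σ n, Ext (trivObj k A) (trivObj k A) n)) :
    (1 : ⨁ n, EndExt (trivObj k A) n) ∈ ConvA_P L := by
  induction L with
  | nil => exact Submodule.subset_span rfl
  | cons a L ih => exact Submodule.mem_sup_left ih

/-- Stability of `P + V`. -/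
private theorem ConvA_P_mul (V : Submodule k (⨁ n, EndExt (trivObj k A) n))
    (hV : ∀ (a : Σ n, Ext (trivObj k A) (trivObj k A) n), ∀ w ∈ V, ConvA_el a * w ∈ V)
    (L : List (Σ n, Ext (trivObj k A) (trivObj k A) n))
    (hL : ∀ a ∈ L, ∀ w, ConvA_el a * (ConvA_el a * w) ∈ V) :
    ∀ a ∈ L, ∀ w ∈ ConvA_P L, ConvA_el a * w ∈ ConvA_P L ⊔ V := by
  induction L with
  | nil => simp
  | cons b L ih =>
    have ih' := ih fun a ha => hL a (List.mem_cons_of_mem _ ha)
    intro a ha w hw
    have hP : ConvA_P (b :: L) =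
      ConvA_P L ⊔ (ConvA_P L).map (LinearMap.mulLeft k (ConvA_el b)) := rfl
    rw [hP] at hw
    obtain ⟨w₁, hw₁, w₂, hw₂, rfl⟩ := Submodule.mem_sup.1 hw
    obtain ⟨w₃, hw₃, rfl⟩ := hw₂
    rw [LinearMap.mulLeft_apply, mul_add]
    have hb : ∀ w ∈ ConvA_P L, ConvA_el b * w ∈ ConvA_P (b :: L) := fun w hw =>
      Submodule.mem_sup_right ⟨w, hw, rfl⟩
    have hle : ConvA_P L ≤ ConvA_P (b :: L) := le_sup_left
    rcases List.mem_cons.1 ha with rfl | ha'
    · exact add_mem (Submodule.mem_sup_left (hb _ hw₁))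
        (Submodule.mem_sup_right (hL _ List.mem_cons_self _))
    · refine add_mem (sup_le_sup_right hle V (ih' a ha' w₁ hw₁)) ?_
      obtain ⟨c, hc⟩ := ConvA_el_comm a b
      rw [← mul_assoc, hc, smul_mul_assoc, mul_assoc]
      refine Submodule.smul_mem _ _ ?_
      obtain ⟨u, hu, v, hv, huv⟩ := Submodule.mem_sup.1 (ih' a ha' w₃ hw₃)
      rw [← huv, mul_add]
      exact add_mem (Submodule.mem_sup_left (hb _ hu)) (Submodule.mem_sup_right (hV b v hv))

private theorem ConvA_top (V : Submodule k (⨁ n, EndExt (trivObj k A) n))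
    (hV : ∀ (a : Σ n, Ext (trivObj k A) (trivObj k A) n), ∀ w ∈ V, ConvA_el a * w ∈ V)
    (L : List (Σ n, Ext (trivObj k A) (trivObj k A) n))
    (hL : ∀ a ∈ L, ∀ w, ConvA_el a * (ConvA_el a * w) ∈ V)
    (hgen : Algebra.adjoin k {x | ∃ a ∈ L, x = ConvA_el a} = ⊤) : ConvA_P L ⊔ V = ⊤ := by
  have key : ∀ x : ⨁ n, EndExt (trivObj k A) n,
      ∀ w ∈ ConvA_P L ⊔ V, x * w ∈ ConvA_P L ⊔ V := by
    intro x
    have hx : x ∈ Algebra.adjoin k {x | ∃ a ∈ L, x = ConvA_el a} := by
      rw [hgen]
      exact Algebra.mem_top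
    induction hx using Algebra.adjoin_induction with
    | mem x hx =>
      obtain ⟨a, ha, rfl⟩ := hx
      intro w hw
      obtain ⟨u, hu, v, hv, rfl⟩ := Submodule.mem_sup.1 hw
      rw [mul_add]
      exact add_mem (ConvA_P_mul V hV L hL a ha u hu) (Submodule.mem_sup_right (hV a v hv))
    | algebraMap r =>
      intro w hw
      rw [← Algebra.smul_def]
      exact Submodule.smul_mem _ _ hw
    | add x y _ _ hx hy =>
      intro w hw
      rw [add_mul]
      exact add_mem (hx w hw) (hy w hw)
    | mul x y _ _ hx hy =>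
      intro w hw
      rw [mul_assoc]
      exact hx _ (hy w hw)
  rw [eq_top_iff]
  intro x _
  have := key x 1 (Submodule.mem_sup_left (ConvA_one_mem L))
  rwa [mul_one] at this

/-- Finitely generated subspaces are bounded. -/
private theorem ConvA_bdd (W : Submodule k (⨁ n, EndExt (trivObj k A) n)) (hW : W.FG) :
    ∃ N : ℕ, ∀ w ∈ W, ∀ n, N ≤ n → w n = 0 := by
  classical
  obtain ⟨S, rfl⟩ := hW
  refine ⟨(S.sup fun w => w.support.sup id) + 1, fun w hw n hn => ?_⟩
  induction hw using Submodule.span_induction with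
  | mem x hx =>
    by_contra h
    have h1 : n ∈ x.support := DFinsupp.mem_support_iff.2 h
    have h2 : n ≤ x.support.sup id := Finset.le_sup (f := id) h1
    have h3 : x.support.sup id ≤ S.sup fun w => w.support.sup id :=
      Finset.le_sup (f := fun w : ⨁ n, EndExt (trivObj k A) n => w.support.sup id) hx
    omega
  | zero => rfl
  | add x y _ _ hx hy => rw [DirectSum.add_apply, hx, hy, add_zero]
  | smul c x _ hx => rw [DirectSum.smul_apply, hx, smul_zero]

/-- Homogeneous generators of positive degree. -/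
private theorem ConvA_exists_list (h : Algebra.FiniteType k (⨁ n, EndExt (trivObj k A) n)) :
    ∃ L : List (Σ n, Ext (trivObj k A) (trivObj k A) n), (∀ a ∈ L, 0 < a.1) ∧
      Algebra.adjoin k {x | ∃ a ∈ L, x = ConvA_el a} = ⊤ := by
  classical
  obtain ⟨S, hS⟩ := h.out
  let T : Finset (Σ n, Ext (trivObj k A) (trivObj k A) n) :=
    S.biUnion fun s => (s.support.filter fun n => 0 < n).image fun n => ⟨n, s n⟩
  refine ⟨T.toList, ?_, ?_⟩
  · intro a ha
    rw [Finset.mem_toList] at ha
    obtain ⟨s, _, hs⟩ := Finset.mem_biUnion.1 ha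
    obtain ⟨n, hn, rfl⟩ := Finset.mem_image.1 hs
    exact (Finset.mem_filter.1 hn).2
  · rw [eq_top_iff, ← hS]
    refine Algebra.adjoin_le ?_
    intro s hs
    rw [SetLike.mem_coe, ← DirectSum.sum_support_of s]
    refine Subalgebra.sum_mem _ fun n hn => ?_
    rcases Nat.eq_zero_or_pos n with rfl | hpos
    · obtain ⟨c, hc⟩ := ConvA_deg_zero (s 0)
      have h1 : DirectSum.of (EndExt (trivObj k A)) 0 (s 0) =
          algebraMap k (⨁ n, EndExt (trivObj k A) n) c := by
        rw [hc]
        rfl
      rw [h1]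
      exact Subalgebra.algebraMap_mem _ c
    · refine Algebra.subset_adjoin ⟨⟨n, s n⟩, ?_, rfl⟩
      rw [Finset.mem_toList]
      exact Finset.mem_biUnion.2 ⟨s, hs, Finset.mem_image.2
        ⟨n, Finset.mem_filter.2 ⟨hn, hpos⟩, rfl⟩⟩

/-- The component of degree `n` lies in `gen`. -/
private def ConvA_In {ι : Type} (ζ : Fam k A ι) (M : ModuleCat.{u} A) (n : ℕ)
    (x : KExt k M n) : Prop := @id (Ext (trivObj k A) M n) x ∈ ζ.gen M n

private theorem ConvA_In_zero {ι : Type} (ζ : Fam k A ι) (M : ModuleCat.{u} A) (n : ℕ) :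
    ConvA_In ζ M n 0 := zero_mem (ζ.gen M n)

private theorem ConvA_In_add {ι : Type} (ζ : Fam k A ι) (M : ModuleCat.{u} A) (n : ℕ)
    {x y : KExt k M n} (hx : ConvA_In ζ M n x) (hy : ConvA_In ζ M n y) :
    ConvA_In ζ M n (x + y) := add_mem (S := Submodule k (Ext (trivObj k A) M n)) hx hy

private theorem ConvA_In_of {ι : Type} (ζ : Fam k A ι) (M : ModuleCat.{u} A) (n d : ℕ)
    (x : KExt k M d) (hx : d = n → ConvA_In ζ M d x) :
    ConvA_In ζ M n (DirectSum.of (KExt k M) d x n) := by
  rcases eq_or_ne d n with rfl | hne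
  · rw [DirectSum.of_eq_same]
    exact hx rfl
  · rw [DirectSum.of_eq_of_ne _ _ _ hne.symm]
    exact ConvA_In_zero ζ M n

private theorem ConvA_In_comp {ι : Type} (ζ : Fam k A ι) (M : ModuleCat.{u} A) {a b : ℕ}
    (x : Ext (trivObj k A) (trivObj k A) a) (hx : x ∈ ζ.gen (trivObj k A) a)
    (y : Ext (trivObj k A) M b) : ConvA_In ζ M (a + b) (x.comp y rfl) := by
  have h1 : ζ.gen (trivObj k A) a ≤
      (ζ.gen M (a + b)).comap (y.postcompOfLinear k (trivObj k A) rfl) := by
    rw [Fam.gen_le_iff]
    intro i m hm z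
    change ((ζ.cls i).comp z hm).comp y rfl ∈ ζ.gen M (a + b)
    rw [Ext.comp_assoc (ζ.cls i) z y hm (rfl : m + b = m + b) (by omega)]
    exact ζ.mem_gen i _ _
  exact h1 hx

end

section

variable {k : Type u} [Field k] {A : Type u} [Ring A] [Bialgebra k A] [Module.Finite k A]

/-- Eventual decomposition of `Ext(k, k)`: there are finitely many homogeneous elements `a_i` of
positive degree such that for large `n` every class of degree `n` is a sum of classes
`(a_i a_i) y`. -/
theorem evGen_sq (h : Algebra.FiniteType k (⨁ n, EndExt (trivObj k A) n)) :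
    ∃ (r : ℕ) (ζ : Fam k A (Fin r)), ζ.EvGen (trivObj k A) := by
  obtain ⟨L, hL, hgen⟩ := ConvA_exists_list h
  let ζ : Fam k A (Fin L.length) :=
    { deg := fun i => (L.get i).1 + (L.get i).1
      cls := fun i => (L.get i).2.comp (L.get i).2 rfl
      pos := fun i => by
        have := hL _ (List.get_mem L i)
        omega
      even := fun i => ⟨_, rfl⟩ }
  refine ⟨L.length, ζ, ?_⟩
  have h1 : ConvA_P L ⊔ ConvA_V ζ = ⊤ := by
    refine ConvA_top (ConvA_V ζ) (fun a w hw => ConvA_mul_V ζ a.2 w hw) L ?_ hgen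
    intro a ha w
    obtain ⟨i, rfl⟩ := List.get_of_mem ha
    rw [← mul_assoc]
    have h2 := ConvA_cls_mul ζ i w
    have h3 : DirectSum.of (EndExt (trivObj k A)) (ζ.deg i) (ζ.cls i) =
        ConvA_el (L.get i) * ConvA_el (L.get i) := ConvA_of_comp _ _ rfl
    rwa [h3] at h2
  obtain ⟨N, hN⟩ := ConvA_bdd (ConvA_P L) (ConvA_P_fg L)
  refine ⟨N, fun n hn => ?_⟩
  rw [eq_top_iff]
  intro y _
  have h2 : DirectSum.of (EndExt (trivObj k A)) n y ∈ ConvA_P L ⊔ ConvA_V ζ := by
    rw [h1]
    exact Submodule.mem_top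
  obtain ⟨u, hu, v, hv, huv⟩ := Submodule.mem_sup.1 h2
  have h3 : v n = y := by
    have h4 := congrArg (fun w : ⨁ n, EndExt (trivObj k A) n => w n) huv
    simp only [DirectSum.add_apply, hN u hu n hn, zero_add, DirectSum.of_eq_same] at h4
    exact h4
  rw [← h3]
  exact hv n

theorem fge_of_fgc (h : FGC k A) : FGE k A := by
  classical
  obtain ⟨r, ζ, N, hN⟩ := evGen_sq h.1
  refine ⟨r, ζ, fun M hM => ?_⟩
  obtain ⟨S, hS⟩ := (h.2 M hM).fg_top
  -- a bound for the degrees of the generators
  let D : ℕ := S.sup fun w => w.support.sup id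
  refine ⟨N + D, ?_⟩
  have key : ∀ w : ⨁ n, KExt k M n, ∀ e : ⨁ n, EndExt (trivObj k A) n,
      ∀ n, N + D ≤ n → ConvA_In ζ M n ((e • w) n) := by
    intro w
    have hw : w ∈ Submodule.span (⨁ n, EndExt (trivObj k A) n) (S : Set (⨁ n, KExt k M n)) := by
      rw [hS]
      exact Submodule.mem_top
    induction hw using Submodule.span_induction with
    | mem x hx =>
      intro e n hn
      induction e using DirectSum.induction_on with
      | zero =>
        rw [zero_smul]
        exact ConvA_In_zero ζ M n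
      | add e f he hf =>
        rw [add_smul, DirectSum.add_apply]
        exact ConvA_In_add ζ M n he hf
      | of a y =>
        have h1 : DirectSum.of (EndExt (trivObj k A)) a y • x =
            ∑ d ∈ x.support, DirectSum.of (EndExt (trivObj k A)) a y •
              DirectSum.of (KExt k M) d (x d) := by
          rw [← Finset.smul_sum, DirectSum.sum_support_of x]
        have h2 : ∀ d ∈ x.support, d ≤ D := by
          intro d hd
          have h3 : d ≤ x.support.sup id := Finset.le_sup (f := id) hd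
          have h4 : x.support.sup id ≤ D :=
            Finset.le_sup (f := fun w : ⨁ n, KExt k M n => w.support.sup id) hx
          omega
        rw [h1]
        generalize x.support = U at h2
        induction U using Finset.induction_on with
        | empty =>
          rw [Finset.sum_empty]
          exact ConvA_In_zero ζ M n
        | insert d U hd ih =>
          rw [Finset.sum_insert hd, DirectSum.add_apply]
          refine ConvA_In_add ζ M n ?_ (ih fun e he => h2 e (Finset.mem_insert_of_mem he))
          have h4 := h2 d (Finset.mem_insert_self _ _)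
          have h3 := ConvA_of_act M y (x d : Ext (trivObj k A) M d) rfl
          have h5 := ConvA_In_of ζ M n (a + d)
            (Ext.comp y (x d : Ext (trivObj k A) M d) rfl) (fun hadn => by
              refine ConvA_In_comp ζ M y ?_ _
              rw [hN a (by omega)]
              exact Submodule.mem_top)
          rw [h3] at h5
          exact h5
    | zero =>
      intro e n hn
      rw [smul_zero]
      exact ConvA_In_zero ζ M n
    | add x y _ _ hx hy =>
      intro e n hn
      rw [smul_add, DirectSum.add_apply]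
      exact ConvA_In_add ζ M n (hx e n hn) (hy e n hn)
    | smul f x _ hx =>
      intro e n hn
      rw [smul_smul]
      exact hx (e * f) n hn
  intro n hn
  rw [eq_top_iff]
  intro y _
  have h1 := key (DirectSum.of (KExt k M) n y) 1 n hn
  rw [one_smul] at h1
  have h2 : DirectSum.of (KExt k M) n y n = y := DirectSum.of_eq_same _ _
  rw [h2] at h1
  exact h1

end

end Pool.Agent.Helper90.FC
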