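import Pool.Agent.Helper90.FC.Acyc

/-!
# Project FC, piece SPL: the split case

If the augmentation ideal `A⁺` of a finite-dimensional commutative Hopf algebra satisfies
`A⁺ = (A⁺)²` then it is generated by an idempotent `1 - Λ`
(`Ideal.isIdempotentElem_iff_of_fg`), `A⁺ Λ = 0`, `ε(Λ) = 1` and the trivial module is a direct
summand of `A`, hence projective.

This is the case if the `p`-th powers span `A` (`A⁺` is spanned by `p`-th powers of elements of
`A⁺`), and if `k` has characteristic `0`: otherwise there are `x ∈ A⁺` and a linear form `v` with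
`v(ab) = ε(a) v(b) + v(a) ε(b)` and `v(x) = 1`; `D = (id ⊗ v) Δ` is a derivation of `A` with
`D(I^(m+1)) ⊆ I^m` (`I = A⁺`), `D x - 1 ∈ I`; `J = ⋂ I^m = I^N` is stable under `D`; if `m` is
minimal with `x^m ∈ J` then `m x^(m-1) D x ∈ J` and `D x` is invertible modulo `J`, so
`x^(m-1) ∈ J`, a contradiction (`m ≥ 1` as `1` is not in `J`).
-/

set_option linter.unusedSectionVars false
set_option autoImplicit false

open CategoryTheory CategoryTheory.Abelian CategoryTheory.Limits
open scoped ModuleCat TensorProduct
open Pool.Agent.Helper59.FG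

namespace Pool.Agent.Helper90.FC

universe u

/-- The augmentation ideal. -/
noncomputable def augI (k : Type u) [Field k] (A : Type u) [CommRing A] [Bialgebra k A] :
    Ideal A := RingHom.ker (Bialgebra.counitAlgHom k A).toRingHom

section

variable {k : Type u} [Field k] {A : Type u} [CommRing A] [Bialgebra k A]

private theorem Split_mem (a : A) : a ∈ augI k A ↔ Coalgebra.counit (R := k) a = 0 := Iff.rfl

private theorem Split_sub_mem (a : A) :
    a - algebraMap k A (Coalgebra.counit (R := k) a) ∈ augI k A := by
  rw [Split_mem, map_sub, Bialgebra.counit_algebraMap, sub_self]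

private theorem Split_one_notMem : (1 : A) ∉ augI k A := by
  rw [Split_mem, Bialgebra.counit_one]
  exact one_ne_zero

/-- The map `A ⊗ A → A`, `a ⊗ b ↦ v(b) a`. -/
private noncomputable def Split_F (v : A →ₗ[k] k) : A ⊗[k] A →ₗ[k] A :=
  (TensorProduct.rid k A).toLinearMap ∘ₗ v.lTensor A

private theorem Split_F_tmul (v : A →ₗ[k] k) (a b : A) :
    Split_F v (a ⊗ₜ[k] b) = v b • a := by
  simp [Split_F]

private theorem Split_F_mul (v : A →ₗ[k] k)
    (hv : ∀ a b : A, v (a * b) = Coalgebra.counit (R := k) a * v b +
      v a * Coalgebra.counit (R := k) b) (s t : A ⊗[k] A) :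
    Split_F v (s * t) = Split_F (Coalgebra.counit (R := k)) s * Split_F v t +
      Split_F v s * Split_F (Coalgebra.counit (R := k)) t := by
  induction s using TensorProduct.induction_on with
  | zero => simp
  | add s s' hs hs' =>
    rw [add_mul, map_add, hs, hs', map_add, map_add]
    ring
  | tmul a b =>
    induction t using TensorProduct.induction_on with
    | zero => simp
    | add t t' ht ht' =>
      rw [mul_add, map_add, ht, ht', map_add, map_add]
      ring
    | tmul c d =>
      rw [Algebra.TensorProduct.tmul_mul_tmul]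
      simp only [Split_F_tmul]
      rw [hv, add_smul, smul_mul_smul_comm, smul_mul_smul_comm]

private theorem Split_F_counit (v : A →ₗ[k] k) (t : A ⊗[k] A) :
    Coalgebra.counit (R := k) (Split_F v t) =
      v ((TensorProduct.lid k A) ((Coalgebra.counit (R := k)).rTensor A t)) := by
  induction t using TensorProduct.induction_on with
  | zero => simp
  | add s t hs ht => simp only [map_add, hs, ht]
  | tmul a b =>
    rw [Split_F_tmul]
    simp [mul_comm]

/-- The derivation `(id ⊗ v) Δ`. -/
private noncomputable def Split_D (v : A →ₗ[k] k) : A →ₗ[k] A :=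
  Split_F v ∘ₗ Coalgebra.comul

private theorem Split_D_mul (v : A →ₗ[k] k)
    (hv : ∀ a b : A, v (a * b) = Coalgebra.counit (R := k) a * v b +
      v a * Coalgebra.counit (R := k) b) (a b : A) :
    Split_D v (a * b) = a * Split_D v b + b * Split_D v a := by
  have h : ∀ c : A, Split_F (Coalgebra.counit (R := k)) (Coalgebra.comul (R := k) c) = c := by
    intro c
    rw [Split_F, LinearMap.comp_apply, Coalgebra.lTensor_counit_comul]
    simp
  change Split_F v (Coalgebra.comul (R := k) (a * b)) = a * Split_F v (Coalgebra.comul b) +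
    b * Split_F v (Coalgebra.comul a)
  rw [Bialgebra.comul_mul, Split_F_mul v hv, h, h, mul_comm b]

private theorem Split_D_counit (v : A →ₗ[k] k) (a : A) :
    Coalgebra.counit (R := k) (Split_D v a) = v a := by
  change Coalgebra.counit (R := k) (Split_F v (Coalgebra.comul a)) = v a
  rw [Split_F_counit, Coalgebra.rTensor_counit_comul]
  simp

private theorem Split_D_pow (D : A →ₗ[k] A) (hD : ∀ a b, D (a * b) = a * D b + b * D a) (x : A)
    (n : ℕ) : D (x ^ (n + 1)) = ((n : A) + 1) * (x ^ n * D x) := by
  induction n with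
  | zero => simp
  | succ n ih =>
    rw [pow_succ x (n + 1), hD, ih]
    push_cast
    ring

private theorem Split_D_ideal (D : A →ₗ[k] A) (hD : ∀ a b, D (a * b) = a * D b + b * D a)
    (I : Ideal A) (n : ℕ) : ∀ a ∈ I ^ (n + 1), D a ∈ I ^ n := by
  induction n with
  | zero => simp
  | succ n ih =>
    intro a ha
    rw [pow_succ' I (n + 1)] at ha
    refine Submodule.mul_induction_on ha ?_ ?_
    · intro b hb c hc
      rw [hD]
      refine add_mem ?_ (Ideal.mul_mem_right _ _ hc)
      rw [pow_succ']
      exact Ideal.mul_mem_mul hb (ih c hc)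
    · intro b c hb hc
      rw [map_add]
      exact add_mem hb hc

end

section

variable {k : Type u} [Field k] {A : Type u} [CommRing A] [Bialgebra k A] [Module.Finite k A]

theorem proj_of_idem (h : augI k A ^ 2 = augI k A) : Projective (trivObj k A) := by
  have hA : IsNoetherianRing A := isNoetherian_of_tower k (inferInstance : IsNoetherian k A)
  have hfg : (augI k A).FG := hA.noetherian _
  have hid : IsIdempotentElem (augI k A) := by
    rw [IsIdempotentElem, ← pow_two, h]
  obtain ⟨e, he, hI⟩ := (Ideal.isIdempotentElem_iff_of_fg _ hfg).1 hid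
  have heI : e ∈ augI k A := by
    rw [hI]
    exact Ideal.subset_span rfl
  have hkill : ∀ a ∈ augI k A, a * (1 - e) = 0 := by
    intro a ha
    rw [hI] at ha
    obtain ⟨c, rfl⟩ := Ideal.mem_span_singleton'.1 ha
    have he' : e * e = e := he
    rw [mul_assoc, mul_sub, he', mul_one, sub_self, mul_zero]
  have hact : ∀ (a : A) (x : trivObj k A), a • x =
      (show trivObj k A from (Coalgebra.counit (R := k) a * (show k from x) : k)) :=
    fun _ _ => rfl
  let i : trivObj k A →ₗ[A] A :=
    { toFun := fun x => algebraMap k A (show k from x) * (1 - e)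
      map_add' := fun x y => by
        change algebraMap k A ((show k from x) + (show k from y)) * (1 - e) = _
        rw [map_add, add_mul]
      map_smul' := fun a x => by
        change algebraMap k A (Coalgebra.counit (R := k) a * (show k from x)) * (1 - e) =
          a * (algebraMap k A (show k from x) * (1 - e))
        have h1 := hkill _ (Split_sub_mem (k := k) a)
        rw [sub_mul, sub_eq_zero] at h1
        rw [map_mul, mul_left_comm a, h1]
        ring }
  let s : A →ₗ[A] trivObj k A := LinearMap.toSpanSingleton A (trivObj k A) (oneT k A)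
  have hs : s ∘ₗ i = LinearMap.id := by
    refine LinearMap.ext fun x => ?_
    change (Coalgebra.counit (R := k) (algebraMap k A (show k from x) * (1 - e)) * 1 : k) =
      (show k from x)
    have he0 : Coalgebra.counit (R := k) e = 0 := heI
    rw [Bialgebra.counit_mul, Bialgebra.counit_algebraMap, map_sub, he0, Bialgebra.counit_one,
      sub_zero, mul_one, mul_one]
  have hp : Module.Projective A (trivObj k A) := Module.Projective.of_split i s hs
  exact (IsProjective.iff_projective (R := A) (trivObj k A)).1 hp

theorem idem_of_pow (p : ℕ) [Fact p.Prime] [CharP k p]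
    (hA : Submodule.span k (Set.range fun b : A => b ^ p) = ⊤) : augI k A ^ 2 = augI k A := by
  have hinj : Function.Injective (algebraMap k A) := by
    intro a b hab
    have := congrArg (Coalgebra.counit (R := k)) hab
    rwa [Bialgebra.counit_algebraMap, Bialgebra.counit_algebraMap] at this
  have hch : CharP A p := charP_of_injective_algebraMap hinj p
  refine le_antisymm (Ideal.pow_le_self two_ne_zero) fun x hx => ?_
  have key : ∀ a : A, a - algebraMap k A (Coalgebra.counit (R := k) a) ∈ augI k A ^ 2 := by
    intro a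
    have ha : a ∈ Submodule.span k (Set.range fun b : A => b ^ p) := by
      rw [hA]
      exact Submodule.mem_top
    induction ha using Submodule.span_induction with
    | mem a ha =>
      obtain ⟨b, rfl⟩ := ha
      have h1 : Coalgebra.counit (R := k) (b ^ p) = Coalgebra.counit (R := k) b ^ p :=
        map_pow (Bialgebra.counitAlgHom k A) b p
      change b ^ p - algebraMap k A (Coalgebra.counit (R := k) (b ^ p)) ∈ _
      rw [h1, map_pow, ← sub_pow_char]
      exact Ideal.pow_le_pow_right (Fact.out : p.Prime).two_le
        (Ideal.pow_mem_pow (Split_sub_mem b) p)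
    | zero => simp
    | add a b _ _ ha hb =>
      rw [map_add, map_add, add_sub_add_comm]
      exact add_mem ha hb
    | smul c a _ ha =>
      have h1 : c • a - algebraMap k A (Coalgebra.counit (R := k) (c • a)) =
          algebraMap k A c * (a - algebraMap k A (Coalgebra.counit (R := k) a)) := by
        rw [map_smul, smul_eq_mul, map_mul, mul_sub, Algebra.smul_def]
      rw [h1]
      exact Ideal.mul_mem_left _ _ ha
  have h1 := key x
  have h2 : Coalgebra.counit (R := k) x = 0 := hx
  rwa [h2, map_zero, sub_zero] at h1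

theorem idem_of_charZero [CharZero k] : augI k A ^ 2 = augI k A := by
  classical
  refine le_antisymm (Ideal.pow_le_self two_ne_zero) fun x hx => ?_
  by_contra hx2
  -- a point derivation `v` with `v x = 1`
  obtain ⟨w, hw1, hw2⟩ : ∃ w : A →ₗ[k] k, w x = 1 ∧ ∀ a ∈ augI k A ^ 2, w a = 0 := by
    let W : Submodule k A := (augI k A ^ 2).restrictScalars k
    have hxW : x ∉ W := hx2
    obtain ⟨f, hf1, hf2⟩ := Submodule.exists_le_ker_of_notMem hxW
    refine ⟨(f x)⁻¹ • f, ?_, fun a ha => ?_⟩
    · rw [LinearMap.smul_apply, smul_eq_mul, inv_mul_cancel₀ hf1]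
    · rw [LinearMap.smul_apply, LinearMap.mem_ker.1 (hf2 (show a ∈ W from ha)), smul_zero]
  let v : A →ₗ[k] k := w ∘ₗ (LinearMap.id -
    (Algebra.linearMap k A) ∘ₗ (Coalgebra.counit (R := k) (A := A)))
  have hv0 : ∀ a, v a = w (a - algebraMap k A (Coalgebra.counit (R := k) a)) := fun a => rfl
  have hv : ∀ a b : A, v (a * b) = Coalgebra.counit (R := k) a * v b +
      v a * Coalgebra.counit (R := k) b := by
    intro a b
    have h1 : a * b - algebraMap k A (Coalgebra.counit (R := k) (a * b)) =
        (a - algebraMap k A (Coalgebra.counit (R := k) a)) *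
          (b - algebraMap k A (Coalgebra.counit (R := k) b)) +
        (Coalgebra.counit (R := k) a • (b - algebraMap k A (Coalgebra.counit (R := k) b)) +
        Coalgebra.counit (R := k) b • (a - algebraMap k A (Coalgebra.counit (R := k) a))) := by
      rw [Bialgebra.counit_mul, map_mul, Algebra.smul_def, Algebra.smul_def]
      ring
    rw [hv0, hv0, hv0, h1, map_add, map_add, map_smul, map_smul, hw2 _ (by
      rw [pow_two]
      exact Ideal.mul_mem_mul (Split_sub_mem a) (Split_sub_mem b)), zero_add, smul_eq_mul,
      smul_eq_mul, mul_comm (Coalgebra.counit (R := k) b)]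
  have hD := Split_D_mul v hv
  have hx0 : Coalgebra.counit (R := k) x = 0 := hx
  have hDx : Split_D v x - 1 ∈ augI k A := by
    rw [Split_mem, map_sub, Split_D_counit, Bialgebra.counit_one, hv0, hx0, map_zero, sub_zero,
      hw1, sub_self]
  -- stabilization
  have hart : IsArtinianRing A := isArtinian_of_tower k (inferInstance : IsArtinian k A)
  obtain ⟨N, hN⟩ : ∃ N, augI k A ^ (N + 1) = augI k A ^ (N + 1 + 1) := by
    obtain ⟨n, hn⟩ := IsArtinian.monotone_stabilizes
      (⟨fun m => augI k A ^ m, fun a b hab => Ideal.pow_le_pow_right hab⟩ :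
        ℕ →o (Submodule A A)ᵒᵈ)
    exact ⟨n, (hn (n + 1) (by omega)).symm.trans (hn (n + 1 + 1) (by omega))⟩
  have hJD : ∀ a ∈ augI k A ^ (N + 1), Split_D v a ∈ augI k A ^ (N + 1) := by
    intro a ha
    rw [hN] at ha
    exact Split_D_ideal _ hD _ _ a ha
  have h1J : (1 : A) ∉ augI k A ^ (N + 1) := fun h =>
    Split_one_notMem (Ideal.pow_le_self (Nat.succ_ne_zero N) h)
  -- `D x` is invertible modulo `J`
  obtain ⟨y, hy⟩ : ∃ y : A, y * Split_D v x - 1 ∈ augI k A ^ (N + 1) := by
    have h1 : IsCoprime (Split_D v x) ((Split_D v x - 1) ^ (N + 1)) := by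
      refine IsCoprime.pow_right ⟨1, -1, ?_⟩
      ring
    obtain ⟨a, b, hab⟩ := h1
    refine ⟨a, ?_⟩
    have h2 : a * Split_D v x - 1 = -(b * (Split_D v x - 1) ^ (N + 1)) := by
      linear_combination hab
    rw [h2]
    exact neg_mem (Ideal.mul_mem_left _ _ (Ideal.pow_mem_pow hDx _))
  have hex : ∃ m, x ^ m ∈ augI k A ^ (N + 1) := ⟨N + 1, Ideal.pow_mem_pow hx _⟩
  obtain ⟨m, hm, hmin⟩ : ∃ m, x ^ m ∈ augI k A ^ (N + 1) ∧
      ∀ j < m, x ^ j ∉ augI k A ^ (N + 1) := ⟨Nat.find hex, Nat.find_spec hex,
        fun j hj => Nat.find_min hex hj⟩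
  rcases m with _ | m
  · rw [pow_zero] at hm
    exact h1J hm
  · refine hmin m (Nat.lt_succ_self m) ?_
    have h2 := hJD _ hm
    rw [Split_D_pow _ hD] at h2
    have h3 : x ^ m * Split_D v x ∈ augI k A ^ (N + 1) := by
      have h4 : x ^ m * Split_D v x = algebraMap k A ((m + 1 : ℕ) : k)⁻¹ *
          (((m : A) + 1) * (x ^ m * Split_D v x)) := by
        have h5 : algebraMap k A ((m + 1 : ℕ) : k)⁻¹ * ((m : A) + 1) = 1 := by
          have h6 : ((m : A) + 1) = algebraMap k A ((m + 1 : ℕ) : k) := by
            push_cast
            simp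
          rw [h6, ← map_mul, inv_mul_cancel₀ (Nat.cast_ne_zero.2 (Nat.succ_ne_zero m)), map_one]
        rw [← mul_assoc, h5, one_mul]
      rw [h4]
      exact Ideal.mul_mem_left _ _ h2
    have h4 : x ^ m = y * (x ^ m * Split_D v x) - x ^ m * (y * Split_D v x - 1) := by ring
    rw [h4]
    exact sub_mem (Ideal.mul_mem_left _ _ h3) (Ideal.mul_mem_left _ _ hy)

end

end Pool.Agent.Helper90.FC
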