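import Pool.Agent.Helper90.FC.HopfS
import Pool.Agent.Helper90.FC.HopfQ

/-!
# Project FC, piece TOW: the tower

`A' = ` span of the `p`-th powers of `A` (`exists_frob`), `B' = B // A'` (`exists_quotHopf`),
`F` is the image of `A` in `B'` (`exists_image`), and `B' → C` comes from `exists_desc`.
-/

set_option linter.unusedSectionVars false
set_option autoImplicit false

open scoped TensorProduct

namespace Pool.Agent.Helper90.FC

universe u

section

variable {k : Type u} [Field k]

theorem counit_map {A B : Type u} [Semiring A] [Semiring B] [Bialgebra k A] [Bialgebra k B]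
    (f : A →ₐc[k] B) (a : A) :
    Coalgebra.counit (R := k) (f a) = Coalgebra.counit (R := k) a :=
  CoalgHomClass.counit_comp_apply f a

/-- The tower: `A' = ` span of the `p`-th powers, `B' = B // A'`, `F = ` image of `A` in `B'`. -/
theorem exists_tower (p : ℕ) [Fact p.Prime] [CharP k p] {A B C : Type u} [CommRing A] [Ring B]
    [Ring C] [HopfAlgebra k A] [HopfAlgebra k B] [HopfAlgebra k C] [Module.Finite k A]
    [Module.Finite k B] (ι : A →ₐc[k] B) (π : B →ₐc[k] C) (hex : CentralExact k ι π)
    (hA : Submodule.span k (Set.range fun b : A => b ^ p) ≠ ⊤) :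
    ∃ (A' : Type u) (_ : CommRing A') (_ : HopfAlgebra k A') (B' : Type u) (_ : Ring B')
      (_ : HopfAlgebra k B') (F : Type u) (_ : CommRing F) (_ : HopfAlgebra k F)
      (ι' : A' →ₐc[k] B) (π' : B →ₐc[k] B') (ι'' : F →ₐc[k] B') (π'' : B' →ₐc[k] C),
      CentralExact k ι' π' ∧ CentralExact k ι'' π'' ∧
        (∀ a : F, Coalgebra.counit (R := k) a = 0 → a ^ p = 0) ∧
        Module.Finite k A' ∧ Module.Finite k F ∧ Module.Finite k B' ∧
        Module.finrank k A' < Module.finrank k A := by
  obtain ⟨A', _, _, j, hj, hr⟩ := exists_frob (k := k) p A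
  let ι' : A' →ₐc[k] B := ι.comp j
  have hι' : ∀ a, ι' a = ι (j a) := fun a => rfl
  have hi' : Function.Injective ι' := hex.inj.comp hj
  obtain ⟨B', _, _, π', hex'⟩ := exists_quotHopf ι' hi' (fun a b => hex.central (j a) b)
  let f : A →ₐc[k] B' := π'.comp ι
  have hf : ∀ a, f a = π' (ι a) := fun a => rfl
  obtain ⟨F, _, _, q, g, hq, hg, hqg⟩ := exists_image f
  obtain ⟨π'', hπ''⟩ := exists_desc ι' π' hex' π (fun a ha => (hex.ker (ι (j a))).2
    (Ideal.subset_span ⟨j a, (counit_map j a).trans ha, rfl⟩))
  have hAp : ∀ c : A, Coalgebra.counit (R := k) c = 0 → π' (ι (c ^ p)) = 0 := by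
    intro c hc
    obtain ⟨c', hc'⟩ := (hr (c ^ p)).2 (Submodule.subset_span ⟨c, rfl⟩)
    have h0 : Coalgebra.counit (R := k) c' = 0 := by
      rw [← counit_map j, hc']
      have : Coalgebra.counit (R := k) (c ^ p) = Coalgebra.counit (R := k) c ^ p :=
        map_pow (Bialgebra.counitAlgHom k A) c p
      rw [this, hc, zero_pow (Fact.out : p.Prime).ne_zero]
    have h1 := (hex'.ker (ι' c')).2 (Ideal.subset_span ⟨c', h0, rfl⟩)
    rw [hι', hc'] at h1
    exact h1
  refine ⟨A', inferInstance, inferInstance, B', inferInstance, inferInstance, F, inferInstance,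
    inferInstance, ι', π', g, π'', hex', ?_, ?_, ?_, ?_, ?_, ?_⟩
  · refine ⟨hg, ?_, ?_, ?_⟩
    · intro c
      obtain ⟨b, rfl⟩ := hex.surj c
      exact ⟨π' b, hπ'' b⟩
    · intro x b'
      obtain ⟨a, rfl⟩ := hq x
      obtain ⟨b, rfl⟩ := hex'.surj b'
      rw [hqg, hf, ← map_mul, hex.central a b, map_mul]
    · intro b'
      obtain ⟨b, rfl⟩ := hex'.surj b'
      rw [hπ'']
      constructor
      · intro h0
        have h1 := (hex.ker b).1 h0
        have h2 : π' b ∈ Ideal.map (AlgHomClass.toAlgHom π' : B →ₐ[k] B')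
            (Ideal.span (ι '' {a : A | Coalgebra.counit (R := k) a = 0})) :=
          Ideal.mem_map_of_mem (AlgHomClass.toAlgHom π' : B →ₐ[k] B') h1
        rw [Ideal.map_span] at h2
        refine Ideal.span_mono ?_ h2
        rintro _ ⟨_, ⟨a, ha, rfl⟩, rfl⟩
        refine ⟨q a, ?_, ?_⟩
        · change Coalgebra.counit (R := k) (q a) = 0
          rw [counit_map]
          exact ha
        · rw [hqg]
          rfl
      · intro h0
        have hle : Ideal.span (g '' {a : F | Coalgebra.counit (R := k) a = 0}) ≤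
            RingHom.ker (AlgHomClass.toAlgHom π'' : B' →ₐ[k] C) := by
          rw [Ideal.span_le]
          rintro _ ⟨x, hx, rfl⟩
          obtain ⟨a, rfl⟩ := hq x
          change π'' (g (q a)) = 0
          rw [hqg, hf, hπ'']
          refine (hex.ker (ι a)).2 (Ideal.subset_span ⟨a, ?_, rfl⟩)
          change Coalgebra.counit (R := k) (q a) = 0 at hx
          rw [counit_map] at hx
          exact hx
        have h1 : π'' (π' b) = 0 := hle h0
        rw [← hπ'']
        exact h1
  · intro x hx
    obtain ⟨c, rfl⟩ := hq x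
    rw [counit_map] at hx
    apply hg
    rw [← map_pow, hqg, hf, hAp c hx, map_zero]
  · exact Module.Finite.of_injective (j : A' →ₗ[k] A) hj
  · exact Module.Finite.of_surjective (q : A →ₗ[k] F) hq
  · exact Module.Finite.of_surjective (π' : B →ₗ[k] B') hex'.surj
  · let jl : A' →ₗ[k] A := (j : A' →ₗ[k] A)
    have e1 : LinearMap.range jl = Submodule.span k (Set.range fun b : A => b ^ p) := by
      ext a
      exact hr a
    have e2 : Module.finrank k (LinearMap.range jl) = Module.finrank k A' :=
      LinearMap.finrank_range_of_inj hj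
    rw [← e2, e1]
    exact Submodule.finrank_lt hA

end

end Pool.Agent.Helper90.FC
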