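import Pool.Agent.Helper90.FC.Height
import Pool.Agent.Helper90.FC.Tower
import Pool.Agent.Helper90.FC.Split
import Pool.Agent.Helper90.FC.ConvA
import Pool.Agent.Helper90.FC.ConvB

/-!
# Project FC: assembly
-/

set_option linter.unusedSectionVars false
set_option autoImplicit false

open CategoryTheory CategoryTheory.Abelian CategoryTheory.Limits DirectSum
open scoped ModuleCat TensorProduct
open Pool.Agent.Helper59.FG

namespace Pool.Agent.Helper90.FC

universe u

section

variable {k : Type u} [Field k]

theorem finite_of_surj' {B C : Type u} [Ring B] [Ring C] [Bialgebra k B] [Bialgebra k C]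
    [Module.Finite k B] (π : B →ₐc[k] C) (h : Function.Surjective π) : Module.Finite k C :=
  Module.Finite.of_surjective (π : B →ₗ[k] C) h

/-- The case of positive characteristic, by induction on the dimension of `A`. -/
theorem central_charP (p : ℕ) [Fact p.Prime] [CharP k p] (d : ℕ) :
    ∀ {A B C : Type u} [CommRing A] [Ring B] [Ring C] [HopfAlgebra k A] [HopfAlgebra k B]
      [HopfAlgebra k C] [Module.Finite k A] [Module.Finite k B] (ι : A →ₐc[k] B)
      (π : B →ₐc[k] C), CentralExact k ι π → Module.finrank k A = d → FGE k C → FGE k B := by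
  induction d using Nat.strong_induction_on with
  | _ d ih =>
    intro A B C _ _ _ _ _ _ _ _ ι π hex hd hC
    by_cases hA : Submodule.span k (Set.range fun b : A => b ^ p) = ⊤
    · exact split_step ι π hex (proj_of_idem (idem_of_pow p hA)) hC
    · obtain ⟨A', _, _, B', _, _, F, _, _, ι', π', ι'', π'', h1, h2, h3, h4, h5, h6, h7⟩ :=
        exists_tower p ι π hex hA
      have : Module.Finite k C := finite_of_surj' π hex.surj
      have hB' : FGE k B' := height_step p ι'' π'' h2 h3 hC
      exact ih _ (hd ▸ h7) ι' π' h1 rfl hB'

theorem central_comm {A B C : Type u} [CommRing A] [Ring B] [Ring C] [HopfAlgebra k A]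
    [HopfAlgebra k B] [HopfAlgebra k C] [Module.Finite k B] (ι : A →ₐc[k] B)
    (π : B →ₐc[k] C) (hex : CentralExact k ι π) (hC : FGC k C) : FGC k B := by
  have : Module.Finite k C := finite_of_surj' π hex.surj
  have : Module.Finite k A := Module.Finite.of_injective (ι : A →ₗ[k] B) hex.inj
  refine fgc_of_fge ?_
  have hC' := fge_of_fgc hC
  obtain ⟨p, hp⟩ := CharP.exists k
  rcases CharP.char_is_prime_or_zero k p with h | h
  · have : Fact p.Prime := ⟨h⟩
    exact central_charP p _ ι π hex rfl hC'
  · subst h
    have : CharZero k := CharP.charP_to_charZero k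
    exact split_step ι π hex (proj_of_idem idem_of_charZero) hC'

/-- Finite generation of cohomology along central extensions of Hopf algebras. -/
theorem central {A B C : Type u} [Ring A] [Ring B] [Ring C] [HopfAlgebra k A]
    [HopfAlgebra k B] [HopfAlgebra k C] [Module.Finite k B] (ι : A →ₐc[k] B)
    (π : B →ₐc[k] C) (hex : CentralExact k ι π) (hC : FGC k C) : FGC k B := by
  let _ : CommRing A :=
    { (inferInstance : Ring A) with
      mul_comm := fun a b => hex.inj (by
        rw [map_mul, map_mul]
        exact hex.central a (ι b)) }
  exact central_comm ι π hex hC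

end

end Pool.Agent.Helper90.FC
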