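import Pool.Agent.Helper90.FC.IterDefs
import Pool.Agent.Helper90.FC.Main
import Pool.Agent.Helper90.FC.FG2

/-!
# Project FC: iterated central extensions
-/

set_option linter.unusedSectionVars false
set_option autoImplicit false

open CategoryTheory CategoryTheory.Abelian CategoryTheory.Limits DirectSum
open scoped ModuleCat TensorProduct
open Pool.Agent.Helper59.FG

namespace Pool.Agent.Helper90.FC

universe u

section

variable {k : Type u} [Field k]

/-- Finite generation of cohomology passes to iterated central extensions. -/
theorem central_iter {C : Type u} [Ring C] [HopfAlgebra k C] (hC : FGC k C) {B : Type u} [Ring B]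
    [HopfAlgebra k B] (h : IterCentral k C B) (hB : Module.Finite k B) : FGC k B := by
  induction h with
  | refl => exact hC
  | step ι π hex h ih => exact central ι π hex (ih (finite_of_surj' π hex.surj))

theorem finite_iter {C : Type u} [Ring C] [HopfAlgebra k C] {B : Type u} [Ring B]
    [HopfAlgebra k B] (h : IterCentral k C B) (hB : Module.Finite k B) : Module.Finite k C := by
  induction h with
  | refl => exact hB
  | step ι π hex h ih => exact ih (finite_of_surj' π hex.surj)

/-- The form with (fg1') and (fg2'). -/
theorem fgh_iter {C : Type u} [Ring C] [HopfAlgebra k C] (hC : FGH k C) {B : Type u} [Ring B]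
    [HopfAlgebra k B] [hB : Module.Finite k B] (h : IterCentral k C B) :
    Algebra.FiniteType k (⨁ n, EndExt (trivObj k B) n) ∧
    ∀ M N : ModuleCat.{u} B, Module.Finite B M → Module.Finite B N →
      Module.Finite (⨁ n, EndExt (trivObj k B) n) (⨁ n, ActExt M N n) := by
  have hC' : Module.Finite k C := finite_iter h hB
  have h1 := central_iter (fgc_of_fgh hC) h hB
  exact ⟨h1.1, fun M N _ _ => finite_of_fge (fge_of_fgc h1) M N⟩

/-- Semisimple Hopf algebras. -/
theorem fgc_semisimple {C : Type u} [Ring C] [HopfAlgebra k C] [Module.Finite k C]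
    [IsSemisimpleRing C] : FGC k C := by
  refine fgc_of_fge ⟨0, ⟨fun i => i.elim0, fun i => i.elim0, fun i => i.elim0,
    fun i => i.elim0⟩, fun M hM => ?_⟩
  refine Fam.evGen_of_vanish _ ⟨1, fun n hn x => ?_⟩
  have hp : Module.Projective C (trivObj k C) := Module.projective_of_isSemisimpleRing C _
  have : Projective (trivObj k C) := (IsProjective.iff_projective (R := C) (trivObj k C)).1 hp
  obtain ⟨m, rfl⟩ : ∃ m, n = m + 1 := ⟨n - 1, by omega⟩
  exact Ext.eq_zero_of_projective x

/-- Iterated central extensions of semisimple Hopf algebras. -/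
theorem fg_of_semisimple {C : Type u} [Ring C] [HopfAlgebra k C] [IsSemisimpleRing C] {B : Type u}
    [Ring B] [HopfAlgebra k B] [hB : Module.Finite k B] (h : IterCentral k C B) :
    Algebra.FiniteType k (⨁ n, EndExt (trivObj k B) n) ∧
    ∀ M N : ModuleCat.{u} B, Module.Finite B M → Module.Finite B N →
      Module.Finite (⨁ n, EndExt (trivObj k B) n) (⨁ n, ActExt M N n) := by
  have hC' : Module.Finite k C := finite_iter h hB
  have h1 := central_iter fgc_semisimple h hB
  exact ⟨h1.1, fun M N _ _ => finite_of_fge (fge_of_fgc h1) M N⟩

end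

end Pool.Agent.Helper90.FC
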