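import Pool.Agent.Helper59.FG.CohDefs

/-!
# Finite generation of cohomology (FGC) and central extensions of Hopf algebras: definitions

`trivObj k A` is the trivial module, `EndExt X n = Ext X X n` (with the Yoneda product); both come
from `Pool/Agent/Helper59/FG/CohDefs.lean`.
-/

set_option linter.unusedSectionVars false
set_option autoImplicit false

open CategoryTheory CategoryTheory.Abelian CategoryTheory.Limits DirectSum
open scoped ModuleCat TensorProduct
open Pool.Agent.Helper59.FG

namespace Pool.Agent.Helper90.FC

universe u

section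

variable (k : Type u) [Field k] {A : Type u} [Ring A] [Bialgebra k A]

/-- The groups `H^n(A, M) = Ext^n_A(k, M)`. -/
def KExt (M : ModuleCat.{u} A) (n : ℕ) : Type u := Ext (trivObj k A) M n

noncomputable instance instGrpK (M : ModuleCat.{u} A) (n : ℕ) : AddCommGroup (KExt k M n) :=
  (inferInstance : AddCommGroup (Ext (trivObj k A) M n))

/-- The Yoneda action of `H^*(A, k)` on `H^*(A, M)`. -/
noncomputable instance instGSMulK (M : ModuleCat.{u} A) :
    GradedMonoid.GSMul (EndExt (trivObj k A)) (KExt k M) where
  smul x y := Ext.comp x y rfl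

theorem one_actK (M : ModuleCat.{u} A) (y : GradedMonoid (KExt k M)) :
    (1 : GradedMonoid (EndExt (trivObj k A))) • y = y := by
  obtain ⟨n, y⟩ := y
  exact one_comp_sigma (X := trivObj k A) (Y := M) y

theorem mul_actK (M : ModuleCat.{u} A) (x x' : GradedMonoid (EndExt (trivObj k A)))
    (y : GradedMonoid (KExt k M)) : (x * x') • y = x • x' • y := by
  obtain ⟨a, x⟩ := x
  obtain ⟨b, x'⟩ := x'
  obtain ⟨c, y⟩ := y
  exact comp_assoc_sigma x x' (z := (y : Ext (trivObj k A) M c))

noncomputable instance instGMulActK (M : ModuleCat.{u} A) :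
    GradedMonoid.GMulAction (EndExt (trivObj k A)) (KExt k M) where
  one_smul := one_actK k M
  mul_smul := mul_actK k M

noncomputable instance instGmoduleK (M : ModuleCat.{u} A) :
    DirectSum.Gmodule (EndExt (trivObj k A)) (KExt k M) where
  smul_add {i j} x y y' := Ext.comp_add (X := trivObj k A) (Y := trivObj k A) x (Z := M) y y' rfl
  smul_zero {i j} x := Ext.comp_zero (X := trivObj k A) (Y := trivObj k A) x M j (i + j) rfl
  add_smul {i j} x x' y := Ext.add_comp (X := trivObj k A) (Y := trivObj k A) x x' (Z := M) y rfl
  zero_smul {i j} y := Ext.zero_comp (X := trivObj k A) (Y := trivObj k A) (n := i) (Z := M) y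
    (i + j) rfl

end

section

variable (k : Type u) [Field k]

/-- The finite generation property: `H^*(A, k)` is a finitely generated algebra and `H^*(A, M)` is a
finitely generated module over it, for every finite-dimensional `A`-module `M`. -/
def FGC (A : Type u) [Ring A] [Bialgebra k A] : Prop :=
  Algebra.FiniteType k (⨁ n, EndExt (trivObj k A) n) ∧
    ∀ M : ModuleCat.{u} A, Module.Finite A M →
      Module.Finite (⨁ n, EndExt (trivObj k A) n) (⨁ n, KExt k M n)

/-- The sequence of Hopf algebras `k → A → B → C → k` is exact and `A` is central in `B`. (Being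
central, `A` is stable under the adjoint actions of `B`.) -/
structure CentralExact {A B C : Type u} [Ring A] [Ring B] [Ring C] [HopfAlgebra k A]
    [HopfAlgebra k B] [HopfAlgebra k C] (ι : A →ₐc[k] B) (π : B →ₐc[k] C) : Prop where
  inj : Function.Injective ι
  surj : Function.Surjective π
  central : ∀ (a : A) (b : B), ι a * b = b * ι a
  ker : ∀ b : B, π b = 0 ↔
    b ∈ Ideal.span (ι '' {a : A | Coalgebra.counit (R := k) a = 0})

end

end Pool.Agent.Helper90.FC
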