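import Pool.Agent.Helper90.FC.KData

/-!
# Project FC, piece CLI: climbing and descending with the modules `K_η`

We write `V^n(Y) = Ext^n(k, Y)`. Tensoring `0 → k → K → Ω → 0` with `Y` gives the exact sequence
`V^{n-1}(Ω ⊗ Y) → V^n(Y) → V^n(K ⊗ Y) → V^n(Ω ⊗ Y) → V^{n+1}(Y)` (use `unitMap k Y : Y → k ⊗ Y` and
`Ext.mapExactFunctor_extClass`). By `Syz.shift_surj` every element of `V^{m+a}(Ω ⊗ Y)` is
`g.comp (shiftCls κ Y)` with `g : V^m(Y)`, and its image in `V^{m+d}(Y)` is `g.comp (rst k Y η)`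
(`κ.comp extClass = η`, functoriality), which is `η.comp g` by `comm_rst_even`.
-/

set_option linter.unusedSectionVars false
set_option autoImplicit false

open CategoryTheory CategoryTheory.Abelian CategoryTheory.Limits
open scoped ModuleCat TensorProduct
open Pool.Agent.Helper59.FG

namespace Pool.Agent.Helper90.FC

universe u

section

variable {k : Type u} [Field k] {A : Type u} [Ring A] [HopfAlgebra k A] [Module.Finite k A]
variable {ι : Type}

private theorem Climb_alg {C : Type*} [Category* C] [Abelian C] [HasExt.{u} C] {X Y T Z : C}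
    {m a d n₀ n : ℕ} (g : Ext X Y m) (f : Y ⟶ T) (κ : Ext T Z a) (δ : Ext Z T 1) (v : T ⟶ Y)
    (ha : a + 1 = d) (hm : m + a = n₀) (hn : n₀ + 1 = n) (h : m + d = n) :
    ((g.comp ((Ext.mk₀ f).comp κ (zero_add a)) hm).comp δ hn).comp (Ext.mk₀ v) (add_zero n) =
      g.comp ((Ext.mk₀ f).comp ((κ.comp δ ha).comp (Ext.mk₀ v) (add_zero d)) (zero_add d)) h := by
  subst ha hm hn
  have e1 : (g.comp ((Ext.mk₀ f).comp κ (zero_add a)) (rfl : m + a = m + a)).comp δ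
      (rfl : m + a + 1 = m + a + 1) = g.comp (((Ext.mk₀ f).comp κ (zero_add a)).comp δ
        (rfl : a + 1 = a + 1)) (by omega) := Ext.comp_assoc _ _ _ _ _ (by omega)
  have e2 : ((Ext.mk₀ f).comp κ (zero_add a)).comp δ (rfl : a + 1 = a + 1) =
      (Ext.mk₀ f).comp (κ.comp δ (rfl : a + 1 = a + 1)) (zero_add (a + 1)) :=
    Ext.comp_assoc _ _ _ _ _ (by omega)
  rw [e1, e2]
  have e3 : ((Ext.mk₀ f).comp (κ.comp δ (rfl : a + 1 = a + 1)) (zero_add (a + 1))).comp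
      (Ext.mk₀ v) (add_zero (a + 1)) = (Ext.mk₀ f).comp ((κ.comp δ (rfl : a + 1 = a + 1)).comp
      (Ext.mk₀ v) (add_zero (a + 1))) (zero_add (a + 1)) := Ext.comp_assoc _ _ _ _ _ (by omega)
  rw [← e3]
  exact Ext.comp_assoc _ _ _ _ _ (by omega)

/-- The inverse of `Y → k ⊗ Y`. -/
private noncomputable def Climb_inv (Y : ModuleCat.{u} A) :
    (tensFunctor k Y).obj (trivObj k A) ⟶ Y := inv (unitMap k Y)

private theorem Climb_cancel (Y : ModuleCat.{u} A) {n : ℕ} (t : Ext (trivObj k A) Y n) :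
    t = (t.comp (Ext.mk₀ (unitMap k Y)) (add_zero n)).comp
      (Ext.mk₀ (Climb_inv (k := k) Y)) (add_zero n) := by
  rw [Ext.comp_assoc_of_third_deg_zero, Ext.mk₀_comp_mk₀, Climb_inv, IsIso.hom_inv_id,
    Ext.comp_mk₀_id]

private theorem Climb_cancel' (Y : ModuleCat.{u} A) {n : ℕ}
    (t : Ext (trivObj k A) ((tensFunctor k Y).obj (trivObj k A)) n) :
    t = (t.comp (Ext.mk₀ (Climb_inv (k := k) Y)) (add_zero n)).comp
      (Ext.mk₀ (unitMap k Y)) (add_zero n) := by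
  rw [Ext.comp_assoc_of_third_deg_zero, Ext.mk₀_comp_mk₀, Climb_inv, IsIso.inv_hom_id,
    Ext.comp_mk₀_id]

/-- The class of the tensored sequence. -/
private noncomputable def Climb_δ (Y : ModuleCat.{u} A) {M K N : ModuleCat.{u} A} {i : M ⟶ K}
    {p : K ⟶ N} {w : i ≫ p = 0} (hS : (ShortComplex.mk i p w).ShortExact) :
    Ext ((tensFunctor k Y).obj N) ((tensFunctor k Y).obj M) 1 :=
  (hS.map_of_exact (tensFunctor k Y)).extClass

private theorem Climb_δ_map (Y : ModuleCat.{u} A) {M K N : ModuleCat.{u} A} {i : M ⟶ K}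
    {p : K ⟶ N} {w : i ≫ p = 0} (hS : (ShortComplex.mk i p w).ShortExact) :
    hS.extClass.mapExactFunctor (tensFunctor k Y) = Climb_δ Y hS :=
  Ext.mapExactFunctor_extClass _ _

private theorem Climb_δ_exact (Y : ModuleCat.{u} A) {M K N : ModuleCat.{u} A} {i : M ⟶ K}
    {p : K ⟶ N} {w : i ≫ p = 0} (hS : (ShortComplex.mk i p w).ShortExact) {X : ModuleCat.{u} A}
    {n : ℕ} (x : Ext X ((tensFunctor k Y).obj M) (n + 1))
    (hx : x.comp (Ext.mk₀ ((tensFunctor k Y).map i)) (add_zero (n + 1)) = 0) :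
    ∃ z : Ext X ((tensFunctor k Y).obj N) n,
      z.comp (Climb_δ Y hS) (rfl : n + 1 = n + 1) = x :=
  Ext.covariant_sequence_exact₁ X (hS.map_of_exact (tensFunctor k Y)) x hx rfl

/-- `η ⊗ Y` for `η = κ · extClass`. -/
private theorem Climb_rst (Y : ModuleCat.{u} A) {K Ω : ModuleCat.{u} A} {i : trivObj k A ⟶ K}
    {p : K ⟶ Ω} {w : i ≫ p = 0} (hS : (ShortComplex.mk i p w).ShortExact) {a d : ℕ}
    (κ : Ext (trivObj k A) Ω a) (η : Ext (trivObj k A) (trivObj k A) d) (ha : a + 1 = d)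
    (hκ : κ.comp hS.extClass ha = η) :
    rst k Y η = (Ext.mk₀ (unitMap k Y)).comp
      (((κ.mapExactFunctor (tensFunctor k Y)).comp (Climb_δ Y hS) ha).comp
        (Ext.mk₀ (Climb_inv (k := k) Y)) (add_zero d)) (zero_add d) := by
  subst hκ
  unfold rst
  rw [Ext.mapExactFunctor_comp, Climb_δ_map]
  rfl

/-- The tensor product of finite modules is finite. -/
private theorem Climb_fin (K Y : ModuleCat.{u} A) [Module.Finite A K] [Module.Finite A Y] :
    Module.Finite A ((tensFunctor k Y).obj K) := by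
  have h1 : Module.Finite k K := Module.Finite.trans A K
  have h2 : Module.Finite k Y := Module.Finite.trans A Y
  have h3 : Module.Finite k (K ⊗[k] Y) := inferInstance
  obtain ⟨s, hs⟩ := h3.fg_top
  refine ⟨⟨(show Finset (TT k K Y) from s), ?_⟩⟩
  rw [eq_top_iff]
  rintro z -
  have hz : (show K ⊗[k] Y from z) ∈ Submodule.span k (s : Set (K ⊗[k] Y)) := by
    rw [hs]; trivial
  have key : ∀ t : K ⊗[k] Y, t ∈ Submodule.span k (s : Set (K ⊗[k] Y)) →
      (show TT k K Y from t) ∈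
        Submodule.span A ((show Finset (TT k K Y) from s : Finset (TT k K Y)) :
          Set (TT k K Y)) := by
    intro t ht
    induction ht using Submodule.span_induction with
    | mem x hx => exact Submodule.subset_span hx
    | zero => exact Submodule.zero_mem _
    | add x y _ _ hx hy => exact Submodule.add_mem _ hx hy
    | smul c x _ hx =>
      have h4 : tact k K Y (algebraMap k A c) = algebraMap k _ c := (tact k K Y).commutes c
      have h5 : (show TT k K Y from c • x) = algebraMap k A c • (show TT k K Y from x) :=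
        congr($h4.symm x)
      rw [h5]
      exact Submodule.smul_mem _ _ hx
  exact key _ hz

/-- `gen` is stable under composition with classes. -/
private theorem Climb_gen_comp (ζ : Fam k A ι) {M N : ModuleCat.{u} A} {n j l : ℕ}
    (e : Ext M N j) (hl : n + j = l) (y : Ext (trivObj k A) M n) (hy : y ∈ ζ.gen M n) :
    y.comp e hl ∈ ζ.gen N l := by
  have h1 : ζ.gen M n ≤ (ζ.gen N l).comap (e.postcompOfLinear k (trivObj k A) hl) := by
    rw [Fam.gen_le_iff]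
    intro i m h x
    rw [Submodule.mem_comap]
    change ((ζ.cls i).comp x h).comp e hl ∈ ζ.gen N l
    rw [Ext.comp_assoc (ζ.cls i) x e h (rfl : m + j = m + j) (by omega)]
    exact ζ.mem_gen i (by omega) _
  exact h1 hy

/-- The image of `V(M)` in `V(N)` is eventually generated. -/
private theorem Climb_core [Finite ι] (ζ : Fam k A ι) {M N : ModuleCat.{u} A}
    [Module.Finite A N] (φ : M ⟶ N) (h : ζ.EvGen N) :
    ∃ N₀ : ℕ, ∀ n, N₀ ≤ n → ∀ x : Ext (trivObj k A) M n, ∃ y ∈ ζ.gen M n,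
      (x - y).comp (Ext.mk₀ φ) (add_zero n) = 0 := by
  obtain ⟨N₀, hN⟩ := ζ.hilb N h
    (fun n => LinearMap.range ((Ext.mk₀ φ).postcompOfLinear k (trivObj k A) (add_zero n))) (by
      rintro i m n hh _ ⟨x, rfl⟩
      refine ⟨(ζ.cls i).comp x hh, ?_⟩
      change ((ζ.cls i).comp x hh).comp (Ext.mk₀ φ) (add_zero n) =
        (ζ.cls i).comp (x.comp (Ext.mk₀ φ) (add_zero m)) hh
      exact Ext.comp_assoc _ _ _ _ _ (by omega))
  refine ⟨N₀, fun n hn x => ?_⟩
  have h1 : (⨆ (i : ι) (m : ℕ) (h : ζ.deg i + m = n),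
      (LinearMap.range ((Ext.mk₀ φ).postcompOfLinear k (trivObj k A) (add_zero m))).map
        ((ζ.cls i).precompOfLinear k N h)) ≤
      (ζ.gen M n).map ((Ext.mk₀ φ).postcompOfLinear k (trivObj k A) (add_zero n)) := by
    refine iSup_le fun i => iSup_le fun m => iSup_le fun hh => ?_
    rintro _ ⟨_, ⟨x', rfl⟩, rfl⟩
    refine ⟨(ζ.cls i).comp x' hh, ζ.mem_gen i hh x', ?_⟩
    change ((ζ.cls i).comp x' hh).comp (Ext.mk₀ φ) (add_zero n) =
      (ζ.cls i).comp (x'.comp (Ext.mk₀ φ) (add_zero m)) hh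
    exact Ext.comp_assoc _ _ _ _ _ (by omega)
  obtain ⟨y, hy, hy'⟩ := h1 (hN n hn ⟨x, rfl⟩)
  refine ⟨y, hy, ?_⟩
  have hy2 : y.comp (Ext.mk₀ φ) (add_zero n) = x.comp (Ext.mk₀ φ) (add_zero n) := hy'
  rw [sub_eq_add_neg, Ext.add_comp, Ext.neg_comp, hy2, add_neg_cancel]

/-- Composition with `η ⊗ Y` lands in `gen`. -/
private theorem Climb_eta (ζ : Fam k A ι) (i₀ : ι) (Y : ModuleCat.{u} A) {m n : ℕ}
    (g : Ext (trivObj k A) Y m) (h : m + ζ.deg i₀ = n) :
    g.comp (rst k Y (ζ.cls i₀)) h ∈ ζ.gen Y n := by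
  rw [← comm_rst_even k Y (ζ.cls i₀) g (by omega) h (ζ.even i₀)]
  exact ζ.mem_gen i₀ _ g

/-- `V(Y) / ηV(Y)` embeds in `V(K ⊗ Y)` (in degrees `≥ d`); `Fam.hilb` for the image of `V(Y)` in
`V(K ⊗ Y)`. -/
theorem climb [Finite ι] (ζ : Fam k A ι) (i₀ : ι) (D : KData k (ζ.cls i₀)) (Y : ModuleCat.{u} A)
    [Module.Finite A Y] (h : ζ.EvGen ((tensFunctor k Y).obj D.K)) : ζ.EvGen Y := by
  have hfK : Module.Finite A D.K := D.finK
  have hfT : Module.Finite A ((tensFunctor k Y).obj D.K) := Climb_fin (k := k) D.K Y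
  obtain ⟨N₀, hN⟩ := Climb_core ζ (unitMap k Y ≫ (tensFunctor k Y).map D.i) h
  have ha := D.ha
  refine ⟨max N₀ (D.a + 1), fun n hn => ?_⟩
  have hn1 : N₀ ≤ n := le_trans (le_max_left _ _) hn
  have hn2 : D.a + 1 ≤ n := le_trans (le_max_right _ _) hn
  rw [eq_top_iff]
  rintro x -
  obtain ⟨y, hy, hxy⟩ := hN n hn1 x
  suffices hs : x - y ∈ ζ.gen Y n by
    have := Submodule.add_mem _ hs hy
    rwa [sub_add_cancel] at this
  generalize x - y = t at hxy
  rw [← Ext.mk₀_comp_mk₀, ← Ext.comp_assoc_of_third_deg_zero] at hxy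
  obtain ⟨n₀, rfl⟩ : ∃ n₀, n = n₀ + 1 := ⟨n - 1, by omega⟩
  obtain ⟨z, hz⟩ := Climb_δ_exact Y D.ses (t.comp (Ext.mk₀ (unitMap k Y)) (add_zero (n₀ + 1))) hxy
  obtain ⟨m, hm⟩ : ∃ m, m + D.a = n₀ := ⟨n₀ - D.a, by omega⟩
  obtain ⟨g, hg⟩ := D.syz.shift_surj Y hm z
  have e2 := Climb_rst Y D.ses D.κ (ζ.cls i₀) ha D.hκ
  have e3 : (g.comp (shiftCls D.κ Y) hm).comp (Climb_δ Y D.ses) (rfl : n₀ + 1 = n₀ + 1) =
      t.comp (Ext.mk₀ (unitMap k Y)) (add_zero (n₀ + 1)) := by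
    rw [← hz, ← hg]
  have ht : t = g.comp (rst k Y (ζ.cls i₀)) (by omega) := by
    rw [Climb_cancel Y t, ← e3, e2]
    exact Climb_alg g (unitMap k Y) (D.κ.mapExactFunctor (tensFunctor k Y)) (Climb_δ Y D.ses)
      (Climb_inv Y) ha hm rfl (by omega)
  rw [ht]
  exact Climb_eta ζ i₀ Y g _

/-- The same as `climb` for a class of degree two given by two extensions
`0 → k → W → W' → 0` and `0 → W' → W'' → k → 0`. -/
theorem climb2 [Finite ι] (ζ : Fam k A ι) (i₀ : ι) (W W' W'' : ModuleCat.{u} A)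
    [Module.Finite A W] [Module.Finite A W'] [Module.Finite A W'']
    (i : trivObj k A ⟶ W) (p : W ⟶ W') (w : i ≫ p = 0) (hS : (ShortComplex.mk i p w).ShortExact)
    (i' : W' ⟶ W'') (p' : W'' ⟶ trivObj k A) (w' : i' ≫ p' = 0)
    (hS' : (ShortComplex.mk i' p' w').ShortExact) (hd : 1 + 1 = ζ.deg i₀)
    (hc : hS'.extClass.comp hS.extClass hd = ζ.cls i₀) (Y : ModuleCat.{u} A) [Module.Finite A Y]
    (h : ζ.EvGen ((tensFunctor k Y).obj W)) (h' : ζ.EvGen ((tensFunctor k Y).obj W'')) :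
    ζ.EvGen Y := by
  have hfT : Module.Finite A ((tensFunctor k Y).obj W) := Climb_fin (k := k) W Y
  have hfT' : Module.Finite A ((tensFunctor k Y).obj W'') := Climb_fin (k := k) W'' Y
  obtain ⟨N₀, hN⟩ := Climb_core ζ (unitMap k Y ≫ (tensFunctor k Y).map i) h
  obtain ⟨N₁, hN'⟩ := Climb_core ζ ((tensFunctor k Y).map i') h'
  refine ⟨max N₀ (N₁ + 2), fun n hn => ?_⟩
  have hn1 : N₀ ≤ n := le_trans (le_max_left _ _) hn
  have hn2 : N₁ + 2 ≤ n := le_trans (le_max_right _ _) hn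
  rw [eq_top_iff]
  rintro x -
  obtain ⟨y, hy, hxy⟩ := hN n hn1 x
  suffices hs : x - y ∈ ζ.gen Y n by
    have := Submodule.add_mem _ hs hy
    rwa [sub_add_cancel] at this
  generalize x - y = t at hxy
  rw [← Ext.mk₀_comp_mk₀, ← Ext.comp_assoc_of_third_deg_zero] at hxy
  obtain ⟨n₀, rfl⟩ : ∃ n₀, n = n₀ + 1 + 1 := ⟨n - 2, by omega⟩
  obtain ⟨z, hz⟩ := Climb_δ_exact Y hS
    (t.comp (Ext.mk₀ (unitMap k Y)) (add_zero (n₀ + 1 + 1))) hxy
  obtain ⟨y', hy', hzy⟩ := hN' (n₀ + 1) (by omega) z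
  obtain ⟨g, hg⟩ := Climb_δ_exact Y hS' (z - y') hzy
  have e2 := Climb_rst Y hS hS'.extClass (ζ.cls i₀) hd hc
  rw [Climb_δ_map] at e2
  have hz2 : z = g.comp (Climb_δ Y hS') (rfl : n₀ + 1 = n₀ + 1) + y' := by
    rw [hg, sub_add_cancel]
  have ht : t = ((g.comp (Ext.mk₀ (Climb_inv Y)) (add_zero n₀)).comp (rst k Y (ζ.cls i₀))
      (by omega)) + (y'.comp (Climb_δ Y hS) (rfl : n₀ + 1 + 1 = n₀ + 1 + 1)).comp
        (Ext.mk₀ (Climb_inv Y)) (add_zero (n₀ + 1 + 1)) := by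
    rw [Climb_cancel Y t, ← hz, hz2, Ext.add_comp, Ext.add_comp, e2]
    congr 1
    rw [← Climb_alg (g.comp (Ext.mk₀ (Climb_inv Y)) (add_zero n₀)) (unitMap k Y) (Climb_δ Y hS')
      (Climb_δ Y hS) (Climb_inv Y) hd (rfl : n₀ + 1 = n₀ + 1)
      (rfl : n₀ + 1 + 1 = n₀ + 1 + 1) (by omega)]
    congr 2
    have e4 : (g.comp (Ext.mk₀ (Climb_inv Y)) (add_zero n₀)).comp
        ((Ext.mk₀ (unitMap k Y)).comp (Climb_δ Y hS') (zero_add 1)) (rfl : n₀ + 1 = n₀ + 1) =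
        ((g.comp (Ext.mk₀ (Climb_inv Y)) (add_zero n₀)).comp (Ext.mk₀ (unitMap k Y))
          (add_zero n₀)).comp (Climb_δ Y hS') (rfl : n₀ + 1 = n₀ + 1) :=
      (Ext.comp_assoc _ _ _ _ _ (by omega)).symm
    rw [e4, ← Climb_cancel' Y g]
  rw [ht]
  refine Submodule.add_mem _ (Climb_eta ζ i₀ Y _ _) ?_
  exact Climb_gen_comp ζ _ _ _ (Climb_gen_comp ζ _ _ _ hy')

end

end Pool.Agent.Helper90.FC
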