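import Pool.Agent.Helper90.FC.KData

/-!
# Project FC, piece DES: descending with the modules `K_η`

We write `V^n(Y) = Ext^n(k, Y)`. Tensoring `0 → k → K → Ω → 0` with `Y` gives the exact sequence
`V^{n-1}(Ω ⊗ Y) → V^n(Y) → V^n(K ⊗ Y) → V^n(Ω ⊗ Y) → V^{n+1}(Y)` (use `unitMap k Y : Y → k ⊗ Y` and
`Ext.mapExactFunctor_extClass`). By `Syz.shift_surj` every element of `V^{m+a}(Ω ⊗ Y)` is
`g.comp (shiftCls κ Y)` with `g : V^m(Y)`, and its image in `V^{m+d}(Y)` is `g.comp (rst k Y η)`
(`κ.comp extClass = η`, functoriality), which is `η.comp g` by `comm_rst_even`.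
-/

set_option linter.unusedSectionVars false
set_option autoImplicit false

open CategoryTheory CategoryTheory.Abelian CategoryTheory.Limits
open scoped ModuleCat TensorProduct
open Pool.Agent.Helper59.FG

namespace Pool.Agent.Helper90.FC

universe u

section

variable {k : Type u} [Field k] {A : Type u} [Ring A] [HopfAlgebra k A] [Module.Finite k A]
variable {ι : Type}

/-- Postcomposition with a morphism. -/
private noncomputable def Descend_post {M N : ModuleCat.{u} A} (f : M ⟶ N) (n : ℕ) :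
    Ext (trivObj k A) M n →ₗ[k] Ext (trivObj k A) N n :=
  (Ext.mk₀ f).postcompOfLinear k (trivObj k A) (add_zero n)

private theorem Descend_post_apply {M N : ModuleCat.{u} A} (f : M ⟶ N) (n : ℕ)
    (x : Ext (trivObj k A) M n) : Descend_post f n x = x.comp (Ext.mk₀ f) (add_zero n) := rfl

private theorem Descend_post_comp {M N : ModuleCat.{u} A} (f : M ⟶ N) {d m n : ℕ}
    (z : Ext (trivObj k A) (trivObj k A) d) (h : d + m = n) (x : Ext (trivObj k A) M m) :
    Descend_post f n (z.comp x h) = z.comp (Descend_post f m x) h := by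
  rw [Descend_post_apply, Descend_post_apply, Ext.comp_assoc_of_third_deg_zero]

/-- commuting past each other -/
private theorem Descend_swap {M : ModuleCat.{u} A} {a b m p q n : ℕ}
    (x : Ext (trivObj k A) (trivObj k A) a) (y : Ext (trivObj k A) (trivObj k A) b)
    (v : Ext (trivObj k A) M m) (ha : Even a) (h₁ : b + m = p) (h₂ : a + p = n)
    (h₃ : a + m = q) (h₄ : b + q = n) :
    x.comp (y.comp v h₁) h₂ = y.comp (x.comp v h₃) h₄ := by
  have e1 : x.comp (y.comp v h₁) h₂ = (x.comp y rfl).comp v (by omega) :=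
    (Ext.comp_assoc x y v rfl h₁ (by omega)).symm
  have e2 : y.comp (x.comp v h₃) h₄ = (y.comp x (add_comm b a)).comp v (by omega) :=
    (Ext.comp_assoc y x v (add_comm b a) h₃ (by omega)).symm
  rw [e1, e2, comm_even k x y rfl (add_comm b a) ha]

private theorem Descend_zero {d a : ℕ} (η : Ext (trivObj k A) (trivObj k A) d)
    {Y : ModuleCat.{u} A} {S : ShortComplex (ModuleCat.{u} A)} (hS : S.ShortExact)
    (ha : a + 1 = d) (s : Ext Y S.X₃ a) (v : Y ⟶ S.X₁)
    (hkey : ∀ (m m' n : ℕ) (g : Ext (trivObj k A) Y m) (hm : m + a = m') (hn : m' + 1 = n)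
      (h' : d + m = n), (g.comp s hm).comp hS.extClass hn =
        (η.comp g h').comp (Ext.mk₀ v) (add_zero n))
    {m n : ℕ} (x : Ext (trivObj k A) Y m) (e : d + m = n + a) :
    η.comp (Descend_post (k := k) (v ≫ S.f) m x) e = 0 := by
  have e0 : η.comp (Descend_post (k := k) (v ≫ S.f) m x) e =
      (η.comp x e).comp (Ext.mk₀ (v ≫ S.f)) (add_zero (n + a)) :=
    (Ext.comp_assoc_of_third_deg_zero η x (Ext.mk₀ (v ≫ S.f)) e).symm
  have e1 : (η.comp x e).comp (Ext.mk₀ (v ≫ S.f)) (add_zero (n + a)) =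
      ((η.comp x e).comp (Ext.mk₀ v) (add_zero (n + a))).comp (Ext.mk₀ S.f)
        (add_zero (n + a)) := by
    have h := Ext.comp_assoc_of_third_deg_zero (η.comp x e) (Ext.mk₀ v) (Ext.mk₀ S.f)
      (add_zero (n + a))
    rw [h, Ext.mk₀_comp_mk₀]
  have e2 := hkey m (m + a) (n + a) x rfl (by omega) e
  rw [e0, e1, ← e2, Ext.comp_assoc_of_third_deg_zero,
    ShortComplex.ShortExact.extClass_comp, Ext.comp_zero]

private theorem Descend_main [Finite ι] (ζ : Fam k A ι) {d : ℕ}
    (η : Ext (trivObj k A) (trivObj k A) d)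
    (hd : 0 < d) (he : Even d) (Y : ModuleCat.{u} A) [Module.Finite A Y]
    (h : (ζ.cons η hd he).EvGen Y) {S : ShortComplex (ModuleCat.{u} A)} (hS : S.ShortExact)
    (a : ℕ) (ha : a + 1 = d) (s : Ext Y S.X₃ a) (v : Y ⟶ S.X₁) (hv : IsIso v)
    (hsurj : ∀ (m n : ℕ) (hn : m + a = n),
      Function.Surjective (fun g : Ext (trivObj k A) Y m => g.comp s hn))
    (hkey : ∀ (m m' n : ℕ) (g : Ext (trivObj k A) Y m) (hm : m + a = m') (hn : m' + 1 = n)
      (h' : d + m = n), (g.comp s hm).comp hS.extClass hn =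
        (η.comp g h').comp (Ext.mk₀ v) (add_zero n)) :
    ζ.EvGen S.X₂ := by
  obtain ⟨N, hN⟩ := h
  -- the kernel of `η`
  let W : ∀ n, Submodule k (Ext (trivObj k A) Y n) := fun n =>
    LinearMap.ker (η.precompOfLinear k Y (rfl : d + n = d + n))
  have hWmem : ∀ (n : ℕ) (x : Ext (trivObj k A) Y n), x ∈ W n ↔
      η.comp x (rfl : d + n = d + n) = 0 := fun n x => LinearMap.mem_ker
  have hWmem' : ∀ (n m : ℕ) (x : Ext (trivObj k A) Y n) (e : d + n = m), x ∈ W n →
      η.comp x e = 0 := by
    intro n m x e hx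
    subst e
    exact (hWmem n x).1 hx
  obtain ⟨N', hN'⟩ := (ζ.cons η hd he).hilb Y ⟨N, hN⟩ W (by
    intro i m n e x hx
    rw [hWmem]
    rw [Descend_swap η ((ζ.cons η hd he).cls i) x he e rfl (rfl : d + m = d + m)
      (by omega), (hWmem m x).1 hx, Ext.comp_zero])
  -- the image of the kernel of `η` in the cohomology of the last term
  have hC : ∀ n n' (e : n + a = n'), N' ≤ n → ∀ x ∈ W n,
      x.comp s e ∈ (ζ.gen S.X₂ n').map (Descend_post (k := k) S.g n') := by
    intro n n' e hn x hx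
    have h1 := hN' n hn hx
    let L : Ext (trivObj k A) Y n →ₗ[k] Ext (trivObj k A) S.X₃ n' :=
      s.postcompOfLinear k (trivObj k A) e
    have hL : ∀ y, L y = y.comp s e := fun y => rfl
    have h2 : (⨆ (i : Option ι) (m : ℕ) (h : (ζ.cons η hd he).deg i + m = n),
        (W m).map (((ζ.cons η hd he).cls i).precompOfLinear k Y h)) ≤
        ((ζ.gen S.X₂ n').map (Descend_post (k := k) S.g n')).comap L := by
      refine iSup_le fun i => iSup_le fun m => iSup_le fun e1 => ?_
      rintro _ ⟨y, hy, rfl⟩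
      rw [Submodule.mem_comap, hL]
      cases i with
      | none =>
        have h3 : η.comp y e1 = 0 := hWmem' m n y e1 hy
        have h4 : ((ζ.cons η hd he).cls none).precompOfLinear k Y e1 y = 0 := h3
        rw [h4, Ext.zero_comp]
        exact Submodule.zero_mem _
      | some i =>
        have h4 : ((ζ.cons η hd he).cls (some i)).precompOfLinear k Y e1 y =
            (ζ.cls i).comp y e1 := rfl
        rw [h4]
        have e2 : ζ.deg i + m = n := e1
        have h5 : ((ζ.cls i).comp y e1).comp s e =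
            (ζ.cls i).comp (y.comp s (rfl : m + a = m + a)) (by omega) :=
          Ext.comp_assoc (ζ.cls i) y s e1 rfl (by omega)
        rw [h5]
        have h6 : (y.comp s (rfl : m + a = m + a)).comp hS.extClass
            (rfl : m + a + 1 = m + a + 1) = 0 := by
          rw [hkey m (m + a) (m + a + 1) y rfl rfl (by omega), hWmem' m _ y _ hy, Ext.zero_comp]
        obtain ⟨t, ht⟩ := Ext.covariant_sequence_exact₃ (trivObj k A) hS
          (y.comp s (rfl : m + a = m + a)) (rfl : m + a + 1 = m + a + 1) h6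
        refine ⟨(ζ.cls i).comp t (by omega : ζ.deg i + (m + a) = n'),
          ζ.mem_gen i _ t, ?_⟩
        rw [Descend_post_comp, Descend_post_apply, ht]
    exact h2 h1
  refine ⟨max N (N' + a), fun n' hn' => ?_⟩
  rw [eq_top_iff]
  intro z _
  obtain ⟨n, rfl⟩ : ∃ n, n' = n + a := ⟨n' - a, by
    have := (le_max_right N (N' + a)).trans hn'
    omega⟩
  have hnN' : N' ≤ n := by
    have := (le_max_right N (N' + a)).trans hn'
    omega
  have hnN : N ≤ n + a := (le_max_left N (N' + a)).trans hn'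
  obtain ⟨g, hg⟩ := hsurj n (n + a) rfl (Descend_post S.g (n + a) z)
  have hg' : g.comp s (rfl : n + a = n + a) = Descend_post S.g (n + a) z := hg
  have h1 : (g.comp s (rfl : n + a = n + a)).comp hS.extClass
      (rfl : n + a + 1 = n + a + 1) = 0 := by
    rw [hg', Descend_post_apply, Ext.comp_assoc_of_second_deg_zero,
      ShortComplex.ShortExact.comp_extClass, Ext.comp_zero]
  have h2 : η.comp g (rfl : d + n = d + n) = 0 := by
    have h3 := hkey n (n + a) (n + a + 1) g rfl rfl (by omega)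
    rw [h1] at h3
    have h4 : η.comp g (by omega : d + n = n + a + 1) = 0 := by
      have h5 := congrArg (fun t => t.comp (Ext.mk₀ (inv v)) (add_zero (n + a + 1))) h3
      simp only [Ext.zero_comp, Ext.comp_assoc_of_third_deg_zero, Ext.mk₀_comp_mk₀,
        IsIso.hom_inv_id, Ext.comp_mk₀_id] at h5
      exact h5.symm
    have h6 : ∀ (p q : ℕ) (e1 : d + n = p) (e2 : d + n = q), η.comp g e1 = 0 →
        η.comp g e2 = 0 := by
      intro p q e1 e2
      subst e1
      subst e2
      exact id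
    exact h6 _ _ _ _ h4
  have h3 := hC n (n + a) rfl hnN' g ((hWmem n g).2 h2)
  rw [hg'] at h3
  obtain ⟨z', hz', e⟩ := h3
  have h4 : (z - z').comp (Ext.mk₀ S.g) (add_zero (n + a)) = 0 := by
    rw [← Descend_post_apply, map_sub, e, sub_self]
  obtain ⟨w, hw⟩ := Ext.covariant_sequence_exact₂ (trivObj k A) hS (z - z') h4
  -- the first term
  have h5 : ∀ y : Ext (trivObj k A) Y (n + a),
      Descend_post (k := k) (v ≫ S.f) (n + a) y ∈ ζ.gen S.X₂ (n + a) := by
    intro y
    have h6 : (ζ.cons η hd he).gen Y (n + a) ≤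
        (ζ.gen S.X₂ (n + a)).comap (Descend_post (k := k) (v ≫ S.f) (n + a)) := by
      rw [Fam.gen_le_iff]
      intro i m e1 x
      rw [Submodule.mem_comap, Descend_post_comp]
      cases i with
      | none =>
        have h8 : ((ζ.cons η hd he).cls none).comp (Descend_post (k := k) (v ≫ S.f) m x) e1 = 0 :=
          Descend_zero η hS ha s v hkey x e1
        rw [h8]
        exact Submodule.zero_mem _
      | some i => exact ζ.mem_gen i e1 _
    rw [hN (n + a) hnN] at h6
    exact h6 Submodule.mem_top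
  have h6 : z - z' ∈ ζ.gen S.X₂ (n + a) := by
    have h7 := h5 (w.comp (Ext.mk₀ (inv v)) (add_zero (n + a)))
    rw [Descend_post_apply, Ext.comp_assoc_of_third_deg_zero, Ext.mk₀_comp_mk₀,
      IsIso.inv_hom_id_assoc, hw] at h7
    exact h7
  have h7 := Submodule.add_mem _ h6 hz'
  rw [sub_add_cancel] at h7
  exact h7

private theorem Descend_key {P Y Y1 Q : ModuleCat.{u} A} {a d m n m' : ℕ} (v : Y ⟶ Y1) [IsIso v]
    (κ : Ext Y1 Q a) (E : Ext Q Y1 1) (ηY : Ext Y1 Y1 d) (ha : a + 1 = d)
    (hκ : κ.comp E ha = ηY) (g : Ext P Y m) (hm : m + a = m') (hn : m' + 1 = n)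
    (h' : m + d = n) :
    (g.comp ((Ext.mk₀ v).comp κ (zero_add a)) hm).comp E hn =
      (g.comp ((Ext.mk₀ v).comp (ηY.comp (Ext.mk₀ (inv v)) (add_zero d)) (zero_add d)) h').comp
        (Ext.mk₀ v) (add_zero n) := by
  have e1 : (g.comp ((Ext.mk₀ v).comp κ (zero_add a)) hm).comp E hn =
      g.comp (((Ext.mk₀ v).comp κ (zero_add a)).comp E ha) h' :=
    Ext.comp_assoc g _ E hm ha (by omega)
  have e2 : ((Ext.mk₀ v).comp κ (zero_add a)).comp E ha = (Ext.mk₀ v).comp ηY (zero_add d) := by
    rw [← hκ]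
    exact Ext.comp_assoc _ κ E (zero_add a) ha (by omega)
  have e3 : ((Ext.mk₀ v).comp (ηY.comp (Ext.mk₀ (inv v)) (add_zero d)) (zero_add d)).comp
      (Ext.mk₀ v) (add_zero d) = (Ext.mk₀ v).comp ηY (zero_add d) := by
    rw [Ext.comp_assoc_of_third_deg_zero, Ext.comp_assoc_of_third_deg_zero, Ext.mk₀_comp_mk₀,
      IsIso.inv_hom_id, Ext.comp_mk₀_id]
  rw [e1, e2, Ext.comp_assoc_of_third_deg_zero, e3]

/-- `V(K ⊗ Y)` is an extension of a subspace of `ker (η : V(Y) → V(Y))` by a quotient of
`V(Y) / ηV(Y)` (in large degrees), and `η` acts as zero on both, so that the other members of the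
family generate both eventually (`Fam.hilb` for the subspace `ker η`, stable by `comm_even`). -/
theorem descend [Finite ι] (ζ : Fam k A ι) {d : ℕ} (η : Ext (trivObj k A) (trivObj k A) d)
    (hd : 0 < d) (he : Even d) (D : KData k η) (Y : ModuleCat.{u} A) [Module.Finite A Y]
    (h : (ζ.cons η hd he).EvGen Y) : ζ.EvGen ((tensFunctor k Y).obj D.K) := by
  have hS : ((ShortComplex.mk D.i D.p D.w).map (tensFunctor k Y)).ShortExact :=
    D.ses.map_of_exact (tensFunctor k Y)
  have hE : (D.κ.mapExactFunctor (tensFunctor k Y)).comp hS.extClass D.ha =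
      η.mapExactFunctor (tensFunctor k Y) := by
    have h1 := congrArg (fun t => Ext.mapExactFunctor (tensFunctor k Y) t) D.hκ
    simp only [Ext.mapExactFunctor_comp, Ext.mapExactFunctor_extClass] at h1
    exact h1
  have hkey : ∀ (m m' n : ℕ) (g : Ext (trivObj k A) Y m) (hm : m + D.a = m') (hn : m' + 1 = n)
      (h' : d + m = n), (g.comp (shiftCls D.κ Y) hm).comp hS.extClass hn =
        (η.comp g h').comp (Ext.mk₀ (unitMap k Y)) (add_zero n) := by
    intro m m' n g hm hn h'
    have h1 := comm_rst_even k Y η g h' (by omega) he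
    have h2 := Descend_key (unitMap k Y) (D.κ.mapExactFunctor (tensFunctor k Y)) hS.extClass
      (η.mapExactFunctor (tensFunctor k Y)) D.ha hE g hm hn (by omega)
    have h3 := congrArg (fun t => Ext.comp t (Ext.mk₀ (unitMap k Y)) (add_zero n)) h1
    exact h2.trans h3.symm
  refine Descend_main (S := (ShortComplex.mk D.i D.p D.w).map (tensFunctor k Y)) ζ η hd he Y h hS
    D.a D.ha (shiftCls D.κ Y) (unitMap k Y) (instIso k Y) ?_ ?_
  · intro m n hn
    exact D.syz.shift_surj Y hn
  · exact hkey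

end

end Pool.Agent.Helper90.FC
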