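import Pool.Agent.Helper90.FC.SectB
import Pool.Agent.Helper90.FC.Descend
import Pool.Agent.Helper90.FC.Climb

/-!
# Project FC, piece MST: the main step

Let `F → B → C` be exact, `F` central and local, `C` with `FGE`, and let `η` be a finite family of
classes in `Ext_B(k, k)` whose restrictions to `F` generate `Ext_F(k, k)` eventually. Then `FGE`
holds for `B`, with the family `Θ` = inflation of the family of `C` together with `η`.

Proof: for `m ≤ n` and `X` finite-dimensional: if the restrictions to `F` of the first `m` members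
of `η` generate `Ext_F(k, X)` eventually, then `Θ.EvGen X`. Induction on `m`. For `m = 0`
(`evGen_empty`, `acyc_of_large`) `X` is acyclic over `F`, use `infl_evGen` and
`evGen_sum_left`. For `m + 1`: `D : KData` for the `m`-th member, `D.res` its restriction to `F`
(`KData.res`, `Sect.proj`), `descend` over `F` and the isomorphism `resTen` show that the first `m`
members generate `Ext_F(k, K ⊗ X)` eventually; by induction `Θ.EvGen (K ⊗ X)`, then `climb`.
Start: `evGen_of_triv`.
-/

set_option linter.unusedSectionVars false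
set_option autoImplicit false

open CategoryTheory CategoryTheory.Abelian CategoryTheory.Limits
open scoped ModuleCat TensorProduct
open Pool.Agent.Helper59.FG

namespace Pool.Agent.Helper90.FC

universe u

section

variable {k : Type u} [Field k] {F B C : Type u} [Ring F] [Ring B] [Ring C] [HopfAlgebra k F]
variable [HopfAlgebra k B] [HopfAlgebra k C]

/-- The identity, as an equivalence of vector spaces. -/
private noncomputable def MainStep_id (φ : F →ₐ[k] B) (X : ModuleCat.{u} B) :
    X ≃ₗ[k] ((res φ).obj X) where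
  toFun x := x
  invFun x := x
  left_inv _ := rfl
  right_inv _ := rfl
  map_add' _ _ := rfl
  map_smul' c x := by
    change algebraMap k B c • x = φ (algebraMap k F c) • x
    rw [AlgHom.commutes]

private theorem MainStep_act (ι : F →ₐc[k] B) (X Y : ModuleCat.{u} B) (a : F) (z : X ⊗[k] Y) :
    TensorProduct.congr (MainStep_id (ι : F →ₐ[k] B) X) (MainStep_id (ι : F →ₐ[k] B) Y)
      (tact k X Y (ι a) z) =
    tact k ((res (ι : F →ₐ[k] B)).obj X) ((res (ι : F →ₐ[k] B)).obj Y) a
      (TensorProduct.congr (MainStep_id (ι : F →ₐ[k] B) X) (MainStep_id (ι : F →ₐ[k] B) Y) z) := by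
  induction z using TensorProduct.induction_on with
  | zero => simp only [map_zero]
  | add x y hx hy => simp only [map_add, hx, hy]
  | tmul x y =>
    rw [TensorProduct.congr_tmul]
    change TensorProduct.congr _ _ ((Module.endTensorEndAlgHom (R := k) (S := k) (A := k) (M := X)
      (N := Y)) (Algebra.TensorProduct.map _ _ (Coalgebra.comul (ι a))) (x ⊗ₜ[k] y)) =
      (Module.endTensorEndAlgHom (R := k) (S := k) (A := k)
        (M := ((res (ι : F →ₐ[k] B)).obj X))
        (N := ((res (ι : F →ₐ[k] B)).obj Y)))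
        (Algebra.TensorProduct.map _ _ (Coalgebra.comul a)) (_ ⊗ₜ[k] _)
    rw [tact_tmul, tact_tmul]
    have h1 : Coalgebra.comul (R := k) (ι a) =
        TensorProduct.map (ι : F →ₗ[k] B) (ι : F →ₗ[k] B) (Coalgebra.comul a) :=
      (CoalgHomClass.map_comp_comul_apply ι a).symm
    rw [h1]
    generalize Coalgebra.comul (R := k) a = t
    induction t using TensorProduct.induction_on with
    | zero => simp only [map_zero]
    | add s t hs ht => simp only [map_add, hs, ht]
    | tmul s t =>
      rw [TensorProduct.map_tmul, TensorProduct.map_tmul, TensorProduct.map_tmul,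
        TensorProduct.congr_tmul]
      rfl

/-- Restriction commutes with tensor products. -/
theorem resTen (ι : F →ₐc[k] B) (X Y : ModuleCat.{u} B) :
    Nonempty ((res (ι : F →ₐ[k] B)).obj ((tensFunctor k Y).obj X) ≅
      (tensFunctor k ((res (ι : F →ₐ[k] B)).obj Y)).obj ((res (ι : F →ₐ[k] B)).obj X)) := by
  let e := TensorProduct.congr (MainStep_id (ι : F →ₐ[k] B) X) (MainStep_id (ι : F →ₐ[k] B) Y)
  let L : (res (ι : F →ₐ[k] B)).obj ((tensFunctor k Y).obj X) →ₗ[F]
      (tensFunctor k ((res (ι : F →ₐ[k] B)).obj Y)).obj ((res (ι : F →ₐ[k] B)).obj X) :=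
    { toFun := fun z => e (show X ⊗[k] Y from z)
      map_add' := fun z w => map_add e (show X ⊗[k] Y from z) (show X ⊗[k] Y from w)
      map_smul' := fun a z => MainStep_act ι X Y a z }
  let g : (res (ι : F →ₐ[k] B)).obj ((tensFunctor k Y).obj X) ⟶
      (tensFunctor k ((res (ι : F →ₐ[k] B)).obj Y)).obj ((res (ι : F →ₐ[k] B)).obj X) :=
    ConcreteCategory.ofHom (C := ModuleCat.{u} F)
      (X := (res (ι : F →ₐ[k] B)).obj ((tensFunctor k Y).obj X))
      (Y := (tensFunctor k ((res (ι : F →ₐ[k] B)).obj Y)).obj ((res (ι : F →ₐ[k] B)).obj X)) L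
  have hg : IsIso g := (ConcreteCategory.isIso_iff_bijective _).2
    ⟨fun x y h => e.injective h, fun y => by
      obtain ⟨x, hx⟩ := e.surjective (show _ ⊗[k] _ from y)
      exact ⟨x, hx⟩⟩
  exact ⟨asIso g⟩

private theorem MainStep_fin (φ : F →ₐ[k] B) [Module.Finite k B] (P : ModuleCat.{u} B)
    (hf : Module.Finite B P) : Module.Finite F ((res φ).obj P) := by
  have h1 : Module.Finite k P := Module.Finite.trans B P
  have h2 : Module.Finite k ((res φ).obj P) :=
    Module.Finite.equiv (MainStep_id φ P)
  exact Module.Finite.of_restrictScalars_finite k F _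

/-- The tensor product of finite modules is finite. -/
private theorem MainStep_finT [Module.Finite k B] (K Y : ModuleCat.{u} B) (hK : Module.Finite B K)
    (hY : Module.Finite B Y) : Module.Finite B ((tensFunctor k Y).obj K) := by
  have h1 : Module.Finite k K := Module.Finite.trans B K
  have h2 : Module.Finite k Y := Module.Finite.trans B Y
  have h3 : Module.Finite k (K ⊗[k] Y) := inferInstance
  have h4 : Module.Finite k ((tensFunctor k Y).obj K) := by
    let L : K ⊗[k] Y →ₗ[k] ((tensFunctor k Y).obj K) :=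
      { toFun := fun z => (show TT k K Y from z)
        map_add' := fun _ _ => rfl
        map_smul' := fun c z => by
          have h5 : tact k K Y (algebraMap k B c) = algebraMap k _ c := (tact k K Y).commutes c
          exact (congr($h5 z)).symm }
    exact Module.Finite.of_surjective L fun z => ⟨z, rfl⟩
  exact Module.Finite.of_restrictScalars_finite k B _

/-- The first `m` members of a family. -/
private noncomputable def MainStep_fst {n : ℕ} (η : Fam k B (Fin n)) (m : ℕ) (h : m ≤ n) :
    Fam k B (Fin m) := η.comap (Fin.castLE h)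

private theorem MainStep_ind [Module.Finite k F] [Module.Finite k B] (ι : F →ₐc[k] B)
    (π : B →ₐc[k] C) (hex : CentralExact k ι π) (hF : AugNil k F) (σ : Sect ι π) {r : ℕ}
    (ζ : Fam k C (Fin r)) (hζ : ∀ M : ModuleCat.{u} C, Module.Finite C M → ζ.EvGen M) {n : ℕ}
    (η : Fam k B (Fin n)) (m : ℕ) : ∀ (hm : m ≤ n) (X : ModuleCat.{u} B), Module.Finite B X →
      ((MainStep_fst η m hm).res (ι : F →ₐ[k] B) (aug_of_bialg ι)).EvGen
        ((res (ι : F →ₐ[k] B)).obj X) →
      ((ζ.res (π : B →ₐ[k] C) (aug_of_bialg π)).sum η).EvGen X := by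
  induction m with
  | zero =>
    intro hm X hX h
    have h1 := acyc_of_large hF _ (Fam.evGen_empty _ h)
    exact Fam.evGen_sum_left _ _ (infl_evGen ι π hex (σ.hasAcyc hex) ζ hζ X h1)
  | succ m ih =>
    intro hm X hX h
    have hXF : Module.Finite F ((res (ι : F →ₐ[k] B)).obj X) := MainStep_fin _ X hX
    let i₀ : Fin n := ⟨m, hm⟩
    obtain ⟨D⟩ := KData.nonempty (η.cls i₀) (η.pos i₀)
    obtain ⟨D', hD'⟩ := KData.res (ι : F →ₐ[k] B) (aug_of_bialg ι)
      (fun P hP hf => σ.proj hex P hP hf) D
    have h1 : (((MainStep_fst η m (by omega)).res (ι : F →ₐ[k] B) (aug_of_bialg ι)).cons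
        (rsE (ι : F →ₐ[k] B) (aug_of_bialg ι) (η.cls i₀)) (η.pos i₀) (η.even i₀)).EvGen
        ((res (ι : F →ₐ[k] B)).obj X) := by
      let f : Fin (m + 1) → Option (Fin m) := fun i =>
        if hi : i.1 < m then some ⟨i.1, hi⟩ else none
      refine Fam.evGen_mono _ _ f (fun i => ?_) (fun i => ?_) h
      · by_cases hi : i.1 < m
        · have hf : f i = some ⟨i.1, hi⟩ := dif_pos hi
          rw [hf]
          rfl
        · have h2 : i.1 = m := by have := i.2; omega
          have h3 : (Fin.castLE hm i) = i₀ := Fin.ext h2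
          have hf : f i = none := dif_neg hi
          rw [hf]
          change η.deg i₀ = η.deg (Fin.castLE hm i)
          rw [h3]
      · by_cases hi : i.1 < m
        · have hf : f i = some ⟨i.1, hi⟩ := dif_pos hi
          rw [hf]
          rfl
        · have h2 : i.1 = m := by have := i.2; omega
          have h3 : (Fin.castLE hm i) = i₀ := Fin.ext h2
          have hf : f i = none := dif_neg hi
          rw [hf]
          change (⟨_, rsE (ι : F →ₐ[k] B) (aug_of_bialg ι) (η.cls i₀)⟩ :
            Σ n, Ext (trivObj k F) (trivObj k F) n) =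
            ⟨_, rsE (ι : F →ₐ[k] B) (aug_of_bialg ι) (η.cls (Fin.castLE hm i))⟩
          rw [h3]
    have h2 := descend _ _ (η.pos i₀) (η.even i₀) D' ((res (ι : F →ₐ[k] B)).obj X) h1
    rw [hD'] at h2
    obtain ⟨e⟩ := resTen ι D.K X
    have h3 := Fam.evGen_iso _ e.symm h2
    have hT := MainStep_finT (k := k) D.K X D.finK hX
    have h4 := ih (by omega) _ hT h3
    exact climb ((ζ.res (π : B →ₐ[k] C) (aug_of_bialg π)).sum η) (Sum.inr i₀) D X h4

theorem main_step [Module.Finite k F] [Module.Finite k B] (ι : F →ₐc[k] B) (π : B →ₐc[k] C)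
    (hex : CentralExact k ι π) (hF : AugNil k F) (hC : FGE k C) {n : ℕ} (η : Fam k B (Fin n))
    (hη : (η.res (ι : F →ₐ[k] B) (aug_of_bialg ι)).EvGen (trivObj k F)) : FGE k B := by
  obtain ⟨r, ζ, hζ⟩ := hC
  obtain ⟨σ⟩ := exists_sect ι π hex hF
  refine FGE.of_finite ((ζ.res (π : B →ₐ[k] C) (aug_of_bialg π)).sum η) fun M hM => ?_
  have hMF : Module.Finite F ((res (ι : F →ₐ[k] B)).obj M) := MainStep_fin _ M hM
  refine MainStep_ind ι π hex hF σ ζ hζ η n le_rfl M hM ?_
  exact Fam.evGen_mono _ _ id (fun _ => rfl) (fun _ => rfl)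
    (evGen_of_triv hF (η.res (ι : F →ₐ[k] B) (aug_of_bialg ι)) hη ((res (ι : F →ₐ[k] B)).obj M))

/-- The split case: `k` is a projective `A`-module. -/
theorem split_step {A : Type u} [Ring A] [HopfAlgebra k A] [Module.Finite k B]
    (ι : A →ₐc[k] B) (π : B →ₐc[k] C) (hex : CentralExact k ι π)
    (hA : Projective (trivObj k A)) (hC : FGE k C) : FGE k B := by
  obtain ⟨r, ζ, hζ⟩ := hC
  have hac : ∀ N : ModuleCat.{u} A, Acyc k N := by
    intro N n hn x
    obtain ⟨m, rfl⟩ : ∃ m, n = m + 1 := ⟨n - 1, by omega⟩
    exact Ext.eq_zero_of_projective x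
  have hI : HasAcyc ι := by
    intro X hX
    have hkX : Module.Finite k X := Module.Finite.trans B X
    refine ⟨ModuleCat.of B (Coind k B X),
      ModuleCat.ofHom (Coind.lift (A := B) (LinearMap.id (M := X) (R := k))),
      Coind.lift_id_injective, ?_, ?_, hac _⟩
    · exact (Module.injective_iff_injective_object B (Coind k B X)).1 Coind.injective
    · exact Module.Finite.of_restrictScalars_finite k B _
  exact FGE.of_finite (ζ.res (π : B →ₐ[k] C) (aug_of_bialg π)) fun M hM =>
    infl_evGen ι π hex hI ζ hζ M (hac _)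

end

end Pool.Agent.Helper90.FC
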