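import Pool.Agent.Helper90.FC.Chain

/-!
# Project FC, piece TRA: powers of transgressive classes extend

`F → B → C` homomorphisms of bialgebras whose composite is trivial. `x` is an element of degree two
of the cobar algebra of `B` whose differential comes from an element `y` of the cobar algebra of
`C`. The restriction `x|F` is a cocycle. Then some `p^K`-th power of its class is the restriction of
a class of `B`.

`chain`: iterate the key lemma: `x_{m+1} = S^p 1` with `S = RR y_m + (x_m * ·)`,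
`y_{m+1} = (RR y_m)^(p-1) y_m`, computed in the cobar algebra of `C` (`mapT_RR`, `mapT_dd`,
`mapT_injective` as `HDmap π` is injective). For the restriction to `F`: `mapT (ι^*) (mapT (π^*) y)`
vanishes for a cocycle `y` of odd degree (`triv_odd`), so `S` restricts to multiplication.
`triv_pow`: the composite `HD C → HD B → HD F` is `a ↦ a(1) 1`, so an element of degree `n` goes to
a multiple of `(io 1)^n`; `dd ((io 1)^n) = (io 1)^(n+1)` for `n` odd and `0` for `n` even.

`transgress`: let `W n` be the subspace of `Ext_C^n(k, k)` of all `∑ e_j.comp (clsT y_j)`. By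
`FGE C` and `Fam.hilb` (for `M = k`), `W n` is generated by lower degrees for `n ≥ N`; take `K` with
`2 p^K + 1 ≥ N`: `clsT y_K = ∑_{j<K} e_j.comp (clsT y_j)`, `e_j = clsT w_j` (`clsT_surj`), so
`y_K = ∑ y_j w_j + dd u` (`clsT_mul`, `clsT_inj`), and
`η = x_K - ∑ x_j (mapT π^* w_j) - mapT π^* u` is a cocycle; its restriction to `F` is
`(x|F)^(p^K)` up to coboundaries (`w_j`, `u` have positive even degree, and
`(x|F)^(p^j) (io 1)^m` is a coboundary for `m` even, `m > 0`).
-/

set_option linter.unusedSectionVars false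
set_option autoImplicit false

open CategoryTheory CategoryTheory.Abelian CategoryTheory.Limits
open scoped ModuleCat TensorProduct
open Pool.Agent.Helper59.FG

namespace Pool.Agent.Helper90.FC

universe u

section

variable (k : Type u) [Field k] {A : Type u} [Ring A] [Bialgebra k A]

private theorem Trans_finite : Module.Finite A (trivObj k A) := by
  refine ⟨⟨{(show trivObj k A from (1 : k))}, ?_⟩⟩
  rw [eq_top_iff]
  intro x _
  rw [Finset.coe_singleton, Submodule.mem_span_singleton]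
  refine ⟨algebraMap k A (show k from x), ?_⟩
  change Bialgebra.counitAlgHom k A (algebraMap k A (show k from x)) * (1 : k) = (show k from x)
  rw [AlgHom.commutes, mul_one]
  rfl

variable [Module.Finite k A]

private theorem Trans_congr {n : ℕ} {w w' : TA k (HD k A)} (h : w = w')
    (hd : dd k (HD k A) w = 0) (hd' : dd k (HD k A) w' = 0) :
    clsT k n w hd = clsT k n w' hd' := by
  subst h
  rfl

private theorem Trans_bound {N : ℕ} (hN : 0 < N) (v w : TA k (HD k A))
    (hw : dd k (HD k A) v = w) (hd : dd k (HD k A) w = 0) : clsT k N w hd = 0 := by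
  obtain ⟨n, rfl⟩ : ∃ n, N = n + 1 := ⟨N - 1, by omega⟩
  subst hw
  exact clsT_bound k n v

private theorem Trans_one (hd : dd k (HD k A) 1 = 0) :
    clsT k 0 (1 : TA k (HD k A)) hd = Ext.mk₀ (𝟙 (trivObj k A)) := by
  unfold clsT
  rw [cls_zero]
  congr 1
  ext c
  have h1 : (evn k 0 (1 : TA k (HD k A)) : trivObj k A) = (show trivObj k A from (1 : k)) := by
    have h2 : evT k (1 : TA k (HD k A)) = one0 k A := rmul_one k _
    exact congrFun h2 0
  change (show k from c) • (show trivObj k A from evn k 0 (1 : TA k (HD k A))) = c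
  rw [h1]
  change Bialgebra.counitAlgHom k A (algebraMap k A (show k from c)) * (1 : k) = (show k from c)
  rw [AlgHom.commutes, mul_one]
  rfl

private theorem Trans_dd_one : dd k (HD k A) (1 : TA k (HD k A)) = 0 := by
  have h := dd_mul k (HD k A) 1 1
  have h1 : sg k (HD k A) 1 = 1 := map_one _
  rw [h1, one_mul, one_mul, mul_one] at h
  exact left_eq_add.1 h

private theorem Trans_sg {n : ℕ} (hn : Even n) {q : TA k (HD k A)} (hq : q ∈ Tn k (HD k A) n) :
    sg k (HD k A) q = q := by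
  rw [sg_Tn k (HD k A) n q hq, hn.neg_one_pow, one_smul]

private theorem Trans_pow_mem {z : TA k (HD k A)} (hz : z ∈ Tn k (HD k A) 2) (r : ℕ) :
    z ^ r ∈ Tn k (HD k A) (2 * r) := by
  have h := Submodule.pow_mem_pow (LinearMap.range (TensorAlgebra.ι k (M := HD k A)) ^ 2) hz r
  rw [← pow_mul] at h
  exact h

private theorem Trans_dd_pow {z : TA k (HD k A)} (hz : z ∈ Tn k (HD k A) 2)
    (hd : dd k (HD k A) z = 0) (r : ℕ) : dd k (HD k A) (z ^ r) = 0 := by
  induction r with
  | zero => rw [pow_zero]; exact Trans_dd_one k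
  | succ r ih => rw [pow_succ', dd_mul, ih, mul_zero, hd, zero_mul, add_zero]

private theorem Trans_ypow {z : TA k (HD k A)} (hz : z ∈ Tn k (HD k A) 2)
    (hd : dd k (HD k A) z = 0) (r : ℕ) :
    clsT k (2 * r) (z ^ r) (Trans_dd_pow k hz hd r) = ypow (clsT k 2 z hd) r := by
  induction r with
  | zero =>
    have h1 : clsT k (2 * 0) (z ^ 0) (Trans_dd_pow k hz hd 0) =
        clsT k 0 (1 : TA k (HD k A)) (Trans_dd_one k) := Trans_congr k (pow_zero z) _ _
    rw [h1, Trans_one]
    rfl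
  | succ r ih =>
    have h1 : z ^ (r + 1) = z * z ^ r := pow_succ' z r
    have h2 : dd k (HD k A) (z * z ^ r) = 0 := by
      rw [← h1]
      exact Trans_dd_pow k hz hd (r + 1)
    have h3 := clsT_mul k (N := 2 * (r + 1)) (rfl : 2 * r + 2 = 2 * (r + 1)) z (z ^ r) hz
      (Trans_pow_mem k hz r) hd (Trans_dd_pow k hz hd r) h2
    rw [ih] at h3
    exact (Trans_congr k h1 _ h2).trans h3

private theorem Trans_cob {s a : ℕ} (hs : Even s) {q : TA k (HD k A)}
    (hq : q ∈ Tn k (HD k A) s) (hd : dd k (HD k A) q = 0) (ha : Even a) (ha0 : 0 < a) :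
    dd k (HD k A) (q * io k (1 : HD k A) ^ (a - 1)) = q * io k (1 : HD k A) ^ a := by
  obtain ⟨b, rfl⟩ : ∃ b, a = b + 1 := ⟨a - 1, by omega⟩
  have hb : Odd b := by
    rcases Nat.even_or_odd b with h | h
    · exact absurd (h.add_one) (Nat.not_odd_iff_even.2 ha)
    · exact h
  rw [Nat.add_sub_cancel, dd_mul, hd, zero_mul, add_zero, Trans_sg k hs hq,
    dd_one_pow (HD k A) b, if_pos hb]

end

section

variable {k : Type u} [Field k] {F B C : Type u} [Ring F] [Ring B] [Ring C] [Bialgebra k F]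
variable [Bialgebra k B] [Bialgebra k C] [Module.Finite k F] [Module.Finite k B]
  [Module.Finite k C]

/-- The classes of degree `N + 1` which lift to cochains of `B` with trivial restriction. -/
private def TransP (ι : F →ₐc[k] B) (π : B →ₐc[k] C) (N : ℕ) :
    Submodule k (Ext (trivObj k C) (trivObj k C) (N + 1)) where
  carrier := {z | ∃ (Y : TA k (HD k C)) (X : TA k (HD k B)) (v : TA k (HD k F))
    (hd : dd k (HD k C) Y = 0), Y ∈ Tn k (HD k C) (N + 1) ∧ clsT k (N + 1) Y hd = z ∧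
      dd k (HD k B) X = mapT (HDmap π : HD k C →ₗ[k] HD k B) Y ∧
      dd k (HD k F) v = mapT (HDmap ι : HD k B →ₗ[k] HD k F) X}
  zero_mem' := by
    refine ⟨0, 0, 0, map_zero _, Submodule.zero_mem _, ?_, ?_, ?_⟩
    · exact Trans_bound k (Nat.succ_pos N) 0 0 (map_zero _) _
    · rw [map_zero, map_zero]
    · rw [map_zero, map_zero]
  add_mem' := by
    rintro _ _ ⟨Y, X, v, hd, hY, rfl, hX, hv⟩ ⟨Y', X', v', hd', hY', rfl, hX', hv'⟩
    have h : dd k (HD k C) (Y + Y') = 0 := by rw [map_add, hd, hd', add_zero]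
    refine ⟨Y + Y', X + X', v + v', h, Submodule.add_mem _ hY hY', clsT_add k _ _ _ hd hd' h,
      ?_, ?_⟩
    · rw [map_add, map_add, hX, hX']
    · rw [map_add, map_add, hv, hv']
  smul_mem' := by
    rintro c _ ⟨Y, X, v, hd, hY, rfl, hX, hv⟩
    have h : dd k (HD k C) (c • Y) = 0 := by rw [map_smul, hd, smul_zero]
    refine ⟨c • Y, c • X, c • v, h, Submodule.smul_mem _ c hY, clsT_smul k _ c _ hd h,
      ?_, ?_⟩
    · rw [map_smul, map_smul, hX]
    · rw [map_smul, map_smul, hv]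

theorem transgress (p : ℕ) [Fact p.Prime] [CharP k p] [Nontrivial F] (ι : F →ₐc[k] B)
    (π : B →ₐc[k] C) (hπ : Function.Surjective π)
    (hιπ : ∀ a : F, π (ι a) = algebraMap k C (Coalgebra.counit (R := k) a)) (hC : FGE k C)
    (x : TA k (HD k B)) (hx : x ∈ Tn k (HD k B) 2) (y : TA k (HD k C))
    (hy : y ∈ Tn k (HD k C) 3)
    (hxy : dd k (HD k B) x = mapT (HDmap π : HD k C →ₗ[k] HD k B) y)
    (hd : dd k (HD k F) (mapT (HDmap ι : HD k B →ₗ[k] HD k F) x) = 0) :
    ∃ (K : ℕ) (η : Ext (trivObj k B) (trivObj k B) (2 * p ^ K)),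
      rsE (ι : F →ₐ[k] B) (aug_of_bialg ι) η =
        ypow (clsT k 2 (mapT (HDmap ι : HD k B →ₗ[k] HD k F) x) hd) (p ^ K) := by
  have hp2 : 2 ≤ p := (Fact.out : p.Prime).two_le
  choose xs ys hxs hys hdy hdx hres using chain p ι π hπ hιπ x hx y hy hxy
  set x0 : TA k (HD k F) := mapT (HDmap ι : HD k B →ₗ[k] HD k F) x with hx0
  have hx0m : x0 ∈ Tn k (HD k F) 2 := mapT_pow _ 2 x hx
  let f : ∀ j : ℕ, Ext (trivObj k C) (trivObj k C) (2 * p ^ j + 1) := fun j =>
    clsT k (2 * p ^ j + 1) (ys j) (hdy j)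
  obtain ⟨r, ζ, hζ⟩ := hC
  have hfin : Module.Finite C (trivObj k C) := Trans_finite k
  let W : ∀ n, Submodule k (Ext (trivObj k C) (trivObj k C) n) := fun n =>
    ⨆ (j : ℕ) (a : ℕ) (h : a + (2 * p ^ j + 1) = n),
      LinearMap.range ((f j).postcompOfLinear k (trivObj k C) h)
  have hWmem : ∀ (j a n : ℕ) (h : a + (2 * p ^ j + 1) = n)
      (e : Ext (trivObj k C) (trivObj k C) a), e.comp (f j) h ∈ W n := by
    intro j a n h e
    refine Submodule.mem_iSup_of_mem j (Submodule.mem_iSup_of_mem a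
      (Submodule.mem_iSup_of_mem h ?_))
    exact ⟨e, rfl⟩
  have hW : ∀ (i : Fin r) {m n : ℕ} (h : ζ.deg i + m = n), ∀ z ∈ W m,
      (ζ.cls i).comp z h ∈ W n := by
    intro i m n h z hz
    have h1 : W m ≤ (W n).comap ((ζ.cls i).precompOfLinear k (trivObj k C) h) := by
      refine iSup_le fun j => iSup_le fun a => iSup_le fun ha => ?_
      rintro _ ⟨e, rfl⟩
      change (ζ.cls i).comp (e.comp (f j) ha) h ∈ W n
      have h2 : (ζ.cls i).comp (e.comp (f j) ha) h =
          ((ζ.cls i).comp e (rfl : ζ.deg i + a = ζ.deg i + a)).comp (f j)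
            (by omega) := (Ext.comp_assoc _ _ _ _ _ (by omega)).symm
      rw [h2]
      exact hWmem _ _ _ _ _
    exact h1 hz
  obtain ⟨N, hN⟩ := ζ.hilb (trivObj k C) (hζ _ hfin) W hW
  -- choose `K`
  obtain ⟨K, hK⟩ : ∃ K : ℕ, N ≤ 2 * p ^ K + 1 := by
    refine ⟨N, ?_⟩
    have : N < p ^ N := Nat.lt_pow_self hp2
    omega
  have key : ∀ (j : ℕ), p ^ j < p ^ K → ∀ (b : ℕ) (hbK : b + (2 * p ^ j + 1) = 2 * p ^ K + 1)
      (e' : Ext (trivObj k C) (trivObj k C) b), e'.comp (f j) hbK ∈ TransP ι π (2 * p ^ K) := by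
    intro j hj b hbK e'
    obtain ⟨w, hw, hdw, rfl⟩ := clsT_surj k b e'
    have hdd : dd k (HD k C) (ys j * w) = 0 := by
      rw [dd_mul, hdw, mul_zero, hdy j, zero_mul, add_zero]
    obtain ⟨c, hc⟩ := triv_pow ι π hιπ b w hw
    have hbe : Even b := by
      have : b = 2 * (p ^ K - p ^ j) := by omega
      rw [this]
      exact even_two_mul _
    have hb0 : 0 < b := by omega
    have hdxj : dd k (HD k F) (x0 ^ (p ^ j)) = 0 := Trans_dd_pow k hx0m hd _
    refine ⟨ys j * w, xs j * mapT (HDmap π : HD k C →ₗ[k] HD k B) w,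
      c • (x0 ^ (p ^ j) * io k (1 : HD k F) ^ (b - 1)), hdd, ?_, ?_, ?_, ?_⟩
    · have h4 := Submodule.mul_mem_mul (hys j) hw
      rw [← pow_add] at h4
      have h5 : 2 * p ^ j + 1 + b = 2 * p ^ K + 1 := by omega
      rw [h5] at h4
      exact h4
    · exact clsT_mul k _ (ys j) w (hys j) hw (hdy j) hdw hdd
    · rw [dd_mul, ← mapT_dd, hdw, map_zero, mul_zero, zero_add, hdx j, map_mul]
    · rw [map_smul, Trans_cob k (even_two_mul _) (Trans_pow_mem k hx0m _) hdxj hbe hb0, map_mul,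
        hres j, hc, mul_smul_comm]
  have hfK : f K ∈ TransP ι π (2 * p ^ K) := by
    have h1 : f K ∈ W (2 * p ^ K + 1) := by
      have h2 := hWmem K 0 (2 * p ^ K + 1) (zero_add _) (Ext.mk₀ (𝟙 _))
      rw [Ext.mk₀_id_comp] at h2
      exact h2
    have h3 := hN _ hK h1
    refine (iSup_le fun i => iSup_le fun m => iSup_le fun h => ?_ :
      (⨆ (i : Fin r) (m : ℕ) (h : ζ.deg i + m = 2 * p ^ K + 1),
        (W m).map ((ζ.cls i).precompOfLinear k (trivObj k C) h)) ≤ TransP ι π (2 * p ^ K)) h3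
    have hm : m < 2 * p ^ K + 1 := by
      have := ζ.pos i
      omega
    rw [Submodule.map_le_iff_le_comap]
    refine iSup_le fun j => iSup_le fun a => iSup_le fun ha => ?_
    rintro _ ⟨e, rfl⟩
    change (ζ.cls i).comp (e.comp (f j) ha) h ∈ TransP ι π (2 * p ^ K)
    have hj : p ^ j < p ^ K := by omega
    have h2 : (ζ.cls i).comp (e.comp (f j) ha) h =
        ((ζ.cls i).comp e (rfl : ζ.deg i + a = ζ.deg i + a)).comp (f j)
          (by omega) := (Ext.comp_assoc _ _ _ _ _ (by omega)).symm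
    rw [h2]
    exact key j hj _ (by omega) _
  obtain ⟨Y, X, v, hdY, hY, hYK, hX, hv⟩ := hfK
  have hpK : 0 < p ^ K := by positivity
  -- the difference is a coboundary
  have hdiff : dd k (HD k C) (ys K - Y) = 0 := by rw [map_sub, hdy K, hdY, sub_zero]
  have hcl : clsT k (2 * p ^ K + 1) (ys K - Y) hdiff = 0 := by
    have h1 : dd k (HD k C) ((ys K - Y) + Y) = 0 := by rw [sub_add_cancel]; exact hdy K
    have h2 := clsT_add k (2 * p ^ K + 1) (ys K - Y) Y hdiff hdY h1
    rw [Trans_congr k (sub_add_cancel (ys K) Y) h1 (hdy K), hYK] at h2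
    exact right_eq_add.1 h2
  obtain ⟨u, hu, hdu⟩ := clsT_inj k (2 * p ^ K) (ys K - Y) (Submodule.sub_mem _ (hys K) hY)
    hdiff hcl
  obtain ⟨c, hc⟩ := triv_pow ι π hιπ (2 * p ^ K) u hu
  have hη : dd k (HD k B) (xs K - X - mapT (HDmap π : HD k C →ₗ[k] HD k B) u) = 0 := by
    rw [map_sub, map_sub, hdx K, hX, ← mapT_dd, hdu, map_sub, sub_self]
  refine ⟨K, clsT k (2 * p ^ K) _ hη, ?_⟩
  have hη' : dd k (HD k F) (mapT (HDmap ι : HD k B →ₗ[k] HD k F)
      (xs K - X - mapT (HDmap π : HD k C →ₗ[k] HD k B) u)) = 0 := by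
    rw [← mapT_dd, hη, map_zero]
  rw [← clsT_res k ι (2 * p ^ K) _ hη hη', ← Trans_ypow k hx0m hd]
  -- the restriction
  have hcob : dd k (HD k F) (-(v + c • ((1 : TA k (HD k F)) * io k (1 : HD k F) ^ (2 * p ^ K - 1)))) =
      mapT (HDmap ι : HD k B →ₗ[k] HD k F)
        (xs K - X - mapT (HDmap π : HD k C →ₗ[k] HD k B) u) - x0 ^ (p ^ K) := by
    have h1 : (1 : TA k (HD k F)) ∈ Tn k (HD k F) 0 := by
      change (1 : TA k (HD k F)) ∈ LinearMap.range (TensorAlgebra.ι k (M := HD k F)) ^ 0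
      rw [pow_zero]
      exact Submodule.one_le.1 le_rfl
    rw [map_neg, map_add, map_smul, Trans_cob k (Even.zero) h1 (Trans_dd_one k)
      (even_two_mul _) (by omega), one_mul, map_sub, map_sub, hres K, hc, hv]
    abel
  have hd1 : dd k (HD k F) (mapT (HDmap ι : HD k B →ₗ[k] HD k F)
        (xs K - X - mapT (HDmap π : HD k C →ₗ[k] HD k B) u) - x0 ^ (p ^ K)) = 0 := by
    rw [← hcob, dd_dd]
  have hz := Trans_bound k (by omega : 0 < 2 * p ^ K) _ _ hcob hd1
  have hd2 := Trans_dd_pow k hx0m hd (p ^ K)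
  have hd3 : dd k (HD k F) ((mapT (HDmap ι : HD k B →ₗ[k] HD k F)
        (xs K - X - mapT (HDmap π : HD k C →ₗ[k] HD k B) u) - x0 ^ (p ^ K)) +
          x0 ^ (p ^ K)) = 0 := by
    rw [sub_add_cancel]
    exact hη'
  have h5 := clsT_add k (2 * p ^ K) _ _ hd1 hd2 hd3
  rw [Trans_congr k (sub_add_cancel _ (x0 ^ (p ^ K))) hd3 hη', hz, zero_add] at h5
  exact h5

end

end Pool.Agent.Helper90.FC
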