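import Pool.Agent.Helper90.FC.GrpEv
import Pool.Agent.Helper90.FC.Trans
import Pool.Agent.Helper90.FC.MainStep

/-!
# Project FC, piece HEI: the step for a central Hopf subalgebra of height one
-/

set_option linter.unusedSectionVars false
set_option autoImplicit false

open CategoryTheory CategoryTheory.Abelian CategoryTheory.Limits
open scoped ModuleCat TensorProduct
open Pool.Agent.Helper59.FG

namespace Pool.Agent.Helper90.FC

universe u

section

variable {k : Type u} [Field k]

/-- A finitely generated nil ideal is nilpotent. -/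
theorem augNil_of_pow {F : Type u} [CommRing F] [Bialgebra k F] [Module.Finite k F] (p : ℕ)
    (hp : 0 < p) (hF : ∀ a : F, Coalgebra.counit (R := k) a = 0 → a ^ p = 0) : AugNil k F := by
  let I : Ideal F := RingHom.ker (Bialgebra.counitAlgHom k F)
  have hN : IsNoetherianRing F := isNoetherian_of_isNoetherianRing_of_finite k F |> fun _ => by
    exact IsNoetherianRing.of_finite k F
  have hI : IsNilpotent I := by
    rw [Ideal.FG.isNilpotent_iff_le_nilradical (IsNoetherian.noetherian I)]
    intro a ha
    exact ⟨p, hF a ha⟩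
  obtain ⟨N, hN⟩ := hI
  refine ⟨N, fun l hl h => ?_⟩
  have h1 : ∀ l : List F, (∀ a ∈ l, Coalgebra.counit (R := k) a = 0) → l.prod ∈ I ^ l.length := by
    intro l
    induction l with
    | nil => intro _; simp
    | cons a l ih =>
      intro h
      rw [List.prod_cons, List.length_cons, pow_succ']
      exact Ideal.mul_mem_mul (h a (by simp)) (ih fun b hb => h b (by simp [hb]))
  have h2 := h1 l h
  rw [hl, hN] at h2
  exact h2

/-- `exists_coords`, `exists_sect`, `exists_vdata`, `exists_bock`, `transgress`, `evGen_bock`,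
`evGen_pow`, `evGen_mono`, `main_step`. -/
theorem height_step (p : ℕ) [Fact p.Prime] [CharP k p] {F B C : Type u} [CommRing F] [Ring B]
    [Ring C] [HopfAlgebra k F] [HopfAlgebra k B] [HopfAlgebra k C] [Module.Finite k F]
    [Module.Finite k B] [Module.Finite k C] (ι : F →ₐc[k] B) (π : B →ₐc[k] C)
    (hex : CentralExact k ι π) (hF : ∀ a : F, Coalgebra.counit (R := k) a = 0 → a ^ p = 0)
    (hC : FGE k C) : FGE k B := by
  have hp : 0 < p := (Fact.out : p.Prime).pos
  have hN : AugNil k F := augNil_of_pow p hp hF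
  have hnt : Nontrivial F := by
    refine ⟨⟨0, 1, fun h => ?_⟩⟩
    have h2 : Coalgebra.counit (R := k) (0 : F) = Coalgebra.counit (R := k) (1 : F) := by rw [h]
    rw [map_zero, Bialgebra.counit_one] at h2
    exact zero_ne_one h2
  have hιπ : ∀ a : F, π (ι a) = algebraMap k C (Coalgebra.counit (R := k) a) := by
    intro a
    have h2 : π (ι (a - algebraMap k F (Coalgebra.counit (R := k) a))) = 0 := by
      rw [hex.ker]
      refine Ideal.subset_span ⟨_, ?_, rfl⟩
      change Coalgebra.counit (R := k) (a - algebraMap k F (Coalgebra.counit (R := k) a)) = 0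
      rw [map_sub, Bialgebra.counit_algebraMap, sub_self]
    rw [map_sub, map_sub, sub_eq_zero] at h2
    rw [h2]
    have h3 : ι (algebraMap k F (Coalgebra.counit (R := k) a)) =
        algebraMap k B (Coalgebra.counit (R := k) a) := AlgHomClass.commutes ι _
    rw [h3]
    exact AlgHomClass.commutes π _
  obtain ⟨n, ⟨c⟩⟩ := exists_coords k p F hF
  obtain ⟨σ⟩ := exists_sect ι π hex hN
  choose D hD using exists_vdata p c
  have hη : ∀ i, ∃ (K : ℕ) (η : Ext (trivObj k B) (trivObj k B) (2 * p ^ K)),
      rsE (ι : F →ₐ[k] B) (aug_of_bialg ι) η = ypow (D i).cl (p ^ K) := by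
    intro i
    obtain ⟨X, Y, hX, hY, hXY, hd, hval⟩ := exists_bock p ι π hex σ c i
    obtain ⟨K, η, h⟩ := transgress p ι π hex.surj hιπ hC X hX Y hY hXY hd
    refine ⟨K, η, ?_⟩
    rw [h, hD i (mapT (HDmap ι : HD k B →ₗ[k] HD k F) X) (mapT_pow _ 2 X hX) hd hval]
  choose K η hη using hη
  let H : Fam k B (Fin n) :=
    { deg := fun i => 2 * p ^ K i
      cls := η
      pos := fun i => Nat.mul_pos (by norm_num) (pow_pos hp _)
      even := fun i => even_two.mul_right _ }
  refine main_step ι π hex hN hC H ?_
  have h1 := Fam.evGen_pow (fam2 fun i => (D i).cl) (fun i => p ^ K i) (fun i => pow_pos hp _)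
    (evGen_bock p c D)
  refine Fam.evGen_mono ((fam2 fun i => (D i).cl).pow (fun i => p ^ K i)
    (fun i => pow_pos hp _)) (H.res (ι : F →ₐ[k] B) (aug_of_bialg ι)) id (fun i => rfl)
    (fun i => ?_) h1
  exact congrArg (Sigma.mk (β := fun n => Ext (trivObj k F) (trivObj k F) n) (2 * p ^ K i)) (hη i)

end

end Pool.Agent.Helper90.FC
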