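import Pool.Agent.Helper90.FC.Syz

/-!
# Project FC, piece KDA: the modules `K_η`
-/

set_option linter.unusedSectionVars false
set_option autoImplicit false

open CategoryTheory CategoryTheory.Abelian CategoryTheory.Limits
open scoped ModuleCat TensorProduct
open Pool.Agent.Helper59.FG

namespace Pool.Agent.Helper90.FC

universe u

/-- An extension `0 → k → K → Ω → 0` of a syzygy of `k` by `k` which represents `η`. -/
structure KData (k : Type u) [Field k] {A : Type u} [Ring A] [Bialgebra k A] {d : ℕ}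
    (η : Ext (trivObj k A) (trivObj k A) d) where
  a : ℕ
  ha : a + 1 = d
  K : ModuleCat.{u} A
  Ω : ModuleCat.{u} A
  i : trivObj k A ⟶ K
  p : K ⟶ Ω
  w : i ≫ p = 0
  ses : (ShortComplex.mk i p w).ShortExact
  finK : Module.Finite A K
  κ : Ext (trivObj k A) Ω a
  syz : Syz k a Ω κ
  hκ : κ.comp ses.extClass ha = η

section

variable {k : Type u} [Field k] {A B : Type u} [Ring A] [Ring B]

private theorem KData_triv_finite [Bialgebra k A] : Module.Finite A (trivObj k A) := by
  have h : Module.Finite k (Triv k A) := inferInstanceAs (Module.Finite k k)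
  exact (Module.Finite.of_restrictScalars_finite k A (Triv k A) : Module.Finite A (Triv k A))

/-- A class of degree one is the class of a short exact sequence (push out a presentation). -/
private theorem KData_rep [Bialgebra k A] (Ω T : ModuleCat.{u} A) [Module.Finite A Ω]
    [Module.Finite A T] (e : Ext Ω T 1) :
    ∃ (K : ModuleCat.{u} A) (i : T ⟶ K) (p : K ⟶ Ω) (w : i ≫ p = 0)
      (ses : (ShortComplex.mk i p w).ShortExact), Module.Finite A K ∧ ses.extClass = e := by
  obtain ⟨m, q, surjq⟩ := Module.Finite.exists_fin' A Ω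
  let j : ModuleCat.of A (LinearMap.ker q) ⟶ ModuleCat.of A (Fin m → A) :=
    ModuleCat.ofHom (LinearMap.ker q).subtype
  let r : ModuleCat.of A (Fin m → A) ⟶ Ω := ModuleCat.ofHom q
  have w0 : j ≫ r = 0 := by
    ext x
    exact x.2
  have hS : (ShortComplex.mk j r w0).ShortExact :=
    ModuleCat.shortComplex_shortExact _ (LinearMap.exact_subtype_ker_map q)
      (Submodule.injective_subtype _) surjq
  have hP : Projective (ModuleCat.of A (Fin m → A)) :=
    (IsProjective.iff_projective (Fin m → A)).1 inferInstance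
  obtain ⟨x, hx⟩ := Ext.contravariant_sequence_exact₃ hS T e
    (Ext.eq_zero_of_projective _) (n₀ := 0) rfl
  obtain ⟨f, rfl⟩ := (Ext.mk₀_bijective _ _).2 x
  -- the pushout
  let N : Submodule A (T × (Fin m → A)) :=
    LinearMap.range (LinearMap.prod f.hom (-(LinearMap.ker q).subtype))
  let iL : T →ₗ[A] ((T × (Fin m → A)) ⧸ N) := N.mkQ ∘ₗ LinearMap.inl A T (Fin m → A)
  let tL : (Fin m → A) →ₗ[A] ((T × (Fin m → A)) ⧸ N) := N.mkQ ∘ₗ LinearMap.inr A T (Fin m → A)
  have hN : N ≤ LinearMap.ker (q ∘ₗ LinearMap.snd A T (Fin m → A)) := by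
    rintro _ ⟨y, rfl⟩
    rw [LinearMap.mem_ker]
    change q (-(y : Fin m → A)) = 0
    rw [map_neg, y.2, neg_zero]
  let pL : ((T × (Fin m → A)) ⧸ N) →ₗ[A] Ω := N.liftQ _ hN
  let K : ModuleCat.{u} A := ModuleCat.of A ((T × (Fin m → A)) ⧸ N)
  let i : T ⟶ K := ModuleCat.ofHom iL
  let p : K ⟶ Ω := ModuleCat.ofHom pL
  have w : i ≫ p = 0 := by
    ext x
    change q (0 : Fin m → A) = 0
    exact map_zero q
  have hinj : Function.Injective iL := by
    rw [← LinearMap.ker_eq_bot, LinearMap.ker_eq_bot']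
    intro x hx
    have h1 : ((x, 0) : T × (Fin m → A)) ∈ N := (Submodule.Quotient.mk_eq_zero N).1 hx
    obtain ⟨y, hy⟩ := h1
    have h2 : f.hom y = x := congrArg Prod.fst hy
    have h3 : -(y : Fin m → A) = 0 := congrArg Prod.snd hy
    have h4 : y = 0 := Subtype.ext (neg_eq_zero.1 h3)
    rw [← h2, h4, map_zero]
  have hsurj : Function.Surjective pL := by
    intro y
    obtain ⟨z, hz⟩ := surjq y
    exact ⟨N.mkQ (0, z), hz⟩
  have hex : Function.Exact iL pL := by
    intro y
    constructor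
    · intro hy
      obtain ⟨⟨t, z⟩, rfl⟩ := N.mkQ_surjective y
      have h1 : q z = 0 := hy
      refine ⟨t + f.hom ⟨z, h1⟩, ?_⟩
      have h2 : ((t + f.hom ⟨z, h1⟩, 0) : T × (Fin m → A)) - (t, z) ∈ N := by
        refine ⟨⟨z, h1⟩, ?_⟩
        refine Prod.ext ?_ ?_
        · change f.hom ⟨z, h1⟩ = t + f.hom ⟨z, h1⟩ - t
          rw [add_sub_cancel_left]
        · change -z = 0 - z
          rw [zero_sub]
      exact (Submodule.Quotient.eq N).2 h2
    · rintro ⟨x, rfl⟩
      change q (0 : Fin m → A) = 0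
      exact map_zero q
  have ses : (ShortComplex.mk i p w).ShortExact :=
    ModuleCat.shortComplex_shortExact _ hex hinj hsurj
  have hcomm : f ≫ i = j ≫ ModuleCat.ofHom tL := by
    ext y
    change N.mkQ (f.hom y, 0) = N.mkQ (0, (y : Fin m → A))
    refine (Submodule.Quotient.eq N).2 ⟨y, ?_⟩
    refine Prod.ext ?_ ?_
    · change f.hom y = f.hom y - 0
      rw [sub_zero]
    · change -(y : Fin m → A) = 0 - (y : Fin m → A)
      rw [zero_sub]
  have hcomm' : (ModuleCat.ofHom tL : ModuleCat.of A (Fin m → A) ⟶ K) ≫ p = r ≫ 𝟙 Ω := by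
    ext y
    rfl
  have hfin : Module.Finite A K := by
    have : Module.Finite A (T × (Fin m → A)) := inferInstance
    exact Module.Finite.of_surjective N.mkQ N.mkQ_surjective
  refine ⟨K, i, p, w, ses, hfin, ?_⟩
  have hnat := ShortComplex.ShortExact.extClass_naturality hS ses
    { τ₁ := f
      τ₂ := ModuleCat.ofHom tL
      τ₃ := 𝟙 Ω
      comm₁₂ := hcomm
      comm₂₃ := hcomm' }
  rw [← hx]
  refine Eq.trans ?_ hnat.symm
  exact (Ext.mk₀_id_comp _).symm

/-- Every class of positive degree is represented. (`Syz.exists_syz` and `Syz.factor` with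
`b = 1` give `e : Ext Ω k 1`; embed one more step `0 → Ω' → P → Ω → 0` with `P` free, `e` is
`extClass` followed by `f : Ω' → k`; take for `K` the pushout `(P × k) / Ω'`, and
`extClass_naturality`.) -/
theorem KData.nonempty [Bialgebra k A] [Module.Finite k A] {d : ℕ}
    (η : Ext (trivObj k A) (trivObj k A) d) (hd : 0 < d) : Nonempty (KData k η) := by
  obtain ⟨a, rfl⟩ : ∃ a, d = a + 1 := ⟨d - 1, by omega⟩
  obtain ⟨Ω, κ, h⟩ := Syz.exists_syz (k := k) (A := A) a
  obtain ⟨e, he⟩ := h.factor (rfl : a + 1 = a + 1) η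
  have : Module.Finite A Ω := h.finite
  have : Module.Finite A (trivObj k A) := KData_triv_finite
  obtain ⟨K, i, p, w, ses, hfin, hK⟩ := KData_rep (k := k) Ω (trivObj k A) e
  exact ⟨⟨a, rfl, K, Ω, i, p, w, ses, hfin, κ, h, by rw [hK]; exact he⟩⟩

private theorem KData_res_finite [Bialgebra k A] [Bialgebra k B] [Module.Finite k B]
    (φ : A →ₐ[k] B) (P : ModuleCat.{u} B) (hf : Module.Finite B P) :
    Module.Finite A ((Pool.Agent.Helper90.FC.res φ).obj P) := by
  have h1 : Module.Finite k P := Module.Finite.trans B P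
  let L : P →ₗ[k] ((Pool.Agent.Helper90.FC.res φ).obj P) :=
    { toFun := fun x => x
      map_add' := fun _ _ => rfl
      map_smul' := fun c x => by
        change algebraMap k B c • x = φ (algebraMap k A c) • x
        rw [AlgHom.commutes] }
  have h2 : Module.Finite k ((Pool.Agent.Helper90.FC.res φ).obj P) :=
    Module.Finite.of_surjective L fun x => ⟨x, rfl⟩
  exact Module.Finite.of_restrictScalars_finite k A _

/-- Replace the first term of a short exact sequence by an isomorphic one. -/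
private theorem KData_iso {T T' K Ω : ModuleCat.{u} A} (t : T ⟶ T') [IsIso t] (i : T' ⟶ K)
    (p : K ⟶ Ω) (w : i ≫ p = 0) (hS : (ShortComplex.mk i p w).ShortExact) :
    ∃ (w' : (t ≫ i) ≫ p = 0) (hS' : (ShortComplex.mk (t ≫ i) p w').ShortExact),
      hS'.extClass = hS.extClass.comp (Ext.mk₀ (inv t)) (add_zero 1) := by
  have w' : (t ≫ i) ≫ p = 0 := by rw [Category.assoc, w, comp_zero]
  let e : ShortComplex.mk (t ≫ i) p w' ≅ ShortComplex.mk i p w :=
    ShortComplex.isoMk (asIso t) (Iso.refl _) (Iso.refl _)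
      (Category.comp_id (t ≫ i)).symm
      (by
        change 𝟙 K ≫ p = p ≫ 𝟙 Ω
        rw [Category.comp_id, Category.id_comp])
  have hS' : (ShortComplex.mk (t ≫ i) p w').ShortExact :=
    ShortComplex.shortExact_of_iso e.symm hS
  refine ⟨w', hS', ?_⟩
  have hnat : hS'.extClass.comp (Ext.mk₀ t) (add_zero 1) =
      (Ext.mk₀ (𝟙 Ω)).comp hS.extClass (zero_add 1) :=
    ShortComplex.ShortExact.extClass_naturality hS' hS e.hom
  rw [Ext.mk₀_id_comp] at hnat
  rw [← hnat, Ext.comp_assoc_of_third_deg_zero, Ext.mk₀_comp_mk₀, IsIso.hom_inv_id,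
    Ext.comp_mk₀_id]

/-- Restriction of the data along `φ`, with the restricted module `K`. -/
theorem KData.res [Bialgebra k A] [Bialgebra k B] [Module.Finite k A] [Module.Finite k B]
    (φ : A →ₐ[k] B) (hφ : Aug φ)
    (hp : ∀ P : ModuleCat.{u} B, Projective P → Module.Finite B P → Projective ((res φ).obj P))
    {d : ℕ} {η : Ext (trivObj k B) (trivObj k B) d} (D : KData k η) :
    ∃ D' : KData k (rsE φ hφ η), D'.K = (Pool.Agent.Helper90.FC.res φ).obj D.K := by
  obtain ⟨a, ha, K, Ω, i, p, w, ses, finK, κ, syz, hκ⟩ := D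
  have hmap : ((ShortComplex.mk i p w).map (Pool.Agent.Helper90.FC.res φ)).ShortExact :=
    ses.map_of_exact _
  obtain ⟨w', hS', he⟩ := KData_iso (resTriv φ hφ) ((Pool.Agent.Helper90.FC.res φ).map i)
    ((Pool.Agent.Helper90.FC.res φ).map p) _ hmap
  refine ⟨⟨a, ha, (Pool.Agent.Helper90.FC.res φ).obj K, (Pool.Agent.Helper90.FC.res φ).obj Ω,
    _, _, w', hS', KData_res_finite φ K finK, rs φ hφ κ, syz.res φ hφ hp, ?_⟩, rfl⟩
  rw [he, ← hκ, rsE, rs_comp, Ext.mapExactFunctor_extClass, Ext.comp_assoc_of_third_deg_zero]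
  rfl

end

end Pool.Agent.Helper90.FC
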