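import Pool.Agent.Helper90.FC.EvLem

/-!
# Project FC, piece ACY: local algebras (nilpotent augmentation ideal)
-/

set_option linter.unusedSectionVars false
set_option autoImplicit false

open CategoryTheory CategoryTheory.Abelian CategoryTheory.Limits
open scoped ModuleCat TensorProduct
open Pool.Agent.Helper59.FG

namespace Pool.Agent.Helper90.FC

universe u

/-- The augmentation ideal is nilpotent. -/
def AugNil (k : Type u) [Field k] (A : Type u) [Ring A] [Bialgebra k A] : Prop :=
  ∃ N : ℕ, ∀ l : List A, l.length = N → (∀ a ∈ l, Coalgebra.counit (R := k) a = 0) → l.prod = 0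

/-- `Ext^n(k, M) = 0` for `n ≥ 1`. -/
def Acyc (k : Type u) [Field k] {A : Type u} [Ring A] [Bialgebra k A] (M : ModuleCat.{u} A) :
    Prop :=
  ∀ n, 1 ≤ n → ∀ x : Ext (trivObj k A) M n, x = 0

section

variable {k : Type u} [Field k] {A : Type u} [Ring A] [Bialgebra k A]

private theorem acyc_counit_sub (a : A) :
    Coalgebra.counit (R := k) (a - algebraMap k A (Coalgebra.counit (R := k) a)) = 0 := by
  rw [map_sub, Bialgebra.counit_algebraMap, sub_self]

/-- The span of the products of `n` elements of the augmentation ideal applied to `M`. -/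
private def acycP (k : Type u) [Field k] {A : Type u} [Ring A] [Bialgebra k A]
    (M : ModuleCat.{u} A) (n : ℕ) : Submodule k M :=
  Submodule.span k {x | ∃ (l : List A) (m : M), l.length = n ∧
    (∀ a ∈ l, Coalgebra.counit (R := k) a = 0) ∧ l.prod • m = x}

private theorem acycP_top {M : ModuleCat.{u} A} (h1 : acycP k M 1 = ⊤) (n : ℕ) :
    acycP k M n = ⊤ := by
  induction n with
  | zero =>
    rw [eq_top_iff]
    intro x _
    exact Submodule.subset_span ⟨[], x, rfl, by simp, by simp⟩
  | succ n ih =>
    rw [eq_top_iff, ← ih]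
    refine Submodule.span_le.2 ?_
    rintro _ ⟨l, m, hl, hl0, rfl⟩
    have hm : m ∈ acycP k M 1 := by
      rw [h1]
      trivial
    change l.prod • m ∈ acycP k M (n + 1)
    refine Submodule.span_induction (p := fun m _ => l.prod • m ∈ acycP k M (n + 1))
      ?_ ?_ ?_ ?_ hm
    · rintro _ ⟨l', m', hl', hl0', rfl⟩
      refine Submodule.subset_span ⟨l ++ l', m', by simp [hl, hl'], ?_, ?_⟩
      · intro a ha
        rcases List.mem_append.1 ha with h | h
        · exact hl0 a h
        · exact hl0' a h
      · rw [List.prod_append, mul_smul]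
    · rw [smul_zero]
      exact zero_mem _
    · intro x y _ _ hx hy
      rw [smul_add]
      exact add_mem hx hy
    · intro c x _ hx
      rw [← algebraMap_smul A c x, smul_smul, ← Algebra.commutes, mul_smul, algebraMap_smul]
      exact Submodule.smul_mem _ _ hx

private theorem acyc_exists (hA : AugNil k A) (M : ModuleCat.{u} A) (hM : Nontrivial M) :
    ∃ f : M ⟶ trivObj k A, Function.Surjective f.hom := by
  obtain ⟨N, hN⟩ := hA
  have h1 : acycP k M 1 ≠ ⊤ := by
    intro h1
    have h2 := acycP_top h1 N
    have h3 : acycP k M N = ⊥ := by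
      rw [eq_bot_iff]
      refine Submodule.span_le.2 ?_
      rintro _ ⟨l, m, hl, hl0, rfl⟩
      rw [hN l hl hl0, zero_smul]
      exact zero_mem _
    exact bot_ne_top (h3.symm.trans h2)
  obtain ⟨f, hf0, hf⟩ := (acycP k M 1).exists_le_ker_of_lt_top (lt_top_iff_ne_top.2 h1)
  have hfa : ∀ (a : A) (m : M), f (a • m) = Coalgebra.counit (R := k) a * f m := by
    intro a m
    have h2 : (a - algebraMap k A (Coalgebra.counit (R := k) a)) • m ∈ acycP k M 1 := by
      refine Submodule.subset_span ⟨[a - algebraMap k A (Coalgebra.counit (R := k) a)], m, rfl,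
        ?_, by simp⟩
      intro b hb
      rw [List.mem_singleton.1 hb]
      exact acyc_counit_sub a
    have h3 := hf h2
    rw [LinearMap.mem_ker, sub_smul, map_sub, algebraMap_smul, sub_eq_zero] at h3
    rw [h3, LinearMap.map_smul, smul_eq_mul]
  let g : M →ₗ[A] trivObj k A :=
    { toFun := fun m => (show trivObj k A from f m)
      map_add' := fun x y => f.map_add x y
      map_smul' := fun a m => hfa a m }
  refine ⟨ConcreteCategory.ofHom (C := ModuleCat.{u} A) (X := M) (Y := trivObj k A) g, ?_⟩
  obtain ⟨v, hv⟩ : ∃ v, f v ≠ 0 := by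
    by_contra h
    push Not at h
    exact hf0 (LinearMap.ext h)
  intro c
  refine ⟨((show k from c) * (f v)⁻¹) • v, ?_⟩
  change f (((show k from c) * (f v)⁻¹) • v) = (show k from c)
  rw [map_smul, smul_eq_mul, mul_assoc, inv_mul_cancel₀ hv, mul_one]

/-- Induction over the finite-dimensional modules. -/
private theorem acyc_induct [Module.Finite k A] (hA : AugNil k A) (P : ModuleCat.{u} A → Prop)
    (h0 : ∀ M : ModuleCat.{u} A, IsZero M → P M)
    (h1 : ∀ (X Y : ModuleCat.{u} A) (i : X ⟶ Y) (p : Y ⟶ trivObj k A) (w : i ≫ p = 0),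
      (ShortComplex.mk i p w).ShortExact → Module.Finite A X → Module.Finite A Y → P X → P Y)
    (M : ModuleCat.{u} A) (hM : Module.Finite A M) : P M := by
  have hAn : IsNoetherianRing A := isNoetherian_of_tower k (inferInstance : IsNoetherian k A)
  have key : ∀ (n : ℕ) (M : ModuleCat.{u} A), Module.Finite A M → Module.finrank k M = n →
      P M := by
    intro n
    induction n using Nat.strong_induction_on with
    | _ n ih =>
      intro M hM hn
      have hMk : Module.Finite k M := Module.Finite.trans A M
      rcases subsingleton_or_nontrivial M with hs | hs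
      · exact h0 M (ModuleCat.isZero_of_subsingleton M)
      · obtain ⟨f, hf⟩ := acyc_exists hA M hs
        have hX : Module.Finite A (LinearMap.ker f.hom) := inferInstance
        let X : ModuleCat.{u} A := ModuleCat.of A (LinearMap.ker f.hom)
        have hX' : Module.Finite A X := hX
        let i : X ⟶ M := ModuleCat.ofHom (LinearMap.ker f.hom).subtype
        have w : i ≫ f = 0 := by
          ext x
          exact x.2
        have hS : (ShortComplex.mk i f w).ShortExact :=
          ModuleCat.shortComplex_shortExact _ (fun y => by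
            constructor
            · intro hy
              exact ⟨⟨y, hy⟩, rfl⟩
            · rintro ⟨x, rfl⟩
              exact x.2) (LinearMap.ker f.hom).injective_subtype hf
        refine h1 X M i f w hS hX' hM (ih _ ?_ X hX' rfl)
        rw [← hn]
        let L : X →ₗ[k] M := i.hom.restrictScalars k
        have hL : Function.Injective L := (LinearMap.ker f.hom).injective_subtype
        rw [← LinearMap.finrank_range_of_inj hL]
        refine Submodule.finrank_lt ?_
        intro htop
        obtain ⟨v, hv⟩ := hf (show trivObj k A from (1 : k))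
        have hvL : v ∈ LinearMap.range L := by
          rw [htop]
          trivial
        obtain ⟨x, hx⟩ := hvL
        have hx2 : f.hom v = 0 := by
          rw [← hx]
          exact x.2
        rw [hv] at hx2
        exact one_ne_zero (α := k) hx2
  exact key _ M hM rfl

private theorem acyc_ext_isZero {X M : ModuleCat.{u} A} (h : IsZero X) {n : ℕ}
    (x : Ext X M n) : x = 0 := by
  rw [← Ext.mk₀_id_comp x, (IsZero.iff_id_eq_zero X).1 h, Ext.mk₀_zero, Ext.zero_comp]

private theorem acyc_ext_isZero' {X M : ModuleCat.{u} A} (h : IsZero M) {n : ℕ}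
    (x : Ext X M n) : x = 0 := by
  rw [← Ext.comp_mk₀_id x, (IsZero.iff_id_eq_zero M).1 h, Ext.mk₀_zero, Ext.comp_zero]

/-- Dévissage in the first variable. -/
private theorem acyc_dev [Module.Finite k A] (hA : AugNil k A) (M : ModuleCat.{u} A) (n : ℕ)
    (h : ∀ x : Ext (trivObj k A) M n, x = 0) (Y : ModuleCat.{u} A) (hY : Module.Finite A Y) :
    ∀ x : Ext Y M n, x = 0 := by
  refine acyc_induct hA (fun Y => ∀ x : Ext Y M n, x = 0) ?_ ?_ Y hY
  · intro Y hY x
    exact acyc_ext_isZero hY x
  · intro X Y i p w hS _ _ hX x
    obtain ⟨y, hy⟩ := Ext.contravariant_sequence_exact₂ hS M x (hX _)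
    rw [← hy, h y, Ext.comp_zero]

/-- A nonzero element killed by the augmentation ideal. -/
private theorem acyc_socle (hA : AugNil k A) :
    ∃ s : A, s ≠ 0 ∧ ∀ a : A, Coalgebra.counit (R := k) a = 0 → a * s = 0 := by
  classical
  have h1 : (1 : A) ≠ 0 := by
    intro h
    have h2 : Coalgebra.counit (R := k) (1 : A) = Coalgebra.counit (R := k) (0 : A) := by rw [h]
    rw [Bialgebra.counit_one, map_zero] at h2
    exact one_ne_zero h2
  have hf := Nat.find_spec hA
  rcases hN : Nat.find hA with _ | N
  · rw [hN] at hf
    exact absurd (hf [] rfl (by simp)) (by simpa using h1)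
  · rw [hN] at hf
    have hm := Nat.find_min hA (m := N) (by omega)
    push Not at hm
    obtain ⟨l, hl, hl0, hl1⟩ := hm
    refine ⟨l.prod, hl1, fun a ha => ?_⟩
    have := hf (a :: l) (by simp [hl]) (by
      intro b hb
      rcases List.mem_cons.1 hb with h | h
      · rw [h]
        exact ha
      · exact hl0 b h)
    rwa [List.prod_cons] at this

end

section

variable {k : Type u} [Field k] {A : Type u} [Ring A] [Bialgebra k A] [Module.Finite k A]

/-- A nonzero finite-dimensional module has a surjection onto the trivial module: `A⁺ M ≠ M`. -/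
theorem exists_surj_triv (hA : AugNil k A) (M : ModuleCat.{u} A) [Module.Finite A M]
    (hM : Nontrivial M) : ∃ f : M ⟶ trivObj k A, Function.Surjective f.hom :=
  acyc_exists hA M hM

/-- Dévissage: induction on `finrank k M`, `exists_surj_triv` and `Fam.evGen_mid`. -/
theorem evGen_of_triv (hA : AugNil k A) {ι : Type} [Finite ι] (ζ : Fam k A ι)
    (h : ζ.EvGen (trivObj k A)) (M : ModuleCat.{u} A) [Module.Finite A M] : ζ.EvGen M := by
  refine acyc_induct hA (fun M => ζ.EvGen M) ?_ ?_ M inferInstance
  · intro M hM
    exact ζ.evGen_of_vanish ⟨0, fun n _ x => acyc_ext_isZero' hM x⟩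
  · intro X Y i p w hS hX hY h1
    have hT : Module.Finite A (trivObj k A) := Module.Finite.of_surjective p.hom
      ((ModuleCat.epi_iff_surjective p).1 hS.epi_g)
    exact ζ.evGen_mid hS h1 h

/-- If `Ext^n(k, M) = 0` for all large `n` then `M` is acyclic: the trivial module embeds in `A`
(a nonzero product of elements of `A⁺` killed by `A⁺`), with quotient `Y`;
`Ext^{n+1}(Y, M) = 0` by dévissage in the first variable, so `Ext^n(k, M) = 0` for `n ≥ 1`. -/
theorem acyc_of_large (hA : AugNil k A) (M : ModuleCat.{u} A)
    (h : ∃ N : ℕ, ∀ n, N ≤ n → ∀ x : Ext (trivObj k A) M n, x = 0) : Acyc k M := by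
  obtain ⟨s, hs0, hs⟩ := acyc_socle hA
  have hsa : ∀ a : A, a * s = Coalgebra.counit (R := k) a • s := by
    intro a
    have h1 := hs _ (acyc_counit_sub (k := k) a)
    rw [sub_mul, sub_eq_zero] at h1
    rw [h1, Algebra.smul_def]
  let j : trivObj k A →ₗ[A] A :=
    { toFun := fun c => (show k from c) • s
      map_add' := fun c d => add_smul (show k from c) (show k from d) s
      map_smul' := fun a c => by
        change (Coalgebra.counit (R := k) a * (show k from c)) • s = a * ((show k from c) • s)
        rw [mul_smul_comm, hsa, smul_smul, mul_comm] }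
  have hj : Function.Injective j := by
    rw [← LinearMap.ker_eq_bot, LinearMap.ker_eq_bot']
    intro c hc
    change (show k from c) • s = 0 at hc
    exact (smul_eq_zero.1 hc).resolve_right hs0
  let i : trivObj k A ⟶ ModuleCat.of A A :=
    ConcreteCategory.ofHom (C := ModuleCat.{u} A) (X := trivObj k A) (Y := ModuleCat.of A A) j
  let p : ModuleCat.of A A ⟶ ModuleCat.of A (A ⧸ LinearMap.range j) :=
    ModuleCat.ofHom (LinearMap.range j).mkQ
  have w : i ≫ p = 0 := by
    ext x
    exact (Submodule.Quotient.mk_eq_zero _).2 ⟨x, rfl⟩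
  have hS : (ShortComplex.mk i p w).ShortExact :=
    ModuleCat.shortComplex_shortExact _ (fun y => by
      refine (Submodule.Quotient.mk_eq_zero (LinearMap.range j) (x := y)).trans ?_
      rfl) hj (Submodule.mkQ_surjective _)
  have hproj : Projective (ModuleCat.of A A) := by
    have : Module.Projective A A := inferInstance
    exact (IsProjective.iff_projective A).1 this
  obtain ⟨N, hN⟩ := h
  have key : ∀ d n : ℕ, 1 ≤ n → N ≤ n + d → ∀ x : Ext (trivObj k A) M n, x = 0 := by
    intro d
    induction d with
    | zero => exact fun n _ hn x => hN n hn x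
    | succ d ih =>
      intro n hn hd x
      have h1 := acyc_dev hA M (n + 1) (ih (n + 1) (by omega) (by omega))
        (ModuleCat.of A (A ⧸ LinearMap.range j))
        (inferInstanceAs (Module.Finite A (A ⧸ LinearMap.range j)))
      obtain ⟨y, hy⟩ := Ext.contravariant_sequence_exact₁ hS M x (add_comm 1 n) (h1 _)
      rw [← hy]
      obtain ⟨n', rfl⟩ : ∃ n', n = n' + 1 := ⟨n - 1, by omega⟩
      have hy0 : y = 0 := Ext.eq_zero_of_projective y
      rw [hy0, Ext.comp_zero]
  exact fun n hn x => key N n hn (by omega) x

/-- Acyclicity and short exact sequences. -/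
theorem Acyc.of_ses {S : ShortComplex (ModuleCat.{u} A)} (hS : S.ShortExact)
    (h₁ : Acyc k S.X₁) (h₂ : Acyc k S.X₂) : Acyc k S.X₃ := by
  intro n hn x
  obtain ⟨y, hy⟩ := Ext.covariant_sequence_exact₃ (trivObj k A) hS x rfl
    (h₁ (n + 1) (by omega) _)
  rw [← hy, h₂ n hn y, Ext.zero_comp]

end

end Pool.Agent.Helper90.FC
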