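import Pool.Agent.Helper90.FC.Anti

/-!
# Project FC, piece NAT: exact functors, natural transformations and `Ext`

* `mapId`: the identity functor acts as the identity on `Ext`.
* `nat0`: natural transformations between exact functors commute with `Ext` classes.
  Induction on `n` (generalizing `X Y`): for `n = 0` use `Ext.mk₀_bijective`, `mapExactFunctor_mk₀`;
  for `n + 1`, embed `Y` in an injective `I` with cokernel `Z`: `x = x'.comp extClass`
  (`Ext.covariant_sequence_exact₁`, `Ext.eq_zero_of_injective`), then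
  `mapExactFunctor_comp`, `mapExactFunctor_extClass` and `extClass_naturality` for the map of short
  exact sequences `S.mapNatTrans τ : S.map F ⟶ S.map G`.
* `nat1`: for a short exact sequence of exact functors `F' → F → F''` and a class `x` of
  degree `n`, the extension classes commute with `x` up to the sign `(-1)^n`. Induction on `n` as
  for `nat0`, with `anti` in the induction step.
-/

set_option linter.unusedSectionVars false
set_option autoImplicit false

open CategoryTheory CategoryTheory.Abelian CategoryTheory.Limits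

namespace Pool.Agent.Helper90.FC

universe w w' v v' u u'

section

variable {C : Type u} [Category.{v} C] [Abelian C] [HasExt.{w} C]
variable {D : Type u'} [Category.{v'} D] [Abelian D] [HasExt.{w'} D]

private theorem NatExt_lift [EnoughInjectives C] {X Y : C} {n : ℕ} (x : Ext X Y (n + 1)) :
    ∃ (I Z : C) (f : Y ⟶ I) (g : I ⟶ Z) (w : f ≫ g = 0)
      (hS : (ShortComplex.mk f g w).ShortExact) (x' : Ext X Z n),
      x'.comp hS.extClass (rfl : n + 1 = n + 1) = x := by
  have hS : (ShortComplex.mk (Injective.ι Y) (cokernel.π (Injective.ι Y))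
      (cokernel.condition _)).ShortExact :=
    { exact := ShortComplex.exact_cokernel _ }
  obtain ⟨x', hx'⟩ := Ext.covariant_sequence_exact₁ X hS x (Ext.eq_zero_of_injective _)
    (rfl : n + 1 = n + 1)
  exact ⟨_, _, _, _, _, hS, x', hx'⟩

theorem mapId [EnoughInjectives C] {X Y : C} {n : ℕ} (x : Ext X Y n) :
    x.mapExactFunctor (𝟭 C) = x := by
  induction n generalizing X Y with
  | zero =>
    obtain ⟨f, rfl⟩ := (Ext.mk₀_bijective X Y).2 x
    rw [Ext.mapExactFunctor_mk₀]
    rfl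
  | succ n ih =>
    obtain ⟨I, Z, f, g, w, hS, x', rfl⟩ := NatExt_lift x
    rw [Ext.mapExactFunctor_comp, ih, Ext.mapExactFunctor_extClass]
    rfl

private theorem NatExt_alg0 {P P' Q Q' R R' : D} {n : ℕ} (a : Ext P Q n) (a' : Ext P' Q' n)
    (e : Ext Q R 1) (e' : Ext Q' R' 1) (t : P ⟶ P') (v : Q ⟶ Q') (u : R ⟶ R')
    (h2 : e.comp (Ext.mk₀ u) (add_zero 1) = (Ext.mk₀ v).comp e' (zero_add 1))
    (h3 : a.comp (Ext.mk₀ v) (add_zero n) = (Ext.mk₀ t).comp a' (zero_add n)) :
    (a.comp e (rfl : n + 1 = n + 1)).comp (Ext.mk₀ u) (add_zero (n + 1)) =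
      (Ext.mk₀ t).comp (a'.comp e' (rfl : n + 1 = n + 1)) (zero_add (n + 1)) := by
  calc (a.comp e (rfl : n + 1 = n + 1)).comp (Ext.mk₀ u) (add_zero (n + 1))
      = a.comp (e.comp (Ext.mk₀ u) (add_zero 1)) (rfl : n + 1 = n + 1) :=
        Ext.comp_assoc _ _ _ _ _ (by omega)
    _ = a.comp ((Ext.mk₀ v).comp e' (zero_add 1)) (rfl : n + 1 = n + 1) := by rw [h2]
    _ = (a.comp (Ext.mk₀ v) (add_zero n)).comp e' (rfl : n + 1 = n + 1) :=
        (Ext.comp_assoc _ _ _ _ _ (by omega)).symm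
    _ = ((Ext.mk₀ t).comp a' (zero_add n)).comp e' (rfl : n + 1 = n + 1) := by rw [h3]
    _ = (Ext.mk₀ t).comp (a'.comp e' (rfl : n + 1 = n + 1)) (zero_add (n + 1)) :=
        Ext.comp_assoc _ _ _ _ _ (by omega)

private theorem NatExt_alg1 {X' X'' Z' Z'' Y' Y'' : D} {n m : ℕ} (cX : Ext X'' X' 1)
    (a' : Ext X' Z' n) (e' : Ext Z' Y' 1) (a'' : Ext X'' Z'' n) (cZ : Ext Z'' Z' 1)
    (e'' : Ext Z'' Y'' 1) (cY : Ext Y'' Y' 1)
    (h1 : cZ.comp e' (rfl : 1 + 1 = 2) = -e''.comp cY (rfl : 1 + 1 = 2))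
    (h0 : 1 + n = n + 1)
    (h3 : cX.comp a' h0 = ((-1 : ℤ) ^ n) • a''.comp cZ (rfl : n + 1 = n + 1))
    (h : 1 + (n + 1) = m) (h' : n + 1 + 1 = m) :
    cX.comp (a'.comp e' (rfl : n + 1 = n + 1)) h =
      ((-1 : ℤ) ^ (n + 1)) • (a''.comp e'' (rfl : n + 1 = n + 1)).comp cY h' := by
  have e1 : cX.comp (a'.comp e' (rfl : n + 1 = n + 1)) h = (cX.comp a' h0).comp e' h' :=
    (Ext.comp_assoc _ _ _ _ _ (by omega)).symm
  have e2 : (a''.comp cZ (rfl : n + 1 = n + 1)).comp e' h' =
      a''.comp (cZ.comp e' (rfl : 1 + 1 = 2)) (by omega) :=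
    Ext.comp_assoc _ _ _ _ _ (by omega)
  have e3 : (a''.comp e'' (rfl : n + 1 = n + 1)).comp cY h' =
      a''.comp (e''.comp cY (rfl : 1 + 1 = 2)) (by omega) :=
    Ext.comp_assoc _ _ _ _ _ (by omega)
  rw [e1, h3, e3, pow_succ]
  rcases neg_one_pow_eq_or ℤ n with hn | hn
  · rw [hn, one_smul, one_mul, e2, h1, Ext.comp_neg, neg_smul, one_smul]
  · rw [hn, neg_smul, one_smul, Ext.neg_comp, e2, h1, Ext.comp_neg, neg_neg, neg_mul_neg,
      one_mul, one_smul]

theorem nat0 [EnoughInjectives C] {F G : C ⥤ D} [F.Additive] [G.Additive]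
    [PreservesFiniteLimits F] [PreservesFiniteColimits F] [PreservesFiniteLimits G]
    [PreservesFiniteColimits G] (τ : F ⟶ G) {X Y : C} {n : ℕ} (x : Ext X Y n) :
    (x.mapExactFunctor F).comp (Ext.mk₀ (τ.app Y)) (add_zero n) =
      (Ext.mk₀ (τ.app X)).comp (x.mapExactFunctor G) (zero_add n) := by
  induction n generalizing X Y with
  | zero =>
    obtain ⟨f, rfl⟩ := (Ext.mk₀_bijective X Y).2 x
    rw [Ext.mapExactFunctor_mk₀, Ext.mapExactFunctor_mk₀, Ext.mk₀_comp_mk₀, Ext.mk₀_comp_mk₀,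
      τ.naturality]
  | succ n ih =>
    obtain ⟨I, Z, f, g, w, hS, x', rfl⟩ := NatExt_lift x
    have h1 := ShortComplex.ShortExact.extClass_naturality (hS.map_of_exact F)
      (hS.map_of_exact G) ((ShortComplex.mk f g w).mapNatTrans τ)
    rw [Ext.mapExactFunctor_comp, Ext.mapExactFunctor_comp, Ext.mapExactFunctor_extClass,
      Ext.mapExactFunctor_extClass]
    exact NatExt_alg0 _ _ _ _ _ _ _ h1 (ih x')

theorem nat1 [EnoughInjectives C] {F' F F'' : C ⥤ D} [F'.Additive] [F.Additive] [F''.Additive]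
    [PreservesFiniteLimits F'] [PreservesFiniteColimits F'] [PreservesFiniteLimits F]
    [PreservesFiniteColimits F] [PreservesFiniteLimits F''] [PreservesFiniteColimits F'']
    (σ : F' ⟶ F) (π : F ⟶ F'') (w : ∀ X, σ.app X ≫ π.app X = 0)
    (hS : ∀ X, (ShortComplex.mk (σ.app X) (π.app X) (w X)).ShortExact)
    {X Y : C} {n m : ℕ} (x : Ext X Y n) (h : 1 + n = m) (h' : n + 1 = m) :
    (hS X).extClass.comp (x.mapExactFunctor F') h =
      ((-1 : ℤ) ^ n) • (x.mapExactFunctor F'').comp (hS Y).extClass h' := by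
  induction n generalizing X Y m with
  | zero =>
    subst h
    obtain ⟨f, rfl⟩ := (Ext.mk₀_bijective X Y).2 x
    rw [Ext.mapExactFunctor_mk₀, Ext.mapExactFunctor_mk₀, pow_zero, one_smul]
    exact ShortComplex.ShortExact.extClass_naturality (hS X) (hS Y)
      { τ₁ := F'.map f
        τ₂ := F.map f
        τ₃ := F''.map f
        comm₁₂ := σ.naturality f
        comm₂₃ := π.naturality f }
  | succ n ih =>
    obtain ⟨I, Z, f, g, w', hE, x', rfl⟩ := NatExt_lift x
    rw [Ext.mapExactFunctor_comp, Ext.mapExactFunctor_comp, Ext.mapExactFunctor_extClass,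
      Ext.mapExactFunctor_extClass]
    have h1 := anti (hE.map_of_exact F') (hE.map_of_exact F) (hE.map_of_exact F'')
      ((ShortComplex.mk f g w').mapNatTrans σ) ((ShortComplex.mk f g w').mapNatTrans π)
      (w Y) (w I) (w Z) (hS Y) (hS I) (hS Z)
    exact NatExt_alg1 _ _ _ _ _ _ _ h1 (by omega) (ih x' (by omega) rfl) h h'

end

end Pool.Agent.Helper90.FC
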