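import Pool.Agent.Helper59.FG.CohAct
import Pool.Agent.Helper90.FC.NatExt

/-!
# Project FC: internal homs of modules over a Hopf algebra

`HomT k M N` is the space of `k`-linear maps `M → N` with the action
`(a f)(m) = ∑ a₁ f(S(a₂) m)`; `ihom k M` is the functor `HomT k M -`, it is exact, and
`evI : (HomT k M N) ⊗ M → N` is natural. Every class in `Ext^n(M, N)` is obtained from a class
in `Ext^n(k, HomT k M N)`.
-/

set_option linter.unusedSectionVars false
set_option autoImplicit false

open CategoryTheory CategoryTheory.Abelian CategoryTheory.Limits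
open scoped ModuleCat TensorProduct
open Pool.Agent.Helper59.FG

namespace Pool.Agent.Helper90.FC

universe u

section

variable (k : Type u) [Field k] {A : Type u} [Ring A] [HopfAlgebra k A]

/-- `f ↦ a f(S(b) -)`. -/
noncomputable def hmul (M N : ModuleCat.{u} A) (a b : A) : Module.End k (M →ₗ[k] N) where
  toFun f := (Algebra.lsmul k k N a) ∘ₗ f ∘ₗ (Algebra.lsmul k k M (HopfAlgebra.antipode k b))
  map_add' f g := by
    ext m
    simp
  map_smul' c f := by
    ext m
    exact (Algebra.lsmul k k N a).map_smul c (f (HopfAlgebra.antipode k b • m))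

theorem hmul_apply (M N : ModuleCat.{u} A) (a b : A) (f : M →ₗ[k] N) (m : M) :
    hmul k M N a b f m = a • f (HopfAlgebra.antipode k b • m) := rfl

/-- The action of `A ⊗ A`. -/
noncomputable def hact2 (M N : ModuleCat.{u} A) : A ⊗[k] A →ₗ[k] Module.End k (M →ₗ[k] N) :=
  TensorProduct.lift (LinearMap.mk₂ k (hmul k M N)
    (fun a a' b => by
      ext f m
      simp [hmul_apply, add_smul])
    (fun c a b => by
      ext f m
      simp [hmul_apply, smul_assoc])
    (fun a b b' => by
      ext f m
      simp [hmul_apply, add_smul])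
    (fun c a b => by
      ext f m
      have h : HopfAlgebra.antipode k (c • b) • m = c • (HopfAlgebra.antipode k b • m) := by
        rw [LinearMap.map_smul (HopfAlgebra.antipode k), smul_assoc]
      rw [hmul_apply, h, LinearMap.map_smul f]
      exact (Algebra.lsmul k k N a).map_smul c (f (HopfAlgebra.antipode k b • m))))

theorem hact2_tmul (M N : ModuleCat.{u} A) (a b : A) :
    hact2 k M N (a ⊗ₜ b) = hmul k M N a b := by
  simp [hact2]

theorem hact2_mul (M N : ModuleCat.{u} A) (s t : A ⊗[k] A) :
    hact2 k M N (s * t) = hact2 k M N s * hact2 k M N t := by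
  induction s using TensorProduct.induction_on with
  | zero => simp
  | add s s' hs hs' => rw [add_mul, map_add, map_add, hs, hs', add_mul]
  | tmul a b =>
    induction t using TensorProduct.induction_on with
    | zero => simp
    | add t t' ht ht' => rw [mul_add, map_add, map_add, ht, ht', mul_add]
    | tmul c d =>
      rw [Algebra.TensorProduct.tmul_mul_tmul, hact2_tmul, hact2_tmul, hact2_tmul]
      ext f m
      rw [Module.End.mul_apply, hmul_apply, hmul_apply, hmul_apply,
        HopfAlgebra.antipode_mul_antidistrib, mul_smul, mul_smul]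

/-- The action of `A` on `Hom_k(M, N)`. -/
noncomputable def hact (M N : ModuleCat.{u} A) : A →ₐ[k] Module.End k (M →ₗ[k] N) :=
  AlgHom.ofLinearMap (hact2 k M N ∘ₗ Coalgebra.comul)
    (by
      rw [LinearMap.comp_apply, Bialgebra.comul_one, Algebra.TensorProduct.one_def, hact2_tmul]
      ext f m
      rw [hmul_apply, HopfAlgebra.antipode_one, one_smul, one_smul]
      rfl)
    (fun a b => by
      rw [LinearMap.comp_apply, Bialgebra.comul_mul, hact2_mul]
      rfl)

/-- The space of `k`-linear maps, with its `A`-module structure. -/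
def HomT (M N : ModuleCat.{u} A) : Type u := M →ₗ[k] N

noncomputable instance instGrpHT (M N : ModuleCat.{u} A) : AddCommGroup (HomT k M N) :=
  (inferInstance : AddCommGroup (M →ₗ[k] N))

noncomputable instance instModHT (M N : ModuleCat.{u} A) : Module A (HomT k M N) :=
  Module.compHom (M →ₗ[k] N) (hact k M N).toRingHom

theorem hact2_nat (M : ModuleCat.{u} A) {X Y : ModuleCat.{u} A} (f : X ⟶ Y) (t : A ⊗[k] A)
    (g : M →ₗ[k] X) : (f.hom.restrictScalars k) ∘ₗ (hact2 k M X t g) =
      hact2 k M Y t ((f.hom.restrictScalars k) ∘ₗ g) := by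
  induction t using TensorProduct.induction_on with
  | zero => simp
  | add s t hs ht => simp only [map_add, LinearMap.add_apply, LinearMap.comp_add, hs, ht]
  | tmul a b =>
    rw [hact2_tmul, hact2_tmul]
    ext m
    rw [hmul_apply, LinearMap.comp_apply, hmul_apply, LinearMap.comp_apply]
    exact map_smul f.hom a _

/-- Composition with `f`. -/
noncomputable def hmap (M : ModuleCat.{u} A) {X Y : ModuleCat.{u} A} (f : X ⟶ Y) :
    HomT k M X →ₗ[A] HomT k M Y where
  toFun g := (f.hom.restrictScalars k) ∘ₗ (show M →ₗ[k] X from g)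
  map_add' g g' := LinearMap.comp_add (show M →ₗ[k] X from g) (show M →ₗ[k] X from g')
    (f.hom.restrictScalars k)
  map_smul' a g := hact2_nat k M f (Coalgebra.comul a) g

/-- The functor `Hom_k(M, -)`. -/
noncomputable def ihom (M : ModuleCat.{u} A) : ModuleCat.{u} A ⥤ ModuleCat.{u} A where
  obj X := ModuleCat.of A (HomT k M X)
  map f := ModuleCat.ofHom (hmap k M f)
  map_id X := rfl
  map_comp f g := rfl

theorem hmap_add (M : ModuleCat.{u} A) {X Y : ModuleCat.{u} A} (f g : X ⟶ Y) :
    hmap k M (f + g) = hmap k M f + hmap k M g := by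
  refine LinearMap.ext fun h => ?_
  exact LinearMap.add_comp (show M →ₗ[k] X from h) (g.hom.restrictScalars k)
      (f.hom.restrictScalars k)

instance instAddI (M : ModuleCat.{u} A) : (ihom k M).Additive where
  map_add {_ _ f g} := congrArg ModuleCat.ofHom (hmap_add k M f g)

private theorem IHom_exact {M X Y Z : Type u} [AddCommGroup M] [Module k M] [AddCommGroup X]
    [Module k X] [AddCommGroup Y] [Module k Y] [AddCommGroup Z] [Module k Z] (f : X →ₗ[k] Y)
    (g : Y →ₗ[k] Z) (hf : Function.Injective f) (h : Function.Exact f g) (φ : M →ₗ[k] Y) :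
    g ∘ₗ φ = 0 ↔ ∃ ψ : M →ₗ[k] X, f ∘ₗ ψ = φ := by
  constructor
  · intro hg
    have hr : ∀ m : M, φ m ∈ LinearMap.range f := fun m => (h _).1 congr($hg m)
    refine ⟨(LinearEquiv.ofInjective _ hf).symm.toLinearMap ∘ₗ
      LinearMap.codRestrict _ φ hr, ?_⟩
    ext m
    exact congrArg Subtype.val ((LinearEquiv.ofInjective f hf).apply_symm_apply
      (LinearMap.codRestrict _ φ hr m))
  · rintro ⟨ψ, rfl⟩
    ext m
    exact (h _).2 ⟨_, rfl⟩

private theorem IHom_surj {M Y Z : Type u} [AddCommGroup M] [Module k M]
    [AddCommGroup Y] [Module k Y] [AddCommGroup Z] [Module k Z]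
    (g : Y →ₗ[k] Z) (hg : Function.Surjective g) (φ : M →ₗ[k] Z) :
    ∃ ψ : M →ₗ[k] Y, g ∘ₗ ψ = φ := by
  obtain ⟨s, hs⟩ := LinearMap.exists_rightInverse_of_surjective g (LinearMap.range_eq_top.2 hg)
  refine ⟨s ∘ₗ φ, ?_⟩
  rw [← LinearMap.comp_assoc, hs, LinearMap.id_comp]

private theorem IHom_inj {M X Y : Type u} [AddCommGroup M] [Module k M]
    [AddCommGroup X] [Module k X] [AddCommGroup Y] [Module k Y]
    (f : X →ₗ[k] Y) (hf : Function.Injective f) (φ ψ : M →ₗ[k] X) (h : f ∘ₗ φ = f ∘ₗ ψ) :
    φ = ψ := by
  ext m
  exact hf congr($h m)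

theorem ihom_shortExact (M : ModuleCat.{u} A) (S : ShortComplex (ModuleCat.{u} A))
    (hS : S.ShortExact) : (S.map (ihom k M)).ShortExact := by
  have h1 : Function.Exact S.f.hom S.g.hom :=
    (ShortComplex.ShortExact.moduleCat_exact_iff_function_exact S).1 hS.exact
  have h2 : Function.Injective S.f.hom := hS.moduleCat_injective_f
  have h3 : Function.Surjective S.g.hom := hS.moduleCat_surjective_g
  refine ModuleCat.shortComplex_shortExact _ ?_ ?_ ?_
  · intro g
    exact IHom_exact k (M := M) (S.f.hom.restrictScalars k) (S.g.hom.restrictScalars k) h2 h1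
      (show M →ₗ[k] S.X₂ from g)
  · intro g g' h
    exact IHom_inj k (M := M) (S.f.hom.restrictScalars k) h2 (show M →ₗ[k] S.X₁ from g)
      (show M →ₗ[k] S.X₁ from g') h
  · intro g
    exact IHom_surj k (M := M) (S.g.hom.restrictScalars k) h3 (show M →ₗ[k] S.X₃ from g)

instance instLimI (M : ModuleCat.{u} A) : PreservesFiniteLimits (ihom k M) := by
  have := ((Functor.exact_tfae (ihom k M)).out 0 3).1 (ihom_shortExact k M)
  exact this.1

instance instColimI (M : ModuleCat.{u} A) : PreservesFiniteColimits (ihom k M) := by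
  have := ((Functor.exact_tfae (ihom k M)).out 0 3).1 (ihom_shortExact k M)
  exact this.2

/-- The identity, from the `k`-structure of the object to that of the space of linear maps. -/
noncomputable def toLin (M N : ModuleCat.{u} A) :
    ((ihom k M).obj N : ModuleCat.{u} A) →ₗ[k] (M →ₗ[k] N) where
  toFun f := (show M →ₗ[k] N from f)
  map_add' f g := rfl
  map_smul' c f := by
    have h : hact k M N (algebraMap k A c) = algebraMap k _ c := (hact k M N).commutes c
    exact congr($h (show M →ₗ[k] N from f))

/-- Evaluation as a `k`-linear map. -/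
noncomputable def evK (M N : ModuleCat.{u} A) :
    ((ihom k M).obj N : ModuleCat.{u} A) ⊗[k] M →ₗ[k] N :=
  TensorProduct.lift (toLin k M N)

theorem evK_tmul (M N : ModuleCat.{u} A) (f : ((ihom k M).obj N : ModuleCat.{u} A)) (m : M) :
    evK k M N (f ⊗ₜ m) = toLin k M N f m := rfl

theorem toLin_smul (M N : ModuleCat.{u} A) (a : A) (f : ((ihom k M).obj N : ModuleCat.{u} A)) :
    toLin k M N (a • f) = hact2 k M N (Coalgebra.comul a) (toLin k M N f) := rfl

/-- `a ⊗ b ↦ a f(b m)`. -/
noncomputable def psi {M N : ModuleCat.{u} A} (f : M →ₗ[k] N) (m : M) : A ⊗[k] A →ₗ[k] N :=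
  TensorProduct.lift (((Algebra.lsmul k k N).toLinearMap.flip.compr₂ LinearMap.id) ∘ₗ f ∘ₗ
    ((LinearMap.toSpanSingleton A M m).restrictScalars k)).flip

theorem psi_tmul {M N : ModuleCat.{u} A} (f : M →ₗ[k] N) (m : M) (a b : A) :
    psi k f m (a ⊗ₜ b) = a • f (b • m) := rfl

theorem evK_smul (M N : ModuleCat.{u} A) (a : A)
    (z : ((ihom k M).obj N : ModuleCat.{u} A) ⊗[k] M) :
    evK k M N (tact k ((ihom k M).obj N) M a z) = a • evK k M N z := by
  induction z using TensorProduct.induction_on with
  | zero => simp
  | add x y hx hy => simp only [map_add, smul_add, hx, hy]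
  | tmul f m =>
    have h0 : tact k ((ihom k M).obj N) M a (f ⊗ₜ[k] m) =
        TensorProduct.map ((LinearMap.toSpanSingleton A _ f).restrictScalars k)
        ((LinearMap.toSpanSingleton A M m).restrictScalars k) (Coalgebra.comul a) :=
      tact_tmul k ((ihom k M).obj N) M (Coalgebra.comul a) f m
    rw [h0, evK_tmul]
    have h1 : ∀ t : A ⊗[k] A, evK k M N
        (TensorProduct.map ((LinearMap.toSpanSingleton A _ f).restrictScalars k)
        ((LinearMap.toSpanSingleton A M m).restrictScalars k) t) =
        psi k (toLin k M N f) m (LinearMap.lTensor A (LinearMap.mul' k A ∘ₗ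
          (HopfAlgebra.antipode k).rTensor A) (TensorProduct.assoc k A A A
            (Coalgebra.comul.rTensor A t))) := by
      intro t
      induction t using TensorProduct.induction_on with
      | zero => simp
      | add s t hs ht => simp only [map_add, hs, ht]
      | tmul b c =>
        rw [TensorProduct.map_tmul, LinearMap.rTensor_tmul, evK_tmul]
        change toLin k M N (b • f) (c • m) = _
        rw [toLin_smul]
        induction Coalgebra.comul (R := k) b using TensorProduct.induction_on with
        | zero => simp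
        | add s t hs ht =>
          simp only [map_add, LinearMap.add_apply, TensorProduct.add_tmul, hs, ht]
        | tmul b' b'' =>
          rw [hact2_tmul, hmul_apply, TensorProduct.assoc_tmul, LinearMap.lTensor_tmul, psi_tmul]
          simp [mul_smul]
    have key : LinearMap.lTensor A (LinearMap.mul' k A ∘ₗ (HopfAlgebra.antipode k).rTensor A)
        (Coalgebra.comul.lTensor A (Coalgebra.comul (R := k) a)) = a ⊗ₜ 1 := by
      rw [← LinearMap.comp_apply, ← LinearMap.lTensor_comp,
        LinearMap.comp_assoc, HopfAlgebra.mul_antipode_rTensor_comul, LinearMap.lTensor_comp,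
        LinearMap.comp_apply, Coalgebra.lTensor_counit_comul, LinearMap.lTensor_tmul]
      simp
    rw [h1, Coalgebra.coassoc_apply, key, psi_tmul, one_smul]

/-- Evaluation. -/
noncomputable def evL (M N : ModuleCat.{u} A) : TT k ((ihom k M).obj N) M →ₗ[A] N where
  toFun z := evK k M N (show ((ihom k M).obj N : ModuleCat.{u} A) ⊗[k] M from z)
  map_add' x y := map_add (evK k M N) x y
  map_smul' a z := evK_smul k M N a z

/-- Evaluation, as a natural transformation. -/
noncomputable def evI (M : ModuleCat.{u} A) : ihom k M ⋙ tensFunctor k M ⟶ 𝟭 _ where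
  app N := ModuleCat.ofHom (evL k M N)
  naturality {X Y} f := by
    refine ModuleCat.hom_ext (LinearMap.ext fun z => ?_)
    have h : ∀ z : ((ihom k M).obj X : ModuleCat.{u} A) ⊗[k] M,
        evK k M Y (TensorProduct.map (((ihom k M).map f).hom.restrictScalars k) LinearMap.id z) =
          f.hom (evK k M X z) := by
      intro z
      induction z using TensorProduct.induction_on with
      | zero => simp
      | add x y hx hy => simp only [map_add, hx, hy]
      | tmul g m => rfl
    exact h z

/-- The invariant element `id` of `Hom_k(M, M)`. -/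
theorem idM_smul (M : ModuleCat.{u} A) (a : A) :
    hact2 k M M (Coalgebra.comul a) LinearMap.id =
      Coalgebra.counit (R := k) a • (LinearMap.id : M →ₗ[k] M) := by
  have h1 : ∀ t : A ⊗[k] A, hact2 k M M t LinearMap.id =
      (Algebra.lsmul k k M) (LinearMap.mul' k A ((HopfAlgebra.antipode k).lTensor A t)) := by
    intro t
    induction t using TensorProduct.induction_on with
    | zero => simp
    | add s t hs ht => simp only [map_add, LinearMap.add_apply, hs, ht]
    | tmul b c =>
      rw [hact2_tmul]
      ext m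
      rw [hmul_apply]
      simp [mul_smul]
  rw [h1, HopfAlgebra.mul_antipode_lTensor_comul_apply]
  ext m
  simp

/-- The value `c • id`. -/
noncomputable def coevFun (M : ModuleCat.{u} A) (c : k) : HomT k M M :=
  (c • (LinearMap.id : M →ₗ[k] M) : M →ₗ[k] M)

/-- The invariant `id` as a map from the trivial module. -/
noncomputable def coevL (M : ModuleCat.{u} A) : trivObj k A →ₗ[A] HomT k M M where
  toFun c := coevFun k M c
  map_add' c d := add_smul (show k from c) (show k from d) (LinearMap.id : M →ₗ[k] M)
  map_smul' a c := by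
    have h1 : hact2 k M M (Coalgebra.comul a) ((show k from c) • (LinearMap.id : M →ₗ[k] M)) =
        (Coalgebra.counit (R := k) a * (show k from c)) • (LinearMap.id : M →ₗ[k] M) := by
      rw [map_smul, idM_smul, smul_smul, mul_comm]
    exact h1.symm

/-- The invariant `id` as a morphism from the trivial module. -/
noncomputable def coev (M : ModuleCat.{u} A) : trivObj k A ⟶ (ihom k M).obj M :=
  ConcreteCategory.ofHom (C := ModuleCat.{u} A) (X := trivObj k A) (Y := (ihom k M).obj M)
    (coevL k M)

theorem coev_ev (M : ModuleCat.{u} A) :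
    unitMap k M ≫ (tensFunctor k M).map (coev k M) ≫ (evI k M).app M = 𝟙 M := by
  refine ModuleCat.hom_ext (LinearMap.ext fun m => ?_)
  have h : evK k M M (TensorProduct.map ((coev k M).hom.restrictScalars k) LinearMap.id
      (oneT k A ⊗ₜ[k] m)) = m := by
    rw [TensorProduct.map_tmul, evK_tmul]
    exact one_smul k m
  exact h

theorem finite_ihom (M N : ModuleCat.{u} A) [Module.Finite k A] [Module.Finite A M]
    [Module.Finite A N] : Module.Finite A ((ihom k M).obj N) := by
  have h1 : Module.Finite k M := Module.Finite.trans A M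
  have h2 : Module.Finite k N := Module.Finite.trans A N
  have h3 : Module.Finite k (M →ₗ[k] N) := inferInstance
  have h4 : Module.Finite k ((ihom k M).obj N) :=
    Module.Finite.of_injective (toLin k M N) (fun _ _ h => h)
  exact Module.Finite.of_restrictScalars_finite k A ((ihom k M).obj N)

end

section

universe w w' w'' v v' v'' t t' t''

variable {C : Type t} [Category.{v} C] [Abelian C] [HasExt.{w} C]
variable {D : Type t'} [Category.{v'} D] [Abelian D] [HasExt.{w'} D]
variable {E : Type t''} [Category.{v''} E] [Abelian E] [HasExt.{w''} E]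

theorem mapComp [EnoughInjectives C] (F : C ⥤ D) (G : D ⥤ E) [F.Additive] [G.Additive]
    [PreservesFiniteLimits F] [PreservesFiniteColimits F] [PreservesFiniteLimits G]
    [PreservesFiniteColimits G] {X Y : C} {n : ℕ} (x : Ext X Y n) :
    x.mapExactFunctor (F ⋙ G) = (x.mapExactFunctor F).mapExactFunctor G := by
  induction n generalizing X Y with
  | zero =>
    obtain ⟨f, rfl⟩ := (Ext.mk₀_bijective X Y).2 x
    rw [Ext.mapExactFunctor_mk₀, Ext.mapExactFunctor_mk₀, Ext.mapExactFunctor_mk₀]
    rfl
  | succ n ih =>
    have hS : (ShortComplex.mk (Injective.ι Y) (cokernel.π (Injective.ι Y))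
        (cokernel.condition _)).ShortExact :=
      { exact := ShortComplex.exact_cokernel _ }
    obtain ⟨x', rfl⟩ := Ext.covariant_sequence_exact₁ X hS x (Ext.eq_zero_of_injective _)
      (rfl : n + 1 = n + 1)
    have h1 : hS.extClass.mapExactFunctor (F ⋙ G) =
        (hS.extClass.mapExactFunctor F).mapExactFunctor G := by
      have e1 := Ext.mapExactFunctor_extClass (F := F ⋙ G) hS
      have e2 := Ext.mapExactFunctor_extClass (F := F) hS
      have e3 := Ext.mapExactFunctor_extClass (F := G) (hS.map_of_exact F)
      exact e1.trans (Eq.trans e3.symm (congrArg (Ext.mapExactFunctor G) e2.symm))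
    rw [Ext.mapExactFunctor_comp, Ext.mapExactFunctor_comp, Ext.mapExactFunctor_comp, ih, h1]

end

section

variable (k : Type u) [Field k] {A : Type u} [Ring A] [HopfAlgebra k A]

/-- Every class in `Ext^n(M, N)` comes from a class in `Ext^n(k, Hom_k(M, N))`. -/
theorem exists_lift (M N : ModuleCat.{u} A) {n : ℕ} (y : Ext M N n) :
    ∃ z : Ext (trivObj k A) ((ihom k M).obj N) n,
      (Ext.mk₀ (unitMap k M)).comp ((z.mapExactFunctor (tensFunctor k M)).comp
        (Ext.mk₀ ((evI k M).app N)) (add_zero n)) (zero_add n) = y := by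
  refine ⟨(Ext.mk₀ (coev k M)).comp (y.mapExactFunctor (ihom k M)) (zero_add n), ?_⟩
  have h1 : ((y.mapExactFunctor (ihom k M)).mapExactFunctor (tensFunctor k M)).comp
      (Ext.mk₀ ((evI k M).app N)) (add_zero n) =
        (Ext.mk₀ ((evI k M).app M)).comp y (zero_add n) := by
    have h := nat0 (evI k M) y
    rw [mapId, mapComp] at h
    exact h
  rw [Ext.mapExactFunctor_comp, Ext.mapExactFunctor_mk₀, Ext.comp_assoc_of_third_deg_zero, h1,
    Ext.mk₀_comp_mk₀_assoc, Ext.mk₀_comp_mk₀_assoc, Category.assoc, coev_ev, Ext.mk₀_id_comp]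

end

end Pool.Agent.Helper90.FC
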