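import Pool.Agent.Helper90.FC.Cobar

/-!
# Project FC, piece COF: functoriality and degrees for the cobar algebra
-/

set_option linter.unusedSectionVars false
set_option autoImplicit false

open scoped TensorProduct

namespace Pool.Agent.Helper90.FC

universe u v

section Functoriality

variable {k : Type u} [Field k] {H H' : Type u} [Ring H] [Bialgebra k H] [Ring H']
  [Bialgebra k H']

/-- The homomorphism of tensor algebras induced by a linear map. -/
noncomputable def mapT {V V' : Type u} [AddCommGroup V] [Module k V] [AddCommGroup V']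
    [Module k V'] (f : V →ₗ[k] V') : TensorAlgebra k V →ₐ[k] TensorAlgebra k V' :=
  TensorAlgebra.lift k (TensorAlgebra.ι k ∘ₗ f)

theorem mapT_ι {V V' : Type u} [AddCommGroup V] [Module k V] [AddCommGroup V']
    [Module k V'] (f : V →ₗ[k] V') (a : V) :
    mapT f (TensorAlgebra.ι k a) = TensorAlgebra.ι k (f a) := by
  simp [mapT]

theorem mapT_injective {V V' : Type u} [AddCommGroup V] [Module k V] [AddCommGroup V']
    [Module k V'] (f : V →ₗ[k] V') (hf : Function.Injective f) :
    Function.Injective (mapT f) := by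
  obtain ⟨g, hg⟩ := LinearMap.exists_leftInverse_of_injective f (LinearMap.ker_eq_bot.2 hf)
  have h1 : (mapT g).comp (mapT f) = AlgHom.id k (TensorAlgebra k V) := by
    apply TensorAlgebra.hom_ext
    ext a
    have h2 : g (f a) = a := by
      have := LinearMap.congr_fun hg a
      simpa using this
    simp [mapT, h2]
  intro x y hxy
  have h3 := AlgHom.congr_fun h1 x
  have h4 := AlgHom.congr_fun h1 y
  simp only [AlgHom.comp_apply, AlgHom.id_apply] at h3 h4
  rw [← h3, ← h4, hxy]

/-- Degrees. -/
theorem mapT_pow {V V' : Type u} [AddCommGroup V] [Module k V] [AddCommGroup V']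
    [Module k V'] (f : V →ₗ[k] V') (n : ℕ) (w : TensorAlgebra k V)
    (hw : w ∈ LinearMap.range (TensorAlgebra.ι k (M := V)) ^ n) :
    mapT f w ∈ LinearMap.range (TensorAlgebra.ι k (M := V')) ^ n := by
  have h1 : (LinearMap.range (TensorAlgebra.ι k (M := V)) ^ n).map (mapT f).toLinearMap ≤
      LinearMap.range (TensorAlgebra.ι k (M := V')) ^ n := by
    rw [Submodule.map_pow]
    refine pow_le_pow_left' ?_ n
    rintro _ ⟨_, ⟨a, rfl⟩, rfl⟩
    refine ⟨f a, ?_⟩
    simp [mapT]
  exact h1 ⟨w, hw, rfl⟩

variable (f : H →ₐc[k] H')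

theorem mapT_sg (w : TA k H) :
    mapT (f : H →ₗ[k] H') (sg k H w) = sg k H' (mapT (f : H →ₗ[k] H') w) := by
  have h1 : (mapT (f : H →ₗ[k] H')).comp (sg k H) = (sg k H').comp (mapT (f : H →ₗ[k] H')) := by
    apply TensorAlgebra.hom_ext
    ext a
    simp [mapT, sg]
  exact AlgHom.congr_fun h1 w

private theorem mapT_DelT (a : H) :
    mapT (f : H →ₗ[k] H') (DelT k H a) = DelT k H' (f a) := by
  have h1 : Coalgebra.comul (R := k) (f a) =
      TensorProduct.map (f : H →ₗ[k] H') (f : H →ₗ[k] H') (Coalgebra.comul (R := k) a) := by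
    have h2 := LinearMap.congr_fun (CoalgHomClass.map_comp_comul f) a
    simp
  simp only [DelT, LinearMap.comp_apply]
  rw [h1]
  generalize Coalgebra.comul (R := k) a = z
  induction z using TensorProduct.induction_on with
  | zero => simp
  | tmul x y => simp [mapT]
  | add x y hx hy => simp only [map_add, hx, hy]

theorem mapT_dd (w : TA k H) :
    mapT (f : H →ₗ[k] H') (dd k H w) = dd k H' (mapT (f : H →ₗ[k] H') w) := by
  have h1 : (mapT (f : H →ₗ[k] H')).toLinearMap ∘ₗ dd k H =
      dd k H' ∘ₗ (mapT (f : H →ₗ[k] H')).toLinearMap := by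
    refine twDer_ext ((mapT (f : H →ₗ[k] H')).comp (sg k H)) (mapT (f : H →ₗ[k] H')) _ _ ?_ ?_ ?_
    · intro x y
      simp only [LinearMap.comp_apply, AlgHom.toLinearMap_apply, AlgHom.comp_apply]
      rw [dd_mul, map_add, map_mul, map_mul]
    · intro x y
      simp only [LinearMap.comp_apply, AlgHom.toLinearMap_apply, AlgHom.comp_apply]
      rw [map_mul, dd_mul, mapT_sg]
    · intro a
      simp only [LinearMap.comp_apply, AlgHom.toLinearMap_apply]
      have h2 := dd_io k H a
      have h3 := dd_io k H' (f a)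
      simp only [io] at h2 h3
      rw [h2, mapT_ι]
      have h4 : ((f : H →ₗ[k] H') a) = f a := by simp
      rw [h4, h3, map_sub, map_add, map_mul, map_mul, mapT_ι, mapT_ι, mapT_DelT]
      simp
  exact LinearMap.congr_fun h1 w

theorem mapT_act (w : TA k H) (a : H) :
    mapT (f : H →ₗ[k] H') (actT k H w a) = actT k H' (mapT (f : H →ₗ[k] H') w) (f a) := by
  induction w using TensorAlgebra.induction generalizing a with
  | algebraMap r =>
    simp only [actT, AlgHom.commutes]
    simp
  | ι b =>
    have h1 := actT_io k H a b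
    simp only [io] at h1
    rw [h1, mapT_ι, mapT_ι]
    have h2 := actT_io k H' (f a) (f b)
    simp only [io] at h2
    have h3 : ((f : H →ₗ[k] H') b) = f b := by simp
    rw [h3, h2]
    simp
  | mul x y hx hy =>
    have h1 : Coalgebra.comul (R := k) (f a) =
        TensorProduct.map (f : H →ₗ[k] H') (f : H →ₗ[k] H') (Coalgebra.comul (R := k) a) := by
      have h2 := LinearMap.congr_fun (CoalgHomClass.map_comp_comul f) a
      simp
    have h3 : actT k H (x * y) a = LinearMap.mul' k (TA k H)
        (TensorProduct.map (actT k H x) (actT k H y) (Coalgebra.comul (R := k) a)) := by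
      simp only [actT, map_mul]
      rfl
    have h4 : actT k H' (mapT (f : H →ₗ[k] H') (x * y)) (f a) = LinearMap.mul' k (TA k H')
        (TensorProduct.map (actT k H' (mapT (f : H →ₗ[k] H') x))
          (actT k H' (mapT (f : H →ₗ[k] H') y)) (Coalgebra.comul (R := k) (f a))) := by
      simp only [actT, map_mul]
      rfl
    rw [h3, h4, h1]
    generalize Coalgebra.comul (R := k) a = z
    induction z using TensorProduct.induction_on with
    | zero => simp
    | tmul b c =>
      simp only [TensorProduct.map_tmul, LinearMap.mul'_apply, map_mul, hx, hy]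
      simp
    | add z z' hz hz' => simp only [map_add, hz, hz']
  | add x y hx hy =>
    have h1 : actT k H (x + y) a = actT k H x a + actT k H y a := by
      simp [actT]
    have h2 : actT k H' (mapT (f : H →ₗ[k] H') (x + y)) (f a) =
        actT k H' (mapT (f : H →ₗ[k] H') x) (f a) + actT k H' (mapT (f : H →ₗ[k] H') y) (f a) := by
      simp [actT]
    rw [h1, h2, map_add, hx, hy]

theorem mapT_RR (y w : TA k H) :
    mapT (f : H →ₗ[k] H') (RR k H y w) =
      RR k H' (mapT (f : H →ₗ[k] H') y) (mapT (f : H →ₗ[k] H') w) := by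
  have h1 : (mapT (f : H →ₗ[k] H')).toLinearMap ∘ₗ RR k H y =
      RR k H' (mapT (f : H →ₗ[k] H') y) ∘ₗ (mapT (f : H →ₗ[k] H')).toLinearMap := by
    refine twDer_ext (mapT (f : H →ₗ[k] H')) (mapT (f : H →ₗ[k] H')) _ _ ?_ ?_ ?_
    · intro x z
      simp only [LinearMap.comp_apply, AlgHom.toLinearMap_apply]
      rw [RR_mul, map_add, map_mul, map_mul]
    · intro x z
      simp only [LinearMap.comp_apply, AlgHom.toLinearMap_apply]
      rw [map_mul, RR_mul]
    · intro a
      simp only [LinearMap.comp_apply, AlgHom.toLinearMap_apply]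
      have h2 := RR_io k H y a
      simp only [io] at h2
      rw [h2, mapT_act, mapT_ι]
      have h3 := RR_io k H' (mapT (f : H →ₗ[k] H') y) (f a)
      simp only [io] at h3
      have h4 : ((f : H →ₗ[k] H') a) = f a := by simp
      rw [h4, h3]
  exact LinearMap.congr_fun h1 w

end Functoriality

section Degrees

variable (k : Type u) [Field k] (H : Type u) [Ring H] [Bialgebra k H]

/-- The component of degree `n` of the tensor algebra. -/
noncomputable abbrev Tn (n : ℕ) : Submodule k (TA k H) :=
  LinearMap.range (TensorAlgebra.ι k (M := H)) ^ n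

theorem sg_Tn (n : ℕ) (w : TA k H) (hw : w ∈ Tn k H n) :
    sg k H w = ((-1 : k) ^ n) • w := by
  induction hw using Submodule.pow_induction_on_left' with
  | algebraMap r => simp
  | add x y i hx hy h1 h2 => rw [map_add, h1, h2, smul_add]
  | mem_mul m hm i x hx h1 =>
    obtain ⟨a, rfl⟩ := hm
    have h2 := sg_io k H a
    simp only [io] at h2
    rw [map_mul, h1, h2, Nat.succ_eq_add_one, pow_succ, neg_mul, mul_smul_comm, mul_smul]
    simp

private theorem one_mem_Tn : (1 : TA k H) ∈ Tn k H 0 := by
  simp only [Tn, pow_zero]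
  exact Submodule.one_le.1 le_rfl

private theorem mul_mem_Tn (n m : ℕ) (x y : TA k H) (hx : x ∈ Tn k H n) (hy : y ∈ Tn k H m) :
    x * y ∈ Tn k H (n + m) := by
  simp only [Tn, pow_add]
  exact Submodule.mul_mem_mul hx hy

private theorem ι_mem_Tn (a : H) : TensorAlgebra.ι k a ∈ Tn k H 1 := by
  simp only [Tn, pow_one]
  exact ⟨a, rfl⟩

private theorem dd_one : dd k H 1 = 0 := by
  have h := dd_mul k H 1 1
  simpa using h

private theorem DelT_mem (a : H) : DelT k H a ∈ Tn k H 2 := by
  simp only [DelT, LinearMap.comp_apply]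
  generalize Coalgebra.comul (R := k) a = z
  induction z using TensorProduct.induction_on with
  | zero => simp
  | tmul x y =>
    simp only [TensorProduct.map_tmul, LinearMap.mul'_apply]
    exact mul_mem_Tn k H 1 1 _ _ (ι_mem_Tn k H x) (ι_mem_Tn k H y)
  | add x y hx hy =>
    rw [map_add, map_add]
    exact add_mem hx hy

theorem dd_Tn (n : ℕ) (w : TA k H) (hw : w ∈ Tn k H n) : dd k H w ∈ Tn k H (n + 1) := by
  induction hw using Submodule.pow_induction_on_left' with
  | algebraMap r =>
    rw [Algebra.algebraMap_eq_smul_one, map_smul, dd_one, smul_zero]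
    exact zero_mem _
  | add x y i hx hy h1 h2 =>
    rw [map_add]
    exact add_mem h1 h2
  | mem_mul m hm i x hx h1 =>
    obtain ⟨a, rfl⟩ := hm
    rw [dd_mul]
    have h2 := sg_io k H a
    have h3 := dd_io k H a
    simp only [io] at h2 h3
    rw [h2, h3]
    refine add_mem ?_ ?_
    · have h4 := mul_mem_Tn k H 1 (i + 1) _ _ (neg_mem (ι_mem_Tn k H a)) h1
      rwa [show 1 + (i + 1) = i.succ + 1 by omega] at h4
    · have h4 : TensorAlgebra.ι k 1 * TensorAlgebra.ι k a +
          TensorAlgebra.ι k a * TensorAlgebra.ι k 1 - DelT k H a ∈ Tn k H 2 :=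
        sub_mem (add_mem (mul_mem_Tn k H 1 1 _ _ (ι_mem_Tn k H 1) (ι_mem_Tn k H a))
          (mul_mem_Tn k H 1 1 _ _ (ι_mem_Tn k H a) (ι_mem_Tn k H 1))) (DelT_mem k H a)
      have h5 := mul_mem_Tn k H 2 i _ _ h4 hx
      rwa [show 2 + i = i.succ + 1 by omega] at h5

theorem act_Tn (n : ℕ) (w : TA k H) (hw : w ∈ Tn k H n) (a : H) :
    actT k H w a ∈ Tn k H n := by
  induction hw using Submodule.pow_induction_on_left' generalizing a with
  | algebraMap r =>
    have h1 : actT k H (algebraMap k (TA k H) r) a =
        (r * Coalgebra.counit (R := k) a) • (1 : TA k H) := by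
      simp only [actT, AlgHom.commutes]
      rw [mul_smul, ← Algebra.algebraMap_eq_smul_one]
      rfl
    rw [h1]
    exact Submodule.smul_mem _ _ (one_mem_Tn k H)
  | add x y i hx hy h1 h2 =>
    have h3 : actT k H (x + y) a = actT k H x a + actT k H y a := by
      simp [actT]
    rw [h3]
    exact add_mem (h1 a) (h2 a)
  | mem_mul m hm i x hx h1 =>
    obtain ⟨b, rfl⟩ := hm
    have h3 : actT k H (TensorAlgebra.ι k b * x) a = LinearMap.mul' k (TA k H)
        (TensorProduct.map (actT k H (TensorAlgebra.ι k b)) (actT k H x)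
          (Coalgebra.comul (R := k) a)) := by
      simp only [actT, map_mul]
      rfl
    rw [h3]
    generalize Coalgebra.comul (R := k) a = z
    induction z using TensorProduct.induction_on with
    | zero => simp
    | tmul c e =>
      simp only [TensorProduct.map_tmul, LinearMap.mul'_apply]
      have h4 := actT_io k H c b
      simp only [io] at h4
      rw [h4]
      have h5 := mul_mem_Tn k H 1 i _ _ (ι_mem_Tn k H (c * b)) (h1 e)
      rwa [show 1 + i = i.succ by omega] at h5
    | add z z' hz hz' =>
      rw [map_add, map_add]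
      exact add_mem hz hz'

theorem RR_Tn (n m : ℕ) (y w : TA k H) (hy : y ∈ Tn k H (n + 1)) (hw : w ∈ Tn k H m) :
    RR k H y w ∈ Tn k H (m + n) := by
  induction hw using Submodule.pow_induction_on_left' with
  | algebraMap r =>
    rw [Algebra.algebraMap_eq_smul_one, map_smul, RR_one, smul_zero]
    exact zero_mem _
  | add x x' i hx hx' h1 h2 =>
    rw [map_add]
    exact add_mem h1 h2
  | mem_mul c hc i x hx h1 =>
    obtain ⟨a, rfl⟩ := hc
    rw [RR_mul]
    refine add_mem ?_ ?_
    · have h4 := mul_mem_Tn k H 1 (i + n) _ _ (ι_mem_Tn k H a) h1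
      rwa [show 1 + (i + n) = i.succ + n by omega] at h4
    · have h2 := RR_io k H y a
      simp only [io] at h2
      rw [h2]
      have h4 := mul_mem_Tn k H (n + 1) i _ _ (act_Tn k H (n + 1) y hy a) hx
      rwa [show n + 1 + i = i.succ + n by omega] at h4

end Degrees

end Pool.Agent.Helper90.FC
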