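import Mathlib

/-!
# Project FC, piece ANT: the two composites in a 3×3 diagram are opposite

* `anti`: the two composites in a 3×3 diagram are opposite. Proof: let
  `K = ker (X₂ → X₃'')` (columns are `σ : S' → S`, `π : S → S''`); then
  `0 → K → X₂ → X₃'' → 0` (class `e`) and `0 → X₁' → K → X₃' ⊕ X₁'' → 0` (class `c`) are exact
  and `e.comp (mk₀ (K → X₃' ⊕ X₁'')) ` composed with `c` is zero. Naturality of `extClass` for the
  obvious maps of short exact sequences gives: `e` pushed to `X₃'` is `h₃.extClass`, `e` pushed to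
  `X₁''` is `hS''.extClass`, `c` pulled back to `X₃'` is `hS'.extClass`, `c` pulled back to `X₁''`
  is `h₁.extClass`. (Elementwise alternatives are fine; everything is in an arbitrary abelian
  category.)
-/

set_option linter.unusedSectionVars false
set_option autoImplicit false

open CategoryTheory CategoryTheory.Abelian CategoryTheory.Limits

namespace Pool.Agent.Helper90.FC

universe w v u

section

variable {C : Type u} [Category.{v} C] [Abelian C] [HasExt.{w} C]

theorem anti {S' S S'' : ShortComplex C} (hS' : S'.ShortExact) (hS : S.ShortExact)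
    (hS'' : S''.ShortExact) (σ : S' ⟶ S) (π : S ⟶ S'')
    (w₁ : σ.τ₁ ≫ π.τ₁ = 0) (w₂ : σ.τ₂ ≫ π.τ₂ = 0) (w₃ : σ.τ₃ ≫ π.τ₃ = 0)
    (h₁ : (ShortComplex.mk σ.τ₁ π.τ₁ w₁).ShortExact)
    (h₂ : (ShortComplex.mk σ.τ₂ π.τ₂ w₂).ShortExact)
    (h₃ : (ShortComplex.mk σ.τ₃ π.τ₃ w₃).ShortExact) :
    h₃.extClass.comp hS'.extClass (rfl : 1 + 1 = 2) =
      -hS''.extClass.comp h₁.extClass (rfl : 1 + 1 = 2) := by
  -- the kernel of the diagonal `X₂ → X₃''`
  have hmono := h₃.mono_f
  have hmono' := hS''.mono_f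
  have hσ₂ := h₂.mono_f
  have hσ₁ := h₁.mono_f
  have hS'f := hS'.mono_f
  have hSf := hS.mono_f
  have he₃ := h₃.epi_g
  have heS' := hS'.epi_g
  have heS := hS.epi_g
  have he₁ := h₁.epi_g
  dsimp at hmono hσ₂ hσ₁ he₃ he₁
  let g : S.X₂ ⟶ S''.X₃ := S.g ≫ π.τ₃
  have hg : g = π.τ₂ ≫ S''.g := π.comm₂₃.symm
  have hgdef : g = S.g ≫ π.τ₃ := rfl
  let i : kernel g ⟶ S.X₂ := kernel.ι g
  have hi : i ≫ g = 0 := kernel.condition g
  have hi3 : (i ≫ S.g) ≫ π.τ₃ = 0 := by
    rw [Category.assoc]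
    exact hi
  have hi1 : (i ≫ π.τ₂) ≫ S''.g = 0 := by
    rw [Category.assoc, ← hg]
    exact hi
  let q₁ : kernel g ⟶ S'.X₃ := h₃.exact.lift (i ≫ S.g) hi3
  have hq₁ : q₁ ≫ σ.τ₃ = i ≫ S.g := h₃.exact.lift_f (i ≫ S.g) hi3
  let q₂ : kernel g ⟶ S''.X₁ := hS''.exact.lift (i ≫ π.τ₂) hi1
  have hq₂ : q₂ ≫ S''.f = i ≫ π.τ₂ := hS''.exact.lift_f (i ≫ π.τ₂) hi1
  have hσg : σ.τ₂ ≫ g = 0 := by
    rw [hg, ← Category.assoc, w₂, zero_comp]
  have hfg : S.f ≫ g = 0 := by
    rw [hgdef, ← Category.assoc, S.zero, zero_comp]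
  let a : S'.X₂ ⟶ kernel g := kernel.lift g σ.τ₂ hσg
  have ha : a ≫ i = σ.τ₂ := kernel.lift_ι g σ.τ₂ hσg
  let b : S.X₁ ⟶ kernel g := kernel.lift g S.f hfg
  have hb : b ≫ i = S.f := kernel.lift_ι g S.f hfg
  let j : S'.X₁ ⟶ kernel g := S'.f ≫ a
  have hj : j ≫ i = σ.τ₁ ≫ S.f := by
    rw [show j ≫ i = S'.f ≫ (a ≫ i) from Category.assoc _ _ _, ha]
    exact σ.comm₁₂.symm
  have hjb : j = σ.τ₁ ≫ b := by
    rw [← cancel_mono i, hj, Category.assoc, hb]
  have haq₁ : a ≫ q₁ = S'.g := by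
    rw [← cancel_mono σ.τ₃, Category.assoc, hq₁, ← Category.assoc, ha]
    exact σ.comm₂₃
  have haq₂ : a ≫ q₂ = 0 := by
    rw [← cancel_mono S''.f, Category.assoc, hq₂, ← Category.assoc, ha, w₂, zero_comp]
  have hbq₁ : b ≫ q₁ = 0 := by
    rw [← cancel_mono σ.τ₃, Category.assoc, hq₁, ← Category.assoc, hb, S.zero, zero_comp]
  have hbq₂ : b ≫ q₂ = π.τ₁ := by
    rw [← cancel_mono S''.f, Category.assoc, hq₂, ← Category.assoc, hb]
    exact π.comm₁₂.symm
  have hjq₁ : j ≫ q₁ = 0 := by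
    rw [hjb, Category.assoc, hbq₁, comp_zero]
  have hjq₂ : j ≫ q₂ = 0 := by
    rw [show j ≫ q₂ = S'.f ≫ (a ≫ q₂) from Category.assoc _ _ _, haq₂, comp_zero]
  -- the first short exact sequence
  have hepig : Epi g := epi_comp S.g π.τ₃
  have s₁ : (ShortComplex.mk i g hi).ShortExact :=
    { exact := ShortComplex.exact_kernel g
      mono_f := inferInstanceAs (Mono (kernel.ι g))
      epi_g := hepig }
  -- the second one
  let q : kernel g ⟶ S'.X₃ ⊞ S''.X₁ := biprod.lift q₁ q₂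
  have hjq : j ≫ q = 0 := by
    apply biprod.hom_ext
    · rw [Category.assoc, biprod.lift_fst, hjq₁, zero_comp]
    · rw [Category.assoc, biprod.lift_snd, hjq₂, zero_comp]
  have hmonoj : Mono j := by
    have : Mono (j ≫ i) := by
      rw [hj]
      infer_instance
    exact mono_of_mono j i
  have hepiq : Epi q := by
    rw [epi_iff_surjective_up_to_refinements]
    intro A y
    obtain ⟨A₁, p₁, hp₁, x₁, hx₁⟩ := surjective_up_to_refinements_of_epi S'.g (y ≫ biprod.fst)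
    obtain ⟨A₂, p₂, hp₂, x₂, hx₂⟩ :=
      surjective_up_to_refinements_of_epi π.τ₁ (p₁ ≫ y ≫ biprod.snd)
    refine ⟨A₂, p₂ ≫ p₁, inferInstance, p₂ ≫ x₁ ≫ a + x₂ ≫ b, ?_⟩
    apply biprod.hom_ext
    · simp only [Category.assoc, Preadditive.add_comp, q, biprod.lift_fst, haq₁, hbq₁, comp_zero,
        add_zero]
      rw [← hx₁]
    · simp only [Category.assoc, Preadditive.add_comp, q, biprod.lift_snd, haq₂, hbq₂, comp_zero,
        zero_add]
      rw [← hx₂]
  have s₂ : (ShortComplex.mk j q hjq).ShortExact :=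
    { exact := by
        rw [ShortComplex.exact_iff_exact_up_to_refinements]
        intro A k hk
        dsimp at k hk
        have hk₁ : k ≫ q₁ = 0 := by
          have := congrArg (fun t => t ≫ biprod.fst) hk
          simpa only [Category.assoc, q, biprod.lift_fst, zero_comp] using this
        have hk₂ : k ≫ q₂ = 0 := by
          have := congrArg (fun t => t ≫ biprod.snd) hk
          simpa only [Category.assoc, q, biprod.lift_snd, zero_comp] using this
        have e₁ : (k ≫ i) ≫ S.g = 0 := by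
          rw [Category.assoc, ← hq₁, ← Category.assoc, hk₁, zero_comp]
        have e₂ : (k ≫ i) ≫ π.τ₂ = 0 := by
          rw [Category.assoc, ← hq₂, ← Category.assoc, hk₂, zero_comp]
        let u : A ⟶ S.X₁ := hS.exact.lift (k ≫ i) e₁
        have hu : u ≫ S.f = k ≫ i := hS.exact.lift_f (k ≫ i) e₁
        have hu₁ : u ≫ π.τ₁ = 0 := by
          rw [← cancel_mono S''.f, Category.assoc, π.comm₁₂, ← Category.assoc, hu, e₂, zero_comp]
        let v : A ⟶ S'.X₁ := h₁.exact.lift u hu₁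
        have hv : v ≫ σ.τ₁ = u := h₁.exact.lift_f u hu₁
        refine ⟨A, 𝟙 A, inferInstance, v, ?_⟩
        dsimp
        rw [Category.id_comp, ← cancel_mono i, Category.assoc, hj, ← Category.assoc, hv, hu]
      mono_f := hmonoj
      epi_g := hepiq }
  -- naturality
  have n₁ := ShortComplex.ShortExact.extClass_naturality s₁ h₃
    { τ₁ := q₁, τ₂ := S.g, τ₃ := 𝟙 _, comm₁₂ := hq₁, comm₂₃ := by dsimp; rw [Category.comp_id] }
  have n₂ := ShortComplex.ShortExact.extClass_naturality s₁ hS''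
    { τ₁ := q₂, τ₂ := π.τ₂, τ₃ := 𝟙 _, comm₁₂ := hq₂,
      comm₂₃ := by dsimp; rw [Category.comp_id]; exact hg.symm }
  have n₃ := ShortComplex.ShortExact.extClass_naturality hS' s₂
    { τ₁ := 𝟙 _, τ₂ := a, τ₃ := biprod.inl, comm₁₂ := by dsimp; rw [Category.id_comp],
      comm₂₃ := by
        dsimp
        apply biprod.hom_ext
        · rw [Category.assoc, Category.assoc, biprod.lift_fst, haq₁, biprod.inl_fst,
            Category.comp_id]
        · rw [Category.assoc, Category.assoc, biprod.lift_snd, haq₂, biprod.inl_snd, comp_zero] }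
  have n₄ := ShortComplex.ShortExact.extClass_naturality h₁ s₂
    { τ₁ := 𝟙 _, τ₂ := b, τ₃ := biprod.inr,
      comm₁₂ := by dsimp; rw [Category.id_comp]; exact hjb,
      comm₂₃ := by
        dsimp
        apply biprod.hom_ext
        · rw [Category.assoc, Category.assoc, biprod.lift_fst, hbq₁, biprod.inr_fst, comp_zero]
        · rw [Category.assoc, Category.assoc, biprod.lift_snd, hbq₂, biprod.inr_snd,
            Category.comp_id] }
  dsimp only at n₁ n₂ n₃ n₄
  rw [Ext.mk₀_id_comp] at n₁ n₂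
  rw [Ext.comp_mk₀_id] at n₃ n₄
  have hz : (Ext.mk₀ q).comp s₂.extClass (zero_add 1) = 0 := s₂.comp_extClass
  have hq : q = q₁ ≫ biprod.inl + q₂ ≫ biprod.inr := by
    apply biprod.hom_ext <;> simp [q]
  have hsum : ∀ c : Ext (S'.X₃ ⊞ S''.X₁) S'.X₁ 1, (Ext.mk₀ q).comp c (zero_add 1) =
      (Ext.mk₀ q₁).comp ((Ext.mk₀ biprod.inl).comp c (zero_add 1)) (zero_add 1) +
      (Ext.mk₀ q₂).comp ((Ext.mk₀ biprod.inr).comp c (zero_add 1)) (zero_add 1) := by
    intro c
    rw [hq, Ext.mk₀_add, Ext.add_comp, Ext.mk₀_comp_mk₀_assoc, Ext.mk₀_comp_mk₀_assoc]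
  have hz' := (hsum s₂.extClass).symm.trans hz
  rw [← n₃, ← n₄] at hz'
  have hfin := congrArg (fun t => s₁.extClass.comp t (rfl : 1 + 1 = 2)) hz'
  dsimp only at hfin
  rw [Ext.comp_add, Ext.comp_zero] at hfin
  rw [← Ext.comp_assoc_of_second_deg_zero, ← Ext.comp_assoc_of_second_deg_zero, n₁, n₂] at hfin
  exact eq_neg_of_add_eq_zero_left hfin

end

end Pool.Agent.Helper90.FC
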