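import Pool.Agent.Helper90.FC.Coch

/-!
# Project FC, piece CLS: the class in `Ext(k, M)` of a cocycle

`M1 M = I M / M`, `q : I M → M1 M`, `sesI`: `0 → M → I M → M1 M → 0`. The class of a cocycle `z` of
degree `0` (an invariant `m`) is the homomorphism `k → M`, `1 ↦ m`; the class of a cocycle of
degree `n + 1` is the class of `q_* z` (a cocycle of degree `n` with values in `M1 M`) composed with
the class of `sesI`.

Proofs (all by induction on `n`, for all `M`):

* `cls_nat` (naturality for morphisms `f : M → N` of `A`-modules): the map of short exact sequences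
  `sesI M → sesI N` and `Ext`-naturality of `extClass`.
* `cls_bound`: for `w` of degree `0`, `q (d w) = - q (eps w)` and `eps w` is an invariant of `I M`,
  so the class is `cls (eps w)` composed with `q` and then with `extClass`, zero. For `w` of degree
  `n + 1` (i.e. of degree `n` with values in `I M`): `q_* (d w) = - d (q_* w)`, induction.
* `cls_delta`: `0 → X → Y → Z → 0` exact, `y` a cochain with values in `Y`, `d y = f_* x`. Let
  `r : Y → X` be a `k`-linear retraction of `f`. Then `r_* (d y) - d (r_* y) =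
  (rho r)_* y - emb_* (r_* y)` for every cochain `y` (no induction is needed for the step), hence
  `q_* (rho r)_* y = q_* (x - d (r_* y))`. The morphism `q ∘ rho r : Y → M1 X` kills `X` up to sign
  and so induces a map of short exact sequences from `X → Y → Z` to `sesI X` (identity on `X`).
  Conclude with `cls_nat`, `extClass_naturality` and `cls_bound`.
* `cls_surj`: `n = 0` clear; `n + 1`: the class is `e'.comp extClass` (`IM` is injective), `e'` is
  the class of a cocycle `z'` of `M1 M`; lift it to a cochain `z` with values in `I M`;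
  `d z = emb_* x` (`Cmap_exact`) and `cls_delta` applied to `z`.
* `cls_inj`: see the docstring.
-/

set_option linter.unusedSectionVars false
set_option autoImplicit false

open CategoryTheory CategoryTheory.Abelian CategoryTheory.Limits
open scoped ModuleCat TensorProduct
open Pool.Agent.Helper59.FG

namespace Pool.Agent.Helper90.FC

universe u

section

variable (k : Type u) [Field k] {A : Type u} [Ring A] [Bialgebra k A]

/-- The quotient `I M / M`. -/
noncomputable def M1 (M : ModuleCat.{u} A) : ModuleCat.{u} A :=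
  ModuleCat.of A (IM k M ⧸ LinearMap.range (emb k M).hom)

/-- The projection `I M → I M / M`. -/
noncomputable def qM (M : ModuleCat.{u} A) : IM k M ⟶ M1 k M :=
  ModuleCat.ofHom (LinearMap.range (emb k M).hom).mkQ

theorem emb_qM (M : ModuleCat.{u} A) : emb k M ≫ qM k M = 0 := by
  ext m
  exact (Submodule.Quotient.mk_eq_zero _).2 ⟨m, rfl⟩

theorem qM_surjective (M : ModuleCat.{u} A) : Function.Surjective (qM k M).hom :=
  Submodule.mkQ_surjective _

theorem qM_exact (M : ModuleCat.{u} A) : Function.Exact (emb k M).hom (qM k M).hom := by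
  intro x
  change (LinearMap.range (emb k M).hom).mkQ x = 0 ↔ _
  rw [Submodule.mkQ_apply, Submodule.Quotient.mk_eq_zero]
  rfl

theorem sesI (M : ModuleCat.{u} A) :
    (ShortComplex.mk (emb k M) (qM k M) (emb_qM k M)).ShortExact :=
  ModuleCat.shortComplex_shortExact _ (qM_exact k M) (emb_injective k M) (qM_surjective k M)

/-- The cocycles of degree `n`. -/
noncomputable def Zc (n : ℕ) (M : ModuleCat.{u} A) : Submodule k (Cn k n M) :=
  LinearMap.ker (dC k n M)

theorem mem_Zc {n : ℕ} {M : ModuleCat.{u} A} {z : Cn k n M} : z ∈ Zc k n M ↔ dC k n M z = 0 :=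
  Iff.rfl

theorem Cmap_mem_Zc {n : ℕ} {M N : ModuleCat.{u} A} (f : M ⟶ N) {z : Cn k n M}
    (hz : z ∈ Zc k n M) : Cmap k n (kl k f) z ∈ Zc k n N := by
  rw [mem_Zc, dC_nat, (mem_Zc k).1 hz, map_zero]

/-- The cocycle `q_* z`. -/
theorem q_mem_Zc {n : ℕ} {M : ModuleCat.{u} A} {z : Cn k (n + 1) M} (hz : z ∈ Zc k (n + 1) M) :
    Cmap k n (kl k (qM k M)) z ∈ Zc k n (M1 k M) := by
  rw [mem_Zc]
  rw [mem_Zc, dC_succ, sub_eq_zero] at hz
  have h1 := dC_nat k n (qM k M) z
  refine h1.trans ?_
  have h2 : (dC k n (IM k M) z : Cn k (n + 1) (IM k M)) =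
      Cmap k (n + 1) (kl k (emb k M)) z := hz.symm
  rw [h2]
  have h3 : Cmap k (n + 1) (kl k (qM k M)) ∘ₗ Cmap k (n + 1) (kl k (emb k M)) = 0 := by
    rw [← Cmap_comp, ← Cmap_zero]
    congr 1
    exact congrArg (fun f : M ⟶ M1 k M => kl k f) (emb_qM k M)
  exact congr($h3 z)

/-- The homomorphism `k → M` given by an invariant. -/
noncomputable def invHom (M : ModuleCat.{u} A) : Zc k 0 M →ₗ[k] (trivObj k A ⟶ M) where
  toFun m := ConcreteCategory.ofHom (C := ModuleCat.{u} A) (X := trivObj k A) (Y := M)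
    { toFun := fun c => (show k from c) • (show M from m.1)
      map_add' := fun c c' => add_smul (show k from c) (show k from c') (show M from m.1)
      map_smul' := fun a c => by
        have h : ∀ b : A, b • (show M from m.1) =
            Coalgebra.counit (R := k) b • (show M from m.1) := by
          intro b
          have := congrArg (fun g : IM k M => fn k g b) ((mem_Zc k).1 m.2)
          exact sub_eq_zero.1 this
        change (Coalgebra.counit (R := k) a * (show k from c)) • (show M from m.1) =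
          a • ((show k from c) • (show M from m.1))
        rw [mul_smul, smul_comm, ← h, smul_comm] }
  map_add' m m' := by
    ext c
    exact smul_add (show k from c) (show M from m.1) (show M from m'.1)
  map_smul' r m := by
    ext c
    exact smul_comm (show k from c) r (show M from m.1)

/-- The class of a cocycle. -/
noncomputable def cls : (n : ℕ) → (M : ModuleCat.{u} A) → Zc k n M →ₗ[k] Ext (trivObj k A) M n
  | 0, M => (Ext.linearEquiv₀ (R := k) (X := trivObj k A) (Y := M)).symm.toLinearMap ∘ₗ invHom k M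
  | n + 1, M => (sesI k M).extClass.postcompOfLinear k (trivObj k A) rfl ∘ₗ
      cls n (M1 k M) ∘ₗ
        { toFun := fun z => ⟨Cmap k n (kl k (qM k M)) z.1, q_mem_Zc k z.2⟩
          map_add' := fun z z' => Subtype.ext (map_add (Cmap k n (kl k (qM k M))) z.1 z'.1)
          map_smul' := fun c z => Subtype.ext ((Cmap k n (kl k (qM k M))).map_smul c
            (show Cn k n (IM k M) from z.1)) }

theorem cls_zero (M : ModuleCat.{u} A) (z : Zc k 0 M) : cls k 0 M z = Ext.mk₀ (invHom k M z) := rfl

theorem cls_succ (n : ℕ) (M : ModuleCat.{u} A) (z : Zc k (n + 1) M) :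
    cls k (n + 1) M z = (cls k n (M1 k M) ⟨Cmap k n (kl k (qM k M)) z.1, q_mem_Zc k z.2⟩).comp
      (sesI k M).extClass rfl := rfl

/-- Maps of short exact sequences. -/
private theorem Cls_mor {S₁ S₂ : ShortComplex (ModuleCat.{u} A)} (h₁ : S₁.ShortExact)
    (h₂ : S₂.ShortExact) (a : S₁.X₁ ⟶ S₂.X₁) (b : S₁.X₂ ⟶ S₂.X₂) (hab : a ≫ S₂.f = S₁.f ≫ b) :
    ∃ c : S₁.X₃ ⟶ S₂.X₃, S₁.g ≫ c = b ≫ S₂.g ∧
      h₁.extClass.comp (Ext.mk₀ a) (add_zero 1) = (Ext.mk₀ c).comp h₂.extClass (zero_add 1) := by
  have := h₁.epi_g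
  have hk : S₁.f ≫ (b ≫ S₂.g) = 0 := by
    rw [← Category.assoc, ← hab, Category.assoc, S₂.zero, comp_zero]
  refine ⟨h₁.exact.desc (b ≫ S₂.g) hk, h₁.exact.g_desc _ hk, ?_⟩
  exact ShortComplex.ShortExact.extClass_naturality h₁ h₂
    { τ₁ := a, τ₂ := b, τ₃ := h₁.exact.desc (b ≫ S₂.g) hk, comm₁₂ := hab,
      comm₂₃ := (h₁.exact.g_desc _ hk).symm }

private theorem Cls_kl_comp {M N P : ModuleCat.{u} A} (f : M ⟶ N) (g : N ⟶ P) :
    kl k (f ≫ g) = kl k g ∘ₗ kl k f := rfl

private theorem Cls_Cmap_comp (n : ℕ) {M N P : ModuleCat.{u} A} (f : M ⟶ N) (g : N ⟶ P)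
    (z : Cn k n M) : Cmap k n (kl k (f ≫ g)) z = Cmap k n (kl k g) (Cmap k n (kl k f) z) := by
  rw [Cls_kl_comp, Cmap_comp]
  rfl

theorem cls_nat (n : ℕ) {M N : ModuleCat.{u} A} (f : M ⟶ N) (z : Zc k n M) :
    (cls k n M z).comp (Ext.mk₀ f) (add_zero n) =
      cls k n N ⟨Cmap k n (kl k f) z.1, Cmap_mem_Zc k f z.2⟩ := by
  induction n generalizing M N with
  | zero =>
    rw [cls_zero, cls_zero, Ext.mk₀_comp_mk₀]
    congr 1
    ext c
    change f.hom ((show k from c) • (show M from z.1)) =
      (show k from c) • (f.hom (show M from z.1))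
    exact (kl k f).map_smul _ _
  | succ n ih =>
    obtain ⟨c, hc, hc'⟩ := Cls_mor (sesI k M) (sesI k N) f (ImapA k (kl k f)) (by
      ext m
      refine IM_ext k fun b => ?_
      change b • f.hom m = f.hom (b • m)
      rw [map_smul])
    rw [cls_succ, cls_succ, Ext.comp_assoc _ _ _ rfl (add_zero 1) (by omega), hc',
      ← Ext.comp_assoc _ _ _ (add_zero n) (zero_add 1) (by omega)]
    congr 1
    rw [ih]
    congr 1
    refine Subtype.ext ?_
    have key : ∀ z' : Cn k n (IM k M), Cmap k n (kl k (show M1 k M ⟶ M1 k N from c))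
        (Cmap k n (kl k (qM k M)) z') =
          Cmap k n (kl k (qM k N)) (Cmap k n (kl k (ImapA k (kl k f))) z') := by
      intro z'
      refine (Cls_Cmap_comp k n (qM k M) (show M1 k M ⟶ M1 k N from c) z').symm.trans ?_
      refine Eq.trans ?_ (Cls_Cmap_comp k n (ImapA k (kl k f)) (qM k N) z')
      exact congrArg (fun h : IM k M ⟶ M1 k N => Cmap k n (kl k h) z') hc
    exact key z.1

/-- `d ∘ d = 0`. -/
theorem dC_dC (n : ℕ) (M : ModuleCat.{u} A) (z : Cn k n M) :
    dC k (n + 1) M (dC k n M z) = 0 := by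
  induction n generalizing M with
  | zero =>
    refine IM_ext k fun b => IM_ext k fun b' => ?_
    change b' • (b • (show M from z) - Coalgebra.counit (R := k) b • (show M from z)) -
      (((b' * b) • (show M from z) - Coalgebra.counit (R := k) (b' * b) • (show M from z)) -
        fn k (Coalgebra.counit (R := k) b • (show IM k M from dC k 0 M z)) b') = 0
    rw [fn_ksmul]
    change b' • (b • (show M from z) - Coalgebra.counit (R := k) b • (show M from z)) -
      (((b' * b) • (show M from z) - Coalgebra.counit (R := k) (b' * b) • (show M from z)) -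
        Coalgebra.counit (R := k) b • (b' • (show M from z) -
          Coalgebra.counit (R := k) b' • (show M from z))) = 0
    rw [Bialgebra.counit_mul, smul_sub, smul_sub, mul_smul, mul_smul,
      smul_comm (Coalgebra.counit (R := k) b) (Coalgebra.counit (R := k) b') (show M from z),
      smul_comm b' (Coalgebra.counit (R := k) b) (show M from z)]
    abel
  | succ n ih =>
    have e1 := dC_nat k (n + 1) (emb k M) z
    have e2 := ih (IM k M) z
    have e3 : (dC k (n + 1) M z : Cn k (n + 2) M) =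
      (Cmap k (n + 1) (kl k (emb k M)) z : Cn k (n + 1) (IM k M)) - dC k n (IM k M) z := rfl
    have e4 : dC k (n + 2) M (dC k (n + 1) M z) =
      (Cmap k (n + 2) (kl k (emb k M)) (dC k (n + 1) M z) : Cn k (n + 2) (IM k M)) -
        dC k (n + 1) (IM k M) (dC k (n + 1) M z) := rfl
    rw [e4]
    have e5 : dC k (n + 1) (IM k M) (dC k (n + 1) M z) =
      dC k (n + 1) (IM k M) (Cmap k (n + 1) (kl k (emb k M)) z) -
        dC k (n + 1) (IM k M) (dC k n (IM k M) z) :=
      (congrArg (dC k (n + 1) (IM k M)) e3).trans (map_sub (dC k (n + 1) (IM k M)) _ _)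
    rw [e5, e2, e1, sub_zero, sub_self]
    rfl

/-- Coboundaries have class zero. -/
theorem cls_bound (n : ℕ) (M : ModuleCat.{u} A) (w : Cn k n M) :
    cls k (n + 1) M ⟨dC k n M w, dC_dC k n M w⟩ = 0 := by
  induction n generalizing M with
  | zero =>
    have hinv : (show Cn k 0 (IM k M) from epsI k M (show M from w)) ∈ Zc k 0 (IM k M) := by
      refine (mem_Zc k).2 ?_
      refine IM_ext k fun b => IM_ext k fun b' => ?_
      change Coalgebra.counit (R := k) (b' * b) • (show M from w) -
        fn k (Coalgebra.counit (R := k) b • (show IM k M from epsI k M (show M from w))) b' = 0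
      rw [fn_ksmul, fn_epsI, Bialgebra.counit_mul, smul_smul, mul_comm, sub_self]
    rw [cls_succ]
    have h1 := cls_nat k 0 (qM k M) ⟨epsI k M (show M from w), hinv⟩
    have h2 : (⟨Cmap k 0 (kl k (qM k M)) (show Cn k 0 (IM k M) from dC k 0 M w),
        q_mem_Zc k (dC_dC k 0 M w)⟩ : Zc k 0 (M1 k M)) =
        -⟨Cmap k 0 (kl k (qM k M)) (show Cn k 0 (IM k M) from epsI k M (show M from w)),
          Cmap_mem_Zc k (qM k M) hinv⟩ := by
      refine Subtype.ext ?_
      change (qM k M).hom ((emb k M).hom (show M from w) - epsI k M (show M from w)) =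
        -((qM k M).hom (epsI k M (show M from w)))
      rw [map_sub, sub_eq_neg_self]
      exact congr($(emb_qM k M) (show M from w))
    have h3 : cls k 0 (M1 k M) ⟨Cmap k 0 (kl k (qM k M)) (show Cn k 0 (IM k M) from dC k 0 M w),
        q_mem_Zc k (dC_dC k 0 M w)⟩ = -((cls k 0 (IM k M) ⟨epsI k M (show M from w), hinv⟩).comp
          (Ext.mk₀ (qM k M)) (add_zero 0)) := by
      rw [h2, map_neg, h1]
    refine (congrArg (fun e : Ext (trivObj k A) (M1 k M) 0 =>
      e.comp (sesI k M).extClass (zero_add 1)) h3).trans ?_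
    change (-((cls k 0 (IM k M) ⟨epsI k M (show M from w), hinv⟩).comp
          (Ext.mk₀ (qM k M)) (add_zero 0))).comp (sesI k M).extClass (zero_add 1) = 0
    rw [Ext.neg_comp, Ext.comp_assoc _ _ _ (add_zero 0) (zero_add 1) (by omega),
      (sesI k M).comp_extClass, Ext.comp_zero, neg_zero]
  | succ n ih =>
    rw [cls_succ]
    have h2 : (⟨Cmap k (n + 1) (kl k (qM k M)) (show Cn k (n + 1) (IM k M) from dC k (n + 1) M w),
        q_mem_Zc k (dC_dC k (n + 1) M w)⟩ : Zc k (n + 1) (M1 k M)) =
        -⟨dC k n (M1 k M) (Cmap k n (kl k (qM k M)) (show Cn k n (IM k M) from w)),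
          dC_dC k n _ _⟩ := by
      refine Subtype.ext ?_
      have e1 := dC_nat k n (qM k M) (show Cn k n (IM k M) from w)
      change Cmap k (n + 1) (kl k (qM k M)) (Cmap k (n + 1) (kl k (emb k M)) w -
        (show Cn k (n + 1) (IM k M) from dC k n (IM k M) w)) =
        -(dC k n (M1 k M) (Cmap k n (kl k (qM k M)) (show Cn k n (IM k M) from w)))
      rw [e1, map_sub, sub_eq_neg_self, ← Cls_Cmap_comp]
      have e2 := congrArg (fun h : M ⟶ M1 k M => Cmap k (n + 1) (kl k h) w) (emb_qM k M)
      refine e2.trans ?_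
      have e3 : Cmap k (n + 1) (kl k (0 : M ⟶ M1 k M)) = 0 := Cmap_zero k (n + 1)
      exact congr($e3 w)
    have h3 := ih (M1 k M) (Cmap k n (kl k (qM k M)) (show Cn k n (IM k M) from w))
    have h4 : cls k (n + 1) (M1 k M)
        ⟨Cmap k (n + 1) (kl k (qM k M)) (show Cn k (n + 1) (IM k M) from dC k (n + 1) M w),
          q_mem_Zc k (dC_dC k (n + 1) M w)⟩ = 0 := by
      rw [h2, map_neg, h3, neg_zero]
    refine (congrArg (fun e : Ext (trivObj k A) (M1 k M) (n + 1) =>
      e.comp (sesI k M).extClass rfl) h4).trans ?_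
    change (0 : Ext (trivObj k A) (M1 k M) (n + 1)).comp (sesI k M).extClass rfl = 0
    rw [Ext.zero_comp]

theorem IM_injective (M : ModuleCat.{u} A) : Injective (IM k M) where
  factors {X Y} g f hf := by
    have hfi : Function.Injective (kl k f) := (ModuleCat.mono_iff_injective f).1 hf
    obtain ⟨r, hr⟩ := LinearMap.exists_leftInverse_of_injective (kl k f)
      (LinearMap.ker_eq_bot.2 hfi)
    let ev : IM k M →ₗ[k] M :=
      { toFun := fun x => fn k x 1
        map_add' := fun _ _ => rfl
        map_smul' := fun c x => fn_ksmul k c x 1 }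
    refine ⟨rho k (ev ∘ₗ kl k g ∘ₗ r), ?_⟩
    ext x
    refine IM_ext k fun b => ?_
    change fn k (g.hom (r (b • f.hom x))) 1 = fn k (g.hom x) b
    have h1 : r (b • f.hom x) = b • x := by
      rw [← map_smul]
      exact congr($hr (b • x))
    rw [h1, map_smul, fn_smul, one_mul]

/-- The defect of a `k`-linear retraction. -/
private theorem Cls_defect (n : ℕ) {X Y : ModuleCat.{u} A} (r : Y →ₗ[k] X) (y : Cn k n Y) :
    Cmap k (n + 1) r (dC k n Y y) - dC k n X (Cmap k n r y) =
      (show Cn k (n + 1) X from Cmap k n (kl k (rho k r)) y) - embC k n X (Cmap k n r y) := by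
  cases n with
  | zero =>
    refine IM_ext k fun b => ?_
    change r (b • (show Y from y) - Coalgebra.counit (R := k) b • (show Y from y)) -
      (b • r (show Y from y) - Coalgebra.counit (R := k) b • r (show Y from y)) =
        r (b • (show Y from y)) - b • r (show Y from y)
    rw [map_sub, r.map_smul (Coalgebra.counit (R := k) b)]
    abel
  | succ n =>
    have e1 := dC_nat k n (ImapA k r) (show Cn k n (IM k Y) from y)
    have e2 : Cmap k (n + 1) (kl k (rho k r)) y =
        (show Cn k (n + 1) (IM k X) from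
          Cmap k (n + 1) (Imap k r) (Cmap k (n + 1) (kl k (emb k Y)) y)) :=
      Cls_Cmap_comp k (n + 1) (emb k Y) (ImapA k r) y
    have e3 : Cmap k (n + 2) r (dC k (n + 1) Y y) =
        Cmap k (n + 1) (Imap k r) (Cmap k (n + 1) (kl k (emb k Y)) y) -
          Cmap k (n + 1) (Imap k r) (show Cn k (n + 1) (IM k Y) from dC k n (IM k Y) y) :=
      map_sub (Cmap k (n + 1) (Imap k r)) _ _
    have e4 : dC k (n + 1) X (Cmap k (n + 1) r y) = embC k (n + 1) X (Cmap k (n + 1) r y) -
        (show Cn k (n + 2) X from dC k n (IM k X) (Cmap k n (Imap k r)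
          (show Cn k n (IM k Y) from y))) := rfl
    have e5 : (show Cn k (n + 2) X from dC k n (IM k X) (Cmap k n (Imap k r)
          (show Cn k n (IM k Y) from y))) =
        Cmap k (n + 1) (Imap k r) (show Cn k (n + 1) (IM k Y) from dC k n (IM k Y) y) := e1
    rw [e3, e4, e5, e2]
    exact sub_sub_sub_cancel_right (G := Cn k (n + 2) X)
      (Cmap k (n + 1) (Imap k r) (Cmap k (n + 1) (kl k (emb k Y)) y))
      (embC k (n + 1) X (Cmap k (n + 1) r y))
      (Cmap k (n + 1) (Imap k r) (show Cn k (n + 1) (IM k Y) from dC k n (IM k Y) y))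

private theorem Cls_q_emb (n : ℕ) (M : ModuleCat.{u} A) (v : Cn k n M) :
    Cmap k n (kl k (qM k M)) (show Cn k n (IM k M) from embC k n M v) = 0 := by
  refine (Cls_Cmap_comp k n (emb k M) (qM k M) v).symm.trans ?_
  refine (congrArg (fun h : M ⟶ M1 k M => Cmap k n (kl k h) v) (emb_qM k M)).trans ?_
  have e3 : Cmap k n (kl k (0 : M ⟶ M1 k M)) = 0 := Cmap_zero k n
  exact congr($e3 v)

/-- The class of the coboundary of a cochain is given by the connecting homomorphism. -/
theorem cls_delta (n : ℕ) {X Y Z : ModuleCat.{u} A} (f : X ⟶ Y) (g : Y ⟶ Z) (w : f ≫ g = 0)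
    (hS : (ShortComplex.mk f g w).ShortExact) (y : Cn k n Y) (x : Cn k (n + 1) X)
    (hx : dC k n Y y = Cmap k (n + 1) (kl k f) x) :
    ∃ (hxz : x ∈ Zc k (n + 1) X) (hz : Cmap k n (kl k g) y ∈ Zc k n Z),
      cls k (n + 1) X ⟨x, hxz⟩ = (cls k n Z ⟨Cmap k n (kl k g) y, hz⟩).comp hS.extClass rfl := by
  have hfi : Function.Injective (kl k f) := (ModuleCat.mono_iff_injective f).1 hS.mono_f
  have hxz : x ∈ Zc k (n + 1) X := by
    rw [mem_Zc]
    apply Cmap_injective k (n + 2) (kl k f) hfi
    rw [← dC_nat, ← hx, dC_dC, map_zero]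
  have hz : Cmap k n (kl k g) y ∈ Zc k n Z := by
    rw [mem_Zc, dC_nat, hx, ← Cls_Cmap_comp, w]
    have e3 : Cmap k (n + 1) (kl k (0 : X ⟶ Z)) = 0 := Cmap_zero k (n + 1)
    exact congr($e3 x)
  refine ⟨hxz, hz, ?_⟩
  obtain ⟨r, hr⟩ := LinearMap.exists_leftInverse_of_injective (kl k f)
    (LinearMap.ker_eq_bot.2 hfi)
  obtain ⟨c, hc, hc'⟩ := Cls_mor hS (sesI k X) (𝟙 X) (rho k r) (by
    ext m
    refine IM_ext k fun b => ?_
    change b • m = r (b • f.hom m)
    rw [← map_smul]
    exact (congr($hr (b • m))).symm)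
  have h1 := Cls_defect k n r y
  rw [hx] at h1
  have h2 : Cmap k (n + 1) r (Cmap k (n + 1) (kl k f) x) = x := by
    have e : Cmap k (n + 1) r ∘ₗ Cmap k (n + 1) (kl k f) = LinearMap.id := by
      rw [← Cmap_comp, hr, Cmap_id]
    exact congr($e x)
  rw [h2] at h1
  have h3 : cls k (n + 1) X ⟨x, hxz⟩ = cls k (n + 1) X (⟨x, hxz⟩ -
      ⟨dC k n X (Cmap k n r y), dC_dC k n X _⟩) := by
    rw [map_sub, cls_bound, sub_zero]
  rw [h3, cls_succ]
  have h4 : Cmap k n (kl k (qM k X)) (show Cn k n (IM k X) from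
      (x - dC k n X (Cmap k n r y) : Cn k (n + 1) X)) =
      Cmap k n (kl k (show Z ⟶ M1 k X from c)) (Cmap k n (kl k g) y) := by
    rw [h1]
    have e1 : Cmap k n (kl k (qM k X)) ((show Cn k n (IM k X) from Cmap k n (kl k (rho k r)) y) -
        (show Cn k n (IM k X) from embC k n X (Cmap k n r y))) =
        Cmap k n (kl k (show Z ⟶ M1 k X from c)) (Cmap k n (kl k g) y) := by
      rw [map_sub, Cls_q_emb, sub_zero]
      refine (Cls_Cmap_comp k n (rho k r) (qM k X) y).symm.trans ?_
      refine Eq.trans ?_ (Cls_Cmap_comp k n g (show Z ⟶ M1 k X from c) y)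
      exact congrArg (fun h : Y ⟶ M1 k X => Cmap k n (kl k h) y) hc.symm
    exact e1
  have h5 : cls k n (M1 k X) ⟨Cmap k n (kl k (qM k X)) ((⟨x, hxz⟩ : Zc k (n + 1) X) -
      ⟨dC k n X (Cmap k n r y), dC_dC k n X _⟩).1, q_mem_Zc k ((⟨x, hxz⟩ : Zc k (n + 1) X) -
      ⟨dC k n X (Cmap k n r y), dC_dC k n X _⟩).2⟩ =
      (cls k n Z ⟨Cmap k n (kl k g) y, hz⟩).comp (Ext.mk₀ (show Z ⟶ M1 k X from c))
        (add_zero n) := by
    rw [cls_nat]
    congr 1
    exact Subtype.ext h4
  rw [h5, Ext.comp_assoc _ _ _ (add_zero n) (zero_add 1) (by omega)]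
  refine Eq.trans (congrArg (fun e : Ext Z X 1 =>
    (cls k n Z ⟨Cmap k n (kl k g) y, hz⟩).comp e rfl) hc'.symm) ?_
  change (cls k n Z ⟨Cmap k n (kl k g) y, hz⟩).comp (hS.extClass.comp (Ext.mk₀ (𝟙 X))
    (add_zero 1)) rfl = _
  rw [Ext.comp_mk₀_id]

/-- Every class is the class of a cocycle. -/
theorem cls_surj (n : ℕ) (M : ModuleCat.{u} A) : Function.Surjective (cls k n M) := by
  induction n generalizing M with
  | zero =>
    intro e
    obtain ⟨g, rfl⟩ := (Ext.mk₀_bijective (trivObj k A) M).2 e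
    have hinv : ∀ b : A, b • g.hom (show trivObj k A from (1 : k)) =
        Coalgebra.counit (R := k) b • g.hom (show trivObj k A from (1 : k)) := by
      intro b
      rw [← map_smul]
      have h1 : b • (show trivObj k A from (1 : k)) =
          Coalgebra.counit (R := k) b • (show trivObj k A from (1 : k)) := by
        change (Coalgebra.counit (R := k) b * 1 : k) =
          (Coalgebra.counit (R := k) (algebraMap k A (Coalgebra.counit (R := k) b)) * 1 : k)
        rw [Bialgebra.counit_algebraMap]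
      rw [h1]
      exact (kl k g).map_smul _ _
    have hm : (show Cn k 0 M from g.hom (show trivObj k A from (1 : k))) ∈ Zc k 0 M := by
      refine (mem_Zc k).2 ?_
      refine IM_ext k fun b => ?_
      change b • g.hom (show trivObj k A from (1 : k)) -
        Coalgebra.counit (R := k) b • g.hom (show trivObj k A from (1 : k)) = 0
      rw [hinv, sub_self]
    refine ⟨⟨_, hm⟩, ?_⟩
    rw [cls_zero]
    congr 1
    ext c
    change (show k from c) • g.hom (show trivObj k A from (1 : k)) = g.hom c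
    refine ((kl k g).map_smul (show k from c) (show trivObj k A from (1 : k))).symm.trans ?_
    refine congrArg (fun x : trivObj k A => g.hom x) ?_
    change (Coalgebra.counit (R := k) (algebraMap k A (show k from c)) * 1 : k) =
      (show k from c)
    rw [Bialgebra.counit_algebraMap, mul_one]
  | succ n ih =>
    intro e
    have := IM_injective k M
    obtain ⟨e', he'⟩ := Ext.covariant_sequence_exact₁ _ (sesI k M) e
      (Ext.eq_zero_of_injective _) rfl
    obtain ⟨z', hz'⟩ := ih (M1 k M) e'
    obtain ⟨z, hz⟩ := Cmap_surjective k n (kl k (qM k M)) (qM_surjective k M) z'.1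
    have h1 : Cmap k (n + 1) (kl k (qM k M)) (dC k n (IM k M) z) = 0 := by
      rw [← dC_nat, hz]
      exact z'.2
    obtain ⟨x, hx⟩ := (Cmap_exact k (n + 1) (kl k (emb k M)) (kl k (qM k M)) (qM_exact k M) _).1 h1
    obtain ⟨hxz, hz2, h2⟩ := cls_delta k n (emb k M) (qM k M) (emb_qM k M) (sesI k M) z x hx.symm
    refine ⟨⟨x, hxz⟩, ?_⟩
    rw [h2, ← he', ← hz']
    congr 2
    exact Subtype.ext hz

private theorem Cls_fix (n : ℕ) (M : ModuleCat.{u} A) (t : Cn k n M)
    (h : dC k (n + 1) M (embC k n M t) = 0) : embC k n M t = dC k n M t := by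
  have e1 := dC_nat k n (emb k M) t
  have e2 : dC k (n + 1) M (embC k n M t) = embC k (n + 1) M (embC k n M t) -
      embC k (n + 1) M (dC k n M t) := by
    rw [dC_succ]
    congr 1
  rw [e2, ← map_sub] at h
  have hi : Function.Injective (kl k (emb k M)) := emb_injective k M
  have h2 := Cmap_injective k (n + 1) (kl k (emb k M)) hi
    (a₁ := embC k n M t - dC k n M t) (a₂ := 0) (by rw [map_zero]; exact h)
  exact sub_eq_zero.1 h2

private theorem Cls_fin (n : ℕ) (M : ModuleCat.{u} A) (z : Zc k (n + 1) M) (w t : Cn k n M)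
    (h : z.1 + dC k n M w = embC k n M t) : ∃ w : Cn k n M, dC k n M w = z.1 := by
  refine ⟨t - w, ?_⟩
  rw [map_sub, ← Cls_fix k n M t (by rw [← h, map_add, dC_dC, (mem_Zc k).1 z.2, add_zero]), ← h,
    add_sub_cancel_right]

private theorem Cls_zero_inj (M : ModuleCat.{u} A) (z z' : Zc k 0 M)
    (h : cls k 0 M z = cls k 0 M z') : z.1 = z'.1 := by
  rw [cls_zero, cls_zero] at h
  have h1 := (Ext.mk₀_bijective (trivObj k A) M).1 h
  have h2 := congrArg (fun g : trivObj k A ⟶ M => g.hom (show trivObj k A from (1 : k))) h1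
  change (1 : k) • (show M from z.1) = (1 : k) • (show M from z'.1) at h2
  rw [one_smul, one_smul] at h2
  exact h2

/-- A cocycle of degree `n + 1` whose class is zero is a coboundary. For `n = 0`:
`cls (q z) = e.comp q` with `e` the class of an invariant `φ` of `I M`, `φ = eps (φ 1)`, so
`q z = q φ`, `z = φ + emb m`; for `n ≥ 1` `Ext^n(k, I M) = 0` gives `cls (q_* z) = 0`, so
`q_* z = d w'` by induction, lift `w'` to `w`, `z - d_{I M} w = emb_* v`. In both cases
`z + d w = emb_* t` for some `w` and `t`, and then `d (emb_* t) = 0` reads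
`emb_* (emb_* t - d t) = 0`, so `z + d w = emb_* t = d t`. -/
theorem cls_inj (n : ℕ) (M : ModuleCat.{u} A) (z : Zc k (n + 1) M)
    (hz : cls k (n + 1) M z = 0) : ∃ w : Cn k n M, dC k n M w = z.1 := by
  induction n generalizing M with
  | zero =>
    rw [cls_succ] at hz
    obtain ⟨e₂, he₂⟩ := Ext.covariant_sequence_exact₃ _ (sesI k M) _ rfl hz
    obtain ⟨φ, rfl⟩ := cls_surj k 0 (IM k M) e₂
    have h1 := (cls_nat k 0 (qM k M) φ).symm.trans he₂
    have h2 := Cls_zero_inj k (M1 k M) _ _ h1
    have h3 : (qM k M).hom ((show IM k M from z.1) - (show IM k M from φ.1)) = 0 := by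
      rw [map_sub, sub_eq_zero]
      exact h2.symm
    obtain ⟨m, hm⟩ := (qM_exact k M _).1 h3
    have h4 : (show IM k M from φ.1) = epsI k M (fn k (show IM k M from φ.1) 1) := by
      refine IM_ext k fun b => ?_
      have h5 := congrArg (fun g : IM k (IM k M) => fn k (fn k g b) 1) ((mem_Zc k).1 φ.2)
      have h6 : fn k (show IM k M from φ.1) (1 * b) -
        fn k (Coalgebra.counit (R := k) b • (show IM k M from φ.1)) 1 = 0 := h5
      rw [fn_ksmul, one_mul, sub_eq_zero] at h6
      exact h6
    refine Cls_fin k 0 M z (fn k (show IM k M from φ.1) 1)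
      (m + fn k (show IM k M from φ.1) 1) ?_
    change (show IM k M from z.1) + ((emb k M).hom (fn k (show IM k M from φ.1) 1) -
      epsI k M (fn k (show IM k M from φ.1) 1)) =
        (emb k M).hom (m + fn k (show IM k M from φ.1) 1)
    rw [← h4, map_add, hm]
    abel
  | succ n ih =>
    rw [cls_succ] at hz
    obtain ⟨e₂, he₂⟩ := Ext.covariant_sequence_exact₃ _ (sesI k M) _ rfl hz
    have := IM_injective k M
    have h0 : e₂ = 0 := Ext.eq_zero_of_injective _
    have h1 : cls k (n + 1) (M1 k M) ⟨Cmap k (n + 1) (kl k (qM k M)) z.1, q_mem_Zc k z.2⟩ = 0 := by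
      rw [← he₂, h0, Ext.zero_comp]
    obtain ⟨w', hw'⟩ := ih (M1 k M) _ h1
    obtain ⟨w, hw⟩ := Cmap_surjective k n (kl k (qM k M)) (qM_surjective k M) w'
    have h2 : Cmap k (n + 1) (kl k (qM k M)) ((show Cn k (n + 1) (IM k M) from z.1) -
        dC k n (IM k M) w) = 0 := by
      rw [map_sub, ← dC_nat, hw, hw', sub_self]
    obtain ⟨v, hv⟩ := (Cmap_exact k (n + 1) (kl k (emb k M)) (kl k (qM k M)) (qM_exact k M) _).1 h2
    refine Cls_fin k (n + 1) M z w (v + (show Cn k (n + 1) M from w)) ?_
    have e1 : dC k (n + 1) M (show Cn k (n + 1) M from w) =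
      embC k (n + 1) M (show Cn k (n + 1) M from w) -
      (show Cn k (n + 2) M from dC k n (IM k M) w) := rfl
    have e2 : embC k (n + 1) M v = z.1 - (show Cn k (n + 2) M from dC k n (IM k M) w) := hv
    rw [e1, map_add, e2]
    abel

end

end Pool.Agent.Helper90.FC
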