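import Pool.Agent.Helper90.FC.ResC

/-!
# Project FC, piece CLT: classes of cocycles of the cobar algebra

`clsT n w` is the class in `Ext^n(k, k)` of the component of degree `n` of the cocycle `w` of
`TA k (HD k A)`. The product `w * w'` corresponds to `(clsT w').comp (clsT w)`.
-/

set_option linter.unusedSectionVars false
set_option autoImplicit false

open CategoryTheory CategoryTheory.Abelian CategoryTheory.Limits
open scoped ModuleCat TensorProduct
open Pool.Agent.Helper59.FG

namespace Pool.Agent.Helper90.FC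

universe u

section

variable (k : Type u) [Field k] {A B : Type u} [Ring A] [Ring B] [Bialgebra k A] [Bialgebra k B]
variable [Module.Finite k A] [Module.Finite k B]

theorem evn_mem (n : ℕ) {w : TA k (HD k A)} (hd : dd k (HD k A) w = 0) :
    evn k n w ∈ Zc k n (trivObj k A) := by
  rw [mem_Zc, evn_dd, hd, map_zero]

/-- The class of a cocycle. -/
noncomputable def clsT (n : ℕ) (w : TA k (HD k A)) (hd : dd k (HD k A) w = 0) :
    Ext (trivObj k A) (trivObj k A) n :=
  cls k n (trivObj k A) ⟨evn k n w, evn_mem k n hd⟩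

theorem clsT_add (n : ℕ) (w w' : TA k (HD k A)) (hd : dd k (HD k A) w = 0)
    (hd' : dd k (HD k A) w' = 0) (h : dd k (HD k A) (w + w') = 0) :
    clsT k n (w + w') h = clsT k n w hd + clsT k n w' hd' := by
  unfold clsT
  rw [← map_add]
  exact congrArg (cls k n (trivObj k A)) (Subtype.ext (map_add (evn k n) w w'))

theorem clsT_smul (n : ℕ) (c : k) (w : TA k (HD k A)) (hd : dd k (HD k A) w = 0)
    (h : dd k (HD k A) (c • w) = 0) :
    clsT k n (c • w) h = c • clsT k n w hd := by
  unfold clsT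
  rw [← map_smul]
  exact congrArg (cls k n (trivObj k A)) (Subtype.ext (map_smul (evn k n) c w))

theorem clsT_surj (n : ℕ) (x : Ext (trivObj k A) (trivObj k A) n) :
    ∃ w ∈ Tn k (HD k A) n, ∃ hd : dd k (HD k A) w = 0, clsT k n w hd = x := by
  obtain ⟨z, rfl⟩ := cls_surj k n (trivObj k A) x
  obtain ⟨w, hw, hwz⟩ := evn_surj k n z.1
  have hd : dd k (HD k A) w = 0 := by
    refine evn_inj k (n + 1) _ (dd_Tn k (HD k A) n w hw) ?_
    rw [← evn_dd, hwz]
    exact (mem_Zc k).1 z.2
  refine ⟨w, hw, hd, ?_⟩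
  exact congrArg (cls k n (trivObj k A)) (Subtype.ext hwz)

theorem clsT_bound (n : ℕ) (v : TA k (HD k A)) :
    clsT k (n + 1) (dd k (HD k A) v) (dd_dd k (HD k A) v) = 0 := by
  rw [← cls_bound k n (trivObj k A) (evn k n v)]
  exact congrArg (cls k (n + 1) (trivObj k A)) (Subtype.ext (evn_dd k n v).symm)

theorem clsT_inj (n : ℕ) (w : TA k (HD k A)) (hw : w ∈ Tn k (HD k A) (n + 1))
    (hd : dd k (HD k A) w = 0) (h : clsT k (n + 1) w hd = 0) :
    ∃ v ∈ Tn k (HD k A) n, dd k (HD k A) v = w := by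
  obtain ⟨y, hy⟩ := cls_inj k n (trivObj k A) _ h
  obtain ⟨v, hv, hvy⟩ := evn_surj k n y
  refine ⟨v, hv, ?_⟩
  have h1 : evn k (n + 1) (dd k (HD k A) v - w) = 0 := by
    rw [map_sub, ← evn_dd, hvy, sub_eq_zero]
    exact hy
  exact sub_eq_zero.1 (evn_inj k (n + 1) _
    (Submodule.sub_mem _ (dd_Tn k (HD k A) n v hv) hw) h1)

/-- Functoriality of all cochains for `k`-linear maps. -/
private noncomputable def ClsT_map {M N : ModuleCat.{u} A} (g : M →ₗ[k] N) (z : Tot k M) :
    Tot k N := fun n => Cmap k n g (z n)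

private theorem ClsT_map_add {M N : ModuleCat.{u} A} (g : M →ₗ[k] N) (z z' : Tot k M) :
    ClsT_map k g (z + z') = ClsT_map k g z + ClsT_map k g z' :=
  funext fun n => map_add (Cmap k n g) (z n) (z' n)

private theorem ClsT_map_smul {M N : ModuleCat.{u} A} (g : M →ₗ[k] N) (c : k) (z : Tot k M) :
    ClsT_map k g (c • z) = c • ClsT_map k g z :=
  funext fun n => (Cmap k n g).map_smul c (z n)

private theorem ClsT_rmul_map {M N : ModuleCat.{u} A} (g : M →ₗ[k] N)
    (w : TensorAlgebra k (HD k A)) :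
    ∀ z : Tot k M, rmul k (ClsT_map k g z) w = ClsT_map k g (rmul k z w) := by
  induction w using TensorAlgebra.induction with
  | algebraMap r =>
    intro z
    rw [Algebra.algebraMap_eq_smul_one, rmul_smul, rmul_smul, rmul_one, rmul_one, ClsT_map_smul]
  | ι a =>
    intro z
    rw [rmul_io, rmul_io]
    funext n
    cases n with
    | zero => exact (map_zero (Cmap k 0 g)).symm
    | succ n => exact ap_nat k n g a (z n)
  | mul w w' h h' =>
    intro z
    rw [rmul_mul, rmul_mul, h, h']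
  | add w w' h h' =>
    intro z
    rw [rmul_add, rmul_add, h, h', ClsT_map_add]

/-- The shift of a cochain of `M` to a cochain of `I M`. -/
private noncomputable def ClsT_sh {M : ModuleCat.{u} A} (z : Tot k M) : Tot k (IM k M) :=
  fun n => (show Cn k n (IM k M) from z (n + 1))

private theorem ClsT_rmul_sh {M : ModuleCat.{u} A} (w : TensorAlgebra k (HD k A)) :
    ∀ z : Tot k M, z 0 = 0 →
      rmul k z w 0 = 0 ∧ rmul k (ClsT_sh k z) w = ClsT_sh k (rmul k z w) := by
  induction w using TensorAlgebra.induction with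
  | algebraMap r =>
    intro z hz
    rw [Algebra.algebraMap_eq_smul_one, rmul_smul, rmul_smul, rmul_one, rmul_one]
    refine ⟨?_, rfl⟩
    have h : (r • z) 0 = r • z 0 := rfl
    rw [h, hz, smul_zero]
  | ι a =>
    intro z hz
    rw [rmul_io, rmul_io]
    refine ⟨rfl, ?_⟩
    funext n
    cases n with
    | zero =>
      have h : ap k 0 M a (z 0) = 0 := by rw [hz, map_zero]
      exact h.symm
    | succ n => rfl
  | mul w w' h h' =>
    intro z hz
    obtain ⟨h1, h2⟩ := h z hz
    obtain ⟨h3, h4⟩ := h' _ h1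
    rw [rmul_mul, rmul_mul, h2, h4]
    exact ⟨h3, rfl⟩
  | add w w' h h' =>
    intro z hz
    obtain ⟨h1, h2⟩ := h z hz
    obtain ⟨h3, h4⟩ := h' z hz
    rw [rmul_add, rmul_add, h2, h4]
    refine ⟨?_, rfl⟩
    have h : (rmul k z w + rmul k z w') 0 = rmul k z w 0 + rmul k z w' 0 := rfl
    rw [h, h1, h3, add_zero]

private theorem ClsT_one0 : Conc k 0 (one0 k A) := by
  intro m hm
  cases m with
  | zero => exact absurd rfl hm
  | succ m => rfl

/-- equal cocycles have equal classes -/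
private theorem ClsT_congr {N : ℕ} {M : ModuleCat.{u} A} {x y : Cn k N M} (h : x = y)
    (hx : x ∈ Zc k N M) (hy : y ∈ Zc k N M) : cls k N M ⟨x, hx⟩ = cls k N M ⟨y, hy⟩ :=
  congrArg (cls k N M) (Subtype.ext h)

/-- Products: for a cocycle `z` of degree `m` with values in `M` and a cocycle `w` of degree `n` of
the cobar algebra, the class of `rmul z w` is the class of `w` followed by the class of `z`.
Induction on `m`, for all `M`: for `m = 0`, `z` is an invariant `μ` of `M` and `rmul z w` is the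
image of `evn n w` under the `A`-linear map `k → M`, `1 ↦ μ` (`ap_nat`), use `cls_nat`; for `m + 1`
regard `z` as a cochain of degree `m` with values in `I M`: `q_* (rmul z w) = rmul (q_* z) w`. -/
theorem cls_rmul {M : ModuleCat.{u} A} {m n N : ℕ} (h : n + m = N) (z : Tot k M)
    (hz : Conc k m z) (hdz : z m ∈ Zc k m M) (w : TA k (HD k A)) (hw : w ∈ Tn k (HD k A) n)
    (hd : dd k (HD k A) w = 0) (hzw : rmul k z w N ∈ Zc k N M) :
    cls k N M ⟨rmul k z w N, hzw⟩ = (clsT k n w hd).comp (cls k m M ⟨z m, hdz⟩) h := by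
  induction m generalizing M N with
  | zero =>
    obtain rfl : n = N := by omega
    have hz' : z = ClsT_map k (kl k (invHom k M ⟨z 0, hdz⟩)) (one0 k A) := by
      funext i
      cases i with
      | zero => exact (one_smul k (show M from z 0)).symm
      | succ i =>
        rw [hz (i + 1) (Nat.succ_ne_zero i)]
        exact (map_zero (Cmap k (i + 1) (kl k (invHom k M ⟨z 0, hdz⟩)))).symm
    have h1 : rmul k z w n = Cmap k n (kl k (invHom k M ⟨z 0, hdz⟩)) (evn k n w) := by
      have h2 := congrArg (fun y : Tot k M => rmul k y w n) hz'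
      refine h2.trans ?_
      exact congrFun (ClsT_rmul_map k (kl k (invHom k M ⟨z 0, hdz⟩)) w (one0 k A)) n
    rw [cls_zero]
    refine (ClsT_congr k h1 hzw (Cmap_mem_Zc k _ (evn_mem k n hd))).trans ?_
    exact (cls_nat k n (invHom k M ⟨z 0, hdz⟩) ⟨evn k n w, evn_mem k n hd⟩).symm
  | succ m ih =>
    obtain ⟨N', rfl⟩ : ∃ N', N = N' + 1 := ⟨n + m, by omega⟩
    have h0 : z 0 = 0 := hz 0 (Nat.succ_ne_zero m).symm
    have hsh := (ClsT_rmul_sh k w z h0).2
    have e1 : rmul k (ClsT_map k (kl k (qM k M)) (ClsT_sh k z)) w N' =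
        Cmap k N' (kl k (qM k M)) (rmul k z w (N' + 1)) := by
      rw [ClsT_rmul_map, hsh]
      rfl
    have e2 : (ClsT_map k (kl k (qM k M)) (ClsT_sh k z)) m =
        Cmap k m (kl k (qM k M)) (z (m + 1)) := rfl
    have hconc : Conc k m (ClsT_map k (kl k (qM k M)) (ClsT_sh k z)) := by
      intro i hi
      have h2 : z (i + 1) = 0 := hz (i + 1) (by omega)
      have h3 : (ClsT_sh k z) i = 0 := h2
      have h4 : (ClsT_map k (kl k (qM k M)) (ClsT_sh k z)) i =
        Cmap k i (kl k (qM k M)) ((ClsT_sh k z) i) := rfl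
      rw [h4, h3, map_zero]
    have hc1 : (ClsT_map k (kl k (qM k M)) (ClsT_sh k z)) m ∈ Zc k m (M1 k M) := q_mem_Zc k hdz
    have hc2 : rmul k (ClsT_map k (kl k (qM k M)) (ClsT_sh k z)) w N' ∈ Zc k N' (M1 k M) := by
      rw [e1]
      exact q_mem_Zc k hzw
    have hih := ih (by omega : n + m = N') _ hconc hc1 hc2
    have e3 : cls k (N' + 1) M ⟨rmul k z w (N' + 1), hzw⟩ =
        (cls k N' (M1 k M) ⟨Cmap k N' (kl k (qM k M)) (rmul k z w (N' + 1)),
          q_mem_Zc k hzw⟩).comp (sesI k M).extClass rfl := cls_succ k N' M _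
    have e4 : cls k (m + 1) M ⟨z (m + 1), hdz⟩ =
        (cls k m (M1 k M) ⟨(ClsT_map k (kl k (qM k M)) (ClsT_sh k z)) m, hc1⟩).comp
          (sesI k M).extClass rfl := cls_succ k m M _
    rw [e3, e4, ← ClsT_congr k e1 hc2 (q_mem_Zc k hzw), hih]
    exact Ext.comp_assoc _ _ _ _ _ (by omega)

theorem clsT_mul {m n N : ℕ} (h : n + m = N) (w w' : TA k (HD k A)) (hw : w ∈ Tn k (HD k A) m)
    (hw' : w' ∈ Tn k (HD k A) n) (hd : dd k (HD k A) w = 0) (hd' : dd k (HD k A) w' = 0)
    (hdd : dd k (HD k A) (w * w') = 0) :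
    clsT k N (w * w') hdd = (clsT k n w' hd').comp (clsT k m w hd) h := by
  have hconc : Conc k m (evT k w) := rmul_conc k (zero_add m) (ClsT_one0 k) hw
  have e : rmul k (evT k w) w' N = evn k N (w * w') :=
    (congrFun (rmul_mul k (one0 k A) w w') N).symm
  have hm : rmul k (evT k w) w' N ∈ Zc k N (trivObj k A) := by
    rw [e]
    exact evn_mem k N hdd
  have h1 := cls_rmul k h (evT k w) hconc (evn_mem k m hd) w' hw' hd' hm
  exact (ClsT_congr k e.symm (evn_mem k N hdd) hm).trans h1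

theorem clsT_res (φ : A →ₐc[k] B) (n : ℕ) (w : TA k (HD k B)) (hd : dd k (HD k B) w = 0)
    (hd' : dd k (HD k A) (mapT (HDmap φ : HD k B →ₗ[k] HD k A) w) = 0) :
    clsT k n (mapT (HDmap φ : HD k B →ₗ[k] HD k A) w) hd' =
      rsE (φ : A →ₐ[k] B) (aug_of_bialg φ) (clsT k n w hd) := by
  have h1 : rs (φ : A →ₐ[k] B) (aug_of_bialg φ) (clsT k n w hd) =
      (clsT k n (mapT (HDmap φ : HD k B →ₗ[k] HD k A) w) hd').comp
        (Ext.mk₀ (resTriv (φ : A →ₐ[k] B) (aug_of_bialg φ))) (add_zero n) := by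
    refine (cls_Cres k (φ : A →ₐ[k] B) (aug_of_bialg φ) n (trivObj k B)
      ⟨evn k n w, evn_mem k n hd⟩).symm.trans ?_
    refine (ClsT_congr k (evn_Cres k φ n w) _
      (Cmap_mem_Zc k _ (evn_mem k n hd'))).trans ?_
    exact (cls_nat k n (resTriv (φ : A →ₐ[k] B) (aug_of_bialg φ))
      ⟨evn k n (mapT (HDmap φ : HD k B →ₗ[k] HD k A) w), evn_mem k n hd'⟩).symm
  rw [rsE, h1, Ext.comp_assoc_of_third_deg_zero, Ext.mk₀_comp_mk₀, IsIso.hom_inv_id,
    Ext.comp_mk₀_id]

end

end Pool.Agent.Helper90.FC
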