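import Pool.Agent.Helper90.FC.Cobar

/-!
# Project FC, piece COH: the homotopy formula
-/

set_option linter.unusedSectionVars false
set_option autoImplicit false

open scoped TensorProduct
open WithConv

namespace Pool.Agent.Helper90.FC

universe u v

section

variable (k : Type u) [Field k] (H : Type u) [Ring H] [Bialgebra k H]

/-- Composition with a linear map on the convolution algebra. -/
private noncomputable def cohPost (f : TA k H →ₗ[k] TA k H) :
    WithConv (H →ₗ[k] TA k H) →ₗ[k] WithConv (H →ₗ[k] TA k H) where
  toFun g := toConv (f ∘ₗ g.ofConv)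
  map_add' g h := by
    apply WithConv.ofConv_injective
    ext a
    simp
  map_smul' c g := by
    apply WithConv.ofConv_injective
    ext a
    simp

private theorem cohPost_apply (f : TA k H →ₗ[k] TA k H) (g : WithConv (H →ₗ[k] TA k H)) (a : H) :
    (cohPost k H f g) a = f (g a) := rfl

private theorem coh_mul_apply {ι : Type*} {a : H} (R : Coalgebra.Repr k a ι)
    (f g : WithConv (H →ₗ[k] TA k H)) :
    (f * g) a = ∑ i ∈ R.index, f (R.left i) * g (R.right i) := by
  simp [LinearMap.convMul_def, ← R.eq]

private theorem coh_ext {f g : WithConv (H →ₗ[k] TA k H)} (h : ∀ a : H, f a = g a) : f = g := by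
  apply WithConv.ofConv_injective
  ext a
  exact h a

private theorem cohPost_dd_mul (f g : WithConv (H →ₗ[k] TA k H)) :
    cohPost k H (dd k H) (f * g) = cohPost k H (sg k H).toLinearMap f * cohPost k H (dd k H) g +
      cohPost k H (dd k H) f * g := by
  refine coh_ext k H fun a => ?_
  have R := Coalgebra.Repr.arbitrary k a
  rw [cohPost_apply, coh_mul_apply k H R, map_sum]
  have h : (cohPost k H (sg k H).toLinearMap f * cohPost k H (dd k H) g +
      cohPost k H (dd k H) f * g) a = (cohPost k H (sg k H).toLinearMap f *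
        cohPost k H (dd k H) g) a + (cohPost k H (dd k H) f * g) a := rfl
  rw [h, coh_mul_apply k H R, coh_mul_apply k H R, ← Finset.sum_add_distrib]
  refine Finset.sum_congr rfl fun i _ => ?_
  rw [dd_mul]
  rfl

private theorem ph_io_apply (a b : H) : (ph k H (io k b)) a = io k (a * b) :=
  actT_io k H a b

/-- The sign automorphism and the action commute. -/
private theorem cohPost_sg_ph (w : TA k H) :
    cohPost k H (sg k H).toLinearMap (ph k H w) = ph k H (sg k H w) := by
  have hmul : ∀ f g : WithConv (H →ₗ[k] TA k H), cohPost k H (sg k H).toLinearMap (f * g) =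
      cohPost k H (sg k H).toLinearMap f * cohPost k H (sg k H).toLinearMap g := by
    intro f g
    refine coh_ext k H fun a => ?_
    have R := Coalgebra.Repr.arbitrary k a
    rw [cohPost_apply, coh_mul_apply k H R, coh_mul_apply k H R, map_sum]
    refine Finset.sum_congr rfl fun i _ => ?_
    exact map_mul (sg k H) _ _
  have hone : cohPost k H (sg k H).toLinearMap (1 : WithConv (H →ₗ[k] TA k H)) = 1 := by
    refine coh_ext k H fun a => ?_
    exact (sg k H).commutes _
  let P : WithConv (H →ₗ[k] TA k H) →ₐ[k] WithConv (H →ₗ[k] TA k H) :=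
    AlgHom.ofLinearMap (cohPost k H (sg k H).toLinearMap) hone hmul
  have h : P.comp (ph k H) = (ph k H).comp (sg k H) := by
    refine TensorAlgebra.hom_ext (LinearMap.ext fun b => coh_ext k H fun a => ?_)
    change sg k H ((ph k H (io k b)) a) = (ph k H (sg k H (io k b))) a
    rw [ph_io_apply, sg_io, sg_io, map_neg]
    change _ = -((ph k H (io k b)) a)
    rw [ph_io_apply]
  exact DFunLike.congr_fun h w

/-- The element `θ`. -/
private noncomputable def cohTh : WithConv (H →ₗ[k] TA k H) :=
  toConv (LinearMap.toSpanSingleton k (TA k H) (io k 1) ∘ₗ Coalgebra.counit - TensorAlgebra.ι k)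

private theorem cohTh_apply (a : H) :
    (cohTh k H) a = Coalgebra.counit (R := k) a • io k 1 - io k a := rfl

/-- the sum `∑ f(a₁) ε(a₂)`. -/
private theorem coh_sum_counit {ι : Type*} {a : H} (R : Coalgebra.Repr k a ι) :
    ∑ i ∈ R.index, Coalgebra.counit (R := k) (R.right i) • R.left i = a := by
  have h := Coalgebra.sum_tmul_counit_eq R
  have h2 := congrArg (TensorProduct.rid k H) h
  simpa only [map_sum, TensorProduct.rid_tmul, one_smul] using h2

private theorem coh_sum_counit' {ι : Type*} {a : H} (R : Coalgebra.Repr k a ι) :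
    ∑ i ∈ R.index, Coalgebra.counit (R := k) (R.left i) • R.right i = a := by
  have h := Coalgebra.sum_counit_tmul_eq R
  have h2 := congrArg (TensorProduct.lid k H) h
  simpa only [map_sum, TensorProduct.lid_tmul, one_smul] using h2

private theorem coh_mul_th {ι : Type*} {a : H} (R : Coalgebra.Repr k a ι)
    (f : WithConv (H →ₗ[k] TA k H)) :
    (f * cohTh k H) a = f a * io k 1 - ∑ i ∈ R.index, f (R.left i) * io k (R.right i) := by
  rw [coh_mul_apply k H R]
  have h : f a = ∑ i ∈ R.index, Coalgebra.counit (R := k) (R.right i) • f (R.left i) := by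
    conv_lhs => rw [← coh_sum_counit k H R]
    rw [map_sum]
    refine Finset.sum_congr rfl fun i _ => ?_
    rw [map_smul]
  rw [h, Finset.sum_mul, ← Finset.sum_sub_distrib]
  refine Finset.sum_congr rfl fun i _ => ?_
  rw [cohTh_apply, mul_sub, mul_smul_comm, smul_mul_assoc]

private theorem coh_th_mul {ι : Type*} {a : H} (R : Coalgebra.Repr k a ι)
    (f : WithConv (H →ₗ[k] TA k H)) :
    (cohTh k H * f) a = io k 1 * f a - ∑ i ∈ R.index, io k (R.left i) * f (R.right i) := by
  rw [coh_mul_apply k H R]
  have h : f a = ∑ i ∈ R.index, Coalgebra.counit (R := k) (R.left i) • f (R.right i) := by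
    conv_lhs => rw [← coh_sum_counit' k H R]
    rw [map_sum]
    refine Finset.sum_congr rfl fun i _ => ?_
    rw [map_smul]
  rw [h, Finset.mul_sum, ← Finset.sum_sub_distrib]
  refine Finset.sum_congr rfl fun i _ => ?_
  rw [cohTh_apply, sub_mul, smul_mul_assoc, mul_smul_comm]

private theorem coh_DelT {ι : Type*} {a : H} (R : Coalgebra.Repr k a ι) :
    DelT k H a = ∑ i ∈ R.index, io k (R.left i) * io k (R.right i) := by
  rw [DelT, LinearMap.comp_apply, LinearMap.comp_apply, ← R.eq, map_sum, map_sum]
  refine Finset.sum_congr rfl fun i _ => ?_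
  simp

/-- The differential and the action. -/
private theorem coh_dd_act (w : TA k H) :
    cohPost k H (dd k H) (ph k H w) =
      ph k H (dd k H w) + (cohTh k H * ph k H w - ph k H (sg k H w) * cohTh k H) := by
  have h := twDer_ext ((ph k H).comp (sg k H)) (ph k H)
    (cohPost k H (dd k H) ∘ₗ (ph k H).toLinearMap)
    ((ph k H).toLinearMap ∘ₗ dd k H + (LinearMap.mulLeft k (cohTh k H) ∘ₗ (ph k H).toLinearMap -
      LinearMap.mulRight k (cohTh k H) ∘ₗ (ph k H).toLinearMap ∘ₗ (sg k H).toLinearMap)) ?_ ?_ ?_
  · exact DFunLike.congr_fun h w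
  · intro w w'
    simp only [LinearMap.comp_apply, AlgHom.toLinearMap_apply, AlgHom.comp_apply]
    rw [map_mul, cohPost_dd_mul, cohPost_sg_ph]
  · intro w w'
    simp only [LinearMap.comp_apply, AlgHom.toLinearMap_apply, AlgHom.comp_apply,
      LinearMap.add_apply, LinearMap.sub_apply, LinearMap.mulLeft_apply, LinearMap.mulRight_apply]
    rw [dd_mul, map_add, map_mul, map_mul, map_mul, map_mul, map_mul]
    simp only [mul_sub, mul_add, sub_mul, add_mul, mul_assoc]
    abel
  · intro b
    simp only [LinearMap.comp_apply, AlgHom.toLinearMap_apply,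
      LinearMap.add_apply, LinearMap.sub_apply, LinearMap.mulLeft_apply, LinearMap.mulRight_apply]
    refine coh_ext k H fun a => ?_
    have Ra := Coalgebra.Repr.arbitrary k a
    have Rb := Coalgebra.Repr.arbitrary k b
    have hadd : ∀ f g h : WithConv (H →ₗ[k] TA k H), (f + (g - h)) a = f a + (g a - h a) :=
      fun _ _ _ => rfl
    rw [cohPost_apply, hadd, coh_th_mul k H Ra, coh_mul_th k H Ra]
    change dd k H ((ph k H (io k b)) a) = (ph k H (dd k H (io k b))) a +
      (io k 1 * (ph k H (io k b)) a - ∑ i ∈ Ra.index, io k (Ra.left i) *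
        (ph k H (io k b)) (Ra.right i) - ((ph k H (sg k H (io k b))) a * io k 1 -
          ∑ i ∈ Ra.index, (ph k H (sg k H (io k b))) (Ra.left i) * io k (Ra.right i)))
    have hneg : ∀ c : H, (ph k H (sg k H (io k b))) c = -io k (c * b) := by
      intro c
      rw [sg_io, map_neg]
      change -((ph k H (io k b)) c) = _
      rw [ph_io_apply]
    have h1 : (ph k H (dd k H (io k b))) a =
        ∑ i ∈ Ra.index, io k (Ra.left i) * io k (Ra.right i * b) +
        ∑ i ∈ Ra.index, io k (Ra.left i * b) * io k (Ra.right i) - DelT k H (a * b) := by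
      rw [dd_io, map_sub, map_add, map_mul, map_mul]
      change (ph k H (io k 1) * ph k H (io k b)) a + (ph k H (io k b) * ph k H (io k 1)) a -
        (ph k H (DelT k H b)) a = _
      rw [coh_mul_apply k H Ra, coh_mul_apply k H Ra, coh_DelT k H Rb, map_sum]
      congr 1
      · congr 1
        · refine Finset.sum_congr rfl fun i _ => ?_
          rw [ph_io_apply, ph_io_apply, mul_one]
        · refine Finset.sum_congr rfl fun i _ => ?_
          rw [ph_io_apply, ph_io_apply, mul_one]
      · have hsum : ∀ (t : Finset (H × H)) (f : H × H → WithConv (H →ₗ[k] TA k H)),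
            (∑ j ∈ t, f j) a = ∑ j ∈ t, (f j) a := by
          intro t f
          classical
          induction t using Finset.induction_on with
          | empty => rfl
          | insert j t hj ih =>
            rw [Finset.sum_insert hj, Finset.sum_insert hj, ← ih]
            rfl
        rw [hsum]
        have h2 : DelT k H (a * b) = ∑ j ∈ Rb.index, ∑ i ∈ Ra.index,
            io k (Ra.left i * Rb.left j) * io k (Ra.right i * Rb.right j) := by
          rw [DelT, LinearMap.comp_apply, LinearMap.comp_apply, Bialgebra.comul_mul, ← Ra.eq,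
            ← Rb.eq, Finset.sum_mul_sum, map_sum, map_sum, Finset.sum_comm]
          refine Finset.sum_congr rfl fun j _ => ?_
          rw [map_sum, map_sum]
          refine Finset.sum_congr rfl fun i _ => ?_
          simp
        rw [h2]
        refine Finset.sum_congr rfl fun j _ => ?_
        rw [map_mul, coh_mul_apply k H Ra]
        refine Finset.sum_congr rfl fun i _ => ?_
        rw [ph_io_apply, ph_io_apply]
    rw [h1, ph_io_apply, dd_io]
    simp only [hneg, ph_io_apply, neg_mul, Finset.sum_neg_distrib]
    abel

/-- The homotopy formula. Write `θ = (a ↦ ε(a) ι 1 - ι a)` in the convolution algebra. First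
`d(a · w) - a · (d w) = (θ * ph w - sg_*(ph w) * θ)(a)` for all `w` (both sides are
`(sg_* ∘ ph, ph)`-derivations of `T` with values in the convolution algebra; on generators it is a
computation with `Δ(a b) = Δ a Δ b`). Then for `dd y = 0`, `sg y = -y` both sides of the claim are
`(sg, id)`-derivations which agree on generators. -/
theorem homotopy (y : TA k H) (hy : dd k H y = 0) (hs : sg k H y = -y) (w : TA k H) :
    dd k H (RR k H y w) - RR k H y (dd k H w) = -(y * w - sg k H w * y) := by
  have h := twDer_ext (sg k H) (AlgHom.id k (TA k H))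
    (dd k H ∘ₗ RR k H y - RR k H y ∘ₗ dd k H)
    (-(LinearMap.mulLeft k y - LinearMap.mulRight k y ∘ₗ (sg k H).toLinearMap)) ?_ ?_ ?_
  · exact DFunLike.congr_fun h w
  · intro w w'
    simp only [LinearMap.comp_apply, LinearMap.sub_apply, AlgHom.coe_id, id_eq]
    rw [RR_mul, dd_mul, map_add, map_add, dd_mul, dd_mul, RR_mul, RR_mul, RR_sg k H y hs]
    simp only [mul_sub, sub_mul]
    abel
  · intro w w'
    simp only [LinearMap.comp_apply, LinearMap.sub_apply, LinearMap.neg_apply, AlgHom.coe_id, id_eq,
      LinearMap.mulLeft_apply, LinearMap.mulRight_apply, AlgHom.toLinearMap_apply]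
    rw [map_mul]
    simp only [mul_sub, sub_mul, mul_neg, neg_mul, mul_assoc]
    abel
  · intro a
    simp only [LinearMap.comp_apply, LinearMap.sub_apply, LinearMap.neg_apply,
      LinearMap.mulLeft_apply, LinearMap.mulRight_apply, AlgHom.toLinearMap_apply]
    have Ra := Coalgebra.Repr.arbitrary k a
    change dd k H (RR k H y (io k a)) - RR k H y (dd k H (io k a)) =
      -(y * io k a - sg k H (io k a) * y)
    have hact : ∀ c : H, (ph k H y) c = actT k H y c := fun _ => rfl
    have hactn : ∀ c : H, (ph k H (sg k H y)) c = -actT k H y c := by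
      intro c
      rw [hs, map_neg]
      rfl
    have h1 : dd k H (actT k H y a) = (io k 1 * actT k H y a -
        ∑ i ∈ Ra.index, io k (Ra.left i) * actT k H y (Ra.right i)) +
        (actT k H y a * io k 1 - ∑ i ∈ Ra.index, actT k H y (Ra.left i) * io k (Ra.right i)) := by
      have h2 : (cohPost k H (dd k H) (ph k H y)) a = (ph k H (dd k H y)) a +
          ((cohTh k H * ph k H y) a - (ph k H (sg k H y) * cohTh k H) a) := by
        rw [coh_dd_act]
        rfl
      rw [cohPost_apply, coh_th_mul k H Ra, coh_mul_th k H Ra, hy, map_zero] at h2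
      have h0 : (0 : WithConv (H →ₗ[k] TA k H)) a = 0 := rfl
      rw [h0, zero_add] at h2
      simp only [hact, hactn, neg_mul, Finset.sum_neg_distrib] at h2
      rw [h2]
      abel
    rw [RR_io, h1, dd_io, map_sub, map_add, RR_mul, RR_mul, RR_io, RR_io, actT_one,
      coh_DelT k H Ra, map_sum, sg_io]
    have h3 : ∀ i ∈ Ra.index, RR k H y (io k (Ra.left i) * io k (Ra.right i)) =
        io k (Ra.left i) * actT k H y (Ra.right i) + actT k H y (Ra.left i) * io k (Ra.right i) := by
      intro i _
      rw [RR_mul, RR_io, RR_io]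
    rw [Finset.sum_congr rfl h3, Finset.sum_add_distrib]
    simp only [neg_mul]
    abel

end

end Pool.Agent.Helper90.FC
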