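import Mathlib

/-!
# Project FC, piece COB: the cobar algebra of a bialgebra and the key lemma

`H` is a bialgebra over `k`, `T = TensorAlgebra k H`, `sg : T → T` the automorphism `a ↦ -a` on
generators, `dd` the derivation with `dd (w w') = dd w * w' + sg w * dd w'` and
`dd a = 1⊗a + a⊗1 - Δ a` on generators. `W = WithConv (H → T)` is the convolution algebra and
`ph : T → W` the algebra homomorphism with `ph (ι b) = (a ↦ ι (a b))`; `a · w = ph w a`. For `y` in
`T` let `RR y` be the derivation of `T` with `RR y (ι a) = ph y a`.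

KEY LEMMA: if `k` has characteristic `p`, `sg x = x`, `dd x = y` (so that `sg y = -y`) and
`S = RR y + (x * ·)`, then `dd (S^p 1) = (RR y)^(p-1) y`.
-/

set_option linter.unusedSectionVars false
set_option autoImplicit false

open scoped TensorProduct

namespace Pool.Agent.Helper90.FC

universe u v

section TwistedDerivations

variable {k : Type u} [Field k] {V : Type u} [AddCommGroup V] [Module k V]
variable {S : Type u} [Ring S] [Algebra k S]

/-- The matrices on generators. -/
private noncomputable def Cobar_gen (σ τ : TensorAlgebra k V →ₐ[k] S) (δ₀ : V →ₗ[k] S) :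
    V →ₗ[k] Matrix (Fin 2) (Fin 2) S where
  toFun a := !![σ (TensorAlgebra.ι k a), δ₀ a; 0, τ (TensorAlgebra.ι k a)]
  map_add' a b := by
    ext i j
    fin_cases i <;> fin_cases j <;> simp
  map_smul' c a := by
    ext i j
    fin_cases i <;> fin_cases j <;> simp

/-- Existence of twisted derivations: `δ(w w') = σ(w) δ(w') + δ(w) τ(w')` with prescribed values on
generators. (The homomorphism `T → M_2(S)`, `w ↦ (σ w, δ w; 0, τ w)`, given on generators by
`TensorAlgebra.lift`; check by induction on `w` that the entries are as claimed.) -/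
theorem exists_twDer (σ τ : TensorAlgebra k V →ₐ[k] S) (δ₀ : V →ₗ[k] S) :
    ∃ δ : TensorAlgebra k V →ₗ[k] S, (∀ a, δ (TensorAlgebra.ι k a) = δ₀ a) ∧
      ∀ w w', δ (w * w') = σ w * δ w' + δ w * τ w' := by
  classical
  set φ : TensorAlgebra k V →ₐ[k] Matrix (Fin 2) (Fin 2) S :=
    TensorAlgebra.lift k (Cobar_gen σ τ δ₀) with hφ
  have key : ∀ w, φ w 1 0 = 0 ∧ φ w 0 0 = σ w ∧ φ w 1 1 = τ w := by
    intro w
    induction w using TensorAlgebra.induction with
    | algebraMap r =>
      rw [AlgHom.commutes, AlgHom.commutes, AlgHom.commutes, Matrix.algebraMap_matrix_apply,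
        Matrix.algebraMap_matrix_apply, Matrix.algebraMap_matrix_apply]
      exact ⟨if_neg (by decide), if_pos rfl, if_pos rfl⟩
    | ι a =>
      rw [hφ, TensorAlgebra.lift_ι_apply]
      exact ⟨by simp [Cobar_gen], by simp [Cobar_gen], by simp [Cobar_gen]⟩
    | mul a b ha hb =>
      obtain ⟨a1, a2, a3⟩ := ha
      obtain ⟨b1, b2, b3⟩ := hb
      rw [map_mul, map_mul, map_mul]
      refine ⟨?_, ?_, ?_⟩
      · rw [Matrix.mul_apply, Fin.sum_univ_two, a1, b1, zero_mul, mul_zero, add_zero]
      · rw [Matrix.mul_apply, Fin.sum_univ_two, a2, b1, b2, mul_zero, add_zero]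
      · rw [Matrix.mul_apply, Fin.sum_univ_two, a1, a3, b3, zero_mul, zero_add]
    | add a b ha hb =>
      obtain ⟨a1, a2, a3⟩ := ha
      obtain ⟨b1, b2, b3⟩ := hb
      rw [map_add, map_add, map_add, Matrix.add_apply, Matrix.add_apply, Matrix.add_apply, a1, a2,
        a3, b1, b2, b3, add_zero]
      exact ⟨rfl, rfl, rfl⟩
  refine ⟨⟨⟨fun w => φ w 0 1, fun w w' => by rw [map_add, Matrix.add_apply]⟩,
    fun c w => by simp only [map_smul, Matrix.smul_apply, RingHom.id_apply]⟩, ?_, ?_⟩
  · intro a
    change φ (TensorAlgebra.ι k a) 0 1 = δ₀ a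
    rw [hφ, TensorAlgebra.lift_ι_apply]
    simp [Cobar_gen]
  · intro w w'
    change φ (w * w') 0 1 = σ w * φ w' 0 1 + φ w 0 1 * τ w'
    rw [map_mul, Matrix.mul_apply, Fin.sum_univ_two, (key w).2.1, (key w').2.2]

/-- Uniqueness of twisted derivations. -/
theorem twDer_ext (σ τ : TensorAlgebra k V →ₐ[k] S) (δ δ' : TensorAlgebra k V →ₗ[k] S)
    (h : ∀ w w', δ (w * w') = σ w * δ w' + δ w * τ w')
    (h' : ∀ w w', δ' (w * w') = σ w * δ' w' + δ' w * τ w')
    (hι : ∀ a, δ (TensorAlgebra.ι k a) = δ' (TensorAlgebra.ι k a)) : δ = δ' := by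
  have h1 : δ 1 = 0 := by
    have := h 1 1
    rw [mul_one, map_one σ, map_one τ, one_mul, mul_one] at this
    exact left_eq_add.mp this
  have h1' : δ' 1 = 0 := by
    have := h' 1 1
    rw [mul_one, map_one σ, map_one τ, one_mul, mul_one] at this
    exact left_eq_add.mp this
  ext w
  induction w using TensorAlgebra.induction with
  | algebraMap r =>
    rw [Algebra.algebraMap_eq_smul_one, map_smul, map_smul, h1, h1']
  | ι a => exact hι a
  | mul a b ha hb => rw [h, h', ha, hb]
  | add a b ha hb => rw [map_add, map_add, ha, hb]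

end TwistedDerivations

section Cobar

variable (k : Type u) [Field k] (H : Type u) [Ring H] [Bialgebra k H]

/-- The tensor algebra. -/
abbrev TA := TensorAlgebra k H

variable {H}

/-- The generator. -/
abbrev io (a : H) : TA k H := TensorAlgebra.ι k a

variable (H)

/-- The sign automorphism. -/
noncomputable def sg : TA k H →ₐ[k] TA k H := TensorAlgebra.lift k (-(TensorAlgebra.ι k))

/-- `∑ a₁ ⊗ a₂` in the tensor algebra. -/
noncomputable def DelT : H →ₗ[k] TA k H :=
  LinearMap.mul' k (TA k H) ∘ₗ TensorProduct.map (TensorAlgebra.ι k) (TensorAlgebra.ι k) ∘ₗ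
    Coalgebra.comul

/-- The differential on generators. -/
noncomputable def dd₀ : H →ₗ[k] TA k H :=
  LinearMap.mulLeft k (io k (1 : H)) ∘ₗ TensorAlgebra.ι k +
    LinearMap.mulRight k (io k (1 : H)) ∘ₗ TensorAlgebra.ι k - DelT k H

/-- The differential of the cobar algebra. -/
noncomputable def dd : TA k H →ₗ[k] TA k H :=
  (exists_twDer (sg k H) (AlgHom.id k (TA k H)) (dd₀ k H)).choose

theorem dd_mul (w w' : TA k H) : dd k H (w * w') = sg k H w * dd k H w' + dd k H w * w' :=
  (exists_twDer (sg k H) (AlgHom.id k (TA k H)) (dd₀ k H)).choose_spec.2 w w'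

theorem dd_io (a : H) : dd k H (io k a) = io k 1 * io k a + io k a * io k 1 - DelT k H a :=
  (exists_twDer (sg k H) (AlgHom.id k (TA k H)) (dd₀ k H)).choose_spec.1 a

theorem sg_io (a : H) : sg k H (io k a) = -io k a := by
  simp [sg, io]

theorem sg_sg (w : TA k H) : sg k H (sg k H w) = w := by
  have h : (sg k H).comp (sg k H) = AlgHom.id k (TA k H) := by
    apply TensorAlgebra.hom_ext
    ext a
    simp [sg]
  exact DFunLike.congr_fun h w

private theorem Cobar_sg_DelT (a : H) : sg k H (DelT k H a) = DelT k H a := by
  have h : ∀ t : H ⊗[k] H, sg k H (LinearMap.mul' k (TA k H)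
      (TensorProduct.map (TensorAlgebra.ι k) (TensorAlgebra.ι k) t)) =
      LinearMap.mul' k (TA k H)
        (TensorProduct.map (TensorAlgebra.ι k) (TensorAlgebra.ι k) t) := by
    intro t
    induction t using TensorProduct.induction_on with
    | zero => simp
    | tmul x y =>
      rw [TensorProduct.map_tmul, LinearMap.mul'_apply, map_mul]
      rw [show (TensorAlgebra.ι k) x = io k x from rfl,
        show (TensorAlgebra.ι k) y = io k y from rfl, sg_io, sg_io, neg_mul_neg]
    | add x y hx hy => rw [map_add, map_add, map_add, hx, hy]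
  exact h _

theorem dd_sg (w : TA k H) : dd k H (sg k H w) = -sg k H (dd k H w) := by
  have h := twDer_ext (k := k) (V := H) ((sg k H).comp (sg k H)) (sg k H)
    ((dd k H).comp (sg k H).toLinearMap) (-((sg k H).toLinearMap.comp (dd k H)))
    (fun w w' => by
      simp only [LinearMap.comp_apply, AlgHom.toLinearMap_apply, AlgHom.comp_apply, map_mul,
        dd_mul])
    (fun w w' => by
      simp only [LinearMap.comp_apply, AlgHom.toLinearMap_apply, AlgHom.comp_apply, map_mul,
        dd_mul, LinearMap.neg_apply, map_add, neg_add, mul_neg, neg_mul])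
    (fun a => by
      simp only [LinearMap.comp_apply, AlgHom.toLinearMap_apply, LinearMap.neg_apply]
      rw [show (TensorAlgebra.ι k) a = io k a from rfl, sg_io, map_neg, dd_io, map_sub, map_add,
        map_mul, map_mul, sg_io, sg_io, Cobar_sg_DelT, neg_mul_neg, neg_mul_neg])
  exact DFunLike.congr_fun h w

private theorem Cobar_coassoc (a : H) :
    LinearMap.mul' k (TA k H) (TensorProduct.map (TensorAlgebra.ι k) (DelT k H)
      (Coalgebra.comul (R := k) a)) =
    LinearMap.mul' k (TA k H) (TensorProduct.map (DelT k H) (TensorAlgebra.ι k)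
      (Coalgebra.comul (R := k) a)) := by
  set m3 : H ⊗[k] (H ⊗[k] H) →ₗ[k] TA k H :=
    LinearMap.mul' k (TA k H) ∘ₗ TensorProduct.map (TensorAlgebra.ι k)
      (LinearMap.mul' k (TA k H) ∘ₗ
        TensorProduct.map (TensorAlgebra.ι k) (TensorAlgebra.ι k)) with hm3
  have h1 : ∀ t : H ⊗[k] H, m3 ((Coalgebra.comul (R := k) (A := H)).lTensor H t) =
      LinearMap.mul' k (TA k H) (TensorProduct.map (TensorAlgebra.ι k) (DelT k H) t) := by
    intro t
    induction t using TensorProduct.induction_on with
    | zero => simp
    | tmul x y =>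
      rw [LinearMap.lTensor_tmul, TensorProduct.map_tmul, LinearMap.mul'_apply, hm3,
        LinearMap.comp_apply, TensorProduct.map_tmul, LinearMap.mul'_apply]
      rfl
    | add x y hx hy => rw [map_add, map_add, hx, hy, map_add, map_add]
  have h2 : ∀ t : H ⊗[k] H, m3 (TensorProduct.assoc k H H H
      ((Coalgebra.comul (R := k) (A := H)).rTensor H t)) =
      LinearMap.mul' k (TA k H) (TensorProduct.map (DelT k H) (TensorAlgebra.ι k) t) := by
    intro t
    induction t using TensorProduct.induction_on with
    | zero => simp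
    | tmul x y =>
      rw [LinearMap.rTensor_tmul, TensorProduct.map_tmul, LinearMap.mul'_apply]
      have h3 : ∀ s : H ⊗[k] H, m3 (TensorProduct.assoc k H H H (s ⊗ₜ[k] y)) =
          LinearMap.mul' k (TA k H)
            (TensorProduct.map (TensorAlgebra.ι k) (TensorAlgebra.ι k) s) *
              TensorAlgebra.ι k y := by
        intro s
        induction s using TensorProduct.induction_on with
        | zero => simp
        | tmul u v =>
          rw [TensorProduct.assoc_tmul, hm3, LinearMap.comp_apply, TensorProduct.map_tmul,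
            LinearMap.mul'_apply, LinearMap.comp_apply, TensorProduct.map_tmul,
            LinearMap.mul'_apply, TensorProduct.map_tmul, LinearMap.mul'_apply, mul_assoc]
        | add u v hu hv =>
          rw [TensorProduct.add_tmul, map_add, map_add, hu, hv, map_add, map_add, add_mul]
      exact h3 _
    | add x y hx hy =>
      rw [map_add, map_add, map_add, hx, hy, map_add, map_add]
  rw [← h1, ← h2, Coalgebra.coassoc_apply]

private theorem Cobar_dd_DelT (a : H) :
    dd k H (DelT k H a) = io k 1 * DelT k H a - DelT k H a * io k 1 := by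
  have h : ∀ t : H ⊗[k] H, dd k H (LinearMap.mul' k (TA k H)
      (TensorProduct.map (TensorAlgebra.ι k) (TensorAlgebra.ι k) t)) =
      io k 1 * LinearMap.mul' k (TA k H)
        (TensorProduct.map (TensorAlgebra.ι k) (TensorAlgebra.ι k) t) -
      LinearMap.mul' k (TA k H)
        (TensorProduct.map (TensorAlgebra.ι k) (TensorAlgebra.ι k) t) * io k 1 +
      (LinearMap.mul' k (TA k H) (TensorProduct.map (TensorAlgebra.ι k) (DelT k H) t) -
      LinearMap.mul' k (TA k H) (TensorProduct.map (DelT k H) (TensorAlgebra.ι k) t)) := by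
    intro t
    induction t using TensorProduct.induction_on with
    | zero => simp
    | tmul x y =>
      simp only [TensorProduct.map_tmul, LinearMap.mul'_apply]
      rw [show (TensorAlgebra.ι k) x = io k x from rfl,
        show (TensorAlgebra.ι k) y = io k y from rfl, dd_mul, dd_io, dd_io, sg_io]
      noncomm_ring
    | add x y hx hy =>
      simp only [map_add, hx, hy, mul_add, add_mul]
      abel
  have h2 := h (Coalgebra.comul (R := k) a)
  rw [Cobar_coassoc, sub_self, add_zero] at h2
  exact h2

/-- `dd` is a differential. -/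
theorem dd_dd (w : TA k H) : dd k H (dd k H w) = 0 := by
  have h := twDer_ext (k := k) (V := H) (AlgHom.id k (TA k H)) (AlgHom.id k (TA k H))
    ((dd k H).comp (dd k H)) 0
    (fun w w' => by
      simp only [LinearMap.comp_apply, AlgHom.id_apply, dd_mul, map_add, sg_sg, dd_sg]
      noncomm_ring)
    (fun w w' => by
      simp only [LinearMap.zero_apply, mul_zero, zero_mul, add_zero])
    (fun a => by
      simp only [LinearMap.comp_apply, LinearMap.zero_apply]
      rw [show (TensorAlgebra.ι k) a = io k a from rfl, dd_io, map_sub, map_add, Cobar_dd_DelT,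
        dd_mul, dd_mul, dd_io, dd_io, sg_io, sg_io]
      have h1 : DelT k H (1 : H) = io k 1 * io k 1 := by
        change LinearMap.mul' k (TA k H) (TensorProduct.map (TensorAlgebra.ι k)
          (TensorAlgebra.ι k) (Coalgebra.comul (R := k) (1 : H))) = _
        rw [Bialgebra.comul_one, Algebra.TensorProduct.one_def, TensorProduct.map_tmul,
          LinearMap.mul'_apply]
      rw [h1]
      noncomm_ring)
  exact DFunLike.congr_fun h w

/-- Right multiplication by `b` followed by `ι`, as an element of the convolution algebra. -/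
noncomputable def ph₀ : H →ₗ[k] WithConv (H →ₗ[k] TA k H) where
  toFun b := WithConv.toConv (TensorAlgebra.ι k ∘ₗ LinearMap.mulRight k b)
  map_add' b b' := by
    apply WithConv.ofConv_injective
    ext a
    simp [mul_add]
  map_smul' c b := by
    apply WithConv.ofConv_injective
    ext a
    simp

/-- The homomorphism `w ↦ (a ↦ a · w)`. -/
noncomputable def ph : TA k H →ₐ[k] WithConv (H →ₗ[k] TA k H) :=
  TensorAlgebra.lift k (ph₀ k H)

/-- The action `a · w`. -/
noncomputable def actT (w : TA k H) : H →ₗ[k] TA k H := (ph k H w).ofConv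

theorem actT_io (a b : H) : actT k H (io k b) a = io k (a * b) := by
  simp [actT, ph, ph₀, io]

/-- The unit acts trivially. -/
theorem actT_one (w : TA k H) : actT k H w 1 = w := by
  induction w using TensorAlgebra.induction with
  | algebraMap r =>
    have h : actT k H (algebraMap k (TA k H) r) 1 =
        (algebraMap k (WithConv (H →ₗ[k] TA k H)) r) 1 := by
      rw [← AlgHom.commutes (ph k H) r]
      rfl
    rw [h, LinearMap.convAlgebraMap_apply, Bialgebra.counit_one, map_one,
      Algebra.algebraMap_eq_smul_one]
  | ι a =>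
    rw [show (TensorAlgebra.ι k) a = io k a from rfl, actT_io, one_mul]
  | mul a b ha hb =>
    have h : actT k H (a * b) 1 = (ph k H a * ph k H b) 1 := by
      rw [← map_mul]
      rfl
    rw [h, LinearMap.convMul_apply, Bialgebra.comul_one, Algebra.TensorProduct.one_def,
      TensorProduct.map_tmul, LinearMap.mul'_apply]
    exact congrArg₂ _ ha hb
  | add a b ha hb =>
    have h : actT k H (a + b) 1 = actT k H a 1 + actT k H b 1 := by
      unfold actT
      rw [map_add]
      rfl
    rw [h, ha, hb]

private theorem Cobar_sg_actT (w : TA k H) :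
    (sg k H).toLinearMap ∘ₗ actT k H w = actT k H (sg k H w) := by
  induction w using TensorAlgebra.induction with
  | algebraMap r =>
    have h : ∀ r : k, actT k H (algebraMap k (TA k H) r) =
        (algebraMap k (WithConv (H →ₗ[k] TA k H)) r).ofConv := by
      intro r
      rw [← AlgHom.commutes (ph k H) r]
      rfl
    rw [AlgHom.commutes, h]
    ext a
    change sg k H ((algebraMap k (WithConv (H →ₗ[k] TA k H)) r) a) =
      (algebraMap k (WithConv (H →ₗ[k] TA k H)) r) a
    rw [LinearMap.convAlgebraMap_apply, map_smul, AlgHom.commutes]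
  | ι a =>
    ext b
    rw [show (TensorAlgebra.ι k) a = io k a from rfl, LinearMap.comp_apply, actT_io,
      AlgHom.toLinearMap_apply, sg_io, sg_io]
    have h : actT k H (-io k a) b = - actT k H (io k a) b := by
      unfold actT
      rw [map_neg]
      rfl
    rw [h, actT_io]
  | mul a b ha hb =>
    have h : ∀ a b : TA k H, actT k H (a * b) = (ph k H a * ph k H b).ofConv := by
      intro a b
      rw [← map_mul]
      rfl
    rw [h, LinearMap.algHom_comp_convMul_distrib, map_mul, h]
    have h1 : ∀ a : TA k H, (ph k H a).ofConv = actT k H a := fun a => rfl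
    rw [h1, h1, ha, hb]
    rfl
  | add a b ha hb =>
    have h : ∀ a b : TA k H, actT k H (a + b) = actT k H a + actT k H b := by
      intro a b
      unfold actT
      rw [map_add]
      rfl
    rw [h, LinearMap.comp_add, ha, hb, map_add, h]

/-- The derivation with `RR y (ι a) = a · y`. -/
noncomputable def RR (y : TA k H) : TA k H →ₗ[k] TA k H :=
  (exists_twDer (AlgHom.id k (TA k H)) (AlgHom.id k (TA k H)) (actT k H y)).choose

theorem RR_mul (y w w' : TA k H) : RR k H y (w * w') = w * RR k H y w' + RR k H y w * w' :=
  (exists_twDer (AlgHom.id k (TA k H)) (AlgHom.id k (TA k H)) (actT k H y)).choose_spec.2 w w'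

theorem RR_io (y : TA k H) (a : H) : RR k H y (io k a) = actT k H y a :=
  (exists_twDer (AlgHom.id k (TA k H)) (AlgHom.id k (TA k H)) (actT k H y)).choose_spec.1 a

theorem RR_one (y : TA k H) : RR k H y 1 = 0 := by
  have h := RR_mul k H y 1 1
  simpa using h

theorem RR_sg (y : TA k H) (hs : sg k H y = -y) (w : TA k H) :
    RR k H y (sg k H w) = sg k H (RR k H y w) := by
  have h := twDer_ext (k := k) (V := H) (sg k H) (sg k H)
    ((RR k H y).comp (sg k H).toLinearMap) ((sg k H).toLinearMap.comp (RR k H y))
    (fun w w' => by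
      simp only [LinearMap.comp_apply, AlgHom.toLinearMap_apply, map_mul, RR_mul])
    (fun w w' => by
      simp only [LinearMap.comp_apply, AlgHom.toLinearMap_apply, map_mul, RR_mul, map_add])
    (fun a => by
      simp only [LinearMap.comp_apply, AlgHom.toLinearMap_apply]
      rw [show (TensorAlgebra.ι k) a = io k a from rfl, sg_io, map_neg, RR_io]
      have h1 := LinearMap.congr_fun (Cobar_sg_actT k H y) a
      rw [LinearMap.comp_apply, AlgHom.toLinearMap_apply, hs] at h1
      rw [h1]
      unfold actT
      rw [map_neg]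
      rfl)
  exact DFunLike.congr_fun h w

/-- The operator `S = RR y + (x * ·)`. -/
noncomputable def SS (x y : TA k H) : Module.End k (TA k H) :=
  RR k H y + LinearMap.mulLeft k x

end Cobar

end Pool.Agent.Helper90.FC
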