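import Pool.Agent.Helper90.FC.Res

/-!
# Project FC: cochains of an augmented algebra with coefficients in a module

For an `A`-module `M` let `I M = Hom_k(A, M)` with `(a • g) b = g (b * a)`; the map
`emb : M → I M`, `m ↦ (b ↦ b • m)` is `A`-linear. The cochains are defined by
`Cn 0 M = M`, `Cn (n + 1) M = Cn n (I M)`; a cochain `z` of degree `n` is a multilinear map
`(b_1, …, b_n) ↦ z (b_n) … (b_1)` with values in `M` (the last argument is the outermost one). The
differential is `d 0 m = (b ↦ b • m - ε(b) m)`, `d (n + 1) z = emb_* z - d_{I M} z`; this is the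
usual bar differential
`(dz)(b_1, …, b_{n+1}) = b_1 z(b_2, …) - z(b_1 b_2, …) + ⋯ ± z(b_1, …, b_n) ε(b_{n+1})`.
-/

set_option linter.unusedSectionVars false
set_option autoImplicit false

open CategoryTheory CategoryTheory.Abelian CategoryTheory.Limits
open scoped ModuleCat TensorProduct
open Pool.Agent.Helper59.FG

namespace Pool.Agent.Helper90.FC

universe u

section

variable (k : Type u) [Field k] {A : Type u} [Ring A] [Algebra k A]

/-- `Hom_k(A, M)`. The only `k`-module structure used on it is the one coming from `A`. -/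
def IFun (M : ModuleCat.{u} A) : Type u := A →ₗ[k] M

noncomputable instance instGrpI (M : ModuleCat.{u} A) : AddCommGroup (IFun k M) :=
  inferInstanceAs (AddCommGroup (A →ₗ[k] M))

/-- The action `(a • g) b = g (b * a)`. -/
noncomputable def iAct (M : ModuleCat.{u} A) : A →+* AddMonoid.End (IFun k M) where
  toFun a :=
    { toFun := fun g => LinearMap.comp (show A →ₗ[k] M from g) (LinearMap.mulRight k a)
      map_zero' := rfl
      map_add' := fun _ _ => rfl }
  map_one' := by
    ext g
    refine LinearMap.ext fun b => ?_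
    change (show A →ₗ[k] M from g) (b * 1) = (show A →ₗ[k] M from g) b
    rw [mul_one]
  map_mul' a a' := by
    ext g
    refine LinearMap.ext fun b => ?_
    change (show A →ₗ[k] M from g) (b * (a * a')) = (show A →ₗ[k] M from g) (b * a * a')
    rw [mul_assoc]
  map_zero' := by
    ext g
    refine LinearMap.ext fun b => ?_
    change (show A →ₗ[k] M from g) (b * 0) = 0
    rw [mul_zero, map_zero]
  map_add' a a' := by
    ext g
    refine LinearMap.ext fun b => ?_
    change (show A →ₗ[k] M from g) (b * (a + a')) =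
      (show A →ₗ[k] M from g) (b * a) + (show A →ₗ[k] M from g) (b * a')
    rw [mul_add, map_add]

noncomputable instance instModI (M : ModuleCat.{u} A) : Module A (IFun k M) :=
  Module.compHom (IFun k M) (iAct k M)

/-- The coinduced module `I M = Hom_k(A, M)`. -/
noncomputable def IM (M : ModuleCat.{u} A) : ModuleCat.{u} A := ModuleCat.of A (IFun k M)

/-- The function underlying an element of `I M`. -/
def fn {M : ModuleCat.{u} A} (g : IM k M) : A →ₗ[k] M := g

/-- The element of `I M` given by a function. -/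
def mkI {M : ModuleCat.{u} A} (g : A →ₗ[k] M) : IM k M := g

@[simp] theorem fn_mkI {M : ModuleCat.{u} A} (g : A →ₗ[k] M) : fn k (mkI k g) = g := rfl
@[simp] theorem mkI_fn {M : ModuleCat.{u} A} (g : IM k M) : mkI k (fn k g) = g := rfl

theorem IM_ext {M : ModuleCat.{u} A} {g g' : IM k M} (h : ∀ b, fn k g b = fn k g' b) : g = g' :=
  LinearMap.ext h

@[simp] theorem fn_add {M : ModuleCat.{u} A} (g g' : IM k M) (b : A) :
    fn k (g + g') b = fn k g b + fn k g' b := rfl
@[simp] theorem fn_sub {M : ModuleCat.{u} A} (g g' : IM k M) (b : A) :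
    fn k (g - g') b = fn k g b - fn k g' b := rfl
@[simp] theorem fn_zero {M : ModuleCat.{u} A} (b : A) : fn k (0 : IM k M) b = 0 := rfl
@[simp] theorem fn_neg {M : ModuleCat.{u} A} (g : IM k M) (b : A) : fn k (-g) b = -fn k g b := rfl
@[simp] theorem fn_smul {M : ModuleCat.{u} A} (a : A) (g : IM k M) (b : A) :
    fn k (a • g) b = fn k g (b * a) := rfl
@[simp] theorem fn_ksmul {M : ModuleCat.{u} A} (c : k) (g : IM k M) (b : A) :
    fn k (c • g) b = c • fn k g b := by
  change fn k (algebraMap k A c • g) b = _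
  rw [fn_smul, ← Algebra.commutes, ← Algebra.smul_def, map_smul]

/-- A `k`-linear map `g : M → N` induces an `A`-linear map `I M → I N`. -/
noncomputable def Imap {M N : ModuleCat.{u} A} (g : M →ₗ[k] N) : IM k M →ₗ[k] IM k N where
  toFun x := mkI k (g ∘ₗ fn k x)
  map_add' x y := IM_ext k fun b => by simp
  map_smul' c x := IM_ext k fun b => by simp

@[simp] theorem fn_Imap {M N : ModuleCat.{u} A} (g : M →ₗ[k] N) (x : IM k M) (b : A) :
    fn k (Imap k g x) b = g (fn k x b) := rfl

/-- `Imap` as a morphism of `A`-modules. -/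
noncomputable def ImapA {M N : ModuleCat.{u} A} (g : M →ₗ[k] N) : IM k M ⟶ IM k N :=
  ModuleCat.ofHom
    { toFun := fun x => Imap k g x
      map_add' := fun x y => map_add (Imap k g) x y
      map_smul' := fun a x => IM_ext k fun b => rfl }

/-- The `k`-linear map underlying a morphism. -/
noncomputable abbrev kl {M N : ModuleCat.{u} A} (f : M ⟶ N) : M →ₗ[k] N := f.hom.restrictScalars k

theorem kl_ImapA {M N : ModuleCat.{u} A} (g : M →ₗ[k] N) : kl k (ImapA k g) = Imap k g := rfl

/-- The morphism `M → I M`, `m ↦ (b ↦ b • m)`. -/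
noncomputable def emb (M : ModuleCat.{u} A) : M ⟶ IM k M :=
  ModuleCat.ofHom
    { toFun := fun m => mkI k ((LinearMap.toSpanSingleton A M m).restrictScalars k)
      map_add' := fun m m' => IM_ext k fun b => smul_add b m m'
      map_smul' := fun a m => IM_ext k fun b => smul_smul b a m }

@[simp] theorem fn_emb (M : ModuleCat.{u} A) (m : M) (b : A) :
    fn k ((emb k M).hom m) b = b • m := rfl

theorem emb_injective (M : ModuleCat.{u} A) : Function.Injective (emb k M).hom := by
  intro m m' h
  have := congrArg (fun g => fn k g 1) h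
  simpa using this

/-- For a `k`-linear map `r : M → N`, the morphism `M → I N`, `m ↦ (b ↦ r (b • m))`. -/
noncomputable def rho {M N : ModuleCat.{u} A} (r : M →ₗ[k] N) : M ⟶ IM k N :=
  emb k M ≫ ImapA k r

@[simp] theorem fn_rho {M N : ModuleCat.{u} A} (r : M →ₗ[k] N) (m : M) (b : A) :
    fn k ((rho k r).hom m) b = r (b • m) := rfl

/-- The cochains of degree `n`. -/
noncomputable def Cn : ℕ → ModuleCat.{u} A → ModuleCat.{u} A
  | 0, M => M
  | n + 1, M => Cn n (IM k M)

/-- Functoriality of the cochains for `k`-linear maps. -/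
noncomputable def Cmap : (n : ℕ) → {M N : ModuleCat.{u} A} → (M →ₗ[k] N) →
    (Cn k n M →ₗ[k] Cn k n N)
  | 0, _, _, g => g
  | n + 1, _, _, g => Cmap n (Imap k g)

theorem Cmap_comp : (n : ℕ) → {M N P : ModuleCat.{u} A} → (g : M →ₗ[k] N) → (h : N →ₗ[k] P) →
    Cmap k n (h ∘ₗ g) = Cmap k n h ∘ₗ Cmap k n g
  | 0, _, _, _, _, _ => rfl
  | n + 1, _, _, _, g, h => by
    change Cmap k n (Imap k (h ∘ₗ g)) = Cmap k n (Imap k h) ∘ₗ Cmap k n (Imap k g)
    rw [← Cmap_comp]
    rfl

theorem Cmap_id : (n : ℕ) → (M : ModuleCat.{u} A) →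
    Cmap k n (LinearMap.id : M →ₗ[k] M) = LinearMap.id
  | 0, _ => rfl
  | n + 1, M => by
    change Cmap k n (Imap k (LinearMap.id : M →ₗ[k] M)) = LinearMap.id
    exact Cmap_id n (IM k M)

theorem Cmap_add : (n : ℕ) → {M N : ModuleCat.{u} A} → (g h : M →ₗ[k] N) →
    Cmap k n (g + h) = Cmap k n g + Cmap k n h
  | 0, _, _, _, _ => rfl
  | n + 1, _, _, g, h => by
    change Cmap k n (Imap k (g + h)) = Cmap k n (Imap k g) + Cmap k n (Imap k h)
    rw [← Cmap_add]
    rfl

theorem Cmap_zero : (n : ℕ) → {M N : ModuleCat.{u} A} →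
    Cmap k n (0 : M →ₗ[k] N) = 0
  | 0, _, _ => rfl
  | n + 1, M, N => by
    change Cmap k n (Imap k (0 : M →ₗ[k] N)) = 0
    exact Cmap_zero n (M := IM k M) (N := IM k N)

theorem Cmap_injective (n : ℕ) {M N : ModuleCat.{u} A} (g : M →ₗ[k] N)
    (hg : Function.Injective g) : Function.Injective (Cmap k n g) := by
  obtain ⟨r, hr⟩ := LinearMap.exists_leftInverse_of_injective g (LinearMap.ker_eq_bot.2 hg)
  have h : Cmap k n r ∘ₗ Cmap k n g = LinearMap.id := by rw [← Cmap_comp, hr, Cmap_id]
  exact Function.LeftInverse.injective (g := Cmap k n r) fun x => congr($h x)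

theorem Cmap_surjective (n : ℕ) {M N : ModuleCat.{u} A} (g : M →ₗ[k] N)
    (hg : Function.Surjective g) : Function.Surjective (Cmap k n g) := by
  obtain ⟨r, hr⟩ := LinearMap.exists_rightInverse_of_surjective g (LinearMap.range_eq_top.2 hg)
  have h : Cmap k n g ∘ₗ Cmap k n r = LinearMap.id := by rw [← Cmap_comp, hr, Cmap_id]
  exact Function.RightInverse.surjective (g := Cmap k n r) fun x => congr($h x)

theorem Imap_exact {M N P : ModuleCat.{u} A} (g : M →ₗ[k] N) (h : N →ₗ[k] P)
    (hgh : Function.Exact g h) : Function.Exact (Imap k g) (Imap k h) := by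
  intro x
  constructor
  · intro hx
    have h1 : ∀ a, fn k x a ∈ LinearMap.range g := fun a =>
      (hgh _).1 (by
        have := congrArg (fun y => fn k y a) hx
        exact this)
    obtain ⟨r, hr⟩ := LinearMap.exists_rightInverse_of_surjective g.rangeRestrict
      g.range_rangeRestrict
    refine ⟨mkI k (r ∘ₗ (LinearMap.codRestrict _ (fn k x) h1)), ?_⟩
    refine IM_ext k fun a => ?_
    rw [fn_Imap, fn_mkI, LinearMap.comp_apply]
    have h2 := congr($hr ((LinearMap.codRestrict _ (fn k x) h1) a))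
    exact congrArg Subtype.val h2
  · rintro ⟨y, rfl⟩
    refine IM_ext k fun a => ?_
    rw [fn_Imap, fn_Imap]
    exact (hgh _).2 ⟨_, rfl⟩

/-- Exactness of the cochains. -/
theorem Cmap_exact : (n : ℕ) → {M N P : ModuleCat.{u} A} → (g : M →ₗ[k] N) → (h : N →ₗ[k] P) →
    Function.Exact g h → Function.Exact (Cmap k n g) (Cmap k n h)
  | 0, _, _, _, _, _, hgh => hgh
  | n + 1, _, _, _, g, h, hgh => Cmap_exact n (Imap k g) (Imap k h) (Imap_exact k g h hgh)

end

section

variable (k : Type u) [Field k] {A : Type u} [Ring A] [Bialgebra k A]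

/-- The map `m ↦ (b ↦ ε(b) m)`. -/
noncomputable def epsI (M : ModuleCat.{u} A) : M →ₗ[k] IM k M where
  toFun m := mkI k ((Coalgebra.counit (R := k) (A := A)).smulRight m)
  map_add' m m' := IM_ext k fun b => smul_add _ m m'
  map_smul' c m := IM_ext k fun b => by
    rw [RingHom.id_apply, fn_ksmul]
    exact smul_comm _ c m

@[simp] theorem fn_epsI (M : ModuleCat.{u} A) (m : M) (b : A) :
    fn k (epsI k M m) b = Coalgebra.counit (R := k) b • m := rfl

/-- Reinterpretation of a map between cochains of `I M` as a map between cochains of `M`. -/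
def shL {n m : ℕ} {M : ModuleCat.{u} A} (f : Cn k n (IM k M) →ₗ[k] Cn k m (IM k M)) :
    Cn k (n + 1) M →ₗ[k] Cn k (m + 1) M := f

theorem shL_apply {n m : ℕ} {M : ModuleCat.{u} A} (f : Cn k n (IM k M) →ₗ[k] Cn k m (IM k M))
    (z : Cn k (n + 1) M) : shL k f z = f z := rfl

/-- The map on cochains induced by `emb`. -/
noncomputable def embC (n : ℕ) (M : ModuleCat.{u} A) : Cn k n M →ₗ[k] Cn k (n + 1) M :=
  Cmap k n (kl k (emb k M))

theorem embC_eq (n : ℕ) (M : ModuleCat.{u} A) (z : Cn k n M) :
    embC k n M z = Cmap k n (kl k (emb k M)) z := rfl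

/-- The differential. -/
noncomputable def dC : (n : ℕ) → (M : ModuleCat.{u} A) → (Cn k n M →ₗ[k] Cn k (n + 1) M)
  | 0, M => kl k (emb k M) - epsI k M
  | n + 1, M => embC k (n + 1) M - shL k (dC n (IM k M))

theorem dC_zero (M : ModuleCat.{u} A) (m : M) :
    (dC k 0 M : M →ₗ[k] IM k M) m = (emb k M).hom m - epsI k M m := rfl

theorem dC_succ (n : ℕ) (M : ModuleCat.{u} A) (z : Cn k (n + 1) M) :
    dC k (n + 1) M z = embC k (n + 1) M z - shL k (dC k n (IM k M)) z := rfl

/-- The differential commutes with morphisms of `A`-modules. -/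
theorem dC_nat : (n : ℕ) → {M N : ModuleCat.{u} A} → (f : M ⟶ N) → (z : Cn k n M) →
    dC k n N (Cmap k n (kl k f) z) = Cmap k (n + 1) (kl k f) (dC k n M z)
  | 0, M, N, f, m => by
    refine IM_ext k fun b => ?_
    have h : ∀ m : M, b • f.hom m - Coalgebra.counit (R := k) b • f.hom m =
      f.hom (b • m - Coalgebra.counit (R := k) b • m) := by
      intro m
      rw [map_sub, map_smul]
      congr 1
      exact ((kl k f).map_smul _ m).symm
    exact h m
  | n + 1, M, N, f, z => by
    have e1 := dC_nat n (ImapA k (kl k f)) z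
    have h2 : (Cmap k (n + 1) (kl k (emb k N))) ∘ₗ Cmap k (n + 1) (kl k f) =
        Cmap k (n + 1) (Imap k (kl k f)) ∘ₗ Cmap k (n + 1) (kl k (emb k M)) := by
      rw [← Cmap_comp, ← Cmap_comp]
      congr 1
      refine LinearMap.ext fun m => IM_ext k fun b => ?_
      change b • f.hom m = f.hom (b • m)
      rw [map_smul]
    have e2 := congr($h2 z)
    rw [LinearMap.comp_apply, LinearMap.comp_apply] at e2
    rw [dC_succ, dC_succ, map_sub]
    exact congrArg₂ (fun x y : Cn k (n + 2) N => x - y) e2 e1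

end

end Pool.Agent.Helper90.FC
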