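import Mathlib

/-!
# Project FC, piece DUA: the dual bialgebra of a finite-dimensional bialgebra

`HD k A = WithConv (A → k)` with the convolution product (Mathlib); the comultiplication is dual to
the product of `A`: `∑ a₁(b) a₂(b') = a(b b')`, the counit is `a ↦ a(1)`.

Construction: for finite-dimensional `A` the map `HD ⊗ HD → Dual (A ⊗ A)`,
`f ⊗ g ↦ (b ⊗ b' ↦ f b * g b')` is bijective (`TensorProduct.dualDistribEquiv`); coassociativity and
the compatibilities are checked by evaluating on elements of `A` (the evaluation maps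
`HD ⊗ HD ⊗ HD → k` at `b, b', b''` separate points).
-/

set_option linter.unusedSectionVars false
set_option autoImplicit false

open scoped TensorProduct

namespace Pool.Agent.Helper90.FC

universe u

section

variable (k : Type u) [Field k] (A : Type u) [Ring A] [Bialgebra k A]

/-- The dual of `A`, with the convolution product. -/
abbrev HD := WithConv (A →ₗ[k] k)

variable {A}

/-- Evaluation at `b`. -/
def evA (b : A) : HD k A →ₗ[k] k where
  toFun a := a.ofConv b
  map_add' _ _ := rfl
  map_smul' _ _ := rfl

/-- Evaluation of a tensor at a pair: `f ⊗ g ↦ f b * g b'`. -/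
noncomputable def evAA (b b' : A) : HD k A ⊗[k] HD k A →ₗ[k] k :=
  LinearMap.mul' k k ∘ₗ TensorProduct.map (evA k b) (evA k b')

theorem evAA_tmul (b b' : A) (f g : HD k A) :
    evAA k b b' (f ⊗ₜ g) = f.ofConv b * g.ofConv b' := rfl

theorem DualB_ev_ext {f g : HD k A} (h : ∀ b : A, f.ofConv b = g.ofConv b) : f = g :=
  WithConv.ext (LinearMap.ext h)

/-- Evaluation in the first factor. -/
noncomputable def DualB_sl {M : Type u} [AddCommGroup M] [Module k M] (b : A) :
    HD k A ⊗[k] M →ₗ[k] M :=
  (TensorProduct.lid k M).toLinearMap ∘ₗ (evA k b).rTensor M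

theorem DualB_sl_tmul {M : Type u} [AddCommGroup M] [Module k M] (b : A) (f : HD k A) (m : M) :
    DualB_sl k b (f ⊗ₜ[k] m) = f.ofConv b • m := rfl

/-- A basis of the dual. -/
private noncomputable def DualB_ep [Module.Finite k A] (i : Module.Free.ChooseBasisIndex k A) :
    HD k A := WithConv.toConv ((Module.Free.chooseBasis k A).coord i)

private theorem DualB_sum [Module.Finite k A] (x : A) :
    ∑ i, (DualB_ep k (A := A) i).ofConv x • Module.Free.chooseBasis k A i = x :=
  (Module.Free.chooseBasis k A).sum_repr x

private theorem DualB_expand [Module.Finite k A] (f : HD k A) :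
    ∑ i, f.ofConv (Module.Free.chooseBasis k A i) • DualB_ep k (A := A) i = f := by
  apply DualB_ev_ext
  intro b
  have h1 : (∑ i, f.ofConv (Module.Free.chooseBasis k A i) • DualB_ep k (A := A) i).ofConv b =
      ∑ i, f.ofConv (Module.Free.chooseBasis k A i) * (DualB_ep k (A := A) i).ofConv b := by
    have h2 := map_sum (evA k b)
      (fun i => f.ofConv (Module.Free.chooseBasis k A i) • DualB_ep k (A := A) i) Finset.univ
    exact h2
  rw [h1]
  conv_rhs => rw [← DualB_sum k b, map_sum]
  refine Finset.sum_congr rfl fun i _ => ?_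
  rw [map_smul, smul_eq_mul, mul_comm]

theorem DualB_sl_ext [Module.Finite k A] {M : Type u} [AddCommGroup M] [Module k M]
    (t t' : HD k A ⊗[k] M) (h : ∀ b : A, DualB_sl k b t = DualB_sl k b t') : t = t' := by
  have h1 : ∀ t : HD k A ⊗[k] M, ∑ i, DualB_ep k (A := A) i ⊗ₜ[k]
      DualB_sl k (Module.Free.chooseBasis k A i) t = t := by
    intro t
    induction t with
    | zero => simp
    | tmul f m =>
      have h2 : ∀ i, DualB_ep k (A := A) i ⊗ₜ[k]
          DualB_sl k (Module.Free.chooseBasis k A i) (f ⊗ₜ[k] m) =
          (f.ofConv (Module.Free.chooseBasis k A i) • DualB_ep k (A := A) i) ⊗ₜ[k] m := by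
        intro i
        rw [DualB_sl_tmul, TensorProduct.tmul_smul, TensorProduct.smul_tmul']
      simp only [h2]
      rw [← TensorProduct.sum_tmul, DualB_expand]
    | add x y hx hy =>
      simp only [map_add, TensorProduct.tmul_add, Finset.sum_add_distrib, hx, hy]
  rw [← h1 t, ← h1 t']
  exact Finset.sum_congr rfl fun i _ => by rw [h]

theorem DualB_evA_sl (b b' : A) (t : HD k A ⊗[k] HD k A) :
    (DualB_sl k b t).ofConv b' = evAA k b b' t := by
  have h : evA k b' ∘ₗ DualB_sl k b = evAA k b b' :=
    TensorProduct.ext' fun f g => rfl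
  exact LinearMap.congr_fun h t

/-- The evaluations separate points. -/
theorem evAA_ext [Module.Finite k A] (t t' : HD k A ⊗[k] HD k A)
    (h : ∀ b b', evAA k b b' t = evAA k b b' t') : t = t' := by
  refine DualB_sl_ext k t t' fun b => DualB_ev_ext k fun b' => ?_
  rw [DualB_evA_sl, DualB_evA_sl, h]

/-- The comultiplication exists. -/
theorem exists_comulD [Module.Finite k A] :
    ∃ δ : HD k A →ₗ[k] HD k A ⊗[k] HD k A, ∀ (a : HD k A) (b b' : A),
      evAA k b b' (δ a) = a.ofConv (b * b') := by
  refine ⟨∑ i, ∑ j, (evA k (Module.Free.chooseBasis k A i *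
    Module.Free.chooseBasis k A j)).smulRight (DualB_ep k i ⊗ₜ[k] DualB_ep k j),
    fun a b b' => ?_⟩
  rw [LinearMap.sum_apply, map_sum]
  simp only [LinearMap.sum_apply, map_sum, LinearMap.smulRight_apply, map_smul, evAA_tmul]
  conv_rhs => rw [← DualB_sum k b, ← DualB_sum k b', Finset.sum_mul_sum, map_sum]
  refine Finset.sum_congr rfl fun i _ => ?_
  rw [map_sum]
  refine Finset.sum_congr rfl fun j _ => ?_
  rw [smul_mul_smul_comm, map_smul, smul_eq_mul, smul_eq_mul, mul_comm]
  rfl

private theorem DualB_ev3 (b b' b'' : A) (t : HD k A ⊗[k] HD k A) (g : HD k A) :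
    evAA k b' b'' (DualB_sl k b (TensorProduct.assoc k _ _ _ (t ⊗ₜ[k] g))) =
      evAA k b b' t * g.ofConv b'' := by
  induction t with
  | zero => simp
  | tmul f f' =>
    rw [TensorProduct.assoc_tmul, DualB_sl_tmul, map_smul, evAA_tmul, evAA_tmul, smul_eq_mul,
      mul_assoc]
  | add x y hx hy => rw [TensorProduct.add_tmul, map_add, map_add, map_add, hx, hy, map_add, add_mul]

/-- The coalgebra structure on the dual. -/
noncomputable instance coalgD [Module.Finite k A] : Coalgebra k (HD k A) where
  comul := (exists_comulD k (A := A)).choose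
  counit := evA k 1
  coassoc := by
    set δ := (exists_comulD k (A := A)).choose with hδ
    have hs : ∀ (a : HD k A) (b b' : A), evAA k b b' (δ a) = a.ofConv (b * b') :=
      (exists_comulD k (A := A)).choose_spec
    have h1 : ∀ (b b' b'' : A) (t : HD k A ⊗[k] HD k A),
        evAA k b' b'' (DualB_sl k b (TensorProduct.assoc k _ _ _ (δ.rTensor (HD k A) t))) =
          evAA k (b * b') b'' t := by
      intro b b' b'' t
      induction t with
      | zero => simp
      | tmul f g => rw [LinearMap.rTensor_tmul, DualB_ev3, hs, evAA_tmul]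
      | add x y hx hy => simp only [map_add, hx, hy]
    have h2 : ∀ (b b' b'' : A) (t : HD k A ⊗[k] HD k A),
        evAA k b' b'' (DualB_sl k b (δ.lTensor (HD k A) t)) = evAA k b (b' * b'') t := by
      intro b b' b'' t
      induction t with
      | zero => simp
      | tmul f g =>
        rw [LinearMap.lTensor_tmul, DualB_sl_tmul, map_smul, hs, evAA_tmul, smul_eq_mul]
      | add x y hx hy => simp only [map_add, hx, hy]
    refine LinearMap.ext fun a => DualB_sl_ext k _ _ fun b => evAA_ext k _ _ fun b' b'' => ?_
    have h3 := h1 b b' b'' (δ a)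
    have h4 := h2 b b' b'' (δ a)
    rw [hs] at h3 h4
    rw [mul_assoc] at h3
    exact h3.trans h4.symm
  rTensor_counit_comp_comul := by
    set δ := (exists_comulD k (A := A)).choose with hδ
    have hs : ∀ (a : HD k A) (b b' : A), evAA k b b' (δ a) = a.ofConv (b * b') :=
      (exists_comulD k (A := A)).choose_spec
    refine LinearMap.ext fun a => ?_
    apply (TensorProduct.lid k (HD k A)).injective
    apply DualB_ev_ext
    intro b
    have h1 := DualB_evA_sl k 1 b (δ a)
    rw [hs, one_mul] at h1
    have h2 : (TensorProduct.lid k (HD k A)) (TensorProduct.mk k k (HD k A) 1 a) = a := by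
      simp
    rw [h2, ← h1]
    rfl
  lTensor_counit_comp_comul := by
    set δ := (exists_comulD k (A := A)).choose with hδ
    have hs : ∀ (a : HD k A) (b b' : A), evAA k b b' (δ a) = a.ofConv (b * b') :=
      (exists_comulD k (A := A)).choose_spec
    refine LinearMap.ext fun a => ?_
    apply (TensorProduct.rid k (HD k A)).injective
    apply DualB_ev_ext
    intro b
    have h2 : (TensorProduct.rid k (HD k A)) ((TensorProduct.mk k (HD k A) k).flip 1 a) = a := by
      simp
    rw [h2]
    have h3 : ∀ t : HD k A ⊗[k] HD k A,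
        ((TensorProduct.rid k (HD k A)) ((evA k 1).lTensor (HD k A) t)).ofConv b =
          evAA k b 1 t := by
      intro t
      induction t with
      | zero => simp
      | tmul f g =>
        rw [LinearMap.lTensor_tmul, TensorProduct.rid_tmul, evAA_tmul, WithConv.ofConv_smul,
          LinearMap.smul_apply, smul_eq_mul, mul_comm]
        rfl
      | add x y hx hy =>
        rw [map_add, map_add, WithConv.ofConv_add, LinearMap.add_apply, hx, hy, map_add]
    have h4 := h3 (δ a)
    rw [hs, mul_one] at h4
    exact h4

theorem comulD_spec [Module.Finite k A] (a : HD k A) (b b' : A) :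
    evAA k b b' (Coalgebra.comul (R := k) a) = a.ofConv (b * b') :=
  (exists_comulD k (A := A)).choose_spec a b b'

theorem counitD_spec [Module.Finite k A] (a : HD k A) :
    Coalgebra.counit (R := k) a = a.ofConv 1 := rfl

theorem DualB_one (b : A) : (1 : HD k A).ofConv b = Coalgebra.counit (R := k) b := rfl

theorem DualB_mul (a a' : HD k A) (b : A) :
    (a * a').ofConv b = LinearMap.mul' k k (TensorProduct.map a.ofConv a'.ofConv
      (Coalgebra.comul (R := k) b)) := rfl

theorem DualB_evAA_mul {ι κ : Type*} {x y : A} (X : Coalgebra.Repr k x ι)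
    (Y : Coalgebra.Repr k y κ) (t t' : HD k A ⊗[k] HD k A) :
    evAA k x y (t * t') = ∑ i ∈ X.index, ∑ j ∈ Y.index,
      evAA k (X.left i) (Y.left j) t * evAA k (X.right i) (Y.right j) t' := by
  have hm : ∀ t t' : HD k A ⊗[k] HD k A, t * t' = Algebra.TensorProduct.mul (R := k) t t' :=
    fun _ _ => rfl
  induction t with
  | zero =>
    rw [hm, map_zero, LinearMap.zero_apply]
    simp
  | tmul f g =>
    induction t' with
    | zero =>
      rw [hm, map_zero]
      simp
    | tmul f' g' =>
      rw [Algebra.TensorProduct.tmul_mul_tmul, evAA_tmul]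
      have h1 := X.convMul_apply f f'
      have h2 := Y.convMul_apply g g'
      have h3 : (f * f').ofConv x * (g * g').ofConv y =
          (∑ i ∈ X.index, f.ofConv (X.left i) * f'.ofConv (X.right i)) *
            ∑ j ∈ Y.index, g.ofConv (Y.left j) * g'.ofConv (Y.right j) :=
        congrArg₂ (· * ·) h1 h2
      rw [h3, Finset.sum_mul_sum]
      refine Finset.sum_congr rfl fun i _ => Finset.sum_congr rfl fun j _ => ?_
      rw [evAA_tmul, evAA_tmul]
      ring
    | add u v hu hv =>
      rw [hm] at hu hv ⊢
      rw [map_add, map_add, hu, hv]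
      simp only [map_add, mul_add, Finset.sum_add_distrib]
  | add u v hu hv =>
    rw [hm] at hu hv ⊢
    rw [map_add, LinearMap.add_apply, map_add, hu, hv]
    simp only [map_add, add_mul, Finset.sum_add_distrib]

/-- The bialgebra structure on the dual. -/
noncomputable instance bialgD [Module.Finite k A] : Bialgebra k (HD k A) :=
  Bialgebra.mk' k (HD k A)
    (by
      change (1 : HD k A).ofConv 1 = 1
      rw [DualB_one, Bialgebra.counit_one])
    (by
      intro a b
      change (a * b).ofConv 1 = a.ofConv 1 * b.ofConv 1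
      rw [DualB_mul, Bialgebra.comul_one, Algebra.TensorProduct.one_def,
        TensorProduct.map_tmul, LinearMap.mul'_apply])
    (by
      apply evAA_ext
      intro b b'
      have h1 := comulD_spec k (1 : HD k A) b b'
      rw [DualB_one, Bialgebra.counit_mul] at h1
      exact h1)
    (by
      intro a b
      apply evAA_ext
      intro x y
      have h1 := comulD_spec k (a * b) x y
      have X := Coalgebra.Repr.arbitrary k x
      have Y := Coalgebra.Repr.arbitrary k y
      have h2 := DualB_evAA_mul k X Y (Coalgebra.comul (R := k) a) (Coalgebra.comul (R := k) b)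
      simp only [comulD_spec] at h2
      refine Eq.trans h1 (Eq.trans ?_ h2.symm)
      rw [DualB_mul, Bialgebra.comul_mul, ← X.eq, ← Y.eq, Finset.sum_mul_sum]
      simp only [Algebra.TensorProduct.tmul_mul_tmul, map_sum, TensorProduct.map_tmul,
        LinearMap.mul'_apply])

variable {k} {B : Type u} [Ring B] [Bialgebra k B]

private theorem DualB_mapev (Φ : HD k B →ₐ[k] HD k A) (f : A → B)
    (hΦ : ∀ (h : HD k B) (a : A), (Φ h).ofConv a = h.ofConv (f a)) (b b' : A)
    (t : HD k B ⊗[k] HD k B) :
    evAA k b b' (Algebra.TensorProduct.map Φ Φ t) = evAA k (f b) (f b') t := by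
  have hm : ∀ t : HD k B ⊗[k] HD k B, Algebra.TensorProduct.map Φ Φ t =
      TensorProduct.map Φ.toLinearMap Φ.toLinearMap t := fun _ => rfl
  induction t with
  | zero => rw [hm, map_zero, map_zero, map_zero]
  | tmul g g' =>
    rw [hm, TensorProduct.map_tmul, evAA_tmul, evAA_tmul]
    exact congrArg₂ (· * ·) (hΦ g b) (hΦ g' b')
  | add u v hu hv =>
    rw [hm] at hu hv ⊢
    rw [map_add, map_add, hu, hv, map_add]

/-- The dual of a homomorphism of bialgebras. -/
noncomputable def HDmap [Module.Finite k A] [Module.Finite k B] (f : A →ₐc[k] B) :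
    HD k B →ₐc[k] HD k A :=
  BialgHom.ofAlgHom
    (AlgHom.ofLinearMap
      { toFun := fun h => WithConv.toConv (h.ofConv ∘ₗ (f : A →ₗ[k] B))
        map_add' := fun _ _ => rfl
        map_smul' := fun _ _ => rfl }
      (by
        apply DualB_ev_ext
        intro a
        change (1 : HD k B).ofConv (f a) = (1 : HD k A).ofConv a
        rw [DualB_one, DualB_one, CoalgHomClass.counit_comp_apply])
      (by
        intro x y
        apply DualB_ev_ext
        intro a
        exact LinearMap.congr_fun
          (LinearMap.convMul_comp_coalgHom_distrib x y (f : A →ₗc[k] B)) a))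
    (by
      refine AlgHom.ext fun h => ?_
      change h.ofConv (f 1) = h.ofConv 1
      rw [map_one])
    (by
      refine AlgHom.ext fun h => ?_
      apply evAA_ext
      intro b b'
      have h1 := comulD_spec k h (f b) (f b')
      rw [← map_mul] at h1
      refine Eq.trans (DualB_mapev _ f (fun _ _ => rfl) b b' _) (Eq.trans h1 ?_)
      exact (comulD_spec k (WithConv.toConv (h.ofConv ∘ₗ (f : A →ₗ[k] B))) b b').symm)

theorem HDmap_apply [Module.Finite k A] [Module.Finite k B] (f : A →ₐc[k] B) (h : HD k B)
    (a : A) : (HDmap f h).ofConv a = h.ofConv (f a) := rfl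

end

end Pool.Agent.Helper90.FC
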