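import Pool.Agent.Helper90.FC.Defs
import Pool.Agent.Helper59.FG.ExtF

/-!
# Families of cohomology classes and eventual generation

`Fam k A ι` is a family of homogeneous elements `ζ_i` of `Ext^*(k, k)` of positive even degree.
`ζ.EvGen M`: in all large degrees, `Ext^n(k, M)` is the sum of the subspaces `ζ_i · Ext(k, M)`.
`FGE k A`: there is a finite family `ζ` with `ζ.EvGen M` for every finite-dimensional `M`.
-/

set_option linter.unusedSectionVars false
set_option autoImplicit false

open CategoryTheory CategoryTheory.Abelian CategoryTheory.Limits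
open scoped ModuleCat TensorProduct
open Pool.Agent.Helper59.FG

namespace Pool.Agent.Helper90.FC

universe u

/-- A family of homogeneous classes of positive even degree. -/
structure Fam (k : Type u) [Field k] (A : Type u) [Ring A] [Bialgebra k A] (ι : Type) where
  deg : ι → ℕ
  cls : ∀ i, Ext (trivObj k A) (trivObj k A) (deg i)
  pos : ∀ i, 0 < deg i
  even : ∀ i, Even (deg i)

namespace Fam

variable {k : Type u} [Field k] {A : Type u} [Ring A] [Bialgebra k A] {ι : Type}

/-- The subspace `∑ ζ_i · Ext^{n - d_i}(k, M)` of `Ext^n(k, M)`. -/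
noncomputable def gen (ζ : Fam k A ι) (M : ModuleCat.{u} A) (n : ℕ) :
    Submodule k (Ext (trivObj k A) M n) :=
  ⨆ (i : ι) (m : ℕ) (h : ζ.deg i + m = n), LinearMap.range ((ζ.cls i).precompOfLinear k M h)

/-- Eventual generation. -/
def EvGen (ζ : Fam k A ι) (M : ModuleCat.{u} A) : Prop :=
  ∃ N : ℕ, ∀ n, N ≤ n → ζ.gen M n = ⊤

/-- Add one class to a family. -/
noncomputable def cons (ζ : Fam k A ι) {d : ℕ} (η : Ext (trivObj k A) (trivObj k A) d)
    (hd : 0 < d) (he : Even d) : Fam k A (Option ι) where
  deg := fun i => i.elim d ζ.deg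
  cls := fun i => match i with
    | none => η
    | some i => ζ.cls i
  pos := fun i => match i with
    | none => hd
    | some i => ζ.pos i
  even := fun i => match i with
    | none => he
    | some i => ζ.even i

/-- The union of two families. -/
noncomputable def sum {ι' : Type} (ζ : Fam k A ι) (ζ' : Fam k A ι') : Fam k A (ι ⊕ ι') where
  deg := fun i => i.elim ζ.deg ζ'.deg
  cls := fun i => match i with
    | Sum.inl i => ζ.cls i
    | Sum.inr i => ζ'.cls i
  pos := fun i => match i with
    | Sum.inl i => ζ.pos i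
    | Sum.inr i => ζ'.pos i
  even := fun i => match i with
    | Sum.inl i => ζ.even i
    | Sum.inr i => ζ'.even i

/-- Subfamilies. -/
noncomputable def comap {ι' : Type} (ζ : Fam k A ι) (f : ι' → ι) : Fam k A ι' where
  deg := fun i => ζ.deg (f i)
  cls := fun i => ζ.cls (f i)
  pos := fun i => ζ.pos (f i)
  even := fun i => ζ.even (f i)

theorem mem_gen (ζ : Fam k A ι) {M : ModuleCat.{u} A} {n : ℕ} (i : ι) {m : ℕ}
    (h : ζ.deg i + m = n) (x : Ext (trivObj k A) M m) : (ζ.cls i).comp x h ∈ ζ.gen M n := by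
  refine Submodule.mem_iSup_of_mem i (Submodule.mem_iSup_of_mem m (Submodule.mem_iSup_of_mem h ?_))
  exact ⟨x, rfl⟩

/-- Induction principle for `gen`. -/
theorem gen_le_iff (ζ : Fam k A ι) {M : ModuleCat.{u} A} {n : ℕ}
    (W : Submodule k (Ext (trivObj k A) M n)) :
    ζ.gen M n ≤ W ↔ ∀ (i : ι) (m : ℕ) (h : ζ.deg i + m = n) (x : Ext (trivObj k A) M m),
      (ζ.cls i).comp x h ∈ W := by
  constructor
  · intro hW i m h x
    exact hW (ζ.mem_gen i h x)
  · intro H
    refine iSup_le fun i => iSup_le fun m => iSup_le fun h => ?_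
    rintro _ ⟨x, rfl⟩
    exact H i m h x

end Fam

/-- `FGC` in the form used in the proof. -/
def FGE (k : Type u) [Field k] (A : Type u) [Ring A] [Bialgebra k A] : Prop :=
  ∃ (r : ℕ) (ζ : Fam k A (Fin r)), ∀ M : ModuleCat.{u} A, Module.Finite A M → ζ.EvGen M

end Pool.Agent.Helper90.FC
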