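import Pool.Agent.Helper90.FC.Cls
import Pool.Agent.Helper90.FC.CobF
import Pool.Agent.Helper90.FC.DualB

/-!
# Project FC, pieces EVT: the tensor algebra of the dual acts on the cochains

`H = HD k A`, `T = TensorAlgebra k H`. For `a : H` the operator `ap n a : Cn n M → Cn (n+1) M` sends
`z` to `(b_1, …, b_{n+1}) ↦ a(b_{n+1}) z(b_1, …, b_n)`; it is defined by the same recursion as the
cochains. On the product `Tot M` of all `Cn n M` this gives a right action of `T`:
`rmul z (w w') = rmul (rmul z w) w'`.
-/

set_option linter.unusedSectionVars false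
set_option autoImplicit false

open CategoryTheory CategoryTheory.Abelian CategoryTheory.Limits
open scoped ModuleCat TensorProduct
open Pool.Agent.Helper59.FG

namespace Pool.Agent.Helper90.FC

universe u

section

variable (k : Type u) [Field k] {A : Type u} [Ring A] [Bialgebra k A]

/-- Append a linear form. -/
noncomputable def ap : (n : ℕ) → (M : ModuleCat.{u} A) → (a : HD k A) →
    (Cn k n M →ₗ[k] Cn k (n + 1) M)
  | 0, M, a =>
    { toFun := fun m => mkI k (a.ofConv.smulRight (show M from m))
      map_add' := fun m m' => IM_ext k fun b => smul_add (a.ofConv b) (show M from m)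
        (show M from m')
      map_smul' := fun c m => IM_ext k fun b => by
        rw [RingHom.id_apply]
        exact (smul_comm (a.ofConv b) c (show M from m)).trans
          (fn_ksmul k c (mkI k (a.ofConv.smulRight (show M from m))) b).symm }
  | n + 1, M, a => shL k (ap n (IM k M) a)

theorem ap_zero (M : ModuleCat.{u} A) (a : HD k A) (m : M) (b : A) :
    fn k (ap k 0 M a m : IM k M) b = a.ofConv b • m := rfl

theorem ap_succ (n : ℕ) (M : ModuleCat.{u} A) (a : HD k A) (z : Cn k (n + 1) M) :
    ap k (n + 1) M a z = shL k (ap k n (IM k M) a) z := rfl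

theorem ap_add (n : ℕ) (M : ModuleCat.{u} A) (a a' : HD k A) (z : Cn k n M) :
    ap k n M (a + a') z = ap k n M a z + ap k n M a' z := by
  induction n generalizing M with
  | zero =>
    refine IM_ext k fun b => ?_
    exact add_smul (a.ofConv b) (a'.ofConv b) (show M from z)
  | succ n ih => exact ih (IM k M) z

theorem ap_smul (n : ℕ) (M : ModuleCat.{u} A) (c : k) (a : HD k A) (z : Cn k n M) :
    ap k n M (c • a) z = c • ap k n M a z := by
  induction n generalizing M with
  | zero =>
    refine IM_ext k fun b => ?_
    exact (smul_assoc c (a.ofConv b) (show M from z)).trans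
      (fn_ksmul k c (show IM k M from ap k 0 M a z) b).symm
  | succ n ih => exact ih (IM k M) z

/-- Naturality in `M`, for `k`-linear maps. -/
theorem ap_nat (n : ℕ) {M N : ModuleCat.{u} A} (g : M →ₗ[k] N) (a : HD k A) (z : Cn k n M) :
    ap k n N a (Cmap k n g z) = Cmap k (n + 1) g (ap k n M a z) := by
  induction n generalizing M N with
  | zero =>
    refine IM_ext k fun b => ?_
    exact (g.map_smul (a.ofConv b) (show M from z)).symm
  | succ n ih => exact ih (Imap k g) z

/-- All cochains. -/
abbrev Tot (M : ModuleCat.{u} A) : Type u := ∀ n : ℕ, Cn k n M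

/-- The operator on all cochains given by `ap`. -/
noncomputable def AP (M : ModuleCat.{u} A) : HD k A →ₗ[k] Module.End k (Tot k M) where
  toFun a :=
    { toFun := fun z n => match n with
        | 0 => 0
        | n + 1 => ap k n M a (z n)
      map_add' := fun z z' => funext fun n => by
        cases n with
        | zero => exact (add_zero (0 : Cn k 0 M)).symm
        | succ n => exact map_add (ap k n M a) (z n) (z' n)
      map_smul' := fun c z => funext fun n => by
        cases n with
        | zero => exact (smul_zero c).symm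
        | succ n => exact (ap k n M a).map_smul c (z n) }
  map_add' a a' := LinearMap.ext fun z => funext fun n => by
    cases n with
    | zero => exact (add_zero (0 : Cn k 0 M)).symm
    | succ n => exact ap_add k n M a a' (z n)
  map_smul' c a := LinearMap.ext fun z => funext fun n => by
    cases n with
    | zero => exact (smul_zero c).symm
    | succ n => exact ap_smul k n M c a (z n)

theorem AP_zero (M : ModuleCat.{u} A) (a : HD k A) (z : Tot k M) : AP k M a z 0 = 0 := rfl

theorem AP_succ (M : ModuleCat.{u} A) (a : HD k A) (z : Tot k M) (n : ℕ) :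
    AP k M a z (n + 1) = ap k n M a (z n) := rfl

/-- The right action of the tensor algebra on the cochains. -/
noncomputable def ract (M : ModuleCat.{u} A) :
    TensorAlgebra k (HD k A) →ₐ[k] (Module.End k (Tot k M))ᵐᵒᵖ :=
  TensorAlgebra.lift k ((MulOpposite.opLinearEquiv k).toLinearMap ∘ₗ AP k M)

/-- `rmul z w = z · w`. -/
noncomputable def rmul {M : ModuleCat.{u} A} (z : Tot k M) (w : TensorAlgebra k (HD k A)) :
    Tot k M := (ract k M w).unop z

theorem rmul_io {M : ModuleCat.{u} A} (z : Tot k M) (a : HD k A) :
    rmul k z (TensorAlgebra.ι k a) = AP k M a z := by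
  simp [rmul, ract]

theorem rmul_mul {M : ModuleCat.{u} A} (z : Tot k M) (w w' : TensorAlgebra k (HD k A)) :
    rmul k z (w * w') = rmul k (rmul k z w) w' := by
  simp [rmul]

theorem rmul_one {M : ModuleCat.{u} A} (z : Tot k M) : rmul k z 1 = z := by
  simp [rmul]

theorem rmul_add {M : ModuleCat.{u} A} (z : Tot k M) (w w' : TensorAlgebra k (HD k A)) :
    rmul k z (w + w') = rmul k z w + rmul k z w' := by
  simp [rmul]

theorem rmul_smul {M : ModuleCat.{u} A} (z : Tot k M) (c : k) (w : TensorAlgebra k (HD k A)) :
    rmul k z (c • w) = c • rmul k z w := by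
  simp [rmul]

theorem add_rmul {M : ModuleCat.{u} A} (z z' : Tot k M) (w : TensorAlgebra k (HD k A)) :
    rmul k (z + z') w = rmul k z w + rmul k z' w := by
  simp [rmul]

theorem smul_rmul {M : ModuleCat.{u} A} (c : k) (z : Tot k M) (w : TensorAlgebra k (HD k A)) :
    rmul k (c • z) w = c • rmul k z w := by
  simp [rmul]

/-- The total differential. -/
noncomputable def DT (M : ModuleCat.{u} A) : Tot k M →ₗ[k] Tot k M where
  toFun z n := match n with
    | 0 => 0
    | n + 1 => dC k n M (z n)
  map_add' := fun z z' => funext fun n => by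
    cases n with
    | zero => exact (add_zero (0 : Cn k 0 M)).symm
    | succ n => exact map_add (dC k n M) (z n) (z' n)
  map_smul' := fun c z => funext fun n => by
    cases n with
    | zero => exact (smul_zero c).symm
    | succ n => exact (dC k n M).map_smul c (z n)

/-- The sign automorphism of the cochains. -/
noncomputable def sgT {M : ModuleCat.{u} A} (z : Tot k M) : Tot k M := fun n => ((-1 : k) ^ n) • z n

private theorem e_dC1 (M : ModuleCat.{u} A) (g : Cn k 1 M) (b c : A) :
    fn k (fn k (dC k 1 M g : IM k (IM k M)) b) c =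
      c • fn k (show IM k M from g) b - (fn k (show IM k M from g) (c * b) -
        Coalgebra.counit (R := k) b • fn k (show IM k M from g) c) := by
  have h : fn k (Coalgebra.counit (R := k) b • (show IM k M from g)) c =
      Coalgebra.counit (R := k) b • fn k (show IM k M from g) c := fn_ksmul k _ _ _
  rw [← h]
  rfl

private theorem e_ap1 (M : ModuleCat.{u} A) (a : HD k A) (g : Cn k 1 M) (b c : A) :
    fn k (fn k (ap k 1 M a g : IM k (IM k M)) b) c =
      a.ofConv b • fn k (show IM k M from g) c :=
  fn_ksmul k (a.ofConv b) (show IM k M from g) c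

/-- Double evaluation. -/
private noncomputable def ev2 (M : ModuleCat.{u} A) (b c : A) : Cn k 2 M →+ M where
  toFun z := fn k (fn k (show IM k (IM k M) from z) b) c
  map_zero' := rfl
  map_add' _ _ := rfl

private theorem ext2 (M : ModuleCat.{u} A) {z z' : Cn k 2 M}
    (h : ∀ b c, ev2 k M b c z = ev2 k M b c z') : z = z' :=
  IM_ext k fun b => IM_ext k fun c => h b c

private theorem leib_base {ι : Type*} (s : Finset ι) (x y : ι → HD k A) (a : HD k A)
    (h : ∀ b c : A, ∑ i ∈ s, (x i).ofConv c * (y i).ofConv b = a.ofConv (c * b))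
    (M : ModuleCat.{u} A) (m : Cn k 0 M) :
    dC k 1 M (ap k 0 M a m) = ap k 1 M a (dC k 0 M m) + (ap k 1 M a (ap k 0 M 1 m) +
      ap k 1 M 1 (ap k 0 M a m) - ∑ i ∈ s, ap k 1 M (y i) (ap k 0 M (x i) m)) := by
  refine ext2 k M fun b c => ?_
  rw [map_add, map_sub, map_add, map_sum]
  have e1 : ev2 k M b c (dC k 1 M (ap k 0 M a m)) = c • a.ofConv b • (show M from m) -
      (a.ofConv (c * b) • (show M from m) -
        Coalgebra.counit (R := k) b • a.ofConv c • (show M from m)) := e_dC1 k M (ap k 0 M a m) b c
  have e2 : ev2 k M b c (ap k 1 M a (dC k 0 M m)) = a.ofConv b • (c • (show M from m) -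
      Coalgebra.counit (R := k) c • (show M from m)) := e_ap1 k M a (dC k 0 M m) b c
  have e3 : ev2 k M b c (ap k 1 M a (ap k 0 M 1 m)) =
      a.ofConv b • Coalgebra.counit (R := k) c • (show M from m) :=
    (e_ap1 k M a (ap k 0 M 1 m) b c).trans rfl
  have e4 : ev2 k M b c (ap k 1 M 1 (ap k 0 M a m)) =
      Coalgebra.counit (R := k) b • a.ofConv c • (show M from m) :=
    (e_ap1 k M 1 (ap k 0 M a m) b c).trans rfl
  have e5 : ∀ i, ev2 k M b c (ap k 1 M (y i) (ap k 0 M (x i) m)) =
      ((x i).ofConv c * (y i).ofConv b) • (show M from m) := fun i => by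
    have h5 : ev2 k M b c (ap k 1 M (y i) (ap k 0 M (x i) m)) =
      (y i).ofConv b • (x i).ofConv c • (show M from m) := e_ap1 k M (y i) (ap k 0 M (x i) m) b c
    rw [h5, smul_smul, mul_comm]
  rw [e1, e2, e3, e4, Finset.sum_congr rfl fun i _ => e5 i, ← Finset.sum_smul, h, smul_sub,
    smul_comm c]
  abel

private theorem leib_ap {ι : Type*} (s : Finset ι) (x y : ι → HD k A) (a : HD k A)
    (h : ∀ b c : A, ∑ i ∈ s, (x i).ofConv c * (y i).ofConv b = a.ofConv (c * b)) (n : ℕ)
    (M : ModuleCat.{u} A) (z : Cn k n M) :
    dC k (n + 1) M (ap k n M a z) = ap k (n + 1) M a (dC k n M z) +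
      ((-1 : k) ^ n) • (ap k (n + 1) M a (ap k n M 1 z) + ap k (n + 1) M 1 (ap k n M a z) -
        ∑ i ∈ s, ap k (n + 1) M (y i) (ap k n M (x i) z)) := by
  induction n generalizing M with
  | zero =>
    rw [pow_zero, one_smul]
    exact leib_base k s x y a h M z
  | succ n ih =>
    have h1 : embC k (n + 2) M (ap k (n + 1) M a z) =
        ap k (n + 2) M a (embC k (n + 1) M z) :=
      (ap_nat k (n + 1) (kl k (emb k M)) a z).symm
    have h2 := ih (IM k M) z
    rw [dC_succ, dC_succ, map_sub, h1, pow_succ, mul_neg_one, neg_smul]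
    have h3 : shL k (dC k (n + 1) (IM k M)) (ap k (n + 1) M a z) =
        ap k (n + 2) M a (shL k (dC k n (IM k M)) z) + ((-1 : k) ^ n) •
          (ap k (n + 2) M a (ap k (n + 1) M 1 z) + ap k (n + 2) M 1 (ap k (n + 1) M a z) -
        ∑ i ∈ s, ap k (n + 2) M (y i) (ap k (n + 1) M (x i) z)) := h2
    rw [h3]
    abel

private theorem dd_one' [Module.Finite k A] : dd k (HD k A) 1 = 0 := by
  have h := dd_mul k (HD k A) 1 1
  rw [map_one, one_mul, mul_one] at h
  simpa using h

/-- `rmul` as a linear map of the second argument. -/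
private noncomputable def rmulL {M : ModuleCat.{u} A} (z : Tot k M) :
    TensorAlgebra k (HD k A) →ₗ[k] Tot k M where
  toFun w := rmul k z w
  map_add' w w' := rmul_add k z w w'
  map_smul' c w := rmul_smul k z c w

private theorem sgT_AP {M : ModuleCat.{u} A} (z : Tot k M) (a : HD k A) :
    sgT k (AP k M a z) = -AP k M a (sgT k z) := by
  funext n
  cases n with
  | zero => exact (smul_zero _).trans neg_zero.symm
  | succ n =>
    change ((-1 : k) ^ (n + 1)) • ap k n M a (z n) = -ap k n M a (((-1 : k) ^ n) • z n)
    rw [map_smul, pow_succ, mul_neg_one, neg_smul]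

private theorem sgT_add {M : ModuleCat.{u} A} (z z' : Tot k M) :
    sgT k (z + z') = sgT k z + sgT k z' :=
  funext fun n => smul_add ((-1 : k) ^ n) (z n) (z' n)

private theorem sgT_smul {M : ModuleCat.{u} A} (c : k) (z : Tot k M) :
    sgT k (c • z) = c • sgT k z :=
  funext fun n => smul_comm ((-1 : k) ^ n) c (z n)

private theorem sgT_rmul [Module.Finite k A] {M : ModuleCat.{u} A} (w : TA k (HD k A))
    (z : Tot k M) : sgT k (rmul k z w) = rmul k (sgT k z) (sg k (HD k A) w) := by
  induction w using TensorAlgebra.induction generalizing z with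
  | algebraMap r =>
    rw [AlgHom.commutes, Algebra.algebraMap_eq_smul_one, rmul_smul, rmul_smul, rmul_one, rmul_one,
      sgT_smul]
  | ι a =>
    have h := sg_io k (HD k A) a
    rw [h, rmul_io, sgT_AP]
    have h2 : rmul k (sgT k z) (-io k a) = -rmul k (sgT k z) (io k a) :=
      map_neg (rmulL k (sgT k z)) (io k a)
    rw [h2, rmul_io]
  | mul w w' hw hw' =>
    rw [rmul_mul, hw', hw, map_mul, rmul_mul]
  | add w w' hw hw' =>
    rw [rmul_add, sgT_add, hw, hw', map_add, rmul_add]

/-- Leibniz rule for one generator, from `dC_succ` by induction on the degree: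
`d (ap a z) = ap a (d z) + (-1)^n (ap a (ap ε z) + ap ε (ap a z) - ∑ ap a₂ (ap a₁ z))`
for `z` of degree `n`. -/
theorem leibniz_io [Module.Finite k A] {M : ModuleCat.{u} A} (z : Tot k M) (a : HD k A) :
    DT k M (AP k M a z) = AP k M a (DT k M z) + rmul k (sgT k z) (dd k (HD k A) (io k a)) := by
  let r := Coalgebra.Repr.arbitrary k a
  have hD : DelT k (HD k A) a = ∑ i ∈ r.index, io k (r.left i) * io k (r.right i) := by
    have h1 : DelT k (HD k A) a = LinearMap.mul' k (TA k (HD k A))
      (TensorProduct.map (TensorAlgebra.ι k) (TensorAlgebra.ι k)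
        (Coalgebra.comul (R := k) a)) := rfl
    rw [h1, ← r.eq, map_sum, map_sum]
    exact Finset.sum_congr rfl fun i _ => by
      rw [TensorProduct.map_tmul, LinearMap.mul'_apply]
  have h : ∀ b c : A, ∑ i ∈ r.index, (r.left i).ofConv c * (r.right i).ofConv b =
      a.ofConv (c * b) := by
    intro b c
    rw [← comulD_spec k a c b, ← r.eq, map_sum]
    rfl
  have hr : rmul k (sgT k z) (dd k (HD k A) (io k a)) = AP k M a (AP k M 1 (sgT k z)) +
      AP k M 1 (AP k M a (sgT k z)) -
        ∑ i ∈ r.index, AP k M (r.right i) (AP k M (r.left i) (sgT k z)) := by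
    rw [dd_io, hD]
    change rmulL k (sgT k z) _ = _
    rw [map_sub, map_add, map_sum]
    change rmul k (sgT k z) _ + rmul k (sgT k z) _ - (∑ i ∈ r.index, rmul k (sgT k z) _) = _
    simp only [rmul_mul, rmul_io]
  rw [hr]
  funext N
  rw [Pi.add_apply, Pi.sub_apply, Pi.add_apply, Finset.sum_apply]
  match N with
  | 0 =>
    simp only [AP_zero]
    change (0 : Cn k 0 M) = _
    simp
  | 1 =>
    simp only [AP_succ, AP_zero, map_zero]
    change dC k 0 M 0 = ap k 0 M a (0 : Cn k 0 M) + _
    simp
  | n + 2 =>
    have key : ∀ b c : HD k A, AP k M c (AP k M b (sgT k z)) (n + 2) =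
        ((-1 : k) ^ n) • ap k (n + 1) M c (ap k n M b (z n)) := by
      intro b c
      change ap k (n + 1) M c (ap k n M b (((-1 : k) ^ n) • z n)) = _
      rw [map_smul, map_smul]
    simp only [key]
    rw [← smul_add, ← Finset.smul_sum, ← smul_sub]
    exact leib_ap k r.index r.left r.right a h n M (z n)

/-- Leibniz rule, by induction on `w`. -/
theorem leibniz [Module.Finite k A] {M : ModuleCat.{u} A} (z : Tot k M) (w : TA k (HD k A)) :
    DT k M (rmul k z w) = rmul k (DT k M z) w + rmul k (sgT k z) (dd k (HD k A) w) := by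
  induction w using TensorAlgebra.induction generalizing z with
  | algebraMap r =>
    rw [Algebra.algebraMap_eq_smul_one, map_smul, dd_one', rmul_smul, rmul_smul, rmul_smul,
      rmul_one, rmul_one, map_smul]
    have h0 : rmul k (sgT k z) (0 : TA k (HD k A)) = 0 := map_zero (rmulL k (sgT k z))
    rw [h0, smul_zero, add_zero]
  | ι a => rw [rmul_io, rmul_io, leibniz_io]
  | mul w w' hw hw' =>
    rw [rmul_mul, hw', hw, add_rmul, ← rmul_mul, ← rmul_mul, sgT_rmul, ← rmul_mul, dd_mul,
      rmul_add, add_assoc, add_comm (rmul k (sgT k z) (dd k (HD k A) w * w'))]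
  | add w w' hw hw' =>
    rw [rmul_add, map_add, hw, hw', rmul_add, map_add, rmul_add]
    abel

/-- Concentration in one degree. -/
def Conc {M : ModuleCat.{u} A} (n : ℕ) (z : Tot k M) : Prop := ∀ m, m ≠ n → z m = 0

theorem rmul_conc {M : ModuleCat.{u} A} {n m N : ℕ} (h : m + n = N) {z : Tot k M}
    (hz : Conc k m z) {w : TensorAlgebra k (HD k A)}
    (hw : w ∈ LinearMap.range (TensorAlgebra.ι k (M := HD k A)) ^ n) : Conc k N (rmul k z w) := by
  subst h
  induction n generalizing w with
  | zero =>
    rw [pow_zero, Submodule.mem_one] at hw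
    obtain ⟨r, rfl⟩ := hw
    rw [Algebra.algebraMap_eq_smul_one, rmul_smul, rmul_one]
    intro j hj
    change r • z j = 0
    rw [hz j hj, smul_zero]
  | succ n ih =>
    rw [pow_succ] at hw
    refine Submodule.mul_induction_on hw ?_ ?_
    · rintro w hw x ⟨a, rfl⟩
      rw [rmul_mul, rmul_io]
      intro j hj
      cases j with
      | zero => rfl
      | succ j =>
        rw [AP_succ, ih hw j (by omega), map_zero]
    · intro x y hx hy
      rw [rmul_add]
      intro j hj
      change rmul k z x j + rmul k z y j = 0
      rw [hx j hj, hy j hj, add_zero]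

variable (A) in
/-- The unit cochain. -/
noncomputable def one0 : Tot k (trivObj k A) := fun n => match n with
  | 0 => (show trivObj k A from (1 : k))
  | _ + 1 => 0

/-- The cochain given by an element of the tensor algebra. -/
noncomputable def evT (w : TensorAlgebra k (HD k A)) : Tot k (trivObj k A) := rmul k (one0 k A) w

/-- Its component of degree `n`. -/
noncomputable def evn (n : ℕ) : TensorAlgebra k (HD k A) →ₗ[k] Cn k n (trivObj k A) where
  toFun w := evT k w n
  map_add' w w' := congrFun (rmul_add k (one0 k A) w w') n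
  map_smul' c w := congrFun (rmul_smul k (one0 k A) c w) n

theorem evn_dd [Module.Finite k A] (n : ℕ) (w : TA k (HD k A)) :
    dC k n (trivObj k A) (evn k n w) = evn k (n + 1) (dd k (HD k A) w) := by
  have h1 : DT k (trivObj k A) (one0 k A) = 0 := by
    funext N
    match N with
    | 0 => rfl
    | 1 =>
      refine IM_ext k fun b => ?_
      have h1 : b • (show trivObj k A from (1 : k)) =
          Coalgebra.counit (R := k) b • (show trivObj k A from (1 : k)) := by
        change Coalgebra.counit (R := k) b • (1 : k) =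
          Coalgebra.counit (R := k) (algebraMap k A (Coalgebra.counit (R := k) b)) • (1 : k)
        rw [Bialgebra.counit_algebraMap]
      exact sub_eq_zero.2 h1
    | n + 2 => exact map_zero (dC k (n + 1) (trivObj k A))
  have h2 : sgT k (one0 k A) = one0 k A := by
    funext N
    match N with
    | 0 => exact (congrArg (fun c : k => c • (one0 k A 0)) (pow_zero (-1 : k))).trans (one_smul _ _)
    | n + 1 => exact smul_zero _
  have h := congrFun (leibniz k (one0 k A) w) (n + 1)
  rw [h1, h2] at h
  have h3 : rmul k (0 : Tot k (trivObj k A)) w = 0 := by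
    have := smul_rmul k (0 : k) (0 : Tot k (trivObj k A)) w
    rw [zero_smul, zero_smul] at this
    exact this
  rw [h3, zero_add] at h
  exact h

end

end Pool.Agent.Helper90.FC
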