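import Pool.Agent.Helper90.FC.EvT

/-!
# Project FC, piece EVU: `evn` is bijective in each degree
-/

set_option linter.unusedSectionVars false
set_option autoImplicit false

open CategoryTheory CategoryTheory.Abelian CategoryTheory.Limits
open scoped ModuleCat TensorProduct
open Pool.Agent.Helper59.FG

namespace Pool.Agent.Helper90.FC

universe u

section

variable (k : Type u) [Field k] {A : Type u} [Ring A] [Bialgebra k A]

/-- The cochain of degree `0` given by an element. -/
private noncomputable def EvU_sg {M : ModuleCat.{u} A} (m : M) : Tot k M := fun n => match n with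
  | 0 => m
  | _ + 1 => 0

/-- The shift. -/
private noncomputable def EvU_sh {M : ModuleCat.{u} A} (z : Tot k M) : Tot k (IM k M) :=
  fun n => z (n + 1)

/-- Functoriality. -/
private noncomputable def EvU_CT {M N : ModuleCat.{u} A} (g : M →ₗ[k] N) (z : Tot k M) : Tot k N :=
  fun n => Cmap k n g (z n)

private theorem EvU_sh_AP {M : ModuleCat.{u} A} (z : Tot k M) (h0 : z 0 = 0) (a : HD k A) :
    EvU_sh k (AP k M a z) = AP k (IM k M) a (EvU_sh k z) := by
  funext n
  cases n with
  | zero =>
    change ap k 0 M a (z 0) = 0
    rw [h0]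
    exact map_zero (ap k 0 M a)
  | succ n => rfl

private theorem EvU_zero {M : ModuleCat.{u} A} (w : TensorAlgebra k (HD k A)) :
    ∀ z : Tot k M, z 0 = 0 → rmul k z w 0 = 0 := by
  induction w using TensorAlgebra.induction with
  | algebraMap r =>
    intro z h0
    rw [Algebra.algebraMap_eq_smul_one, rmul_smul, rmul_one, Pi.smul_apply, h0]
    exact smul_zero r
  | ι a =>
    intro z _
    rw [rmul_io]
    exact AP_zero k M a z
  | mul w w' h h' =>
    intro z h0
    rw [rmul_mul]
    exact h' _ (h z h0)
  | add w w' h h' =>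
    intro z h0
    rw [rmul_add, Pi.add_apply, h z h0, h' z h0]
    exact add_zero (0 : Cn k 0 M)

private theorem EvU_sh_rmul {M : ModuleCat.{u} A} (w : TensorAlgebra k (HD k A)) :
    ∀ z : Tot k M, z 0 = 0 → EvU_sh k (rmul k z w) = rmul k (EvU_sh k z) w := by
  induction w using TensorAlgebra.induction with
  | algebraMap r =>
    intro z h0
    rw [Algebra.algebraMap_eq_smul_one, rmul_smul, rmul_smul, rmul_one, rmul_one]
    rfl
  | ι a =>
    intro z h0
    rw [rmul_io, rmul_io]
    exact EvU_sh_AP k z h0 a
  | mul w w' h h' =>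
    intro z h0
    rw [rmul_mul, rmul_mul, h' _ (EvU_zero k w z h0), h z h0]
  | add w w' h h' =>
    intro z h0
    rw [rmul_add, rmul_add, ← h z h0, ← h' z h0]
    rfl

private theorem EvU_CT_rmul {M N : ModuleCat.{u} A} (g : M →ₗ[k] N)
    (w : TensorAlgebra k (HD k A)) :
    ∀ z : Tot k M, EvU_CT k g (rmul k z w) = rmul k (EvU_CT k g z) w := by
  induction w using TensorAlgebra.induction with
  | algebraMap r =>
    intro z
    rw [Algebra.algebraMap_eq_smul_one, rmul_smul, rmul_smul, rmul_one, rmul_one]
    funext n
    exact (Cmap k n g).map_smul r (z n)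
  | ι a =>
    intro z
    rw [rmul_io, rmul_io]
    funext n
    cases n with
    | zero => exact map_zero (Cmap k 0 g)
    | succ n => exact (ap_nat k n g a (z n)).symm
  | mul w w' h h' =>
    intro z
    rw [rmul_mul, rmul_mul, h', h]
  | add w w' h h' =>
    intro z
    rw [rmul_add, rmul_add, ← h z, ← h' z]
    funext n
    exact map_add (Cmap k n g) _ _

private theorem EvU_CT_sg {M N : ModuleCat.{u} A} (g : M →ₗ[k] N) (m : M) :
    EvU_CT k g (EvU_sg k m) = EvU_sg k (g m) := by
  funext n
  cases n with
  | zero => rfl
  | succ n => exact map_zero (Cmap k (n + 1) g)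

private theorem EvU_sh_sg {M : ModuleCat.{u} A} (m : M) (a : HD k A) :
    EvU_sh k (AP k M a (EvU_sg k m)) = EvU_sg k (ap k 0 M a m : IM k M) := by
  funext n
  cases n with
  | zero => rfl
  | succ n => exact map_zero (ap k (n + 1) M a)

private theorem EvU_cons {M : ModuleCat.{u} A} (m : M) (a : HD k A)
    (w : TensorAlgebra k (HD k A)) (n : ℕ) :
    rmul k (EvU_sg k m) (TensorAlgebra.ι k a * w) (n + 1) =
      (rmul k (EvU_sg k (ap k 0 M a m : IM k M)) w n : Cn k n (IM k M)) := by
  rw [rmul_mul, rmul_io, ← EvU_sh_sg]
  exact congrFun (EvU_sh_rmul k w _ (AP_zero k M a (EvU_sg k m))) n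

private theorem EvU_sg_add {M : ModuleCat.{u} A} (m m' : M) :
    EvU_sg k (m + m') = EvU_sg k m + EvU_sg k m' := by
  funext n
  cases n with
  | zero => rfl
  | succ n => exact (add_zero (0 : Cn k (n + 1) M)).symm

private theorem EvU_sg_zero {M : ModuleCat.{u} A} : EvU_sg k (0 : M) = 0 := by
  funext n
  cases n with
  | zero => rfl
  | succ n => rfl

private theorem EvU_sg_sum {M : ModuleCat.{u} A} {ι : Type} (s : Finset ι) (f : ι → M) :
    EvU_sg k (∑ i ∈ s, f i) = ∑ i ∈ s, EvU_sg k (f i) := by
  classical
  induction s using Finset.induction_on with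
  | empty => rw [Finset.sum_empty, Finset.sum_empty, EvU_sg_zero]
  | insert i s hi ih => rw [Finset.sum_insert hi, Finset.sum_insert hi, EvU_sg_add, ih]

private theorem EvU_sum_rmul {M : ModuleCat.{u} A} {ι : Type} (s : Finset ι) (f : ι → Tot k M)
    (w : TensorAlgebra k (HD k A)) :
    rmul k (∑ i ∈ s, f i) w = ∑ i ∈ s, rmul k (f i) w := by
  classical
  induction s using Finset.induction_on with
  | empty =>
    rw [Finset.sum_empty, Finset.sum_empty]
    have h := smul_rmul k (0 : k) (0 : Tot k M) w
    rwa [zero_smul, zero_smul] at h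
  | insert i s hi ih => rw [Finset.sum_insert hi, Finset.sum_insert hi, add_rmul, ih]

/-- Dual bases. -/
private theorem EvU_basis [Module.Finite k A] : ∃ (d : ℕ) (b : Fin d → A) (a : Fin d → HD k A),
    (∀ i j, (a i).ofConv (b j) = if j = i then 1 else 0) ∧
      (∀ x : A, x = ∑ i, (a i).ofConv x • b i) ∧
      ∀ h : HD k A, h = ∑ i, h.ofConv (b i) • a i := by
  classical
  let B := Module.finBasis k A
  refine ⟨_, B, fun i => WithConv.toConv (B.coord i), fun i j => ?_, fun x => ?_, fun h => ?_⟩
  · change B.coord i (B j) = _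
    rw [Module.Basis.coord_apply, Module.Basis.repr_self, Finsupp.single_apply]
  · exact (B.sum_repr x).symm
  · apply WithConv.ofConv_injective
    refine B.ext fun j => ?_
    have h1 : (∑ i, h.ofConv (B i) • WithConv.toConv (B.coord i) : HD k A).ofConv (B j) =
        ∑ i, h.ofConv (B i) * B.coord i (B j) := by
      have h2 := map_sum (evA k (B j)) (fun i => h.ofConv (B i) • WithConv.toConv (B.coord i))
        Finset.univ
      refine h2.trans (Finset.sum_congr rfl fun i _ => ?_)
      rw [map_smul]
      rfl
    rw [h1, Finset.sum_eq_single j]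
    · rw [Module.Basis.coord_apply, Module.Basis.repr_self, Finsupp.single_eq_same, mul_one]
    · intro i _ hi
      rw [Module.Basis.coord_apply, Module.Basis.repr_self, Finsupp.single_eq_of_ne hi, mul_zero]
    · intro hj
      exact absurd (Finset.mem_univ j) hj

private theorem EvU_span [Module.Finite k A] : (n : ℕ) → (M : ModuleCat.{u} A) → (z : Cn k n M) →
    z ∈ Submodule.span k {x : Cn k n M | ∃ (m : M) (w : TensorAlgebra k (HD k A)),
      w ∈ LinearMap.range (TensorAlgebra.ι k (M := HD k A)) ^ n ∧
        x = rmul k (EvU_sg k m) w n}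
  | 0, M, z => Submodule.subset_span ⟨z, 1, by rw [pow_zero]; exact Submodule.mem_one.2 ⟨1, map_one _⟩,
      by rw [rmul_one]; rfl⟩
  | n + 1, M, z => by
    obtain ⟨d, b, a, h1, h2, h3⟩ := EvU_basis k (A := A)
    have ih := EvU_span n (IM k M) z
    let S : Submodule k (Cn k n (IM k M)) :=
      Submodule.span k {x : Cn k (n + 1) M | ∃ (m : M) (w : TensorAlgebra k (HD k A)),
        w ∈ LinearMap.range (TensorAlgebra.ι k (M := HD k A)) ^ (n + 1) ∧
          x = rmul k (EvU_sg k m) w (n + 1)}
    change z ∈ S
    refine (Submodule.span_le (p := S)).2 ?_ ih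
    rintro _ ⟨g, w, hw, rfl⟩
    let f : Fin d → IM k M := fun i => ap k 0 M (a i) (fn k g (b i))
    have hg : g = ∑ i, f i := by
      refine IM_ext k fun x => ?_
      have h4 : fn k (∑ i, f i) x = ∑ i, (a i).ofConv x • fn k g (b i) := by
        have h5 : ∀ s : Finset (Fin d),
            fn k (∑ i ∈ s, f i) x = ∑ i ∈ s, (a i).ofConv x • fn k g (b i) := by
          intro s
          classical
          induction s using Finset.induction_on with
          | empty => rfl
          | insert i s hi ih =>
            rw [Finset.sum_insert hi, Finset.sum_insert hi, fn_add, ih]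
            rfl
        exact h5 Finset.univ
      rw [h4]
      conv_lhs => rw [h2 x]
      rw [map_sum]
      exact Finset.sum_congr rfl fun i _ => map_smul _ _ _
    rw [hg, EvU_sg_sum, EvU_sum_rmul, Finset.sum_apply]
    refine Submodule.sum_mem _ fun i _ => ?_
    refine Submodule.subset_span ⟨fn k g (b i), TensorAlgebra.ι k (a i) * w, ?_,
      (EvU_cons k _ _ _ _).symm⟩
    rw [pow_succ']
    exact Submodule.mul_mem_mul (LinearMap.mem_range_self _ _) hw

private theorem EvU_sg_triv (m : trivObj k A) :
    EvU_sg k m = (show k from m) • one0 k A := by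
  funext n
  cases n with
  | zero =>
    change m = (algebraMap k A (show k from m)) • (show trivObj k A from (1 : k))
    change (show k from m) = Coalgebra.counit (R := k) (algebraMap k A (show k from m)) * (1 : k)
    rw [Bialgebra.counit_algebraMap, mul_one]
  | succ n => exact (smul_zero (show k from m)).symm

/-- More generally every cochain of `M` is a sum of `rmul (single m) w` (induction on `n`). -/
theorem evn_surj [Module.Finite k A] (n : ℕ) (z : Cn k n (trivObj k A)) :
    ∃ w ∈ Tn k (HD k A) n, evn k n w = z := by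
  have h := EvU_span k n (trivObj k A) z
  have h2 : Submodule.span k {x : Cn k n (trivObj k A) | ∃ (m : trivObj k A)
      (w : TensorAlgebra k (HD k A)),
      w ∈ LinearMap.range (TensorAlgebra.ι k (M := HD k A)) ^ n ∧
        x = rmul k (EvU_sg k m) w n} ≤
      (LinearMap.range (TensorAlgebra.ι k (M := HD k A)) ^ n).map (evn k n) := by
    rw [Submodule.span_le]
    rintro _ ⟨m, w, hw, rfl⟩
    refine ⟨(show k from m) • w, Submodule.smul_mem _ _ hw, ?_⟩
    rw [EvU_sg_triv, smul_rmul, ← rmul_smul]
    rfl
  exact h2 h

private theorem EvU_split [Module.Finite k A] {d : ℕ} (b : Fin d → A) (a : Fin d → HD k A)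
    (h3 : ∀ h : HD k A, h = ∑ i, h.ofConv (b i) • a i) (n : ℕ)
    (w : TensorAlgebra k (HD k A))
    (hw : w ∈ LinearMap.range (TensorAlgebra.ι k (M := HD k A)) ^ (n + 1)) :
    ∃ v : Fin d → TensorAlgebra k (HD k A),
      (∀ i, v i ∈ LinearMap.range (TensorAlgebra.ι k (M := HD k A)) ^ n) ∧
        w = ∑ i, TensorAlgebra.ι k (a i) * v i := by
  rw [pow_succ'] at hw
  refine Submodule.mul_induction_on hw ?_ ?_
  · rintro _ ⟨h, rfl⟩ v hv
    refine ⟨fun i => h.ofConv (b i) • v, fun i => Submodule.smul_mem _ _ hv, ?_⟩
    conv_lhs => rw [h3 h]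
    rw [map_sum, Finset.sum_mul]
    refine Finset.sum_congr rfl fun i _ => ?_
    rw [map_smul, smul_mul_assoc, mul_smul_comm]
  · rintro x y ⟨v, hv, rfl⟩ ⟨v', hv', rfl⟩
    refine ⟨fun i => v i + v' i, fun i => Submodule.add_mem _ (hv i) (hv' i), ?_⟩
    rw [← Finset.sum_add_distrib]
    exact Finset.sum_congr rfl fun i _ => (mul_add _ _ _).symm

private theorem EvU_evn (n : ℕ) (w : TensorAlgebra k (HD k A)) :
    evn k n w = rmul k (EvU_sg k (show trivObj k A from (1 : k))) w n := by
  have h : EvU_sg k (show trivObj k A from (1 : k)) = one0 k A := by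
    funext n
    cases n with
    | zero => rfl
    | succ n => rfl
  rw [h]
  rfl

/-- Choose a basis of `A` and the dual basis `a_κ` of `HD k A`; `TensorAlgebra.equivFreeAlgebra` and
evaluation of `evn k n w` at `b_{κ_1}, …, b_{κ_n}` gives the coefficient of the word
`a_{κ_1} ⋯ a_{κ_n}`. -/
theorem evn_inj [Module.Finite k A] (n : ℕ) (w : TA k (HD k A)) (hw : w ∈ Tn k (HD k A) n)
    (h : evn k n w = 0) : w = 0 := by
  obtain ⟨d, b, a, h1, h2, h3⟩ := EvU_basis k (A := A)
  have key : ∀ (n : ℕ) (w : TensorAlgebra k (HD k A)),
      w ∈ LinearMap.range (TensorAlgebra.ι k (M := HD k A)) ^ n → evn k n w = 0 → w = 0 := by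
    intro n
    induction n with
    | zero =>
      intro w hw h
      rw [pow_zero] at hw
      obtain ⟨c, rfl⟩ := Submodule.mem_one.1 hw
      rw [EvU_evn, Algebra.algebraMap_eq_smul_one, rmul_smul, rmul_one] at h
      have h4 : c • (show trivObj k A from (1 : k)) = 0 := h
      have h5 : c = 0 := by
        change Coalgebra.counit (R := k) (algebraMap k A c) * (1 : k) = 0 at h4
        rwa [Bialgebra.counit_algebraMap, mul_one] at h4
      rw [h5, map_zero]
    | succ n ih =>
      intro w hw h
      obtain ⟨v, hv, rfl⟩ := EvU_split k b a h3 n w hw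
      refine Finset.sum_eq_zero fun j _ => ?_
      have h4 : v j = 0 := by
        refine ih (v j) (hv j) ?_
        let r : IM k (trivObj k A) →ₗ[k] trivObj k A :=
          { toFun := fun g => fn k g (b j)
            map_add' := fun g g' => fn_add k g g' (b j)
            map_smul' := fun c g => fn_ksmul k c g (b j) }
        have h5 : Cmap k n r (evn k (n + 1) (∑ i, TensorAlgebra.ι k (a i) * v i) :
            Cn k n (IM k (trivObj k A))) = evn k n (v j) := by
          have h6 : ∀ i, Cmap k n r (evn k (n + 1) (TensorAlgebra.ι k (a i) * v i) :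
              Cn k n (IM k (trivObj k A))) = if j = i then evn k n (v i) else 0 := by
            intro i
            have h7 : (evn k (n + 1) (TensorAlgebra.ι k (a i) * v i) :
                Cn k n (IM k (trivObj k A))) = rmul k (EvU_sg k (ap k 0 (trivObj k A) (a i)
                  (show trivObj k A from (1 : k)) : IM k (trivObj k A))) (v i) n := by
              rw [EvU_evn]
              exact EvU_cons k _ _ _ _
            rw [h7]
            have h8 := congrFun (EvU_CT_rmul k r (v i) (EvU_sg k (ap k 0 (trivObj k A) (a i)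
              (show trivObj k A from (1 : k)) : IM k (trivObj k A)))) n
            refine (show _ = _ from h8).trans ?_
            rw [EvU_CT_sg]
            have h9 : r (ap k 0 (trivObj k A) (a i) (show trivObj k A from (1 : k)) :
                IM k (trivObj k A)) = (if j = i then (1 : k) else 0) •
                  (show trivObj k A from (1 : k)) := by
              rw [← h1 i j]
              rfl
            rw [h9]
            by_cases hji : j = i
            · rw [if_pos hji, if_pos hji, one_smul, EvU_evn]
            · rw [if_neg hji, if_neg hji, zero_smul, EvU_sg_zero]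
              have h10 := smul_rmul k (0 : k) (0 : Tot k (trivObj k A)) (v i)
              rw [zero_smul, zero_smul] at h10
              rw [h10]
              rfl
          let e : Fin d → Cn k n (IM k (trivObj k A)) :=
            fun i => evn k (n + 1) (TensorAlgebra.ι k (a i) * v i)
          have h11 : (evn k (n + 1) (∑ i, TensorAlgebra.ι k (a i) * v i) :
              Cn k n (IM k (trivObj k A))) = ∑ i, e i :=
            map_sum (evn k (n + 1)) _ _
          have h12 : ∀ i, Cmap k n r (e i) = if j = i then evn k n (v i) else 0 := h6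
          rw [h11, map_sum, Finset.sum_congr rfl fun i _ => h12 i, Finset.sum_ite_eq,
            if_pos (Finset.mem_univ j)]
        rw [← h5, h]
        exact map_zero (Cmap k n r)
      rw [h4, mul_zero]
  exact key n w hw h

end

end Pool.Agent.Helper90.FC
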