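import Pool.Agent.Helper90.FC.FStr

/-!
# Project FC, piece FRE: reduced polynomials
-/

set_option linter.unusedSectionVars false
set_option autoImplicit false

namespace Pool.Agent.Helper90.FC

universe u

section

variable {k : Type u} [Field k] {p : ℕ} {F : Type u} [CommRing F] [Bialgebra k F] {n : ℕ}

/-- the exponent as a finitely supported function -/
private noncomputable def fredToF (α : Fin n → Fin p) : Fin n →₀ ℕ :=
  Finsupp.equivFunOnFinite.symm fun i => (α i : ℕ)

private theorem fredToF_apply (α : Fin n → Fin p) (i : Fin n) : fredToF α i = (α i : ℕ) := rfl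

private theorem fredToF_inj {α β : Fin n → Fin p} (h : fredToF α = fredToF β) : α = β := by
  funext i
  have := DFunLike.congr_fun h i
  rw [fredToF_apply, fredToF_apply] at this
  exact Fin.ext this

private theorem prod_X (α : Fin n → Fin p) :
    (∏ i, MvPolynomial.X i ^ (α i : ℕ) : MvPolynomial (Fin n) k) =
      MvPolynomial.monomial (fredToF α) 1 := by
  rw [MvPolynomial.monomial_eq, Finsupp.prod_fintype _ _ (fun i => pow_zero _),
    MvPolynomial.C_1, one_mul]
  rfl

private theorem red_basis (c : Coords k p F n) (α : Fin n → Fin p) :
    c.red (c.basis α) = MvPolynomial.monomial (fredToF α) 1 := by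
  rw [Coords.red, Module.Basis.constr_basis, prod_X]

theorem Coords.ev_red (c : Coords k p F n) (a : F) : c.ev (c.red a) = a := by
  have h : c.ev.toLinearMap ∘ₗ c.red = LinearMap.id := by
    refine c.basis.ext fun α => ?_
    rw [LinearMap.comp_apply, LinearMap.id_apply, Coords.red, Module.Basis.constr_basis,
      AlgHom.toLinearMap_apply, Coords.ev, map_prod, c.basis_eq]
    refine Finset.prod_congr rfl fun i _ => ?_
    rw [map_pow, MvPolynomial.aeval_X]
  exact DFunLike.congr_fun h a

theorem Coords.red_one [Fact p.Prime] (c : Coords k p F n) : c.red 1 = 1 := by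
  have hp : 0 < p := (Fact.out : p.Prime).pos
  have h : c.basis (fun _ => ⟨0, hp⟩) = 1 := by
    rw [c.basis_eq]
    exact Finset.prod_eq_one fun i _ => pow_zero _
  rw [← h, Coords.red, Module.Basis.constr_basis]
  exact Finset.prod_eq_one fun i _ => pow_zero _

theorem Coords.lam_red (c : Coords k p F n) (i : Fin n) (a : F) :
    lam p i (c.red a) = 0 := by
  classical
  have h : lam p i ∘ₗ c.red = 0 := by
    refine c.basis.ext fun α => ?_
    rw [LinearMap.comp_apply, red_basis, LinearMap.zero_apply]
    change MvPolynomial.coeff (Finsupp.single i p) (MvPolynomial.monomial (fredToF α) 1) = (0 : k)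
    rw [MvPolynomial.coeff_monomial, if_neg]
    intro h
    have h1 := DFunLike.congr_fun h i
    rw [fredToF_apply, Finsupp.single_eq_same] at h1
    exact absurd (α i).2 (by omega)
  exact DFunLike.congr_fun h a

theorem Coords.const_red [Fact p.Prime] (c : Coords k p F n) (a : F) :
    MvPolynomial.constantCoeff (c.red a) = Coalgebra.counit (R := k) a := by
  have h : (MvPolynomial.aeval (fun _ : Fin n => (0 : k))).toLinearMap ∘ₗ c.red =
      (Bialgebra.counitAlgHom k F).toLinearMap := by
    refine c.basis.ext fun α => ?_
    rw [LinearMap.comp_apply, Coords.red, Module.Basis.constr_basis,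
      AlgHom.toLinearMap_apply, AlgHom.toLinearMap_apply, map_prod, c.basis_eq, map_prod]
    refine Finset.prod_congr rfl fun i _ => ?_
    rw [map_pow, map_pow, MvPolynomial.aeval_X]
    have h1 : Bialgebra.counitAlgHom k F (c.x i) = 0 := c.aug i
    rw [h1]
  have h2 := DFunLike.congr_fun h a
  rw [LinearMap.comp_apply, AlgHom.toLinearMap_apply, AlgHom.toLinearMap_apply] at h2
  have h3 : ∀ f : MvPolynomial (Fin n) k,
      MvPolynomial.aeval (fun _ : Fin n => (0 : k)) f = MvPolynomial.constantCoeff f := by
    intro f
    exact MvPolynomial.aeval_zero' f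
  rw [h3] at h2
  exact h2

private theorem ev_sum (c : Coords k p F n) (f : MvPolynomial (Fin n) k) :
    c.ev f = ∑ α : Fin n → Fin p, MvPolynomial.coeff (fredToF α) f • c.basis α := by
  classical
  induction f using MvPolynomial.induction_on' with
  | monomial m a =>
    rw [Coords.ev, MvPolynomial.aeval_monomial, Finsupp.prod_fintype _ _ (fun i => pow_zero _)]
    by_cases h : ∀ i, m i < p
    · rw [Finset.sum_eq_single (fun i => ⟨m i, h i⟩)]
      · rw [MvPolynomial.coeff_monomial, if_pos, c.basis_eq, Algebra.smul_def]
        ext i
        rfl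
      · intro β _ hβ
        rw [MvPolynomial.coeff_monomial, if_neg, zero_smul]
        intro h1
        apply hβ
        funext i
        apply Fin.ext
        rw [← fredToF_apply, ← h1]
      · intro h1
        exact absurd (Finset.mem_univ _) h1
    · push Not at h
      obtain ⟨i, hi⟩ := h
      have h0 : ∏ i, c.x i ^ m i = 0 := by
        refine Finset.prod_eq_zero (Finset.mem_univ i) ?_
        rw [← Nat.sub_add_cancel hi, pow_add, c.pow, mul_zero]
      rw [h0, mul_zero]
      symm
      refine Finset.sum_eq_zero fun β _ => ?_
      rw [MvPolynomial.coeff_monomial, if_neg, zero_smul]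
      intro h1
      have h2 := DFunLike.congr_fun h1 i
      rw [fredToF_apply] at h2
      exact absurd (β i).2 (by omega)
  | add f g hf hg =>
    rw [map_add, hf, hg, ← Finset.sum_add_distrib]
    refine Finset.sum_congr rfl fun α _ => ?_
    rw [MvPolynomial.coeff_add, add_smul]

/-- The kernel of `ev` consists of the polynomials without reduced monomials. -/
theorem Coords.ev_eq_zero [Fact p.Prime] (c : Coords k p F n) (f : MvPolynomial (Fin n) k) :
    c.ev f = 0 ↔ ∀ α : Fin n →₀ ℕ, (∀ i, α i < p) → MvPolynomial.coeff α f = 0 := by
  rw [ev_sum]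
  constructor
  · intro h α hα
    have h1 := Fintype.linearIndependent_iff.1 c.basis.linearIndependent
      (fun β => MvPolynomial.coeff (fredToF β) f) h (fun i => ⟨α i, hα i⟩)
    have h2 : fredToF (fun i => (⟨α i, hα i⟩ : Fin p)) = α := by
      ext i
      rfl
    rw [h2] at h1
    exact h1
  · intro h
    refine Finset.sum_eq_zero fun β _ => ?_
    rw [h (fredToF β) (fun i => (β i).2), zero_smul]

/-- On the kernel of `ev` the functional `lam` is linear over `P → k`. -/
theorem Coords.lam_mul [Fact p.Prime] (c : Coords k p F n) (i : Fin n)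
    (g f : MvPolynomial (Fin n) k) (hf : c.ev f = 0) :
    lam p i (g * f) = MvPolynomial.constantCoeff g * lam p i f := by
  classical
  have hf' := (c.ev_eq_zero f).1 hf
  have hp : 0 < p := (Fact.out : p.Prime).pos
  change MvPolynomial.coeff (Finsupp.single i p) (g * f) =
    MvPolynomial.coeff 0 g * MvPolynomial.coeff (Finsupp.single i p) f
  rw [MvPolynomial.coeff_mul, Finset.sum_eq_single (0, Finsupp.single i p)]
  · intro x hx hne
    have h1 : x.1 + x.2 = Finsupp.single i p := Finset.HasAntidiagonal.mem_antidiagonal.1 hx
    have h2 : ∀ j, x.2 j < p := by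
      intro j
      have h3 := DFunLike.congr_fun h1 j
      rw [Finsupp.add_apply] at h3
      by_cases hj : j = i
      · subst hj
        rw [Finsupp.single_eq_same] at h3
        by_contra hcon
        apply hne
        have h4 : x.1 = 0 := by
          ext l
          have h5 := DFunLike.congr_fun h1 l
          rw [Finsupp.add_apply] at h5
          by_cases hl : l = j
          · subst hl
            rw [Finsupp.coe_zero, Pi.zero_apply]
            omega
          · rw [Finsupp.single_eq_of_ne hl] at h5
            rw [Finsupp.coe_zero, Pi.zero_apply]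
            omega
        rw [h4, zero_add] at h1
        exact Prod.ext h4 h1
      · rw [Finsupp.single_eq_of_ne hj] at h3
        omega
    rw [hf' _ h2, mul_zero]
  · intro h
    exact absurd (by simp) h

end

end Pool.Agent.Helper90.FC
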