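import Mathlib

/-!
# Project FC, piece FST: commutative bialgebras of height one are truncated polynomial algebras

`F` is a finite-dimensional commutative bialgebra over a field of characteristic `p` such that
`a^p = 0` for all `a` in the augmentation ideal `F⁺`. Let `x_1, …, x_n` in `F⁺` be such that
their classes form a basis of `F⁺ / (F⁺)²`.

* Spanning: `F⁺` is nilpotent (finitely generated nil ideal), so `F = k[x_1, …, x_n]` (Nakayama or
  iteration), and `x_i^p = 0`, so the monomials with exponents `< p` span `F`.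
* Independence: for a linear form `v` on `F` with `v(ab) = ε(a) v(b) + v(a) ε(b)`, `D_v = (id ⊗ v) Δ`
  is a derivation of `F`, it maps `(F⁺)^(m+1)` to `(F⁺)^m`, and `ε(D_v a) = v(a)`. Take `v_i` with
  `v_i(x_j) = δ_ij` and `D_i`. If `∑ c_α x^α = 0`, choose `α` with `c_α ≠ 0` and `|α|` minimal, and
  apply `∏ D_i^(α_i)` and then `ε`: the result is `c_α ∏ (α_i)!`.
-/

set_option linter.unusedSectionVars false
set_option autoImplicit false

open scoped TensorProduct

namespace Pool.Agent.Helper90.FC

universe u

section FStrAux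

open MvPolynomial in
theorem FStr_aeval_mem {k : Type u} [Field k] {F : Type u} [CommRing F] [Algebra k F] {n : ℕ}
    (m : Ideal F) (x : Fin n → F) (hx : ∀ i, x i ∈ m) (d : ℕ) (f : MvPolynomial (Fin n) k)
    (hf : ∀ s, coeff s f ≠ 0 → d ≤ ∑ i, s i) : aeval x f ∈ m ^ d := by
  rw [aeval_def, eval₂_eq']
  refine Ideal.sum_mem _ fun s hs => Ideal.mul_mem_left _ _ ?_
  have h1 : ∏ i, x i ^ s i ∈ m ^ (∑ i, s i) := by
    rw [← Finset.prod_pow_eq_pow_sum]
    exact Ideal.prod_mem_prod fun i _ => Ideal.pow_mem_pow (hx i) _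
  exact Ideal.pow_le_pow_right (hf s (mem_support_iff.1 hs)) h1

theorem FStr_deriv_pow {k : Type u} [Field k] {F : Type u} [CommRing F] [Algebra k F]
    (m : Ideal F) (D : Derivation k F F) (e : ℕ) : ∀ a ∈ m ^ (e + 1), D a ∈ m ^ e := by
  induction e with
  | zero =>
    intro a _
    rw [pow_zero, Ideal.one_eq_top]
    exact Submodule.mem_top
  | succ e ih =>
    intro a ha
    rw [pow_succ' m (e + 1)] at ha
    refine Submodule.mul_induction_on ha ?_ ?_
    · intro b hb c hc
      rw [Derivation.leibniz, smul_eq_mul, smul_eq_mul]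
      refine Ideal.add_mem _ ?_ ?_
      · rw [pow_succ' m e]
        exact Ideal.mul_mem_mul hb (ih c hc)
      · exact Ideal.mul_mem_right _ _ hc
    · intro b c hb hc
      rw [map_add]
      exact Ideal.add_mem _ hb hc

open MvPolynomial in
theorem FStr_chain {k : Type u} [Field k] {F : Type u} [CommRing F] [Algebra k F] {n : ℕ}
    (x : Fin n → F) (D : Derivation k F F) (f : MvPolynomial (Fin n) k) :
    D (aeval x f) = ∑ j, aeval x (pderiv j f) * D (x j) := by
  induction f using MvPolynomial.induction_on with
  | C a => simp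
  | add f g hf hg =>
    rw [map_add, map_add, hf, hg, ← Finset.sum_add_distrib]
    refine Finset.sum_congr rfl fun j _ => ?_
    rw [map_add, map_add, add_mul]
  | mul_X q i hq =>
    rw [map_mul, aeval_X, Derivation.leibniz, hq, smul_eq_mul, smul_eq_mul, Finset.mul_sum]
    have h1 : ∀ j, aeval x (pderiv j (q * X i)) * D (x j) =
        (if i = j then aeval x q * D (x j) else 0) + x i * (aeval x (pderiv j q) * D (x j)) := by
      intro j
      rw [Derivation.leibniz, smul_eq_mul, smul_eq_mul, map_add, map_mul, map_mul, aeval_X,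
        pderiv_X]
      by_cases hij : i = j
      · subst hij
        rw [if_pos rfl, Pi.single_eq_same, map_one]
        ring
      · rw [if_neg hij, Pi.single_eq_of_ne hij, map_zero]
        ring
    simp only [h1]
    rw [Finset.sum_add_distrib, Finset.sum_ite_eq, if_pos (Finset.mem_univ i)]

open MvPolynomial in
theorem FStr_low {k : Type u} [Field k] {p : ℕ} [Fact p.Prime] [CharP k p] {F : Type u}
    [CommRing F] [Algebra k F] {n : ℕ} (m : Ideal F) (hm : m ≠ ⊤) (x : Fin n → F)
    (hx : ∀ i, x i ∈ m) (D : Fin n → Derivation k F F)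
    (hD : ∀ i j, D i (x j) - (if i = j then 1 else 0) ∈ m) (d : ℕ) :
    ∀ f : MvPolynomial (Fin n) k, (∀ s, coeff s f ≠ 0 → ∀ i, s i < p) →
      (∀ s, coeff s f ≠ 0 → d ≤ ∑ i, s i) → aeval x f ∈ m ^ (d + 1) →
      ∀ s, coeff s f ≠ 0 → d + 1 ≤ ∑ i, s i := by
  induction d with
  | zero =>
    intro f _ _ hfm s hs
    by_contra hlt
    have hs0 : s = 0 := by
      ext i
      have h1 : s i ≤ ∑ i, s i := Finset.single_le_sum (f := fun i => s i)
        (fun _ _ => Nat.zero_le _) (Finset.mem_univ i)
      simp only [Finsupp.coe_zero, Pi.zero_apply]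
      omega
    subst hs0
    have h2 : aeval x (f - C (coeff 0 f)) ∈ m ^ 1 := by
      refine FStr_aeval_mem m x hx 1 _ ?_
      intro t ht
      by_contra hlt'
      have ht0 : t = 0 := by
        ext i
        have h1 : t i ≤ ∑ i, t i := Finset.single_le_sum (f := fun i => t i)
          (fun _ _ => Nat.zero_le _) (Finset.mem_univ i)
        simp only [Finsupp.coe_zero, Pi.zero_apply]
        omega
      apply ht
      subst ht0
      rw [coeff_sub, coeff_C, if_pos rfl, sub_self]
    rw [map_sub, aeval_C] at h2
    rw [zero_add] at hfm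
    have h3 : algebraMap k F (coeff 0 f) ∈ m := by
      have h4 := Ideal.sub_mem _ hfm h2
      rw [sub_sub_cancel, pow_one] at h4
      exact h4
    apply hm
    rw [Ideal.eq_top_iff_one]
    have h5 : algebraMap k F (coeff 0 f)⁻¹ * algebraMap k F (coeff 0 f) ∈ m :=
      Ideal.mul_mem_left _ _ h3
    rwa [← map_mul, inv_mul_cancel₀ hs, map_one] at h5
  | succ d ih =>
    intro f hbox hord hfm s hs
    by_contra hlt
    have hsd : ∑ i, s i = d + 1 := by
      have := hord s hs
      omega
    obtain ⟨i, hi⟩ : ∃ i, 0 < s i := by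
      by_contra hno
      have h0 : ∑ i, s i = 0 := Finset.sum_eq_zero fun i _ => by
        by_contra h
        exact hno ⟨i, Nat.pos_of_ne_zero h⟩
      omega
    set t : Fin n →₀ ℕ := s - Finsupp.single i 1 with ht
    have hst : t + Finsupp.single i 1 = s := by
      rw [ht]
      ext j
      by_cases hj : i = j
      · subst hj
        simp only [Finsupp.coe_add, Finsupp.coe_tsub, Pi.add_apply, Pi.sub_apply,
          Finsupp.single_eq_same]
        omega
      · simp [Finsupp.single_eq_of_ne (Ne.symm hj)]
    have hsum1 : ∀ r : Fin n →₀ ℕ, ∑ j, (r + Finsupp.single i 1 : Fin n →₀ ℕ) j = ∑ j, r j + 1 := by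
      intro r
      simp only [Finsupp.coe_add, Pi.add_apply]
      rw [Finset.sum_add_distrib]
      congr 1
      rw [Finset.sum_eq_single i]
      · rw [Finsupp.single_eq_same]
      · intro b _ hb
        rw [Finsupp.single_eq_of_ne hb]
      · intro h
        exact absurd (Finset.mem_univ i) h
    have hts : ∑ j, t j + 1 = ∑ j, s j := by
      rw [← hst, hsum1]
    have hti : t i + 1 = s i := by
      rw [← hst]
      simp
    -- orders of the derivatives
    have hordp : ∀ (j : Fin n) (r : Fin n →₀ ℕ), coeff r (pderiv j f) ≠ 0 → d ≤ ∑ i, r i := by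
      intro j r hr
      rw [coeff_pderiv] at hr
      have h1 := hord _ (left_ne_zero_of_mul hr)
      have h2 : ∑ l, (r + Finsupp.single j 1 : Fin n →₀ ℕ) l = ∑ l, r l + 1 := by
        simp only [Finsupp.coe_add, Pi.add_apply]
        rw [Finset.sum_add_distrib]
        congr 1
        rw [Finset.sum_eq_single j]
        · rw [Finsupp.single_eq_same]
        · intro b _ hb
          rw [Finsupp.single_eq_of_ne hb]
        · intro h
          exact absurd (Finset.mem_univ j) h
      omega
    have hmem : aeval x (pderiv i f) ∈ m ^ (d + 1) := by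
      have h1 : D i (aeval x f) ∈ m ^ (d + 1) := FStr_deriv_pow m (D i) (d + 1) _ hfm
      have h2 : D i (aeval x f) - aeval x (pderiv i f) =
          ∑ j, aeval x (pderiv j f) * (D i (x j) - (if i = j then 1 else 0)) := by
        rw [FStr_chain]
        simp only [mul_sub, Finset.sum_sub_distrib, mul_ite, mul_one, mul_zero]
        rw [Finset.sum_ite_eq, if_pos (Finset.mem_univ i)]
      have h3 : ∑ j, aeval x (pderiv j f) * (D i (x j) - (if i = j then 1 else 0)) ∈
          m ^ (d + 1) := by
        refine Ideal.sum_mem _ fun j _ => ?_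
        rw [pow_succ]
        exact Ideal.mul_mem_mul (FStr_aeval_mem m x hx d _ (hordp j)) (hD i j)
      rw [← h2] at h3
      have h4 := Ideal.sub_mem _ h1 h3
      rwa [sub_sub_cancel] at h4
    have hboxp : ∀ r, coeff r (pderiv i f) ≠ 0 → ∀ j, r j < p := by
      intro r hr j
      rw [coeff_pderiv] at hr
      have h1 := hbox _ (left_ne_zero_of_mul hr) j
      rw [Finsupp.add_apply] at h1
      omega
    have key := ih (pderiv i f) hboxp (hordp i) hmem t
    have hne : coeff t (pderiv i f) ≠ 0 := by
      rw [coeff_pderiv, hst]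
      refine mul_ne_zero hs ?_
      have h1 : (((s i : ℕ) : k)) ≠ 0 := by
        intro h0
        rw [CharP.cast_eq_zero_iff k p] at h0
        have h2 := Nat.le_of_dvd hi h0
        have h3 := hbox s hs i
        omega
      rw [← hti] at h1
      push_cast at h1
      exact h1
    have := key hne
    omega

open MvPolynomial in
theorem FStr_indep {k : Type u} [Field k] {p : ℕ} [Fact p.Prime] [CharP k p] {F : Type u}
    [CommRing F] [Algebra k F] {n : ℕ} (m : Ideal F) (hm : m ≠ ⊤) (x : Fin n → F)
    (hx : ∀ i, x i ∈ m) (D : Fin n → Derivation k F F)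
    (hD : ∀ i j, D i (x j) - (if i = j then 1 else 0) ∈ m)
    (f : MvPolynomial (Fin n) k) (hbox : ∀ s, coeff s f ≠ 0 → ∀ i, s i < p)
    (h0 : aeval x f = 0) : f = 0 := by
  have h1 : ∀ d : ℕ, ∀ s, coeff s f ≠ 0 → d ≤ ∑ i, s i := by
    intro d
    induction d with
    | zero => exact fun s _ => Nat.zero_le _
    | succ d ih =>
      refine FStr_low m hm x hx D hD d f hbox ih ?_
      rw [h0]
      exact Ideal.zero_mem _
  ext s
  rw [coeff_zero]
  by_contra hs
  have := h1 (∑ i, s i + 1) s hs
  omega

theorem FStr_mon_mem {k : Type u} [Field k] {p : ℕ} {F : Type u} [CommRing F] [Algebra k F]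
    {n : ℕ} (x : Fin n → F) (hx : ∀ i, x i ^ p = 0) (s : Fin n → ℕ) :
    ∏ i, x i ^ s i ∈
      Submodule.span k (Set.range fun α : Fin n → Fin p => ∏ i, x i ^ (α i : ℕ)) := by
  by_cases h : ∀ i, s i < p
  · exact Submodule.subset_span ⟨fun i => ⟨s i, h i⟩, rfl⟩
  · push Not at h
    obtain ⟨i, hi⟩ := h
    have h1 : x i ^ s i = 0 := by
      rw [← Nat.sub_add_cancel hi, pow_add, hx, mul_zero]
    rw [Finset.prod_eq_zero (Finset.mem_univ i) h1]
    exact Submodule.zero_mem _

theorem FStr_mul_mem {k : Type u} [Field k] {p : ℕ} {F : Type u} [CommRing F] [Algebra k F]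
    {n : ℕ} (x : Fin n → F) (hx : ∀ i, x i ^ p = 0) (j : Fin n) (b : F)
    (hb : b ∈ Submodule.span k (Set.range fun α : Fin n → Fin p => ∏ i, x i ^ (α i : ℕ))) :
    x j * b ∈
      Submodule.span k (Set.range fun α : Fin n → Fin p => ∏ i, x i ^ (α i : ℕ)) := by
  induction hb using Submodule.span_induction with
  | mem b hb =>
    obtain ⟨α, rfl⟩ := hb
    have h1 : x j * ∏ i, x i ^ (α i : ℕ) = ∏ i, x i ^ ((α i : ℕ) + if i = j then 1 else 0) := by
      simp only [pow_add, Finset.prod_mul_distrib]
      rw [mul_comm]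
      congr 1
      rw [Finset.prod_eq_single j]
      · rw [if_pos rfl, pow_one]
      · intro b _ hb
        rw [if_neg hb, pow_zero]
      · intro h
        exact absurd (Finset.mem_univ j) h
    simp only
    rw [h1]
    exact FStr_mon_mem x hx _
  | zero =>
    rw [mul_zero]
    exact Submodule.zero_mem _
  | add b c _ _ hb hc =>
    rw [mul_add]
    exact Submodule.add_mem _ hb hc
  | smul a b _ hb =>
    rw [mul_smul_comm]
    exact Submodule.smul_mem _ _ hb

/-- spanning -/
theorem FStr_span {k : Type u} [Field k] {p : ℕ} {F : Type u} [CommRing F] [Algebra k F]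
    {n : ℕ} (m : Ideal F) (hnil : ∃ N : ℕ, m ^ N = ⊥) (x : Fin n → F) (hxm : ∀ i, x i ∈ m)
    (hx : ∀ i, x i ^ p = 0) (h1 : ∀ a : F, ∃ c : k, a - algebraMap k F c ∈ m)
    (h2 : ∀ a ∈ m, ∃ c : Fin n → k, a - ∑ i, c i • x i ∈ m ^ 2) :
    Submodule.span k (Set.range fun α : Fin n → Fin p => ∏ i, x i ^ (α i : ℕ)) = ⊤ := by
  set S := Submodule.span k (Set.range fun α : Fin n → Fin p => ∏ i, x i ^ (α i : ℕ)) with hS
  have hone : (1 : F) ∈ S := by
    have h := FStr_mon_mem (k := k) x hx (fun _ => 0)
    simpa using h
  have hstep : ∀ N : ℕ, ∀ c ∈ m ^ N, ∃ b ∈ S, c - b ∈ m ^ (N + 1) := by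
    intro N
    induction N with
    | zero =>
      intro c _
      obtain ⟨r, hr⟩ := h1 c
      refine ⟨algebraMap k F r, ?_, by simpa using hr⟩
      rw [Algebra.algebraMap_eq_smul_one]
      exact Submodule.smul_mem _ _ hone
    | succ N ih =>
      intro c hc
      rw [pow_succ' m N] at hc
      refine Submodule.mul_induction_on hc ?_ ?_
      · intro a ha b hb
        obtain ⟨r, hr⟩ := h2 a ha
        obtain ⟨b', hb', hbb⟩ := ih b hb
        refine ⟨∑ i, r i • (x i * b'), ?_, ?_⟩
        · exact Submodule.sum_mem _ fun i _ => Submodule.smul_mem _ _ (FStr_mul_mem x hx i b' hb')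
        · have e : a * b - ∑ i, r i • (x i * b') =
              (a - ∑ i, r i • x i) * b + (∑ i, r i • x i) * (b - b') := by
            have e1 : ∑ i, r i • (x i * b') = (∑ i, r i • x i) * b' := by
              rw [Finset.sum_mul]
              exact Finset.sum_congr rfl fun i _ => (smul_mul_assoc _ _ _).symm
            rw [e1]
            ring
          rw [e]
          refine Ideal.add_mem _ ?_ ?_
          · have h3 := Ideal.mul_mem_mul hr hb
            rw [← pow_add] at h3
            rwa [show N + 1 + 1 = 2 + N by ring]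
          · have h3 : ∑ i, r i • x i ∈ m := by
              refine Ideal.sum_mem _ fun i _ => ?_
              rw [Algebra.smul_def]
              exact Ideal.mul_mem_left _ _ (hxm i)
            have h4 := Ideal.mul_mem_mul h3 hbb
            rwa [← pow_succ'] at h4
      · rintro a b ⟨a', ha', haa⟩ ⟨b', hb', hbb⟩
        refine ⟨a' + b', Submodule.add_mem _ ha' hb', ?_⟩
        rw [show a + b - (a' + b') = (a - a') + (b - b') by ring]
        exact Ideal.add_mem _ haa hbb
  have hall : ∀ N : ℕ, ∀ a : F, ∃ b ∈ S, a - b ∈ m ^ N := by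
    intro N
    induction N with
    | zero =>
      intro a
      exact ⟨0, Submodule.zero_mem _, by rw [pow_zero, Ideal.one_eq_top]; exact Submodule.mem_top⟩
    | succ N ih =>
      intro a
      obtain ⟨b, hb, hab⟩ := ih a
      obtain ⟨c, hc, hcc⟩ := hstep N _ hab
      exact ⟨b + c, Submodule.add_mem _ hb hc, by rwa [← sub_sub]⟩
  obtain ⟨N, hN⟩ := hnil
  rw [eq_top_iff]
  intro a _
  obtain ⟨b, hb, hab⟩ := hall N a
  rw [hN, Ideal.mem_bot, sub_eq_zero] at hab
  rwa [hab]

end FStrAux

/-- Coordinates on a truncated polynomial algebra. -/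
structure Coords (k : Type u) [Field k] (p : ℕ) (F : Type u) [CommRing F] [Bialgebra k F]
    (n : ℕ) where
  x : Fin n → F
  aug : ∀ i, Coalgebra.counit (R := k) (x i) = 0
  pow : ∀ i, x i ^ p = 0
  basis : Module.Basis (Fin n → Fin p) k F
  basis_eq : ∀ α, basis α = ∏ i, x i ^ (α i : ℕ)

section FStrBialg

variable (k : Type u) [Field k] (F : Type u) [CommRing F] [Bialgebra k F]

/-- contraction of the second factor with a linear form -/
noncomputable def FStr_phi (v : F →ₗ[k] k) : F ⊗[k] F →ₗ[k] F :=
  (TensorProduct.rid k F).toLinearMap ∘ₗ LinearMap.lTensor F v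

theorem FStr_phi_tmul (v : F →ₗ[k] k) (a b : F) : FStr_phi k F v (a ⊗ₜ[k] b) = v b • a := by
  simp [FStr_phi]

theorem FStr_phi_mul (v : F →ₗ[k] k)
    (hv : ∀ a b : F, v (a * b) = Coalgebra.counit (R := k) a * v b +
      v a * Coalgebra.counit (R := k) b) (X Y : F ⊗[k] F) :
    FStr_phi k F v (X * Y) = FStr_phi k F Coalgebra.counit X * FStr_phi k F v Y +
      FStr_phi k F v X * FStr_phi k F Coalgebra.counit Y := by
  induction X using TensorProduct.induction_on with
  | zero => simp
  | add X X' hX hX' =>
    rw [add_mul, map_add, hX, hX', map_add, map_add]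
    ring
  | tmul a b =>
    induction Y using TensorProduct.induction_on with
    | zero => simp
    | add Y Y' hY hY' =>
      rw [mul_add, map_add, hY, hY', map_add, map_add]
      ring
    | tmul c d =>
      rw [Algebra.TensorProduct.tmul_mul_tmul]
      simp only [FStr_phi_tmul]
      rw [hv, add_smul, mul_smul, mul_smul]
      simp only [Algebra.smul_def]
      ring

/-- the derivation `(id ⊗ v) Δ` -/
noncomputable def FStr_der (v : F →ₗ[k] k)
    (hv : ∀ a b : F, v (a * b) = Coalgebra.counit (R := k) a * v b +
      v a * Coalgebra.counit (R := k) b) : Derivation k F F :=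
  Derivation.mk' (FStr_phi k F v ∘ₗ Coalgebra.comul) (by
    intro a b
    have h1 : ∀ c : F, FStr_phi k F Coalgebra.counit (Coalgebra.comul (R := k) c) = c := by
      intro c
      simp [FStr_phi, Coalgebra.lTensor_counit_comul]
    simp only [LinearMap.comp_apply, smul_eq_mul]
    rw [Bialgebra.comul_mul, FStr_phi_mul k F v hv, h1, h1]
    ring)

theorem FStr_counit_der (v : F →ₗ[k] k)
    (hv : ∀ a b : F, v (a * b) = Coalgebra.counit (R := k) a * v b +
      v a * Coalgebra.counit (R := k) b) (a : F) :
    Coalgebra.counit (R := k) (FStr_der k F v hv a) = v a := by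
  have h1 : ∀ X : F ⊗[k] F, Coalgebra.counit (R := k) (FStr_phi k F v X) =
      v (TensorProduct.lid k F (LinearMap.rTensor F Coalgebra.counit X)) := by
    intro X
    induction X using TensorProduct.induction_on with
    | zero => simp
    | add X Y hX hY => rw [map_add, map_add, hX, hY, map_add, map_add, map_add]
    | tmul b c =>
      rw [FStr_phi_tmul, LinearMap.rTensor_tmul, TensorProduct.lid_tmul, map_smul, map_smul,
        smul_eq_mul, smul_eq_mul, mul_comm]
  have h2 : FStr_der k F v hv a = FStr_phi k F v (Coalgebra.comul (R := k) a) := rfl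
  rw [h2, h1, Coalgebra.rTensor_counit_comul, TensorProduct.lid_tmul, one_smul]

end FStrBialg

theorem exists_coords (k : Type u) [Field k] (p : ℕ) [Fact p.Prime] [CharP k p] (F : Type u)
    [CommRing F] [Bialgebra k F] [Module.Finite k F]
    (hF : ∀ a : F, Coalgebra.counit (R := k) a = 0 → a ^ p = 0) :
    ∃ n : ℕ, Nonempty (Coords k p F n) := by
  classical
  -- the augmentation ideal
  let m : Ideal F := RingHom.ker (Bialgebra.counitAlgHom k F)
  have hmem : ∀ a : F, a ∈ m ↔ Coalgebra.counit (R := k) a = 0 := fun a => Iff.rfl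
  have hm : m ≠ ⊤ := RingHom.ker_ne_top _
  have hnoeth : IsNoetherianRing F := isNoetherian_of_isNoetherianRing_of_finite k F |> fun h =>
    isNoetherian_of_tower k h
  have hnil : ∃ N : ℕ, m ^ N = ⊥ := by
    have h1 : IsNilpotent m := by
      rw [Ideal.FG.isNilpotent_iff_le_nilradical (IsNoetherian.noetherian m)]
      intro a ha
      exact ⟨p, hF a ha⟩
    exact h1
  -- the maximal ideal and its square as subspaces
  let M1 : Submodule k F := m.restrictScalars k
  let M2 : Submodule k F := (m ^ 2).restrictScalars k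
  let Q := M1 ⧸ (M2.comap M1.subtype)
  have hQ : Module.Finite k Q := inferInstance
  let b : Module.Basis (Fin (Module.finrank k Q)) k Q := Module.finBasis k Q
  let q : M1 →ₗ[k] Q := (M2.comap M1.subtype).mkQ
  have hq0 : ∀ a : M1, q a = 0 ↔ (a : F) ∈ m ^ 2 := fun a => by
    rw [Submodule.mkQ_apply, Submodule.Quotient.mk_eq_zero]
    exact Iff.rfl
  choose y hy using fun i => Submodule.mkQ_surjective (M2.comap M1.subtype) (b i)
  let τ : F →ₗ[k] M1 :=
    { toFun := fun a => ⟨a - algebraMap k F (Coalgebra.counit (R := k) a), by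
        show a - algebraMap k F (Coalgebra.counit (R := k) a) ∈ m
        rw [hmem, map_sub, Bialgebra.counit_algebraMap, sub_self]⟩
      map_add' := fun a c => by
        apply Subtype.ext
        simp only [map_add, Submodule.coe_add]
        ring
      map_smul' := fun r a => by
        apply Subtype.ext
        show r • a - algebraMap k F (Coalgebra.counit (R := k) (r • a)) =
          r • (a - algebraMap k F (Coalgebra.counit (R := k) a))
        rw [map_smul, smul_eq_mul, map_mul, Algebra.smul_def, Algebra.smul_def]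
        ring }
  have hτ : ∀ a : F, ((τ a : M1) : F) = a - algebraMap k F (Coalgebra.counit (R := k) a) :=
    fun a => rfl
  let v : Fin (Module.finrank k Q) → (F →ₗ[k] k) := fun i => b.coord i ∘ₗ q ∘ₗ τ
  have hv : ∀ i, ∀ a c : F, v i (a * c) = Coalgebra.counit (R := k) a * v i c +
      v i a * Coalgebra.counit (R := k) c := by
    intro i a c
    have h1 : q (τ (a * c)) = Coalgebra.counit (R := k) a • q (τ c) +
        Coalgebra.counit (R := k) c • q (τ a) := by
      have h3 : q (Coalgebra.counit (R := k) a • τ c + Coalgebra.counit (R := k) c • τ a) =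
          Coalgebra.counit (R := k) a • q (τ c) + Coalgebra.counit (R := k) c • q (τ a) := by
        rw [map_add, map_smul, map_smul]
      rw [← h3, ← sub_eq_zero, ← map_sub, hq0]
      have h2 : ((τ (a * c) - (Coalgebra.counit (R := k) a • τ c +
          Coalgebra.counit (R := k) c • τ a) : M1) : F) = (τ a : F) * (τ c : F) := by
        simp only [Submodule.coe_sub, Submodule.coe_add, Submodule.coe_smul, hτ,
          Bialgebra.counit_mul, map_mul, Algebra.smul_def]
        ring
      rw [h2, pow_two]
      exact Ideal.mul_mem_mul (τ a).2 (τ c).2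
    show b.coord i (q (τ (a * c))) = _ * b.coord i (q (τ c)) + b.coord i (q (τ a)) * _
    rw [h1, map_add, map_smul, map_smul, smul_eq_mul, smul_eq_mul]
    ring
  let x : Fin (Module.finrank k Q) → F := fun i => (y i : F)
  have hxm : ∀ i, x i ∈ m := fun i => (y i).2
  have hτy : ∀ i, τ (x i) = y i := by
    intro i
    apply Subtype.ext
    rw [hτ, (hmem _).1 (hxm i), map_zero, sub_zero]
  have hvx : ∀ i j, v i (x j) = if i = j then 1 else 0 := by
    intro i j
    show b.coord i (q (τ (x j))) = _
    rw [hτy, show q (y j) = b j from hy j, Module.Basis.coord_apply, Module.Basis.repr_self,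
      Finsupp.single_apply]
    simp only [eq_comm]
  have hxp : ∀ i, x i ^ p = 0 := fun i => hF _ (hxm i)
  let D : Fin (Module.finrank k Q) → Derivation k F F := fun i => FStr_der k F (v i) (hv i)
  have hD : ∀ i j, D i (x j) - (if i = j then 1 else 0) ∈ m := by
    intro i j
    rw [hmem, map_sub, FStr_counit_der, hvx]
    split_ifs
    · rw [Bialgebra.counit_one, sub_self]
    · rw [map_zero, sub_self]
  have hspan := FStr_span m hnil x hxm hxp
    (fun a => ⟨Coalgebra.counit (R := k) a, by
      rw [hmem, map_sub, Bialgebra.counit_algebraMap, sub_self]⟩)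
    (fun a ha => ⟨fun i => b.coord i (q ⟨a, ha⟩), by
      have h1 : q (⟨a, ha⟩ - ∑ i, b.coord i (q ⟨a, ha⟩) • y i) = 0 := by
        rw [map_sub, map_sum]
        simp only [map_smul]
        rw [sub_eq_zero]
        conv_lhs => rw [← b.sum_repr (q ⟨a, ha⟩)]
        refine Finset.sum_congr rfl fun i _ => ?_
        rw [show q (y i) = b i from hy i]
        rfl
      rw [hq0] at h1
      simpa using h1⟩)
  let mon : (Fin (Module.finrank k Q) → Fin p) → F := fun α => ∏ i, x i ^ (α i : ℕ)
  have hli : LinearIndependent k mon := by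
    rw [Fintype.linearIndependent_iff]
    intro g hg α
    let e : (Fin (Module.finrank k Q) → Fin p) → (Fin (Module.finrank k Q) →₀ ℕ) :=
      fun α => Finsupp.equivFunOnFinite.symm fun i => (α i : ℕ)
    have he : ∀ α β, e α = e β → α = β := by
      intro α β h
      funext i
      apply Fin.ext
      have := DFunLike.congr_fun h i
      simpa [e] using this
    let f : MvPolynomial (Fin (Module.finrank k Q)) k := ∑ β, MvPolynomial.monomial (e β) (g β)
    have hcoeff : ∀ s, MvPolynomial.coeff s f = ∑ β, if e β = s then g β else 0 := by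
      intro s
      simp only [f, MvPolynomial.coeff_sum, MvPolynomial.coeff_monomial]
    have hf0 : MvPolynomial.aeval x f = 0 := by
      rw [map_sum, ← hg]
      refine Finset.sum_congr rfl fun β _ => ?_
      rw [MvPolynomial.aeval_monomial, ← Algebra.smul_def, Finsupp.prod_fintype]
      · rfl
      · intro i
        rw [pow_zero]
    have hbox : ∀ s, MvPolynomial.coeff s f ≠ 0 → ∀ i, s i < p := by
      intro s hs i
      rw [hcoeff] at hs
      obtain ⟨β, _, hβ⟩ := Finset.exists_ne_zero_of_sum_ne_zero hs
      have h1 : e β = s := by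
        by_contra h
        exact hβ (if_neg h)
      rw [← h1]
      exact (β i).2
    have h0 := FStr_indep m hm x hxm D hD f hbox hf0
    have h1 := hcoeff (e α)
    rw [h0, MvPolynomial.coeff_zero, Finset.sum_eq_single α] at h1
    · rw [if_pos rfl] at h1
      exact h1.symm
    · intro β _ hβ
      rw [if_neg]
      intro h
      exact hβ (he _ _ h)
    · intro h
      exact absurd (Finset.mem_univ α) h
  refine ⟨Module.finrank k Q, ⟨⟨x, fun i => (hmem _).1 (hxm i), hxp,
    Module.Basis.mk hli hspan.ge, fun α => ?_⟩⟩⟩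
  rw [Module.Basis.mk_apply]

section

variable {k : Type u} [Field k] {p : ℕ} {F : Type u} [CommRing F] [Bialgebra k F] {n : ℕ}

/-- The reduced polynomial representing an element of `F`. -/
noncomputable def Coords.red (c : Coords k p F n) : F →ₗ[k] MvPolynomial (Fin n) k :=
  c.basis.constr k fun α => ∏ i, MvPolynomial.X i ^ (α i : ℕ)

/-- The evaluation `P → F`. -/
noncomputable def Coords.ev (c : Coords k p F n) : MvPolynomial (Fin n) k →ₐ[k] F :=
  MvPolynomial.aeval c.x

/-- The coefficient of `X_i^p`. -/
noncomputable def lam (p : ℕ) (i : Fin n) : MvPolynomial (Fin n) k →ₗ[k] k :=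
  MvPolynomial.lcoeff k (Finsupp.single i p)

/-- The Bockstein cocycle of `x_i`: the coefficient of `X_i^p` in the product of the reduced
representatives. -/
noncomputable def Coords.bock (c : Coords k p F n) (i : Fin n) (a b : F) : k :=
  lam p i (c.red a * c.red b)

end

end Pool.Agent.Helper90.FC
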