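import Pool.Agent.Helper90.FC.FRed
import Pool.Agent.Helper90.FC.Sect

/-!
# Project FC, piece FOR: the bilinear forms `b_i`

`F → B → C` exact, `F` central with coordinates `c`, and `σ : Sect ι π`. Let
`P = MvPolynomial (Fin n) k`.

* `q : P ⊗ C → B`, `f ⊗ c ↦ ι (ev f) * s c`, is surjective with kernel `(ker ev) ⊗ C`;
  `sg : B ≅ F ⊗ C → P ⊗ C` (by `red`) is a linear section of it.
* `m : (P ⊗ C) × (P ⊗ C) → P ⊗ C`, `m (f ⊗ c, g ⊗ c') = (f g) • sg (s c * s c')`, is `P`-bilinear and
  `q (m u v) = q u * q v` (`F` is central).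
* `L_i (f ⊗ c) = lam p i f * ε c`, `e0 (f ⊗ c) = (constant coefficient of f) • c`; `L_i ∘ sg = 0`,
  `e0 (sg u) = π u`; for `z` in the kernel of `q`:
  `L_i (m z u) = L_i z * ε (e0 u)`, `L_i (m u z) = ε (e0 u) * L_i z`.
* `b_i (u, v) = L_i (m (sg u) (sg v))` satisfies
  `ε u b(v,w) - b(uv,w) + b(u,vw) - b(u,v) ε w = - L_i (m (m (sg u) (sg v)) (sg w)
     - m (sg u) (m (sg v) (sg w)))`
  and the right side only depends on `π u, π v, π w` (`P`-trilinearity, and
  `L_i (X_j • z) = 0` for `z` in the kernel of `q`).
* On `F`: `sg (ι f) = red f ⊗ 1` (`s 1 = 1`, `fsMap` is bijective), `m (f ⊗ 1, g ⊗ 1) = f g ⊗ 1`, so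
  `b_i (ι f, ι g) = lam p i (red f * red g)`.
-/

set_option linter.unusedSectionVars false
set_option autoImplicit false

open CategoryTheory CategoryTheory.Abelian CategoryTheory.Limits
open scoped ModuleCat TensorProduct
open Pool.Agent.Helper59.FG

namespace Pool.Agent.Helper90.FC

universe u

section

variable {k : Type u} [Field k]

section maps

variable {F B C : Type u} [CommRing F] [Ring B] [Ring C] [HopfAlgebra k F]
variable [HopfAlgebra k B] [HopfAlgebra k C]
variable {p : ℕ} {ι : F →ₐc[k] B} {π : B →ₐc[k] C} (σ : Sect ι π) {n : ℕ}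
  (c : Coords k p F n)

/-- `F ⊗ C ≃ B`. -/
private noncomputable def forEqv : (F ⊗[k] C) ≃ₗ[k] B :=
  LinearEquiv.ofBijective (fsMap ι σ.s) σ.bij

/-- the lift of an element of `B`. -/
private noncomputable def forSg : B →ₗ[k] MvPolynomial (Fin n) k ⊗[k] C :=
  LinearMap.rTensor C c.red ∘ₗ (forEqv σ).symm.toLinearMap

/-- The projection `P ⊗ C → B`. -/
private noncomputable def forQ : MvPolynomial (Fin n) k ⊗[k] C →ₗ[k] B :=
  fsMap ι σ.s ∘ₗ LinearMap.rTensor C c.ev.toLinearMap

/-- The product on generators. -/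
private noncomputable def forMu : C →ₗ[k] C →ₗ[k] MvPolynomial (Fin n) k ⊗[k] C :=
  ((LinearMap.mul k B).compl₁₂ σ.s σ.s).compr₂ (forSg σ c)

/-- The lifted product. -/
private noncomputable def forM : MvPolynomial (Fin n) k ⊗[k] C →ₗ[MvPolynomial (Fin n) k]
    (MvPolynomial (Fin n) k ⊗[k] C →ₗ[MvPolynomial (Fin n) k] MvPolynomial (Fin n) k ⊗[k] C) :=
  LinearMap.liftBaseChange (MvPolynomial (Fin n) k)
    (((LinearMap.liftBaseChangeEquiv (R := k) (M := C) (N := MvPolynomial (Fin n) k ⊗[k] C)
      (MvPolynomial (Fin n) k)).toLinearMap.restrictScalars k) ∘ₗ forMu σ c)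

private theorem forM_tmul (f g : MvPolynomial (Fin n) k) (a b : C) :
    forM σ c (f ⊗ₜ a) (g ⊗ₜ b) = f • g • forSg σ c (σ.s a * σ.s b) := by
  rw [forM, LinearMap.liftBaseChange_tmul]
  rfl

private theorem fsMap_tmul (f : F) (a : C) : fsMap ι σ.s (f ⊗ₜ[k] a) = ι f * σ.s a := rfl

private theorem forQ_tmul (f : MvPolynomial (Fin n) k) (a : C) :
    forQ σ c (f ⊗ₜ a) = ι (c.ev f) * σ.s a := rfl

private theorem forQ_smul (f : MvPolynomial (Fin n) k) (z : MvPolynomial (Fin n) k ⊗[k] C) :
    forQ σ c (f • z) = ι (c.ev f) * forQ σ c z := by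
  induction z using TensorProduct.induction_on with
  | zero => rw [smul_zero, map_zero, mul_zero]
  | tmul g a =>
    rw [TensorProduct.smul_tmul', forQ_tmul, forQ_tmul, smul_eq_mul, map_mul, map_mul, mul_assoc]
  | add x y hx hy => rw [smul_add, map_add, hx, hy, map_add, mul_add]

private theorem forQ_sg (u : B) : forQ σ c (forSg σ c u) = u := by
  have h : ∀ z : F ⊗[k] C, LinearMap.rTensor C c.ev.toLinearMap (LinearMap.rTensor C c.red z) =
      z := by
    intro z
    rw [← LinearMap.comp_apply, ← LinearMap.rTensor_comp]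
    have h1 : c.ev.toLinearMap ∘ₗ c.red = LinearMap.id := by
      ext a
      exact c.ev_red a
    rw [h1, LinearMap.rTensor_id, LinearMap.id_apply]
  change fsMap ι σ.s (LinearMap.rTensor C c.ev.toLinearMap
    (LinearMap.rTensor C c.red ((forEqv σ).symm u))) = u
  rw [h]
  exact (forEqv σ).apply_symm_apply u

private theorem forQ_M (hcen : ∀ (a : F) (b : B), ι a * b = b * ι a)
    (x y : MvPolynomial (Fin n) k ⊗[k] C) :
    forQ σ c (forM σ c x y) = forQ σ c x * forQ σ c y := by
  induction x using TensorProduct.induction_on with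
  | zero => rw [map_zero, LinearMap.zero_apply, map_zero, zero_mul]
  | add x x' hx hx' => rw [map_add, LinearMap.add_apply, map_add, hx, hx', map_add, add_mul]
  | tmul f a =>
    induction y using TensorProduct.induction_on with
    | zero => rw [map_zero, map_zero, mul_zero]
    | add y y' hy hy' => rw [map_add, map_add, hy, hy', map_add, mul_add]
    | tmul g b =>
      rw [forM_tmul, forQ_smul, forQ_smul, forQ_sg, forQ_tmul, forQ_tmul, mul_assoc,
        ← mul_assoc (σ.s a), ← hcen (c.ev g) (σ.s a), mul_assoc (ι (c.ev g))]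

/-- The functional `L_i`. -/
private noncomputable def forL (p : ℕ) (i : Fin n) : MvPolynomial (Fin n) k ⊗[k] C →ₗ[k] k :=
  TensorProduct.lift ((LinearMap.mul k k).compl₁₂ (lam p i) Coalgebra.counit)

private theorem forL_tmul (i : Fin n) (f : MvPolynomial (Fin n) k) (a : C) :
    forL p i (f ⊗ₜ[k] a) = lam p i f * Coalgebra.counit (R := k) a := rfl

/-- The constant coefficient, as a linear map. -/
private noncomputable def forCC : MvPolynomial (Fin n) k →ₗ[k] k :=
  (MvPolynomial.aeval (fun _ : Fin n => (0 : k))).toLinearMap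

private theorem forCC_apply (f : MvPolynomial (Fin n) k) :
    forCC f = MvPolynomial.constantCoeff f := MvPolynomial.aeval_zero' f

/-- The map `e0`. -/
private noncomputable def forE : MvPolynomial (Fin n) k ⊗[k] C →ₗ[k] C :=
  TensorProduct.lift (LinearMap.lsmul k C ∘ₗ forCC)

private theorem forE_tmul (f : MvPolynomial (Fin n) k) (a : C) :
    forE (f ⊗ₜ[k] a) = MvPolynomial.constantCoeff f • a := by
  rw [← forCC_apply]
  rfl

private theorem forE_smul (f : MvPolynomial (Fin n) k) (z : MvPolynomial (Fin n) k ⊗[k] C) :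
    forE (f • z) = MvPolynomial.constantCoeff f • forE z := by
  induction z using TensorProduct.induction_on with
  | zero => rw [smul_zero, map_zero, smul_zero]
  | tmul g a =>
    rw [TensorProduct.smul_tmul', forE_tmul, forE_tmul, smul_eq_mul, map_mul, mul_smul]
  | add x y hx hy => rw [smul_add, map_add, hx, hy, map_add, smul_add]

private theorem forL_sg (i : Fin n) (u : B) : forL p i (forSg σ c u) = 0 := by
  have h : ∀ z : F ⊗[k] C, forL (C := C) p i (LinearMap.rTensor C c.red z) = 0 := by
    intro z
    induction z using TensorProduct.induction_on with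
    | zero => rw [map_zero, map_zero]
    | tmul g a =>
      rw [LinearMap.rTensor_tmul, forL_tmul, c.lam_red, zero_mul]
    | add x y hx hy => rw [map_add, map_add, hx, hy, add_zero]
  exact h _

private theorem forE_sg [Fact p.Prime] (hker : ∀ a : F, π (ι a) =
    algebraMap k C (Coalgebra.counit (R := k) a)) (u : B) : forE (forSg σ c u) = π u := by
  have h : ∀ z : F ⊗[k] C, forE (LinearMap.rTensor C c.red z) = π (fsMap ι σ.s z) := by
    intro z
    induction z using TensorProduct.induction_on with
    | zero => rw [map_zero, map_zero, map_zero, map_zero]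
    | tmul g a =>
      rw [LinearMap.rTensor_tmul, forE_tmul, c.const_red, fsMap_tmul, map_mul, hker, σ.sec,
        Algebra.smul_def]
    | add x y hx hy => rw [map_add, map_add, hx, hy, map_add, map_add]
  have h1 := h ((forEqv σ).symm u)
  have h2 : fsMap ι σ.s ((forEqv σ).symm u) = u := (forEqv σ).apply_symm_apply u
  rw [h2] at h1
  exact h1

private theorem forE_M [Fact p.Prime] (hker : ∀ a : F, π (ι a) =
    algebraMap k C (Coalgebra.counit (R := k) a)) (x y : MvPolynomial (Fin n) k ⊗[k] C) :
    forE (forM σ c x y) = forE x * forE y := by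
  induction x using TensorProduct.induction_on with
  | zero => rw [map_zero, LinearMap.zero_apply, map_zero, zero_mul]
  | add x x' hx hx' => rw [map_add, LinearMap.add_apply, map_add, hx, hx', map_add, add_mul]
  | tmul f a =>
    induction y using TensorProduct.induction_on with
    | zero => rw [map_zero, map_zero, mul_zero]
    | add y y' hy hy' => rw [map_add, map_add, hy, hy', map_add, mul_add]
    | tmul g b =>
      rw [forM_tmul, forE_smul, forE_smul, forE_sg σ c hker, map_mul, σ.sec, σ.sec, forE_tmul,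
        forE_tmul, smul_mul_smul_comm, mul_smul]

/-- The kernel of `q` is generated by the `f ⊗ a` with `ev f = 0`. -/
private theorem forQ_ker {motive : MvPolynomial (Fin n) k ⊗[k] C → Prop}
    (h0 : motive 0) (hadd : ∀ x y, motive x → motive y → motive (x + y))
    (ht : ∀ (f : MvPolynomial (Fin n) k) (a : C), c.ev f = 0 → motive (f ⊗ₜ a))
    (z : MvPolynomial (Fin n) k ⊗[k] C) (hz : forQ σ c z = 0) : motive z := by
  have h1 : LinearMap.rTensor C c.ev.toLinearMap z = 0 := by
    apply σ.bij.1
    rw [map_zero]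
    exact hz
  have h2 : Function.Exact (LinearMap.rTensor C (LinearMap.ker c.ev.toLinearMap).subtype)
      (LinearMap.rTensor C c.ev.toLinearMap) := by
    apply rTensor_exact
    · exact LinearMap.exact_subtype_ker_map _
    · intro a
      exact ⟨c.red a, c.ev_red a⟩
  obtain ⟨w, hw⟩ := (h2 z).1 h1
  rw [← hw]
  clear hw h1 hz
  induction w using TensorProduct.induction_on with
  | zero => rw [map_zero]; exact h0
  | tmul f a => exact ht f.1 a f.2
  | add x y hx hy => rw [map_add]; exact hadd _ _ hx hy

private theorem forL_smul_ev [Fact p.Prime] (i : Fin n) (f : MvPolynomial (Fin n) k)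
    (hf : c.ev f = 0) (w : MvPolynomial (Fin n) k ⊗[k] C) :
    forL p i (f • w) = lam p i f * Coalgebra.counit (R := k) (forE w) := by
  induction w using TensorProduct.induction_on with
  | zero => rw [smul_zero, map_zero, map_zero, map_zero, mul_zero]
  | tmul g a =>
    rw [TensorProduct.smul_tmul', forL_tmul, forE_tmul, smul_eq_mul, mul_comm f g,
      c.lam_mul i g f hf, map_smul, smul_eq_mul]
    ring
  | add x y hx hy => rw [smul_add, map_add, hx, hy, map_add, map_add, mul_add]

private theorem forL_smul [Fact p.Prime] (i : Fin n) (f : MvPolynomial (Fin n) k)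
    (z : MvPolynomial (Fin n) k ⊗[k] C) (hz : forQ σ c z = 0) :
    forL p i (f • z) = MvPolynomial.constantCoeff f * forL p i z := by
  refine forQ_ker σ c (motive := fun z => forL p i (f • z) =
    MvPolynomial.constantCoeff f * forL p i z) ?_ ?_ ?_ z hz
  · rw [smul_zero, map_zero, mul_zero]
  · intro x y hx hy
    rw [smul_add, map_add, hx, hy, map_add, mul_add]
  · intro g a hg
    rw [TensorProduct.smul_tmul', forL_tmul, forL_tmul, smul_eq_mul, c.lam_mul i f g hg]
    ring

private theorem forL_M_left [Fact p.Prime] (hker : ∀ a : F, π (ι a) =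
    algebraMap k C (Coalgebra.counit (R := k) a)) (i : Fin n)
    (z u : MvPolynomial (Fin n) k ⊗[k] C) (hz : forQ σ c z = 0) :
    forL p i (forM σ c z u) = forL p i z * Coalgebra.counit (R := k) (forE u) := by
  refine forQ_ker σ c (motive := fun z => forL p i (forM σ c z u) =
    forL p i z * Coalgebra.counit (R := k) (forE u)) ?_ ?_ ?_ z hz
  · rw [map_zero, map_zero, LinearMap.zero_apply, map_zero, zero_mul]
  · intro x y hx hy
    rw [map_add, LinearMap.add_apply, map_add, hx, hy, map_add, add_mul]
  · intro g a hg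
    have h1 : (g ⊗ₜ[k] a) = g • ((1 : MvPolynomial (Fin n) k) ⊗ₜ[k] a) := by
      rw [TensorProduct.smul_tmul', smul_eq_mul, mul_one]
    rw [h1, map_smul, LinearMap.smul_apply, forL_smul_ev c i g hg, forE_M σ c hker, ← h1,
      forL_tmul, forE_tmul, map_one, one_smul, Bialgebra.counit_mul, mul_assoc]

private theorem forL_M_right [Fact p.Prime] (hker : ∀ a : F, π (ι a) =
    algebraMap k C (Coalgebra.counit (R := k) a)) (i : Fin n)
    (u z : MvPolynomial (Fin n) k ⊗[k] C) (hz : forQ σ c z = 0) :
    forL p i (forM σ c u z) = Coalgebra.counit (R := k) (forE u) * forL p i z := by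
  refine forQ_ker σ c (motive := fun z => forL p i (forM σ c u z) =
    Coalgebra.counit (R := k) (forE u) * forL p i z) ?_ ?_ ?_ z hz
  · rw [map_zero, map_zero, mul_zero]
  · intro x y hx hy
    rw [map_add, map_add, hx, hy, map_add, mul_add]
  · intro g a hg
    have h1 : (g ⊗ₜ[k] a) = g • ((1 : MvPolynomial (Fin n) k) ⊗ₜ[k] a) := by
      rw [TensorProduct.smul_tmul', smul_eq_mul, mul_one]
    rw [h1, map_smul, forL_smul_ev c i g hg, forE_M σ c hker, ← h1,
      forL_tmul, forE_tmul, map_one, one_smul, Bialgebra.counit_mul]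
    ring

/-- The associator followed by `L_i`. -/
private noncomputable def forT (i : Fin n) (x y z : MvPolynomial (Fin n) k ⊗[k] C) : k :=
  forL p i (forM σ c x (forM σ c y z) - forM σ c (forM σ c x y) z)

private theorem forQ_assoc (hcen : ∀ (a : F) (b : B), ι a * b = b * ι a)
    (x y z : MvPolynomial (Fin n) k ⊗[k] C) :
    forQ σ c (forM σ c x (forM σ c y z) - forM σ c (forM σ c x y) z) = 0 := by
  rw [map_sub, forQ_M σ c hcen, forQ_M σ c hcen, forQ_M σ c hcen, forQ_M σ c hcen, mul_assoc,
    sub_self]

private theorem forT_red₁ [Fact p.Prime] (hcen : ∀ (a : F) (b : B), ι a * b = b * ι a)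
    (i : Fin n) (x y z : MvPolynomial (Fin n) k ⊗[k] C) :
    forT σ c i x y z = forT σ c i (1 ⊗ₜ forE x) y z := by
  induction x using TensorProduct.induction_on with
  | zero => rw [map_zero, TensorProduct.tmul_zero]
  | add x x' hx hx' =>
    have hadd : ∀ x x', forT σ c i (x + x') y z = forT σ c i x y z + forT σ c i x' y z := by
      intro x x'
      rw [forT, forT, forT, ← map_add]
      congr 1
      simp only [map_add, LinearMap.add_apply]
      abel
    rw [map_add, TensorProduct.tmul_add, hadd, hadd, hx, hx']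
  | tmul f a =>
    have h1 : (f ⊗ₜ[k] a) = f • ((1 : MvPolynomial (Fin n) k) ⊗ₜ[k] a) := by
      rw [TensorProduct.smul_tmul', smul_eq_mul, mul_one]
    have h2 : ((1 : MvPolynomial (Fin n) k) ⊗ₜ[k] (forE (f ⊗ₜ[k] a) : C)) =
        MvPolynomial.constantCoeff f • ((1 : MvPolynomial (Fin n) k) ⊗ₜ[k] a) := by
      rw [forE_tmul, TensorProduct.tmul_smul]
    have h3 : ∀ (r : k) (w : MvPolynomial (Fin n) k ⊗[k] C),
        r • w = (MvPolynomial.C r : MvPolynomial (Fin n) k) • w := by
      intro r w
      rw [← MvPolynomial.algebraMap_eq, algebraMap_smul]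
    have h4 : ∀ (g : MvPolynomial (Fin n) k) (w : MvPolynomial (Fin n) k ⊗[k] C),
        forT σ c i (g • w) y z = MvPolynomial.constantCoeff g * forT σ c i w y z := by
      intro g w
      rw [forT, forT, ← forL_smul σ c i g _ (forQ_assoc σ c hcen _ _ _)]
      congr 1
      simp only [map_smul, LinearMap.smul_apply, smul_sub]
    rw [h2, h1, h3, h4, h4, MvPolynomial.constantCoeff_C]

private theorem forT_red₂ [Fact p.Prime] (hcen : ∀ (a : F) (b : B), ι a * b = b * ι a)
    (i : Fin n) (x y z : MvPolynomial (Fin n) k ⊗[k] C) :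
    forT σ c i x y z = forT σ c i x (1 ⊗ₜ forE y) z := by
  induction y using TensorProduct.induction_on with
  | zero => rw [map_zero, TensorProduct.tmul_zero]
  | add y y' hy hy' =>
    have hadd : ∀ y y', forT σ c i x (y + y') z = forT σ c i x y z + forT σ c i x y' z := by
      intro y y'
      rw [forT, forT, forT, ← map_add]
      congr 1
      simp only [map_add, LinearMap.add_apply]
      abel
    rw [map_add, TensorProduct.tmul_add, hadd, hadd, hy, hy']
  | tmul f a =>
    have h1 : (f ⊗ₜ[k] a) = f • ((1 : MvPolynomial (Fin n) k) ⊗ₜ[k] a) := by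
      rw [TensorProduct.smul_tmul', smul_eq_mul, mul_one]
    have h2 : ((1 : MvPolynomial (Fin n) k) ⊗ₜ[k] (forE (f ⊗ₜ[k] a) : C)) =
        MvPolynomial.constantCoeff f • ((1 : MvPolynomial (Fin n) k) ⊗ₜ[k] a) := by
      rw [forE_tmul, TensorProduct.tmul_smul]
    have h3 : ∀ (r : k) (w : MvPolynomial (Fin n) k ⊗[k] C),
        r • w = (MvPolynomial.C r : MvPolynomial (Fin n) k) • w := by
      intro r w
      rw [← MvPolynomial.algebraMap_eq, algebraMap_smul]
    have h4 : ∀ (g : MvPolynomial (Fin n) k) (w : MvPolynomial (Fin n) k ⊗[k] C),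
        forT σ c i x (g • w) z = MvPolynomial.constantCoeff g * forT σ c i x w z := by
      intro g w
      rw [forT, forT, ← forL_smul σ c i g _ (forQ_assoc σ c hcen _ _ _)]
      congr 1
      simp only [map_smul, LinearMap.smul_apply, smul_sub]
    rw [h2, h1, h3, h4, h4, MvPolynomial.constantCoeff_C]

private theorem forT_red₃ [Fact p.Prime] (hcen : ∀ (a : F) (b : B), ι a * b = b * ι a)
    (i : Fin n) (x y z : MvPolynomial (Fin n) k ⊗[k] C) :
    forT σ c i x y z = forT σ c i x y (1 ⊗ₜ forE z) := by
  induction z using TensorProduct.induction_on with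
  | zero => rw [map_zero, TensorProduct.tmul_zero]
  | add z z' hz hz' =>
    have hadd : ∀ z z', forT σ c i x y (z + z') = forT σ c i x y z + forT σ c i x y z' := by
      intro z z'
      rw [forT, forT, forT, ← map_add]
      congr 1
      simp only [map_add]
      abel
    rw [map_add, TensorProduct.tmul_add, hadd, hadd, hz, hz']
  | tmul f a =>
    have h1 : (f ⊗ₜ[k] a) = f • ((1 : MvPolynomial (Fin n) k) ⊗ₜ[k] a) := by
      rw [TensorProduct.smul_tmul', smul_eq_mul, mul_one]
    have h2 : ((1 : MvPolynomial (Fin n) k) ⊗ₜ[k] (forE (f ⊗ₜ[k] a) : C)) =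
        MvPolynomial.constantCoeff f • ((1 : MvPolynomial (Fin n) k) ⊗ₜ[k] a) := by
      rw [forE_tmul, TensorProduct.tmul_smul]
    have h3 : ∀ (r : k) (w : MvPolynomial (Fin n) k ⊗[k] C),
        r • w = (MvPolynomial.C r : MvPolynomial (Fin n) k) • w := by
      intro r w
      rw [← MvPolynomial.algebraMap_eq, algebraMap_smul]
    have h4 : ∀ (g : MvPolynomial (Fin n) k) (w : MvPolynomial (Fin n) k ⊗[k] C),
        forT σ c i x y (g • w) = MvPolynomial.constantCoeff g * forT σ c i x y w := by
      intro g w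
      rw [forT, forT, ← forL_smul σ c i g _ (forQ_assoc σ c hcen _ _ _)]
      congr 1
      simp only [map_smul, smul_sub]
    rw [h2, h1, h3, h4, h4, MvPolynomial.constantCoeff_C]

/-- The form `b_i`. -/
private noncomputable def forB (i : Fin n) : B →ₗ[k] B →ₗ[k] k :=
  LinearMap.mk₂ k (fun u v => forL p i (forM σ c (forSg σ c u) (forSg σ c v)))
    (fun u u' v => by simp only [map_add, LinearMap.add_apply])
    (fun r u v => by
      rw [map_smul, ← algebraMap_smul (MvPolynomial (Fin n) k) r (forSg σ c u), map_smul,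
        LinearMap.smul_apply, algebraMap_smul, map_smul])
    (fun u v v' => by simp only [map_add])
    (fun r u v => by
      rw [map_smul, ← algebraMap_smul (MvPolynomial (Fin n) k) r (forSg σ c v), map_smul,
        algebraMap_smul, map_smul])

private theorem forB_apply (i : Fin n) (u v : B) :
    forB σ c i u v = forL p i (forM σ c (forSg σ c u) (forSg σ c v)) := rfl

/-- The product of the lifts is congruent to the lift of the product. -/
private theorem forQ_diff (hcen : ∀ (a : F) (b : B), ι a * b = b * ι a) (u v : B) :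
    forQ σ c (forM σ c (forSg σ c u) (forSg σ c v) - forSg σ c (u * v)) = 0 := by
  rw [map_sub, forQ_M σ c hcen, forQ_sg, forQ_sg, forQ_sg, sub_self]

private theorem forB_cob [Fact p.Prime] (hcen : ∀ (a : F) (b : B), ι a * b = b * ι a)
    (hker : ∀ a : F, π (ι a) = algebraMap k C (Coalgebra.counit (R := k) a)) (i : Fin n)
    (u v w : B) :
    Coalgebra.counit (R := k) u * forB σ c i v w - forB σ c i (u * v) w + forB σ c i u (v * w) -
      forB σ c i u v * Coalgebra.counit (R := k) w =
      forT σ c i (forSg σ c u) (forSg σ c v) (forSg σ c w) := by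
  have hε : ∀ b : B, Coalgebra.counit (R := k) (forE (forSg σ c b)) =
      Coalgebra.counit (R := k) b := by
    intro b
    rw [forE_sg σ c hker]
    exact CoalgHomClass.counit_comp_apply π b
  have h1 := forL_M_left σ c hker i _ (forSg σ c w) (forQ_diff σ c hcen u v)
  have h2 := forL_M_right σ c hker i (forSg σ c u) _ (forQ_diff σ c hcen v w)
  rw [map_sub, LinearMap.sub_apply, map_sub, map_sub, forL_sg, sub_zero, hε] at h1
  rw [map_sub, map_sub, map_sub, forL_sg, sub_zero, hε] at h2
  rw [forT, map_sub, forB_apply, forB_apply, forB_apply, forB_apply]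
  linear_combination h1 - h2

end maps

variable {F B C : Type u} [CommRing F] [Ring B] [Ring C] [HopfAlgebra k F]
variable [HopfAlgebra k B] [HopfAlgebra k C] [Module.Finite k F] [Module.Finite k B]
  [Module.Finite k C]

/-- The bilinear form `b_i`. -/
theorem exists_form (p : ℕ) [Fact p.Prime] [CharP k p] (ι : F →ₐc[k] B) (π : B →ₐc[k] C)
    (hex : CentralExact k ι π) (σ : Sect ι π) {n : ℕ} (c : Coords k p F n) (i : Fin n) :
    ∃ (b : B →ₗ[k] B →ₗ[k] k) (y : C →ₗ[k] C →ₗ[k] C →ₗ[k] k),
      (∀ u v w : B, Coalgebra.counit (R := k) u * b v w - b (u * v) w + b u (v * w) -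
        b u v * Coalgebra.counit (R := k) w = y (π u) (π v) (π w)) ∧
      ∀ f g : F, b (ι f) (ι g) = c.bock i f g := by
  have hcen := hex.central
  have hker : ∀ a : F, π (ι a) = algebraMap k C (Coalgebra.counit (R := k) a) := by
    intro a
    have h1 : π (ι (a - algebraMap k F (Coalgebra.counit (R := k) a))) = 0 := by
      rw [hex.ker]
      apply Ideal.subset_span
      refine ⟨_, ?_, rfl⟩
      change Coalgebra.counit (R := k) (a - algebraMap k F (Coalgebra.counit (R := k) a)) = 0
      rw [map_sub, Bialgebra.counit_algebraMap, sub_self]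
    rw [map_sub, map_sub, sub_eq_zero] at h1
    rw [h1]
    rw [AlgHomClass.commutes, AlgHomClass.commutes]
  let j : C →ₗ[k] MvPolynomial (Fin n) k ⊗[k] C := TensorProduct.mk k _ _ 1
  have hsm1 : ∀ (r : k) (x y z : MvPolynomial (Fin n) k ⊗[k] C),
      forT σ c i (r • x) y z = r * forT σ c i x y z := by
    intro r x y z
    rw [← algebraMap_smul (MvPolynomial (Fin n) k) r x, forT, forT, ← smul_eq_mul, ← map_smul,
      ← algebraMap_smul (MvPolynomial (Fin n) k) r (_ - _)]
    congr 1
    simp only [map_smul, LinearMap.smul_apply, smul_sub]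
  have hsm2 : ∀ (r : k) (x y z : MvPolynomial (Fin n) k ⊗[k] C),
      forT σ c i x (r • y) z = r * forT σ c i x y z := by
    intro r x y z
    rw [← algebraMap_smul (MvPolynomial (Fin n) k) r y, forT, forT, ← smul_eq_mul, ← map_smul,
      ← algebraMap_smul (MvPolynomial (Fin n) k) r (_ - _)]
    congr 1
    simp only [map_smul, LinearMap.smul_apply, smul_sub]
  have hsm3 : ∀ (r : k) (x y z : MvPolynomial (Fin n) k ⊗[k] C),
      forT σ c i x y (r • z) = r * forT σ c i x y z := by
    intro r x y z
    rw [← algebraMap_smul (MvPolynomial (Fin n) k) r z, forT, forT, ← smul_eq_mul, ← map_smul,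
      ← algebraMap_smul (MvPolynomial (Fin n) k) r (_ - _)]
    congr 1
    simp only [map_smul, smul_sub]
  have had1 : ∀ (x x' y z : MvPolynomial (Fin n) k ⊗[k] C),
      forT σ c i (x + x') y z = forT σ c i x y z + forT σ c i x' y z := by
    intro x x' y z
    rw [forT, forT, forT, ← map_add]
    congr 1
    simp only [map_add, LinearMap.add_apply]
    abel
  have had2 : ∀ (x y y' z : MvPolynomial (Fin n) k ⊗[k] C),
      forT σ c i x (y + y') z = forT σ c i x y z + forT σ c i x y' z := by
    intro x y y' z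
    rw [forT, forT, forT, ← map_add]
    congr 1
    simp only [map_add, LinearMap.add_apply]
    abel
  have had3 : ∀ (x y z z' : MvPolynomial (Fin n) k ⊗[k] C),
      forT σ c i x y (z + z') = forT σ c i x y z + forT σ c i x y z' := by
    intro x y z z'
    rw [forT, forT, forT, ← map_add]
    congr 1
    simp only [map_add]
    abel
  let y : C →ₗ[k] C →ₗ[k] C →ₗ[k] k := LinearMap.mk₂ k
    (fun a b =>
      { toFun := fun d => forT σ c i (j a) (j b) (j d)
        map_add' := fun d d' => by rw [map_add, had3]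
        map_smul' := fun r d => by rw [map_smul, hsm3]; rfl })
    (fun a a' b => by
      ext d
      change forT σ c i (j (a + a')) (j b) (j d) = forT σ c i (j a) (j b) (j d) +
        forT σ c i (j a') (j b) (j d)
      rw [map_add, had1])
    (fun r a b => by
      ext d
      change forT σ c i (j (r • a)) (j b) (j d) = r * forT σ c i (j a) (j b) (j d)
      rw [map_smul, hsm1])
    (fun a b b' => by
      ext d
      change forT σ c i (j a) (j (b + b')) (j d) = forT σ c i (j a) (j b) (j d) +
        forT σ c i (j a) (j b') (j d)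
      rw [map_add, had2])
    (fun r a b => by
      ext d
      change forT σ c i (j a) (j (r • b)) (j d) = r * forT σ c i (j a) (j b) (j d)
      rw [map_smul, hsm2])
  refine ⟨forB σ c i, y, fun u v w => ?_, fun f g => ?_⟩
  · rw [forB_cob σ c hcen hker]
    change _ = forT σ c i (1 ⊗ₜ (π u)) (1 ⊗ₜ (π v)) (1 ⊗ₜ (π w))
    rw [forT_red₁ σ c hcen, forT_red₂ σ c hcen, forT_red₃ σ c hcen, forE_sg σ c hker,
      forE_sg σ c hker, forE_sg σ c hker]
  · have hsg : ∀ f : F, forSg σ c (ι f) = c.red f ⊗ₜ (1 : C) := by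
      intro f
      have h1 : (forEqv σ).symm (ι f) = f ⊗ₜ[k] (1 : C) := by
        rw [LinearEquiv.symm_apply_eq]
        change ι f = ι f * σ.s 1
        rw [σ.one, mul_one]
      change LinearMap.rTensor C c.red ((forEqv σ).symm (ι f)) = _
      rw [h1, LinearMap.rTensor_tmul]
    have hone : forSg σ c 1 = 1 ⊗ₜ (1 : C) := by
      have h := hsg 1
      rwa [map_one, c.red_one] at h
    rw [forB_apply, hsg, hsg, forM_tmul, σ.one, mul_one, hone, TensorProduct.smul_tmul',
      TensorProduct.smul_tmul', forL_tmul, Bialgebra.counit_one, mul_one, smul_eq_mul, smul_eq_mul,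
      mul_one]
    rfl

end

end Pool.Agent.Helper90.FC
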