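import Pool.Agent.Helper90.FC.VMod
import Pool.Agent.Helper90.FC.Climb
import Pool.Agent.Helper90.FC.Acyc

/-!
# Project FC, piece GRA: transport to the group algebra

Let `G = Fin n → Multiplicative (ZMod p)` and `R = MonoidAlgebra k G`, a finite-dimensional
Hopf algebra. As an augmented algebra `R ≅ F`: `ψ : R → F`, `g_i ↦ 1 + x_i`
(`(1 + x_i)^p = 1`), is surjective and the dimensions agree (`psi`).

* `evGen_res_iff` (transport): restriction along an isomorphism `ψ` of augmented algebras is an
  equivalence of categories, so it is bijective on `Ext` (for instance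
  `Functor.mapExt_bijective_of_preservesInjectiveObjects`), and multiplicative (`rsE_mul`); so if the
  restricted family generates `Ext_R(k, k)` eventually then the family generates `Ext_F(k, k)`
  eventually.
* Over `R`: let `W_i` be the restriction of the module `W` of `exists_vdata` and
  `Y_0 = k`, `Y_{m+1} = W_m ⊗ Y_m` (`m < n`). `climb2` over `R`: if the family generates
  `Ext(k, Y_{m+1})` eventually then also `Ext(k, Y_m)`. It remains to see that `Y_n` is a free
  `R`-module of rank one, so that `Ext^j(k, Y_n) = 0` for `j ≥ 1` (`self_injective` of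
  Helper59/FG/Mods.lean). Claim by induction on `m`: `x_i := g_i - 1` acts as zero on `Y_m` for
  `i ≥ m`, and some `v_m ∈ Y_m` satisfies `(∏_{i<m} x_i^(p-1)) v_m ≠ 0`. Indeed `g_m` acts
  trivially on `Y_m` and `g_i`, `i ≠ m`, trivially on `W_m`, and `g` is grouplike, so on
  `W_m ⊗ Y_m` the element `x_m` acts as `x_m ⊗ 1` and `x_i` (`i < m`) as `1 ⊗ x_i`; take
  `v_{m+1} = e_0 ⊗ v_m`. Every nonzero ideal of `F ≅ R` contains `∏ x_i^(p-1)` (multiply a nonzero
  element by a suitable monomial), so `R → Y_n`, `r ↦ r v_n` is injective, and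
  `dim Y_n = p^n = dim R`.
-/

set_option linter.unusedSectionVars false
set_option autoImplicit false

open CategoryTheory CategoryTheory.Abelian CategoryTheory.Limits
open scoped ModuleCat TensorProduct
open Pool.Agent.Helper59.FG

namespace Pool.Agent.Helper90.FC

universe u

section

variable {k : Type u} [Field k]

/-- A family of classes of degree two. -/
noncomputable def fam2 {A : Type u} [Ring A] [Bialgebra k A] {ι : Type}
    (c : ι → Ext (trivObj k A) (trivObj k A) 2) : Fam k A ι where
  deg := fun _ => 2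
  cls := c
  pos := fun _ => by norm_num
  even := fun _ => ⟨1, rfl⟩

private theorem GrpA_rsE_bij {A B : Type u} [Ring A] [Ring B] [Bialgebra k A] [Bialgebra k B]
    (φ : A →ₐ[k] B) (hφ : Aug φ) (hb : Function.Bijective φ) (n : ℕ) :
    Function.Bijective (rsE φ hφ (n := n)) := by
  have hE : (res φ).IsEquivalence := by
    have h1 := ModuleCat.restrictScalars_isEquivalence_of_ringEquiv
      (RingEquiv.ofBijective φ.toRingHom hb)
    have h2 : (RingEquiv.ofBijective φ.toRingHom hb).toRingHom = φ.toRingHom := by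
      ext x; rfl
    rw [h2] at h1
    exact h1
  have hbij := (res φ).mapExt_bijective_of_preservesInjectiveObjects (trivObj k B) (trivObj k B) n
  have hinv : ∀ x : Ext (trivObj k B) (trivObj k B) n, x.mapExactFunctor (res φ) =
      (Ext.mk₀ (inv (resTriv φ hφ))).comp
        ((rsE φ hφ x).comp (Ext.mk₀ (resTriv φ hφ)) (add_zero n)) (zero_add n) := by
    intro x
    rw [rsE, rs, Ext.comp_assoc_of_third_deg_zero, Ext.mk₀_comp_mk₀, IsIso.inv_hom_id,
      Ext.comp_mk₀_id, Ext.mk₀_comp_mk₀_assoc, IsIso.inv_hom_id, Ext.mk₀_id_comp]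
  constructor
  · intro x y hxy
    apply hbij.1
    change x.mapExactFunctor (res φ) = y.mapExactFunctor (res φ)
    rw [hinv x, hinv y, hxy]
  · intro y
    obtain ⟨x, hx⟩ := hbij.2 ((Ext.mk₀ (inv (resTriv φ hφ))).comp
        (y.comp (Ext.mk₀ (resTriv φ hφ)) (add_zero n)) (zero_add n))
    refine ⟨x, ?_⟩
    have hx' : x.mapExactFunctor (res φ) = (Ext.mk₀ (inv (resTriv φ hφ))).comp
        (y.comp (Ext.mk₀ (resTriv φ hφ)) (add_zero n)) (zero_add n) := hx
    rw [rsE, rs, hx', Ext.mk₀_comp_mk₀_assoc, IsIso.hom_inv_id, Ext.mk₀_id_comp,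
      Ext.comp_assoc_of_third_deg_zero, Ext.mk₀_comp_mk₀, IsIso.hom_inv_id, Ext.comp_mk₀_id]

/-- Transport along an isomorphism of augmented algebras. -/
theorem evGen_of_res {A B : Type u} [Ring A] [Ring B] [Bialgebra k A] [Bialgebra k B]
    [Module.Finite k A] [Module.Finite k B] (φ : A →ₐ[k] B) (hφ : Aug φ)
    (hb : Function.Bijective φ) {ι : Type} (ζ : Fam k B ι)
    (h : (ζ.res φ hφ).EvGen (trivObj k A)) : ζ.EvGen (trivObj k B) := by
  obtain ⟨N, hN⟩ := h
  refine ⟨N, fun n hn => ?_⟩
  let L : Ext (trivObj k B) (trivObj k B) n →ₗ[k] Ext (trivObj k A) (trivObj k A) n :=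
    { toFun := rsE φ hφ
      map_add' := rsE_add φ hφ
      map_smul' := rsE_smul φ hφ }
  have h1 : (ζ.res φ hφ).gen (trivObj k A) n ≤ (ζ.gen (trivObj k B) n).map L := by
    rw [Fam.gen_le_iff]
    intro i m him x
    obtain ⟨x', rfl⟩ := (GrpA_rsE_bij φ hφ hb m).2 x
    exact ⟨(ζ.cls i).comp x' him, ζ.mem_gen i him x', rsE_mul φ hφ (ζ.cls i) x' him⟩
  rw [hN n hn] at h1
  rw [eq_top_iff]
  intro x _
  obtain ⟨y, hy, hy2⟩ := h1 (show L x ∈ ⊤ from trivial)
  have h2 : y = x := (GrpA_rsE_bij φ hφ hb n).1 hy2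
  rw [← h2]
  exact hy

/-- The group algebra of `(ℤ/p)^n`. -/
abbrev GA (k : Type u) [Field k] (p n : ℕ) : Type u :=
  MonoidAlgebra k (ULift.{u} (Fin n → Multiplicative (ZMod p)))

/-- The generator `g_i`. -/
noncomputable def gen' (k : Type u) [Field k] (p : ℕ) {n : ℕ} (i : Fin n) : GA k p n :=
  MonoidAlgebra.single (ULift.up (Pi.mulSingle i (Multiplicative.ofAdd 1))) 1

/-- the hom of `ℤ/p` given by an element `u` with `u ^ p = 1` -/
private noncomputable def GrpA_hom (p : ℕ) {M : Type*} [CommGroup M] (u : M) (hu : u ^ p = 1) :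
    Multiplicative (ZMod p) →* M :=
  AddMonoidHom.toMultiplicativeLeft (ZMod.lift p ⟨zmultiplesHom (Additive M) (Additive.ofMul u), by
    change (p : ℤ) • Additive.ofMul u = 0
    rw [natCast_zsmul, ← ofMul_pow, hu, ofMul_one]⟩)

private theorem GrpA_hom_int (p : ℕ) {M : Type*} [CommGroup M] (u : M) (hu : u ^ p = 1) (m : ℤ) :
    GrpA_hom p u hu (Multiplicative.ofAdd (m : ZMod p)) = u ^ m := by
  change Additive.toMul (ZMod.lift p _ (m : ZMod p)) = u ^ m
  rw [ZMod.lift_coe]
  rfl

theorem exists_psi (p : ℕ) [Fact p.Prime] [CharP k p] {F : Type u} [CommRing F]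
    [HopfAlgebra k F] [Module.Finite k F] {n : ℕ} (c : Coords k p F n) :
    ∃ ψ : GA k p n →ₐ[k] F, Aug ψ ∧ Function.Bijective ψ ∧
      ∀ i, ψ (gen' k p i) = 1 + c.x i := by
  have hp : p.Prime := Fact.out
  have hnt : Nontrivial F := by
    have h1 : Coalgebra.counit (R := k) (1 : F) = 1 := Bialgebra.counit_one
    refine ⟨⟨1, 0, fun h => ?_⟩⟩
    rw [h, map_zero] at h1
    exact zero_ne_one h1
  have hch : CharP F p := charP_of_injective_algebraMap (algebraMap k F).injective p
  have hpow : ∀ i, (1 + c.x i) ^ p = 1 := by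
    intro i
    rw [add_pow_char, one_pow, c.pow, add_zero]
  let U : Fin n → Fˣ := fun i => Units.ofPowEqOne (1 + c.x i) p (hpow i) hp.ne_zero
  have hUval : ∀ i, (U i : F) = 1 + c.x i := fun i => rfl
  have hU : ∀ i, U i ^ p = 1 := fun i => Units.ext (hpow i)
  let H : ULift.{u} (Fin n → Multiplicative (ZMod p)) →* Fˣ :=
    { toFun := fun g => ∏ i, GrpA_hom p (U i) (hU i) (g.down i)
      map_one' := by
        refine Finset.prod_eq_one fun i _ => ?_
        exact map_one _
      map_mul' := fun g g' => by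
        rw [← Finset.prod_mul_distrib]
        refine Finset.prod_congr rfl fun i _ => ?_
        exact map_mul _ _ _ }
  let ψ : GA k p n →ₐ[k] F := MonoidAlgebra.lift k F _ ((Units.coeHom F).comp H)
  have hψ : ∀ g r, ψ (MonoidAlgebra.single g r) = r • (H g : F) := fun g r =>
    MonoidAlgebra.lift_single _ _ _
  have hgen : ∀ i, ψ (gen' k p i) = 1 + c.x i := by
    intro i
    rw [gen', hψ, one_smul, ← hUval i]
    congr 1
    change ∏ j, GrpA_hom p (U j) (hU j) ((Pi.mulSingle i (Multiplicative.ofAdd 1) :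
      Fin n → Multiplicative (ZMod p)) j) = U i
    rw [Finset.prod_eq_single i]
    · rw [Pi.mulSingle_eq_same]
      have h2 := GrpA_hom_int p (U i) (hU i) 1
      rw [Int.cast_one, zpow_one] at h2
      exact h2
    · intro j _ hj
      rw [Pi.mulSingle_eq_of_ne hj, map_one]
    · intro h
      exact absurd (Finset.mem_univ i) h
  refine ⟨ψ, ?_, ?_, hgen⟩
  · -- augmentation
    let ε : F →ₐ[k] k := Bialgebra.counitAlgHom k F
    have hε : ∀ i, Units.map (ε : F →* k) (U i) = 1 := by
      intro i
      apply Units.ext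
      change Coalgebra.counit (R := k) (1 + c.x i) = 1
      rw [map_add, c.aug, Bialgebra.counit_one, add_zero]
    have hH : ∀ g, Coalgebra.counit (R := k) ((H g : Fˣ) : F) = 1 := by
      intro g
      have h3 : Units.map (ε : F →* k) (H g) = 1 := by
        change Units.map (ε : F →* k) (∏ i, GrpA_hom p (U i) (hU i) (g.down i)) = 1
        rw [map_prod]
        refine Finset.prod_eq_one fun i _ => ?_
        obtain ⟨m, hm⟩ := ZMod.intCast_surjective (Multiplicative.toAdd (g.down i))
        have h4 : g.down i = Multiplicative.ofAdd ((m : ℤ) : ZMod p) := by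
          rw [hm]; rfl
        rw [h4, GrpA_hom_int, map_zpow, hε, one_zpow]
      exact congrArg Units.val h3
    intro a
    have h5 : ε.comp ψ = Bialgebra.counitAlgHom k (GA k p n) := by
      apply MonoidAlgebra.algHom_ext
      · intro g
        change Coalgebra.counit (R := k) (ψ (MonoidAlgebra.single g 1)) =
          Coalgebra.counit (R := k) (MonoidAlgebra.single g (1 : k))
        rw [hψ, one_smul, hH, MonoidAlgebra.counit_single]
        rfl
      · exact Subsingleton.elim _ _
    exact congr($h5 a)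
  · -- bijectivity
    have hsurj : Function.Surjective ψ := by
      rw [← AlgHom.range_eq_top, eq_top_iff]
      have hx : ∀ i, c.x i ∈ ψ.range := by
        intro i
        refine ⟨gen' k p i - 1, ?_⟩
        change ψ (gen' k p i - 1) = c.x i
        rw [map_sub, hgen, map_one, add_sub_cancel_left]
      intro a _
      rw [← c.basis.sum_repr a]
      refine Subalgebra.sum_mem _ fun α _ => Subalgebra.smul_mem _ ?_ _
      rw [c.basis_eq]
      exact Subalgebra.prod_mem _ fun i _ => Subalgebra.pow_mem _ (hx i) _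
    have hfr : Module.finrank k (GA k p n) = Module.finrank k F := by
      rw [Module.finrank_eq_card_basis c.basis,
        (MonoidAlgebra.coeffLinearEquiv k (S := k)
          (M := ULift.{u} (Fin n → Multiplicative (ZMod p)))).finrank_eq,
        Module.finrank_finsupp_self]
      simp [ZMod.card]
    have hinj : Function.Injective ψ.toLinearMap :=
      (LinearMap.injective_iff_surjective_of_finrank_eq_finrank hfr).2 hsurj
    exact ⟨hinj, hsurj⟩

end

end Pool.Agent.Helper90.FC
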