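import Pool.Agent.Helper90.FC.Defs

/-!
# Project FC, piece HOS: Hopf subalgebras

* `exists_subHopf`: a subalgebra `S` of a Hopf algebra `A` with `Δ(S) ⊆ S ⊗ S` (as a subspace of
  `A ⊗ A`) and stable under the antipode is a Hopf algebra and the inclusion is a homomorphism of
  bialgebras (`S ⊗ S → A ⊗ A` is injective over a field).
* `exists_frob`: `A` commutative of characteristic `p`: the span of the `p`-th powers is such a
  subalgebra (`Δ(a^p) = (Δ a)^p`, and `(∑ t_i)^p = ∑ t_i^p` in `A ⊗ A`).
* `exists_quotHopf`: for `ι : A → B` with central image, the left ideal generated by `ι(A⁺)` is a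
  two-sided Hopf ideal `J`; `B ⧸ J` is a Hopf algebra (Mathlib: `HopfAlgebra.Quotient`), and
  `A → B → B ⧸ J` is exact if `ι` is injective.
* `exists_image`: for a homomorphism `f : A → B` of bialgebras the kernel is a Hopf ideal
  (`ker (f ⊗ f) = ker f ⊗ A + A ⊗ ker f`; over a field), so `f` factors as a surjection
  `A → F` followed by an injection `F → B`, with `F = A ⧸ ker f` a Hopf algebra, commutative if
  `A` is.
* `exists_desc`: a homomorphism `π : B → C` with `π ∘ ι` trivial factors through `B → B ⧸ J`.
-/

set_option linter.unusedSectionVars false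
set_option autoImplicit false

open scoped TensorProduct

namespace Pool.Agent.Helper90.FC

universe u

section

variable {k : Type u} [Field k]

section Sub

variable {A : Type u} [CommRing A] [HopfAlgebra k A] (S : Subalgebra k A)

private noncomputable abbrev v2 : S ⊗[k] S →ₐ[k] A ⊗[k] A :=
  Algebra.TensorProduct.map S.val S.val

private noncomputable abbrev v3 : S ⊗[k] (S ⊗[k] S) →ₐ[k] A ⊗[k] (A ⊗[k] A) :=
  Algebra.TensorProduct.map S.val (v2 S)

private theorem v2_inj : Function.Injective (v2 S) :=
  TensorProduct.map_injective_of_flat_flat S.val.toLinearMap S.val.toLinearMap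
    Subtype.val_injective Subtype.val_injective

private theorem v3_inj : Function.Injective (v3 S) :=
  TensorProduct.map_injective_of_flat_flat S.val.toLinearMap (v2 S).toLinearMap
    Subtype.val_injective (v2_inj S)

variable (hΔ : ∀ a ∈ S, Coalgebra.comul (R := k) a ∈
      LinearMap.range (TensorProduct.map S.val.toLinearMap S.val.toLinearMap))

include hΔ in
private theorem exists_cm : ∃ δ : S →ₐ[k] S ⊗[k] S, ∀ a : S,
    v2 S (δ a) = Coalgebra.comul (R := k) (a : A) := by
  have h : ∀ a : S, ((Bialgebra.comulAlgHom k A).comp S.val) a ∈ (v2 S).range := by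
    intro a
    obtain ⟨t, ht⟩ := hΔ a a.2
    exact ⟨t, ht⟩
  refine ⟨(AlgEquiv.ofInjective (v2 S) (v2_inj S)).symm.toAlgHom.comp
    (((Bialgebra.comulAlgHom k A).comp S.val).codRestrict (v2 S).range h), fun a => ?_⟩
  have h1 := (AlgEquiv.ofInjective (v2 S) (v2_inj S)).apply_symm_apply
    ((((Bialgebra.comulAlgHom k A).comp S.val).codRestrict (v2 S).range h) a)
  have h2 := congrArg Subtype.val h1
  exact h2

private theorem v3_assoc (s : S ⊗[k] S) (b : S) :
    v3 S (TensorProduct.assoc k S S S (s ⊗ₜ b)) =
      TensorProduct.assoc k A A A (v2 S s ⊗ₜ (b : A)) := by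
  induction s using TensorProduct.induction_on with
  | zero => simp
  | add s t hs ht => simp only [TensorProduct.add_tmul, map_add, hs, ht]
  | tmul a c => simp

end Sub

theorem exists_subHopf {A : Type u} [CommRing A] [HopfAlgebra k A] (S : Subalgebra k A)
    (hΔ : ∀ a ∈ S, Coalgebra.comul (R := k) a ∈
      LinearMap.range (TensorProduct.map S.val.toLinearMap S.val.toLinearMap))
    (hS : ∀ a ∈ S, HopfAlgebra.antipode k a ∈ S) :
    ∃ (A' : Type u) (_ : CommRing A') (_ : HopfAlgebra k A') (j : A' →ₐc[k] A),
      Function.Injective j ∧ Set.range j = (S : Set A) := by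
  obtain ⟨δ, hδ⟩ := exists_cm S hΔ
  have h1 : ∀ t : S ⊗[k] S, v3 S (TensorProduct.assoc k S S S
      (TensorProduct.map δ.toLinearMap LinearMap.id t)) =
      TensorProduct.assoc k A A A (TensorProduct.map (Coalgebra.comul (R := k)) LinearMap.id
        (v2 S t)) := by
    intro t
    induction t using TensorProduct.induction_on with
    | zero => simp
    | add s t hs ht => simp only [map_add, hs, ht]
    | tmul a b =>
      rw [TensorProduct.map_tmul]
      refine (v3_assoc S (δ a) b).trans ?_
      rw [hδ]
      rfl
  have h2 : ∀ t : S ⊗[k] S, v3 S (TensorProduct.map LinearMap.id δ.toLinearMap t) =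
      TensorProduct.map LinearMap.id (Coalgebra.comul (R := k)) (v2 S t) := by
    intro t
    induction t using TensorProduct.induction_on with
    | zero => simp
    | add s t hs ht => simp only [map_add, hs, ht]
    | tmul a b =>
      rw [TensorProduct.map_tmul]
      change (a : A) ⊗ₜ[k] (v2 S (δ b)) = _
      rw [hδ]
      rfl
  let ε : S →ₐ[k] k := (Bialgebra.counitAlgHom k A).comp S.val
  have e1 : ∀ t : S ⊗[k] S, ((TensorProduct.lid k S
      (TensorProduct.map ε.toLinearMap LinearMap.id t) : S) : A) =
      TensorProduct.lid k A (TensorProduct.map (Coalgebra.counit (R := k)) LinearMap.id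
        (v2 S t)) := by
    intro t
    induction t using TensorProduct.induction_on with
    | zero => simp
    | add s t hs ht => simp only [map_add, Subalgebra.coe_add, hs, ht]
    | tmul a b => rfl
  have e2 : ∀ t : S ⊗[k] S, ((TensorProduct.rid k S
      (TensorProduct.map LinearMap.id ε.toLinearMap t) : S) : A) =
      TensorProduct.rid k A (TensorProduct.map LinearMap.id (Coalgebra.counit (R := k))
        (v2 S t)) := by
    intro t
    induction t using TensorProduct.induction_on with
    | zero => simp
    | add s t hs ht => simp only [map_add, Subalgebra.coe_add, hs, ht]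
    | tmul a b => rfl
  let bi : Bialgebra k S := Bialgebra.ofAlgHom δ ε
    (by
      refine AlgHom.ext fun a => v3_inj S ?_
      have c := Coalgebra.coassoc_apply (R := k) (a : A)
      refine (h1 (δ a)).trans (Eq.trans ?_ (h2 (δ a)).symm)
      rw [hδ]
      exact c)
    (by
      refine AlgHom.ext fun a => (TensorProduct.lid k S).injective (Subtype.val_injective ?_)
      have c := Coalgebra.rTensor_counit_comul (R := k) (a : A)
      refine (e1 (δ a)).trans ?_
      rw [hδ]
      refine (congrArg (TensorProduct.lid k A) c).trans ?_
      rw [TensorProduct.lid_tmul, one_smul]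
      change _ = ((TensorProduct.lid k S ((TensorProduct.lid k S).symm a) : S) : A)
      rw [LinearEquiv.apply_symm_apply])
    (by
      refine AlgHom.ext fun a => (TensorProduct.rid k S).injective (Subtype.val_injective ?_)
      have c := Coalgebra.lTensor_counit_comul (R := k) (a : A)
      refine (e2 (δ a)).trans ?_
      rw [hδ]
      refine (congrArg (TensorProduct.rid k A) c).trans ?_
      rw [TensorProduct.rid_tmul, one_smul]
      change _ = ((TensorProduct.rid k S ((TensorProduct.rid k S).symm a) : S) : A)
      rw [LinearEquiv.apply_symm_apply])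
  let ant : S →ₗ[k] S :=
    (HopfAlgebra.antipode k (A := A)).restrict (p := Subalgebra.toSubmodule S)
      (q := Subalgebra.toSubmodule S) hS
  have m1 : ∀ t : S ⊗[k] S, ((LinearMap.mul' k S (TensorProduct.map ant LinearMap.id t) : S) : A) =
      LinearMap.mul' k A (TensorProduct.map (HopfAlgebra.antipode k) LinearMap.id (v2 S t)) := by
    intro t
    induction t using TensorProduct.induction_on with
    | zero => simp
    | add s t hs ht => simp only [map_add, Subalgebra.coe_add, hs, ht]
    | tmul a b => rfl
  have m2 : ∀ t : S ⊗[k] S, ((LinearMap.mul' k S (TensorProduct.map LinearMap.id ant t) : S) : A) =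
      LinearMap.mul' k A (TensorProduct.map LinearMap.id (HopfAlgebra.antipode k) (v2 S t)) := by
    intro t
    induction t using TensorProduct.induction_on with
    | zero => simp
    | add s t hs ht => simp only [map_add, Subalgebra.coe_add, hs, ht]
    | tmul a b => rfl
  let ho : HopfAlgebra k S :=
    { bi with
      antipode := ant
      mul_antipode_rTensor_comul := by
        refine LinearMap.ext fun a => Subtype.val_injective ?_
        refine (m1 (δ a)).trans ?_
        rw [hδ]
        exact HopfAlgebra.mul_antipode_rTensor_comul_apply (R := k) (a : A)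
      mul_antipode_lTensor_comul := by
        refine LinearMap.ext fun a => Subtype.val_injective ?_
        refine (m2 (δ a)).trans ?_
        rw [hδ]
        exact HopfAlgebra.mul_antipode_lTensor_comul_apply (R := k) (a : A) }
  refine ⟨S, inferInstance, ho, BialgHom.ofAlgHom S.val rfl (AlgHom.ext fun a => hδ a), ?_, ?_⟩
  · exact Subtype.val_injective
  · exact Subtype.range_val

/-- The Hopf subalgebra spanned by the `p`-th powers. -/
theorem exists_frob (p : ℕ) [Fact p.Prime] [CharP k p] (A : Type u) [CommRing A]
    [HopfAlgebra k A] : ∃ (A' : Type u) (_ : CommRing A') (_ : HopfAlgebra k A')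
      (j : A' →ₐc[k] A), Function.Injective j ∧
        ∀ a : A, a ∈ Set.range j ↔ a ∈ Submodule.span k (Set.range fun b : A => b ^ p) := by
  let S : Subalgebra k A := Algebra.adjoin k ((MonoidHom.mrange (powMonoidHom p : A →* A) :
    Submonoid A) : Set A)
  have hsp : Subalgebra.toSubmodule S = Submodule.span k (Set.range fun b : A => b ^ p) := by
    change Subalgebra.toSubmodule (Algebra.adjoin k _) = _
    rw [Algebra.adjoin_eq_span, Submonoid.closure_eq]
    rfl
  have hpow : ∀ b : A, b ^ p ∈ S := fun b => by
    have : b ^ p ∈ Subalgebra.toSubmodule S := hsp ▸ Submodule.subset_span ⟨b, rfl⟩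
    exact this
  have hle : ∀ (N : Submodule k A), (∀ b : A, b ^ p ∈ N) → ∀ a ∈ S, a ∈ N := by
    intro N hN a ha
    have h1 : a ∈ Subalgebra.toSubmodule S := ha
    rw [hsp] at h1
    refine Submodule.span_le.2 ?_ h1
    rintro _ ⟨b, rfl⟩
    exact hN b
  have hten : ∀ t : A ⊗[k] A, t ^ p ∈
      LinearMap.range (TensorProduct.map S.val.toLinearMap S.val.toLinearMap) := by
    rcases subsingleton_or_nontrivial (A ⊗[k] A) with h | h
    · intro t
      rw [Subsingleton.elim (t ^ p) 0]
      exact zero_mem _
    · have : CharP (A ⊗[k] A) p :=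
        charP_of_injective_algebraMap (algebraMap k (A ⊗[k] A)).injective p
      intro t
      induction t using TensorProduct.induction_on with
      | zero =>
        rw [zero_pow (Fact.out : p.Prime).ne_zero]
        exact zero_mem _
      | add s t hs ht =>
        rw [add_pow_char]
        exact add_mem hs ht
      | tmul a b =>
        rw [Algebra.TensorProduct.tmul_pow]
        exact ⟨(⟨a ^ p, hpow a⟩ : S) ⊗ₜ (⟨b ^ p, hpow b⟩ : S), rfl⟩
  obtain ⟨A', i1, i2, j, hj, hr⟩ := exists_subHopf S
    (hle (Submodule.comap (Coalgebra.comul (R := k) (A := A)) (LinearMap.range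
      (TensorProduct.map S.val.toLinearMap S.val.toLinearMap))) (fun b => by
        rw [Submodule.mem_comap]
        have : Coalgebra.comul (R := k) (b ^ p) = Coalgebra.comul (R := k) b ^ p :=
          map_pow (Bialgebra.comulAlgHom k A) b p
        rw [this]
        exact hten _))
    (hle (Submodule.comap (HopfAlgebra.antipode k (A := A)) (Subalgebra.toSubmodule S))
      (fun b => by
        rw [Submodule.mem_comap]
        have : HopfAlgebra.antipode k (b ^ p) = HopfAlgebra.antipode k b ^ p :=
          map_pow (HopfAlgebra.antipodeAlgHom k A) b p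
        rw [this]
        exact hpow _))
  refine ⟨A', i1, i2, j, hj, fun a => ?_⟩
  rw [hr, ← hsp]
  rfl

end

end Pool.Agent.Helper90.FC
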