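import Pool.Agent.Helper90.FC.Defs

/-!
# Iterated central extensions of Hopf algebras

`IterCentral k C B`: there are Hopf algebras `B = B_0, B_1, …, B_r = C` and, for every `i`, an exact
sequence of Hopf algebras `k → A_i → B_i → B_{i+1} → k` with `A_i` central in `B_i`
(`CentralExact`). In other words `C = B // A` for a normal Hopf subalgebra `A` of `B` with a series
of normal Hopf subalgebras of `B` whose successive quotients are central.
-/

set_option autoImplicit false

namespace Pool.Agent.Helper90.FC

universe u

/-- `B` is an iterated central extension of `C`. -/
inductive IterCentral (k : Type u) [Field k] (C : Type u) [Ring C] [HopfAlgebra k C] :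
    (B : Type u) → [Ring B] → [HopfAlgebra k B] → Prop
  /-- no extension -/
  | refl : IterCentral k C C
  /-- `B` is a central extension, by `A`, of an iterated central extension `B'` of `C` -/
  | step {A B B' : Type u} [Ring A] [Ring B] [Ring B'] [HopfAlgebra k A] [HopfAlgebra k B]
      [HopfAlgebra k B'] (ι : A →ₐc[k] B) (π : B →ₐc[k] B') (hex : CentralExact k ι π)
      (h : IterCentral k C B') : IterCentral k C B

end Pool.Agent.Helper90.FC
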