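import Pool.Agent.Helper90.FC.EvU

/-!
# Project FC, piece RSC: restriction of cochains along `φ : A → B`

`Cres : Cn n M → Cn n (res M)` (cochains of `B`, respectively `A`), by recursion:
`Cres (n+1) M : Cn n (I_B M) → Cn n (res (I_B M)) → Cn n (I_A (res M))`, the second map being induced
by `rI : res (I_B M) → I_A (res M)`, `g ↦ g ∘ φ`.

* `dC_Cres`: `Cres` commutes with the differential. Induction on `n` (for all `M`), using
  `dC_nat` for `rI` and `rI ∘ res (emb) = emb`.
* `Cres_nat`: naturality in `M` for `k`-linear maps.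
* `cls_Cres`: the class of the restriction is the restriction (`rs`) of the class. Induction on `n`:
  the map of short exact sequences `res (sesI M) → sesI (res M)` given by `rI`,
  `Ext.mapExactFunctor_extClass`, `extClass_naturality`, `cls_nat`.
* `ap_Cres`: `Cres (ap a z) = ap (a ∘ φ) (Cres z)`, and hence `evn_Cres`.
-/

set_option linter.unusedSectionVars false
set_option autoImplicit false

open CategoryTheory CategoryTheory.Abelian CategoryTheory.Limits
open scoped ModuleCat TensorProduct
open Pool.Agent.Helper59.FG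

namespace Pool.Agent.Helper90.FC

universe u

section

variable (k : Type u) [Field k] {A B : Type u} [Ring A] [Ring B] [Bialgebra k A] [Bialgebra k B]

/-- The map `g ↦ g ∘ φ`. -/
noncomputable def rI (φ : A →ₐ[k] B) (M : ModuleCat.{u} B) :
    (res φ).obj (IM k M) ⟶ IM k ((res φ).obj M) :=
  ModuleCat.ofHom (X := (res φ).obj (IM k M)) (Y := IM k ((res φ).obj M))
    { toFun := fun g => mkI k
        { toFun := fun a => (show (res φ).obj M from fn k (show IM k M from g) (φ a))
          map_add' := fun a a' => by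
            rw [map_add]
            exact map_add (fn k (show IM k M from g)) (φ a) (φ a')
          map_smul' := fun c a => by
            rw [map_smul]
            have h1 : fn k (show IM k M from g) (c • φ a) =
              c • fn k (show IM k M from g) (φ a) := map_smul _ _ _
            refine h1.trans ?_
            change algebraMap k B c • fn k (show IM k M from g) (φ a) =
              φ (algebraMap k A c) • fn k (show IM k M from g) (φ a)
            rw [AlgHom.commutes] }
      map_add' := fun _ _ => rfl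
      map_smul' := fun a g => IM_ext k fun b => by
        change fn k (show IM k M from g) (φ b * φ a) = fn k (show IM k M from g) (φ (b * a))
        rw [map_mul φ] }

/-- A `k`-linear map regarded as a `k`-linear map of the restrictions. -/
noncomputable def resL (φ : A →ₐ[k] B) {M N : ModuleCat.{u} B} (g : M →ₗ[k] N) :
    (res φ).obj M →ₗ[k] (res φ).obj N where
  toFun x := (show (res φ).obj N from g (show M from x))
  map_add' x y := map_add g _ _
  map_smul' c x := by
    change g (φ (algebraMap k A c) • (show M from x)) = φ (algebraMap k A c) • g (show M from x)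
    rw [AlgHom.commutes]
    exact map_smul g c (show M from x)

/-- Restriction of cochains. -/
noncomputable def Cres (φ : A →ₐ[k] B) : (n : ℕ) → (M : ModuleCat.{u} B) →
    (Cn k n M) → (Cn k n ((res φ).obj M))
  | 0, _ => fun m => m
  | n + 1, M => fun z => Cmap k n (kl k (rI k φ M)) (Cres φ n (IM k M) z)

private theorem ResC_succ (φ : A →ₐ[k] B) (n : ℕ) (M : ModuleCat.{u} B) (z : Cn k n (IM k M)) :
    Cres k φ (n + 1) M z = Cmap k n (kl k (rI k φ M)) (Cres k φ n (IM k M) z) := rfl

/-- The two actions of `k` on the restriction agree. -/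
private theorem ResC_scal (φ : A →ₐ[k] B) (M : ModuleCat.{u} B) (c : k) (m : M) :
    (c • (show (res φ).obj M from m) : (res φ).obj M) = (show (res φ).obj M from (c • m : M)) := by
  change φ (algebraMap k A c) • m = algebraMap k B c • m
  rw [AlgHom.commutes]

theorem Cres_add (φ : A →ₐ[k] B) (n : ℕ) (M : ModuleCat.{u} B) (z z' : Cn k n M) :
    Cres k φ n M (z + z') = Cres k φ n M z + Cres k φ n M z' := by
  induction n generalizing M with
  | zero => rfl
  | succ n ih =>
    have h1 := ih (IM k M) z z'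
    have h2 : Cres k φ (n + 1) M (z + z') =
        Cmap k n (kl k (rI k φ M)) (Cres k φ n (IM k M) (z + z')) := rfl
    exact (h2.trans (congrArg _ h1)).trans (map_add (Cmap k n (kl k (rI k φ M))) _ _)

theorem Cres_smul (φ : A →ₐ[k] B) (n : ℕ) (M : ModuleCat.{u} B) (c : k) (z : Cn k n M) :
    Cres k φ n M (c • z) = c • Cres k φ n M z := by
  induction n generalizing M with
  | zero => exact (ResC_scal k φ M c z).symm
  | succ n ih =>
    have h1 := ih (IM k M) z
    have h2 : Cres k φ (n + 1) M (c • z) =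
        Cmap k n (kl k (rI k φ M)) (Cres k φ n (IM k M) (c • z)) := rfl
    exact (h2.trans (congrArg _ h1)).trans ((Cmap k n (kl k (rI k φ M))).map_smul c _)

theorem Cres_nat (φ : A →ₐ[k] B) (n : ℕ) {M N : ModuleCat.{u} B} (g : M →ₗ[k] N)
    (z : Cn k n M) :
    Cres k φ n N (Cmap k n g z) = Cmap k n (resL k φ g) (Cres k φ n M z) := by
  induction n generalizing M N with
  | zero => rfl
  | succ n ih =>
    have h1 := ih (Imap k g) z
    have h2 : kl k (rI k φ N) ∘ₗ resL k φ (Imap k g) =
        Imap k (resL k φ g) ∘ₗ kl k (rI k φ M) := rfl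
    have h3 : Cmap k n (kl k (rI k φ N)) ∘ₗ Cmap k n (resL k φ (Imap k g)) =
        Cmap k n (Imap k (resL k φ g)) ∘ₗ Cmap k n (kl k (rI k φ M)) := by
      rw [← Cmap_comp, ← Cmap_comp, h2]
    exact (congrArg (Cmap k n (kl k (rI k φ N))) h1).trans
      (LinearMap.congr_fun h3 (Cres k φ n (IM k M) z))

private theorem ResC_zero (φ : A →ₐ[k] B) (n : ℕ) (M : ModuleCat.{u} B) :
    Cres k φ n M 0 = 0 := by
  have h := Cres_add k φ n M 0 0
  rw [add_zero] at h
  exact (add_eq_left.1 h.symm)

private theorem ResC_sub (φ : A →ₐ[k] B) (n : ℕ) (M : ModuleCat.{u} B) (z z' : Cn k n M) :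
    Cres k φ n M (z - z') = Cres k φ n M z - Cres k φ n M z' := by
  have h := Cres_add k φ n M (z - z') z'
  rw [sub_add_cancel] at h
  rw [h, add_sub_cancel_right]

theorem dC_Cres (φ : A →ₐ[k] B) (hφ : Aug φ) (n : ℕ) (M : ModuleCat.{u} B) (z : Cn k n M) :
    dC k n ((res φ).obj M) (Cres k φ n M z) = Cres k φ (n + 1) M (dC k n M z) := by
  induction n generalizing M with
  | zero =>
    refine IM_ext k fun b => ?_
    have h1 : Coalgebra.counit (R := k) b • (show (res φ).obj M from z) =
        (show (res φ).obj M from (Coalgebra.counit (R := k) (φ b) • (show M from z) : M)) := by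
      rw [hφ]
      exact ResC_scal k φ M _ z
    exact congrArg (fun x : (res φ).obj M => b • (show (res φ).obj M from z) - x) h1
  | succ n ih =>
    have h1 := ih (IM k M) z
    have h2 := dC_nat k n (rI k φ M) (Cres k φ n (IM k M) z)
    have h3 : dC k n (IM k ((res φ).obj M)) (Cres k φ (n + 1) M z) =
        Cres k φ (n + 2) M (dC k n (IM k M) z) :=
      h2.trans (congrArg (Cmap k (n + 1) (kl k (rI k φ M))) h1)
    have h4 := Cres_nat k φ (n + 1) (kl k (emb k M)) z
    have h5 : kl k (rI k φ M) ∘ₗ resL k φ (kl k (emb k M)) = kl k (emb k ((res φ).obj M)) := rfl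
    have h6 : Cmap k (n + 1) (kl k (rI k φ M)) ∘ₗ Cmap k (n + 1) (resL k φ (kl k (emb k M))) =
        Cmap k (n + 1) (kl k (emb k ((res φ).obj M))) := by
      rw [← Cmap_comp, h5]
    have h7 : Cres k φ (n + 2) M (embC k (n + 1) M z) =
        embC k (n + 1) ((res φ).obj M) (Cres k φ (n + 1) M z) :=
      (congrArg (Cmap k (n + 1) (kl k (rI k φ M))) h4).trans
        (LinearMap.congr_fun h6 (Cres k φ (n + 1) M z))
    rw [dC_succ, dC_succ, ResC_sub, h7]
    exact congrArg (fun x => embC k (n + 1) ((res φ).obj M) (Cres k φ (n + 1) M z) - x) h3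

theorem Cres_mem (φ : A →ₐ[k] B) (hφ : Aug φ) {n : ℕ} {M : ModuleCat.{u} B} {z : Cn k n M}
    (hz : z ∈ Zc k n M) : Cres k φ n M z ∈ Zc k n ((res φ).obj M) := by
  rw [mem_Zc, dC_Cres k φ hφ, (mem_Zc k).1 hz, ResC_zero]

/-- The morphism `res (M1 M) → M1 (res M)` induced by `rI`. -/
private noncomputable def ResC_r1 (φ : A →ₐ[k] B) (M : ModuleCat.{u} B) :
    (res φ).obj (M1 k M) ⟶ M1 k ((res φ).obj M) :=
  (((ShortComplex.ShortExact.map_of_exact (sesI k M) (res φ)).gIsCokernel).desc
    (CokernelCofork.ofπ (f := ((ShortComplex.mk (emb k M) (qM k M) (emb_qM k M)).map (res φ)).f)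
      (rI k φ M ≫ qM k ((res φ).obj M)) (by
        have h : (res φ).map (emb k M) ≫ rI k φ M = emb k ((res φ).obj M) := rfl
        change (res φ).map (emb k M) ≫ rI k φ M ≫ qM k ((res φ).obj M) = 0
        rw [← Category.assoc, h, emb_qM])))

private theorem ResC_r1_comp (φ : A →ₐ[k] B) (M : ModuleCat.{u} B) :
    (res φ).map (qM k M) ≫ ResC_r1 k φ M = rI k φ M ≫ qM k ((res φ).obj M) :=
  ((ShortComplex.ShortExact.map_of_exact (sesI k M) (res φ)).gIsCokernel).fac _
    WalkingParallelPair.one

/-- The map of short exact sequences. -/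
private noncomputable def ResC_ses (φ : A →ₐ[k] B) (M : ModuleCat.{u} B) :
    (ShortComplex.mk (emb k M) (qM k M) (emb_qM k M)).map (res φ) ⟶
      ShortComplex.mk (emb k ((res φ).obj M)) (qM k ((res φ).obj M)) (emb_qM k ((res φ).obj M)) where
  τ₁ := 𝟙 _
  τ₂ := rI k φ M
  τ₃ := ResC_r1 k φ M
  comm₁₂ := rfl
  comm₂₃ := (ResC_r1_comp k φ M).symm

theorem cls_Cres (φ : A →ₐ[k] B) (hφ : Aug φ) (n : ℕ) (M : ModuleCat.{u} B) (z : Zc k n M) :
    cls k n ((res φ).obj M) ⟨Cres k φ n M z.1, Cres_mem k φ hφ z.2⟩ =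
      rs φ hφ (cls k n M z) := by
  induction n generalizing M with
  | zero =>
    rw [cls_zero, cls_zero, rs, Ext.mapExactFunctor_mk₀, Ext.mk₀_comp_mk₀]
    congr 1
    ext c
    exact ResC_scal k φ M (show k from c) (show M from z.1)
  | succ n ih =>
    have h1 := ih (M1 k M) ⟨Cmap k n (kl k (qM k M)) z.1, q_mem_Zc k z.2⟩
    have h2 := ShortComplex.ShortExact.extClass_naturality
      (ShortComplex.ShortExact.map_of_exact (sesI k M) (res φ)) (sesI k ((res φ).obj M))
      (ResC_ses k φ M)
    have h3 : (Ext.mk₀ (ResC_r1 k φ M)).comp (sesI k ((res φ).obj M)).extClass (zero_add 1) =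
        (sesI k M).extClass.mapExactFunctor (res φ) := by
      rw [Ext.mapExactFunctor_extClass]
      exact h2.symm.trans (Ext.comp_mk₀_id _)
    have h4 := cls_nat k n (ResC_r1 k φ M)
      ⟨Cres k φ n (M1 k M) (Cmap k n (kl k (qM k M)) z.1), Cres_mem k φ hφ (q_mem_Zc k z.2)⟩
    have h5 : Cmap k n (kl k (qM k ((res φ).obj M))) (Cres k φ (n + 1) M z.1) =
        Cmap k n (kl k (ResC_r1 k φ M)) (Cres k φ n (M1 k M) (Cmap k n (kl k (qM k M)) z.1)) := by
      have e1 := Cres_nat k φ n (kl k (qM k M)) z.1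
      have e2 : kl k (ResC_r1 k φ M) ∘ₗ resL k φ (kl k (qM k M)) =
          kl k (qM k ((res φ).obj M)) ∘ₗ kl k (rI k φ M) :=
        congrArg (fun f : (res φ).obj (IM k M) ⟶ M1 k ((res φ).obj M) => kl k f)
          (ResC_r1_comp k φ M)
      have e3 : Cmap k n (kl k (ResC_r1 k φ M)) ∘ₗ Cmap k n (resL k φ (kl k (qM k M))) =
          Cmap k n (kl k (qM k ((res φ).obj M))) ∘ₗ Cmap k n (kl k (rI k φ M)) := by
        rw [← Cmap_comp, ← Cmap_comp, e2]
      exact ((congrArg (Cmap k n (kl k (ResC_r1 k φ M))) e1).trans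
        (LinearMap.congr_fun e3 (Cres k φ n (IM k M) z.1))).symm
    rw [cls_succ, cls_succ, rs_comp, ← h1, ← h3]
    have h6 : cls k n (M1 k ((res φ).obj M))
        ⟨Cmap k n (kl k (qM k ((res φ).obj M))) (Cres k φ (n + 1) M z.1),
          q_mem_Zc k (Cres_mem k φ hφ z.2)⟩ =
        cls k n (M1 k ((res φ).obj M)) ⟨Cmap k n (kl k (ResC_r1 k φ M))
          (Cres k φ n (M1 k M) (Cmap k n (kl k (qM k M)) z.1)),
          Cmap_mem_Zc k (ResC_r1 k φ M) (Cres_mem k φ hφ (q_mem_Zc k z.2))⟩ :=
      congrArg _ (Subtype.ext h5)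
    rw [h6, ← h4, Ext.comp_assoc_of_second_deg_zero]

theorem ap_Cres (φ : A →ₐc[k] B) (n : ℕ) (M : ModuleCat.{u} B) (a : HD k B) (z : Cn k n M) :
    Cres k (φ : A →ₐ[k] B) (n + 1) M (ap k n M a z) =
      ap k n ((res (φ : A →ₐ[k] B)).obj M) (WithConv.toConv (a.ofConv ∘ₗ (φ : A →ₗ[k] B)))
        (Cres k (φ : A →ₐ[k] B) n M z) := by
  induction n generalizing M with
  | zero =>
    refine IM_ext k fun b => ?_
    exact (ResC_scal k (φ : A →ₐ[k] B) M (a.ofConv (φ b)) z).symm
  | succ n ih =>
    have h1 := ih (IM k M) z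
    have h2 := ap_nat k n (kl k (rI k (φ : A →ₐ[k] B) M))
      (WithConv.toConv (a.ofConv ∘ₗ (φ : A →ₗ[k] B))) (Cres k (φ : A →ₐ[k] B) n (IM k M) z)
    exact (congrArg (Cmap k (n + 1) (kl k (rI k (φ : A →ₐ[k] B) M))) h1).trans h2.symm

/-- Restriction on all cochains. -/
private noncomputable def ResC_T (φ : A →ₐ[k] B) {M : ModuleCat.{u} B} (z : Tot k M) :
    Tot k ((res φ).obj M) := fun n => Cres k φ n M (z n)

private theorem ResC_T_rmul [Module.Finite k A] [Module.Finite k B] (φ : A →ₐc[k] B)
    {M : ModuleCat.{u} B} (w : TA k (HD k B)) (z : Tot k M) :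
    ResC_T k (φ : A →ₐ[k] B) (rmul k z w) =
      rmul k (ResC_T k (φ : A →ₐ[k] B) z) (mapT (HDmap φ : HD k B →ₗ[k] HD k A) w) := by
  induction w using TensorAlgebra.induction generalizing z with
  | algebraMap r =>
    rw [AlgHom.commutes, Algebra.algebraMap_eq_smul_one, Algebra.algebraMap_eq_smul_one, rmul_smul,
      rmul_smul, rmul_one, rmul_one]
    funext n
    exact Cres_smul k (φ : A →ₐ[k] B) n M r (z n)
  | ι a =>
    rw [rmul_io, mapT_ι, rmul_io]
    funext n
    cases n with
    | zero => rfl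
    | succ n => exact ap_Cres k φ n M a (z n)
  | mul x y hx hy =>
    rw [map_mul, rmul_mul, rmul_mul, hy, hx]
  | add x y hx hy =>
    rw [map_add, rmul_add, rmul_add, ← hx, ← hy]
    funext n
    exact Cres_add k (φ : A →ₐ[k] B) n M _ _

/-- Functoriality on all cochains. -/
private noncomputable def ResC_N {M N : ModuleCat.{u} A} (g : M →ₗ[k] N) (z : Tot k M) : Tot k N :=
  fun n => Cmap k n g (z n)

private theorem ResC_N_rmul {M N : ModuleCat.{u} A} (g : M →ₗ[k] N)
    (w : TensorAlgebra k (HD k A)) (z : Tot k M) : ResC_N k g (rmul k z w) = rmul k (ResC_N k g z) w := by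
  induction w using TensorAlgebra.induction generalizing z with
  | algebraMap r =>
    rw [Algebra.algebraMap_eq_smul_one, rmul_smul, rmul_smul, rmul_one, rmul_one]
    funext n
    exact (Cmap k n g).map_smul r (z n)
  | ι a =>
    rw [rmul_io, rmul_io]
    funext n
    cases n with
    | zero => exact map_zero g
    | succ n => exact (ap_nat k n g a (z n)).symm
  | mul x y hx hy =>
    rw [rmul_mul, rmul_mul, hy, hx]
  | add x y hx hy =>
    rw [rmul_add, rmul_add, ← hx, ← hy]
    funext n
    exact map_add (Cmap k n g) _ _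

/-- The restriction of the cochain `evn n w` is `evn n (mapT (HDmap φ) w)`, up to the identification
of the trivial module of `A` with the restriction of the trivial module of `B`. -/
theorem evn_Cres [Module.Finite k A] [Module.Finite k B] (φ : A →ₐc[k] B) (n : ℕ)
    (w : TA k (HD k B)) :
    Cres k (φ : A →ₐ[k] B) n (trivObj k B) (evn k n w) =
      Cmap k n (kl k (resTriv (φ : A →ₐ[k] B) (aug_of_bialg φ)))
        (evn k n (mapT (HDmap φ : HD k B →ₗ[k] HD k A) w)) := by
  have h1 := congrFun (ResC_T_rmul k φ w (one0 k B)) n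
  have h2 := congrFun (ResC_N_rmul k (kl k (resTriv (φ : A →ₐ[k] B) (aug_of_bialg φ)))
    (mapT (HDmap φ : HD k B →ₗ[k] HD k A) w) (one0 k A)) n
  have h3 : ResC_T k (φ : A →ₐ[k] B) (one0 k B) =
      ResC_N k (kl k (resTriv (φ : A →ₐ[k] B) (aug_of_bialg φ))) (one0 k A) := by
    funext n
    cases n with
    | zero => rfl
    | succ n =>
      exact (ResC_zero k (φ : A →ₐ[k] B) (n + 1) (trivObj k B)).trans
        (map_zero (Cmap k (n + 1) (kl k (resTriv (φ : A →ₐ[k] B) (aug_of_bialg φ))))).symm
  rw [h3] at h1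
  exact h1.trans h2.symm

end

end Pool.Agent.Helper90.FC
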