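import Pool.Agent.Helper90.FC.Sect

/-!
# Project FC, piece SEB: consequences of freeness
-/

set_option linter.unusedSectionVars false
set_option autoImplicit false

open CategoryTheory CategoryTheory.Abelian CategoryTheory.Limits
open scoped ModuleCat TensorProduct
open Pool.Agent.Helper59.FG

namespace Pool.Agent.Helper90.FC

universe u

section

variable {k : Type u} [Field k] {F B C : Type u} [Ring F] [Ring B] [Ring C] [HopfAlgebra k F]
variable [HopfAlgebra k B] [HopfAlgebra k C]

private theorem SectB_act (φ : F →ₐ[k] B) (M : ModuleCat.{u} B) (a : F) (x : (res φ).obj M) :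
    a • x = (show (res φ).obj M from (φ a • (show M from x))) := rfl

/-- `B` is free over `F`. -/
private noncomputable def SectB_free {ι : F →ₐc[k] B} {π : B →ₐc[k] C} (σ : Sect ι π) :
    (F ⊗[k] C) ≃ₗ[F] ((res (ι : F →ₐ[k] B)).obj (ModuleCat.of B B)) :=
  LinearEquiv.ofBijective
    ({ toFun := fun z => fsMap ι σ.s z
       map_add' := fun z w => map_add (fsMap ι σ.s) z w
       map_smul' := fun a z => by
        change fsMap ι σ.s (a • z) = ι a * fsMap ι σ.s z
        induction z using TensorProduct.induction_on with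
        | zero => simp
        | add x y hx hy => rw [smul_add, map_add, map_add, mul_add, hx, hy]
        | tmul f c =>
          rw [TensorProduct.smul_tmul']
          change ι (a * f) * σ.s c = ι a * (ι f * σ.s c)
          rw [map_mul, mul_assoc] } :
      (F ⊗[k] C) →ₗ[F] ((res (ι : F →ₐ[k] B)).obj (ModuleCat.of B B))) σ.bij

/-- `B` is a free `F`-module, so projective `B`-modules restrict to projective `F`-modules. -/
theorem Sect.proj [Module.Finite k B] {ι : F →ₐc[k] B} {π : B →ₐc[k] C} (σ : Sect ι π)
    (hex : CentralExact k ι π) (P : ModuleCat.{u} B) (hP : Projective P) (hf : Module.Finite B P) :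
    Projective ((res (ι : F →ₐ[k] B)).obj P) := by
  have h1 : Module.Projective B P := (IsProjective.iff_projective P).2 hP
  obtain ⟨s, hs⟩ := h1.out
  let i : P ⟶ ModuleCat.of B (P →₀ B) := ModuleCat.ofHom s
  let r : ModuleCat.of B (P →₀ B) ⟶ P := ModuleCat.ofHom (Finsupp.linearCombination B id)
  have h2 : Module.Projective F ((res (ι : F →ₐ[k] B)).obj (ModuleCat.of B (P →₀ B))) := by
    let e1 : (P →₀ (F ⊗[k] C)) ≃ₗ[F] (P →₀ ((res (ι : F →ₐ[k] B)).obj (ModuleCat.of B B))) :=
      Finsupp.mapRange.linearEquiv (SectB_free σ)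
    let e2 : (P →₀ ((res (ι : F →ₐ[k] B)).obj (ModuleCat.of B B))) ≃ₗ[F]
        ((res (ι : F →ₐ[k] B)).obj (ModuleCat.of B (P →₀ B))) :=
      { toFun := fun g => g
        invFun := fun g => g
        left_inv := fun _ => rfl
        right_inv := fun _ => rfl
        map_add' := fun _ _ => rfl
        map_smul' := fun _ _ => rfl }
    exact Module.Projective.of_equiv (e1.trans e2)
  have h3 : Module.Projective F ((res (ι : F →ₐ[k] B)).obj P) := by
    refine Module.Projective.of_split (((res (ι : F →ₐ[k] B)).map i).hom)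
      (((res (ι : F →ₐ[k] B)).map r).hom) ?_
    ext x
    exact hs x
  exact (IsProjective.iff_projective ((res (ι : F →ₐ[k] B)).obj P)).1 h3

/-- The comparison of vector spaces. -/
private noncomputable def SectB_eqv {ι : F →ₐc[k] B} {π : B →ₐc[k] C} (σ : Sect ι π)
    (X : Type u) [AddCommGroup X] [Module k X] : (B →ₗ[k] X) ≃ (F →ₗ[k] C →ₗ[k] X) where
  toFun g := TensorProduct.curry (g ∘ₗ fsMap ι σ.s)
  invFun G := (TensorProduct.lift G) ∘ₗ
    ((LinearEquiv.ofBijective (fsMap ι σ.s) σ.bij).symm : B →ₗ[k] F ⊗[k] C)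
  left_inv g := by
    ext b
    obtain ⟨z, rfl⟩ := σ.bij.2 b
    have h1 : (LinearEquiv.ofBijective (fsMap ι σ.s) σ.bij).symm (fsMap ι σ.s z) = z :=
      (LinearEquiv.ofBijective (fsMap ι σ.s) σ.bij).symm_apply_apply z
    rw [LinearMap.comp_apply, LinearEquiv.coe_coe, h1]
    induction z using TensorProduct.induction_on with
    | zero => simp
    | add x y hx hy =>
      have hx' := hx ((LinearEquiv.ofBijective (fsMap ι σ.s) σ.bij).symm_apply_apply x)
      have hy' := hy ((LinearEquiv.ofBijective (fsMap ι σ.s) σ.bij).symm_apply_apply y)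
      rw [map_add, map_add, map_add, hx', hy']
    | tmul f c => rfl
  right_inv G := by
    ext f c
    rw [TensorProduct.curry_apply, LinearMap.comp_apply, LinearMap.comp_apply]
    have h1 : (LinearEquiv.ofBijective (fsMap ι σ.s) σ.bij).symm (fsMap ι σ.s (f ⊗ₜ c)) = f ⊗ₜ c :=
      (LinearEquiv.ofBijective (fsMap ι σ.s) σ.bij).symm_apply_apply _
    rw [LinearEquiv.coe_coe, h1, TensorProduct.lift.tmul]

private noncomputable def SectB_coind {ι : F →ₐc[k] B} {π : B →ₐc[k] C} (σ : Sect ι π)
    (hex : CentralExact k ι π) (X : Type u) [AddCommGroup X] [Module k X] :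
    ((res (ι : F →ₐ[k] B)).obj (ModuleCat.of B (Coind k B X))) ≃ₗ[F]
      Coind k F (C →ₗ[k] X) where
  toFun g := SectB_eqv σ X g
  invFun G := (SectB_eqv σ X).symm G
  left_inv g := (SectB_eqv σ X).symm_apply_apply g
  right_inv G := (SectB_eqv σ X).apply_symm_apply G
  map_add' g h := rfl
  map_smul' a g := by
    refine LinearMap.ext fun f => LinearMap.ext fun c => ?_
    have h1 : (ι f * σ.s c) * ι a = ι (f * a) * σ.s c := by
      rw [map_mul, mul_assoc, mul_assoc, hex.central a (σ.s c)]
    exact congrArg (fun b => (show B →ₗ[k] X from g) b) h1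

/-- `Hom_k(B, X)` restricted to `F` is `Hom_k(F, Hom_k(C, X))`, coinduced, hence injective
(`Coind.injective` in Helper59/FG/Hopf.lean). -/
theorem Sect.hasAcyc [Module.Finite k B] {ι : F →ₐc[k] B} {π : B →ₐc[k] C} (σ : Sect ι π)
    (hex : CentralExact k ι π) : HasAcyc ι := by
  intro X hX
  have hkX : Module.Finite k X := Module.Finite.trans B X
  refine ⟨ModuleCat.of B (Coind k B X),
    ModuleCat.ofHom (Coind.lift (A := B) (LinearMap.id (M := X) (R := k))),
    Coind.lift_id_injective, ?_, ?_, ?_⟩
  · exact (Module.injective_iff_injective_object B (Coind k B X)).1 Coind.injective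
  · exact Module.Finite.of_restrictScalars_finite k B _
  · intro n hn x
    let _ : Module F (C →ₗ[k] X) :=
      Module.compHom (C →ₗ[k] X) (Bialgebra.counitAlgHom k F).toRingHom
    have : IsScalarTower k F (C →ₗ[k] X) := ⟨fun c f x => by
      change Coalgebra.counit (R := k) (c • f) • x = c • (Coalgebra.counit (R := k) f • x)
      rw [map_smul, smul_assoc]⟩
    have h1 : Injective (ModuleCat.of F (Coind k F (C →ₗ[k] X))) :=
      (Module.injective_iff_injective_object F (Coind k F (C →ₗ[k] X))).1 Coind.injective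
    let e := SectB_coind σ hex X
    let i : ((res (ι : F →ₐ[k] B)).obj (ModuleCat.of B (Coind k B X))) ≅
        ModuleCat.of F (Coind k F (C →ₗ[k] X)) :=
      { hom := ConcreteCategory.ofHom (C := ModuleCat.{u} F)
          (X := (res (ι : F →ₐ[k] B)).obj (ModuleCat.of B (Coind k B X)))
          (Y := ModuleCat.of F (Coind k F (C →ₗ[k] X))) e.toLinearMap
        inv := ConcreteCategory.ofHom (C := ModuleCat.{u} F)
          (X := ModuleCat.of F (Coind k F (C →ₗ[k] X)))
          (Y := (res (ι : F →ₐ[k] B)).obj (ModuleCat.of B (Coind k B X))) e.symm.toLinearMap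
        hom_inv_id := by
          ext x
          exact e.symm_apply_apply x
        inv_hom_id := by
          ext x
          exact e.apply_symm_apply x }
    have h2 : Injective ((res (ι : F →ₐ[k] B)).obj (ModuleCat.of B (Coind k B X))) :=
      Injective.of_iso i.symm h1
    obtain ⟨m, rfl⟩ : ∃ m, n = m + 1 := ⟨n - 1, by omega⟩
    exact Ext.eq_zero_of_injective x

end

end Pool.Agent.Helper90.FC
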