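import Pool.Agent.Helper90.FC.EvLem

/-!
# Project FC, piece SYZ: syzygies of the trivial module
-/

set_option linter.unusedSectionVars false
set_option autoImplicit false

open CategoryTheory CategoryTheory.Abelian CategoryTheory.Limits
open scoped ModuleCat TensorProduct
open Pool.Agent.Helper59.FG

namespace Pool.Agent.Helper90.FC

universe u

/-- `Syz k a Ω κ`: `Ω` is an `a`-th syzygy of the trivial module (not necessarily minimal) and `κ`
is the class of the corresponding exact sequence `0 → Ω → P_{a-1} → ⋯ → P_0 → k → 0`. -/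
inductive Syz (k : Type u) [Field k] {A : Type u} [Ring A] [Bialgebra k A] :
    (a : ℕ) → (Ω : ModuleCat.{u} A) → Ext (trivObj k A) Ω a → Prop
  | zero (Ω : ModuleCat.{u} A) (e : trivObj k A ≅ Ω) : Syz k 0 Ω (Ext.mk₀ e.hom)
  | succ {a : ℕ} {Ω : ModuleCat.{u} A} {κ : Ext (trivObj k A) Ω a} (h : Syz k a Ω κ)
      {Ω' P : ModuleCat.{u} A} (i : Ω' ⟶ P) (p : P ⟶ Ω) (w : i ≫ p = 0)
      (hS : (ShortComplex.mk i p w).ShortExact) (hP : Projective P) (hf : Module.Finite A P) :
      Syz k (a + 1) Ω' (κ.comp hS.extClass rfl)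

section

variable {k : Type u} [Field k] {A B : Type u} [Ring A] [Ring B]

private theorem Syz_triv_finite [Bialgebra k A] : Module.Finite A (trivObj k A) := by
  have h : Module.Finite k (Triv k A) := inferInstanceAs (Module.Finite k k)
  exact (Module.Finite.of_restrictScalars_finite k A (Triv k A) : Module.Finite A (Triv k A))

/-- Syzygies are finite-dimensional. -/
theorem Syz.finite [Bialgebra k A] [Module.Finite k A] {a : ℕ} {Ω : ModuleCat.{u} A}
    {κ : Ext (trivObj k A) Ω a} (h : Syz k a Ω κ) : Module.Finite A Ω := by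
  have hA : IsNoetherianRing A := isNoetherian_of_tower k (inferInstance : IsNoetherian k A)
  induction h with
  | zero Ω e =>
    have := Syz_triv_finite (k := k) (A := A)
    exact Module.Finite.equiv e.toLinearEquiv
  | succ h i p w hS hP hf ih =>
    exact Module.Finite.of_injective i.hom hS.moduleCat_injective_f

/-- Syzygies exist. -/
theorem Syz.exists_syz [Bialgebra k A] [Module.Finite k A] (a : ℕ) :
    ∃ (Ω : ModuleCat.{u} A) (κ : Ext (trivObj k A) Ω a), Syz k a Ω κ := by
  induction a with
  | zero => exact ⟨_, _, Syz.zero (trivObj k A) (Iso.refl _)⟩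
  | succ a ih =>
    obtain ⟨Ω, κ, h⟩ := ih
    have hfin : Module.Finite A Ω := h.finite
    obtain ⟨m, f, surjf⟩ := Module.Finite.exists_fin' A Ω
    let i : ModuleCat.of A (LinearMap.ker f) ⟶ ModuleCat.of A (Fin m → A) :=
      ModuleCat.ofHom (LinearMap.ker f).subtype
    let p : ModuleCat.of A (Fin m → A) ⟶ Ω := ModuleCat.ofHom f
    have w : i ≫ p = 0 := by
      ext x
      exact x.2
    have hS : (ShortComplex.mk i p w).ShortExact :=
      ModuleCat.shortComplex_shortExact _ (LinearMap.exact_subtype_ker_map f)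
        (Submodule.injective_subtype _) surjf
    have hP : Projective (ModuleCat.of A (Fin m → A)) :=
      (IsProjective.iff_projective (Fin m → A)).1 inferInstance
    have hf : Module.Finite A (ModuleCat.of A (Fin m → A)) :=
      inferInstanceAs (Module.Finite A (Fin m → A))
    exact ⟨_, _, Syz.succ h i p w hS hP hf⟩

private theorem Syz_surj [Bialgebra k A] {a : ℕ} {Ω : ModuleCat.{u} A}
    {κ : Ext (trivObj k A) Ω a} (h : Syz k a Ω κ) : SurjFrom 0 κ := by
  induction h with
  | zero Ω e => exact surjFrom_iso e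
  | succ h i p w hS hP hf ih => exact ih.comp rfl (surjFrom_extClass hS hP)

/-- Every class of degree `a + b` factors through `κ`. (Helper59/FG/ExtS: `SurjFrom`.) -/
theorem Syz.factor [Bialgebra k A] {a : ℕ} {Ω : ModuleCat.{u} A}
    {κ : Ext (trivObj k A) Ω a} (h : Syz k a Ω κ) {M : ModuleCat.{u} A} {b n : ℕ}
    (hn : a + b = n) (x : Ext (trivObj k A) M n) : ∃ y : Ext Ω M b, κ.comp y hn = x :=
  Syz_surj h M b n hn (Nat.zero_le _) x

private theorem Syz_res_finite [Bialgebra k A] [Bialgebra k B] [Module.Finite k B]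
    (φ : A →ₐ[k] B) (P : ModuleCat.{u} B) (hf : Module.Finite B P) :
    Module.Finite A ((Pool.Agent.Helper90.FC.res φ).obj P) := by
  have h1 : Module.Finite k P := Module.Finite.trans B P
  let L : P →ₗ[k] ((Pool.Agent.Helper90.FC.res φ).obj P) :=
    { toFun := fun x => x
      map_add' := fun _ _ => rfl
      map_smul' := fun c x => by
        change algebraMap k B c • x = φ (algebraMap k A c) • x
        rw [AlgHom.commutes] }
  have h2 : Module.Finite k ((Pool.Agent.Helper90.FC.res φ).obj P) :=
    Module.Finite.of_surjective L fun x => ⟨x, rfl⟩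
  exact Module.Finite.of_restrictScalars_finite k A _

/-- Syzygies restrict to syzygies along `φ : A → B` if projective `B`-modules restrict to
projective `A`-modules. -/
theorem Syz.res [Bialgebra k A] [Bialgebra k B] [Module.Finite k A] [Module.Finite k B]
    (φ : A →ₐ[k] B) (hφ : Aug φ)
    (hp : ∀ P : ModuleCat.{u} B, Projective P → Module.Finite B P → Projective ((res φ).obj P))
    {a : ℕ} {Ω : ModuleCat.{u} B} {κ : Ext (trivObj k B) Ω a} (h : Syz k a Ω κ) :
    Syz k a ((Pool.Agent.Helper90.FC.res φ).obj Ω) (rs φ hφ κ) := by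
  induction h with
  | zero Ω e =>
    have h1 : rs φ hφ (Ext.mk₀ e.hom) = Ext.mk₀ (asIso (resTriv φ hφ) ≪≫
        (Pool.Agent.Helper90.FC.res φ).mapIso e).hom := by
      rw [rs, Ext.mapExactFunctor_mk₀, Ext.mk₀_comp_mk₀]
      rfl
    rw [h1]
    exact Syz.zero _ _
  | succ h i p w hS hP hf ih =>
    rw [rs_comp, Ext.mapExactFunctor_extClass]
    exact Syz.succ ih ((Pool.Agent.Helper90.FC.res φ).map i)
      ((Pool.Agent.Helper90.FC.res φ).map p) _ (hS.map_of_exact _) (hp _ hP hf)
      (Syz_res_finite φ _ hf)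

/-- The class `κ ⊗ Y` as an element of `Ext Y (Ω ⊗ Y) a`. -/
noncomputable def shiftCls [Bialgebra k A] {Ω : ModuleCat.{u} A} {a : ℕ}
    (κ : Ext (trivObj k A) Ω a) (Y : ModuleCat.{u} A) :
    Ext Y ((tensFunctor k Y).obj Ω) a :=
  (Ext.mk₀ (unitMap k Y)).comp (κ.mapExactFunctor (tensFunctor k Y)) (zero_add a)

private theorem Syz_tens_injective [HopfAlgebra k A] [Module.Finite k A] (P Y : ModuleCat.{u} A)
    (hP : Projective P) (hf : Module.Finite A P) (hY : Module.Finite A Y) :
    Injective ((tensFunctor k Y).obj P) := by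
  have h0 : Module.Projective A P := (IsProjective.iff_projective P).2 hP
  have h1 : Module.Finite k Y := Module.Finite.trans A Y
  have h2 : Module.Finite k P := Module.Finite.trans A P
  have h3 : Module.Projective A (Ten k A P Y) := proj_ten_left
  have h4 : Module.Finite A (Ten k A P Y) := Module.Finite.of_restrictScalars_finite k A _
  have h5 : Module.Injective A (Ten k A P Y) := inj_of_proj k (Ten k A P Y)
  exact Module.injective_object_of_injective_module A (Ten k A P Y)

private theorem Syz_iso_surj {X Y Y' : ModuleCat.{u} A} (f : Y ⟶ Y') [IsIso f] {m n : ℕ}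
    (hn : m + 0 = n) : Function.Surjective (fun g : Ext X Y m => g.comp (Ext.mk₀ f) hn) := by
  intro z
  obtain rfl : m = n := by omega
  refine ⟨z.comp (Ext.mk₀ (inv f)) (add_zero m), ?_⟩
  change (z.comp (Ext.mk₀ (inv f)) (add_zero m)).comp (Ext.mk₀ f) hn = z
  rw [Ext.comp_assoc_of_third_deg_zero, Ext.mk₀_comp_mk₀, IsIso.inv_hom_id, Ext.comp_mk₀_id]

private theorem Syz_shift [HopfAlgebra k A] [Module.Finite k A] {a : ℕ} {Ω : ModuleCat.{u} A}
    {κ : Ext (trivObj k A) Ω a} (h : Syz k a Ω κ) (Y : ModuleCat.{u} A) (hY : Module.Finite A Y)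
    {X : ModuleCat.{u} A} {m n : ℕ} (hn : m + a = n) :
    Function.Surjective (fun g : Ext X ((tensFunctor k Y).obj (trivObj k A)) m =>
      g.comp (κ.mapExactFunctor (tensFunctor k Y)) hn) := by
  induction h generalizing m n with
  | zero Ω e =>
    rw [Ext.mapExactFunctor_mk₀]
    exact Syz_iso_surj _ hn
  | @succ a Ω κ h Ω' P i p w hS hP hf ih =>
    intro z
    obtain ⟨n', rfl⟩ : ∃ n', n = n' + 1 := ⟨m + a, by omega⟩
    have hI : Injective ((ShortComplex.mk i p w).map (tensFunctor k Y)).X₂ :=
      Syz_tens_injective (k := k) P Y hP hf hY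
    obtain ⟨y, hy⟩ := Ext.covariant_sequence_exact₁ X (hS.map_of_exact (tensFunctor k Y)) z
      (Ext.eq_zero_of_injective _) (n₀ := n') rfl
    obtain ⟨g, hg⟩ := ih (m := m) (n := n') (by omega) y
    refine ⟨g, ?_⟩
    change g.comp _ hn = z
    rw [Ext.mapExactFunctor_comp, Ext.mapExactFunctor_extClass,
      ← Ext.comp_assoc g _ _ (show m + a = n' by omega) rfl (by omega)]
    exact (congrArg (fun t => Ext.comp t (hS.map_of_exact (tensFunctor k Y)).extClass rfl)
      hg).trans hy

/-- Dimension shifting: composition with `κ ⊗ Y` is surjective. (`P ⊗ Y` is projective, hence injective: `proj_ten_left`, `inj_of_proj` of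
Helper59/FG/Mods; use `Ext.covariant_sequence_exact₁`, `exact₃` for `S.map (tensFunctor k Y)`.) -/
theorem Syz.shift_surj [HopfAlgebra k A] [Module.Finite k A] {a : ℕ} {Ω : ModuleCat.{u} A}
    {κ : Ext (trivObj k A) Ω a} (h : Syz k a Ω κ) (Y : ModuleCat.{u} A) [Module.Finite A Y]
    {X : ModuleCat.{u} A} {m n : ℕ} (hn : m + a = n) :
    Function.Surjective (fun g : Ext X Y m => g.comp (shiftCls κ Y) hn) := by
  intro z
  obtain ⟨y, hy⟩ := Syz_shift h Y inferInstance hn z
  obtain ⟨g, hg⟩ := Syz_iso_surj (unitMap k Y) (add_zero m) y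
  refine ⟨g, ?_⟩
  change g.comp (shiftCls κ Y) hn = z
  rw [shiftCls, ← Ext.comp_assoc g _ _ (add_zero m) (zero_add a) (by omega)]
  exact (congrArg (fun t => Ext.comp t (κ.mapExactFunctor (tensFunctor k Y)) hn) hg).trans hy

end

end Pool.Agent.Helper90.FC
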