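import Pool.Agent.Helper90.FC.NatExt
import Pool.Agent.Helper59.FG.Mods
import Pool.Agent.Helper59.FG.CohAct

/-!
# Project FC, piece TEN: the two tensor functors commute up to sign on `Ext`

`rst k Y x` (Helper59/FG/CohAct.lean) is the class `x ⊗ Y` in `Ext Y Y a`.

Define the left tensor functor `V ⊗ -` (as `tensFunctor`, which is `- ⊗ M`), show that it is
additive and exact (`Ten.exact_left`... of Helper59/FG/Tens.lean have right versions, or use the
flip), and that a map `f : V → V'` gives a natural transformation `(V ⊗ -) → (V' ⊗ -)` whose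
component at `X` is `(tensFunctor k X).map f`; a short exact sequence in `V` gives a short exact
sequence of functors. Then:

For `x : Ext V V' a` and `g : Ext X Y b` in `ModuleCat A`:
`(V ⊗ g).comp (x ⊗ Y) = (-1)^(a b) • (x ⊗ X).comp (V' ⊗ g)`  (in `Ext (V ⊗ X) (V' ⊗ Y) (a + b)`).
Induction on `a`: for `a = 0` this is `nat0`; for `x = x'.comp extClass` it is `nat1` (write
`x` in this way by embedding `V'` in an injective module).

`comm_rst`: apply this to `V = V' = k` and `X = k`, with `nat0` for the natural isomorphisms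
`Id → k ⊗ -` (`unitMap k M`) and `mapId`. `rst_triv`: `nat0` for the natural transformation
`Id → - ⊗ k`, whose component at `k` is `unitMap k k`.
-/

set_option linter.unusedSectionVars false
set_option autoImplicit false

open CategoryTheory CategoryTheory.Abelian CategoryTheory.Limits
open scoped ModuleCat TensorProduct
open Pool.Agent.Helper59.FG

namespace Pool.Agent.Helper90.FC

universe u

section

variable (k : Type u) [Field k] {A : Type u} [Ring A] [Bialgebra k A]

/-! ### The functor `V ⊗ -` -/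

/-- The map `V ⊗ g`. -/
private noncomputable def TensL_lmap (V : ModuleCat.{u} A) {X Y : ModuleCat.{u} A} (g : X ⟶ Y) :
    TT k V X →ₗ[A] TT k V Y :=
  Ten.map (k := k) (LinearMap.id : V →ₗ[A] V) g.hom

private theorem TensL_lmap_id (V X : ModuleCat.{u} A) : TensL_lmap k V (𝟙 X) = LinearMap.id := by
  refine LinearMap.ext fun z => ?_
  have h : TensorProduct.map (LinearMap.id : V →ₗ[k] V) ((𝟙 X : X ⟶ X).hom.restrictScalars k) =
      LinearMap.id := TensorProduct.map_id
  exact congr($h (show V ⊗[k] X from z))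

private theorem TensL_lmap_comp (V : ModuleCat.{u} A) {X Y Z : ModuleCat.{u} A} (f : X ⟶ Y)
    (g : Y ⟶ Z) : TensL_lmap k V (f ≫ g) = TensL_lmap k V g ∘ₗ TensL_lmap k V f := by
  refine LinearMap.ext fun z => ?_
  have h := TensorProduct.map_comp (LinearMap.id : V →ₗ[k] V) (g.hom.restrictScalars k)
      (LinearMap.id : V →ₗ[k] V) (f.hom.restrictScalars k)
  exact congr($h (show V ⊗[k] X from z))

private theorem TensL_lmap_add (V : ModuleCat.{u} A) {X Y : ModuleCat.{u} A} (f g : X ⟶ Y) :
    TensL_lmap k V (f + g) = TensL_lmap k V f + TensL_lmap k V g := by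
  refine LinearMap.ext fun z => ?_
  have h := TensorProduct.map_add_right (LinearMap.id : V →ₗ[k] V) (f.hom.restrictScalars k)
    (g.hom.restrictScalars k)
  exact congr($h (show V ⊗[k] X from z))

/-- The functor `V ⊗ -`. -/
noncomputable def TensL_fun (V : ModuleCat.{u} A) : ModuleCat.{u} A ⥤ ModuleCat.{u} A where
  obj X := ModuleCat.of A (TT k V X)
  map f := ModuleCat.ofHom (TensL_lmap k V f)
  map_id X := congrArg ModuleCat.ofHom (TensL_lmap_id k V X)
  map_comp f g := congrArg ModuleCat.ofHom (TensL_lmap_comp k V f g)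

instance TensL_add (V : ModuleCat.{u} A) : (TensL_fun k V).Additive where
  map_add {_ _ f g} := congrArg ModuleCat.ofHom (TensL_lmap_add k V f g)

private theorem TensL_exact (V : ModuleCat.{u} A) (S : ShortComplex (ModuleCat.{u} A))
    (hS : S.ShortExact) : (S.map (TensL_fun k V)).ShortExact := by
  have h1 : Function.Exact S.f.hom S.g.hom :=
    (ShortComplex.ShortExact.moduleCat_exact_iff_function_exact S).1 hS.exact
  have h2 : Function.Injective S.f.hom := hS.moduleCat_injective_f
  have h3 : Function.Surjective S.g.hom := hS.moduleCat_surjective_g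
  have e1 : Function.Exact (TensL_lmap k V S.f) (TensL_lmap k V S.g) :=
    Ten.exact_right (k := k) (Y := V) S.f.hom S.g.hom h1 h3
  have e2 : Function.Injective (TensL_lmap k V S.f) :=
    Ten.map_injective (k := k) (LinearMap.id : V →ₗ[A] V) S.f.hom Function.injective_id h2
  have e3 : Function.Surjective (TensL_lmap k V S.g) :=
    Ten.map_surjective (k := k) (LinearMap.id : V →ₗ[A] V) S.g.hom Function.surjective_id h3
  exact ModuleCat.shortComplex_shortExact _ e1 e2 e3

instance TensL_lim (V : ModuleCat.{u} A) : PreservesFiniteLimits (TensL_fun k V) := by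
  have := ((Functor.exact_tfae (TensL_fun k V)).out 0 3).1 (TensL_exact k V)
  exact this.1

instance TensL_colim (V : ModuleCat.{u} A) : PreservesFiniteColimits (TensL_fun k V) := by
  have := ((Functor.exact_tfae (TensL_fun k V)).out 0 3).1 (TensL_exact k V)
  exact this.2

private theorem TensL_swap {V V' X Y : ModuleCat.{u} A} (f : V ⟶ V') (g : X ⟶ Y) :
    tmap k f Y ∘ₗ TensL_lmap k V g = TensL_lmap k V' g ∘ₗ tmap k f X := by
  refine LinearMap.ext fun z => ?_
  have h : TensorProduct.map (f.hom.restrictScalars k) (LinearMap.id : Y →ₗ[k] Y) ∘ₗ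
      TensorProduct.map (LinearMap.id : V →ₗ[k] V) (g.hom.restrictScalars k) =
      TensorProduct.map (LinearMap.id : V' →ₗ[k] V') (g.hom.restrictScalars k) ∘ₗ
      TensorProduct.map (f.hom.restrictScalars k) (LinearMap.id : X →ₗ[k] X) := by
    rw [← TensorProduct.map_comp, ← TensorProduct.map_comp]
    rfl
  exact congr($h (show V ⊗[k] X from z))

/-- A map `V → V'` gives a natural transformation `(V ⊗ -) → (V' ⊗ -)`. -/
noncomputable def TensL_nat {V V' : ModuleCat.{u} A} (f : V ⟶ V') :
    TensL_fun k V ⟶ TensL_fun k V' where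
  app X := (tensFunctor k X).map f
  naturality _ _ g := congrArg ModuleCat.ofHom (TensL_swap k f g)

/-! ### The sign rule -/

private theorem TensL_sgn {R : Type u} [AddCommGroup R] {n : ℕ} {a b : R}
    (h : a = ((-1 : ℤ) ^ n) • b) : b = ((-1 : ℤ) ^ n) • a := by
  rw [h, smul_smul, ← mul_pow]
  norm_num

private theorem TensL_alg {P Q R S T U : ModuleCat.{u} A} {a b n m : ℕ}
    (gV : Ext P Q b) (xY : Ext Q R a) (eY : Ext R S 1) (xX : Ext P T a) (gZ : Ext T R b)
    (eX : Ext T U 1) (gV' : Ext U S b)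
    (hm : b + a = m) (hm' : a + b = m)
    (h2 : gV.comp xY hm = ((-1 : ℤ) ^ (a * b)) • xX.comp gZ hm')
    (h1 : eX.comp gV' (rfl : 1 + b = 1 + b) = ((-1 : ℤ) ^ b) • gZ.comp eY (add_comm b 1))
    (h : a + 1 + b = n) (h' : b + (a + 1) = n) :
    gV.comp (xY.comp eY (rfl : a + 1 = a + 1)) h' =
      ((-1 : ℤ) ^ ((a + 1) * b)) • (xX.comp eX (rfl : a + 1 = a + 1)).comp gV' h := by
  have e1 : gV.comp (xY.comp eY (rfl : a + 1 = a + 1)) h' =
      (gV.comp xY hm).comp eY (by omega : m + 1 = n) :=
    (Ext.comp_assoc _ _ _ _ _ (by omega)).symm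
  have e2 : (xX.comp gZ hm').comp eY (by omega : m + 1 = n) =
      xX.comp (gZ.comp eY (add_comm b 1)) (by omega : a + (1 + b) = n) :=
    Ext.comp_assoc _ _ _ _ _ (by omega)
  have e3 : (xX.comp eX (rfl : a + 1 = a + 1)).comp gV' h =
      xX.comp (eX.comp gV' (rfl : 1 + b = 1 + b)) (by omega : a + (1 + b) = n) :=
    Ext.comp_assoc _ _ _ _ _ (by omega)
  rw [e1, h2, e3, h1, add_mul, one_mul, pow_add]
  rcases neg_one_pow_eq_or ℤ b with hb | hb <;> rcases neg_one_pow_eq_or ℤ (a * b) with hc | hc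
  · simp only [hb, hc, one_smul, one_mul, e2]
  · simp only [hb, hc, one_smul, mul_one, neg_smul, Ext.neg_comp, e2]
  · simp only [hb, hc, one_smul, one_mul, neg_smul, Ext.comp_neg, neg_neg, e2]
  · simp only [hb, hc, one_smul, mul_neg, mul_one, neg_smul, Ext.neg_comp, Ext.comp_neg, neg_neg,
      e2]

/-- The two tensor functors commute on `Ext` up to the sign. -/
theorem TensL_comm {V V' X Y : ModuleCat.{u} A} {a b c : ℕ} (x : Ext V V' a) (g : Ext X Y b)
    (h : a + b = c) (h' : b + a = c) :
    (g.mapExactFunctor (TensL_fun k V)).comp (x.mapExactFunctor (tensFunctor k Y)) h' =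
      ((-1 : ℤ) ^ (a * b)) •
        (x.mapExactFunctor (tensFunctor k X)).comp (g.mapExactFunctor (TensL_fun k V')) h := by
  induction a generalizing V' c with
  | zero =>
    subst h'
    obtain ⟨f, rfl⟩ := (Ext.mk₀_bijective V V').2 x
    rw [Ext.mapExactFunctor_mk₀, Ext.mapExactFunctor_mk₀, zero_mul, pow_zero, one_smul]
    exact nat0 (TensL_nat k f) g
  | succ a ih =>
    have hS : (ShortComplex.mk (Injective.ι V') (cokernel.π (Injective.ι V'))
        (cokernel.condition _)).ShortExact :=
      { exact := ShortComplex.exact_cokernel _ }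
    obtain ⟨x', rfl⟩ := Ext.covariant_sequence_exact₁ V hS x (Ext.eq_zero_of_injective _)
      (rfl : a + 1 = a + 1)
    have h1 := nat1 (TensL_nat k (Injective.ι V')) (TensL_nat k (cokernel.π (Injective.ι V')))
      (fun W => by
        have := ((ShortComplex.mk (Injective.ι V') (cokernel.π (Injective.ι V'))
          (cokernel.condition _)).map (tensFunctor k W)).zero
        exact this)
      (fun W => tensFunctor_shortExact k W _ hS) g (rfl : 1 + b = 1 + b) (add_comm b 1)
    have h2 := ih x' (rfl : a + b = a + b) (add_comm b a)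
    rw [Ext.mapExactFunctor_comp, Ext.mapExactFunctor_comp, Ext.mapExactFunctor_extClass,
      Ext.mapExactFunctor_extClass]
    exact TensL_alg _ _ _ _ _ _ _ _ _ h2 h1 h h'

/-! ### The units -/

/-- The natural map `M → k ⊗ M`. -/
private theorem TensL_unit_nat {M N : ModuleCat.{u} A} (g : M ⟶ N) :
    unitLin k N ∘ₗ g.hom = TensL_lmap k (trivObj k A) g ∘ₗ unitLin k M := by
  refine LinearMap.ext fun z => ?_
  rfl

/-- The natural transformation `Id → k ⊗ -`. -/
noncomputable def TensL_unit : 𝟭 (ModuleCat.{u} A) ⟶ TensL_fun k (trivObj k A) where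
  app M := unitMap k M
  naturality _ _ g := congrArg ModuleCat.ofHom (TensL_unit_nat k g)

private theorem TensL_runit_smul (M : ModuleCat.{u} A) (a : A) (m : M) :
    (a • m) ⊗ₜ[k] oneT k A = tact k M (trivObj k A) a (m ⊗ₜ[k] oneT k A) := by
  change _ = (Module.endTensorEndAlgHom (R := k) (S := k) (A := k) (M := M)
      (N := trivObj k A)) (Algebra.TensorProduct.map _ _ (Coalgebra.comul a)) (m ⊗ₜ[k] oneT k A)
  rw [tact_tmul]
  have h : (LinearMap.toSpanSingleton A (trivObj k A) (oneT k A)).restrictScalars k =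
      (LinearMap.toSpanSingleton k (trivObj k A) (oneT k A)) ∘ₗ Coalgebra.counit :=
    LinearMap.ext (oneT_smul k)
  have h2 : TensorProduct.map ((LinearMap.toSpanSingleton A M m).restrictScalars k)
      ((LinearMap.toSpanSingleton k (trivObj k A) (oneT k A)) ∘ₗ Coalgebra.counit)
      (Coalgebra.comul (R := k) a) =
      TensorProduct.map ((LinearMap.toSpanSingleton A M m).restrictScalars k)
        (LinearMap.toSpanSingleton k (trivObj k A) (oneT k A))
        (Coalgebra.counit.lTensor A (Coalgebra.comul (R := k) a)) := by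
    rw [LinearMap.map_lTensor]
  rw [h, h2, Coalgebra.lTensor_counit_comul]
  simp

/-- The map `M → M ⊗ k`, `m ↦ m ⊗ 1`, as a function. -/
private noncomputable def TensL_runitFun (M : ModuleCat.{u} A) (m : M) : TT k M (trivObj k A) :=
  (m ⊗ₜ[k] oneT k A : M ⊗[k] trivObj k A)

/-- The map `M → M ⊗ k`, `m ↦ m ⊗ 1`, as an `A`-linear map. -/
private noncomputable def TensL_runitLin (M : ModuleCat.{u} A) : M →ₗ[A] TT k M (trivObj k A) where
  toFun := TensL_runitFun k M
  map_add' x y := TensorProduct.add_tmul x y (oneT k A)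
  map_smul' := TensL_runit_smul k M

private theorem TensL_runit_nat {M N : ModuleCat.{u} A} (g : M ⟶ N) :
    TensL_runitLin k N ∘ₗ g.hom = tmap k g (trivObj k A) ∘ₗ TensL_runitLin k M := by
  refine LinearMap.ext fun z => ?_
  rfl

/-- The natural transformation `Id → - ⊗ k`. -/
noncomputable def TensL_runit : 𝟭 (ModuleCat.{u} A) ⟶ tensFunctor k (trivObj k A) where
  app M := ModuleCat.ofHom (TensL_runitLin k M)
  naturality _ _ g := congrArg ModuleCat.ofHom (TensL_runit_nat k g)

private theorem TensL_runit_triv :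
    (TensL_runit k (A := A)).app (trivObj k A) = unitMap k (trivObj k A) := by
  refine ModuleCat.hom_ext (LinearMap.ext fun z => ?_)
  have h : ∀ c : k, c • oneT k A = (Bialgebra.counitAlgHom k A (algebraMap k A c) * 1 : k) :=
    fun c => rfl
  obtain ⟨c, rfl⟩ : ∃ c : k, c • oneT k A = z := by
    refine ⟨(show k from z), ?_⟩
    rw [h, AlgHom.commutes, mul_one]
    rfl
  change ((c • oneT k A) ⊗ₜ[k] oneT k A : trivObj k A ⊗[k] trivObj k A) =
    (oneT k A ⊗ₜ[k] (c • oneT k A))
  rw [TensorProduct.smul_tmul]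

theorem rst_triv {n : ℕ} (x : Ext (trivObj k A) (trivObj k A) n) :
    rst k (trivObj k A) x = x := by
  have h := nat0 (TensL_runit k (A := A)) x
  rw [mapId, TensL_runit_triv] at h
  have h2 : (Ext.mk₀ (unitMap k (trivObj k A))).comp
      (x.mapExactFunctor (tensFunctor k (trivObj k A))) (zero_add n) =
      x.comp (Ext.mk₀ (unitMap k (trivObj k A))) (add_zero n) := h.symm
  unfold rst
  rw [← Ext.comp_assoc_of_third_deg_zero, h2, Ext.comp_assoc_of_third_deg_zero,
    Ext.mk₀_comp_mk₀, IsIso.hom_inv_id, Ext.comp_mk₀_id]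

private theorem TensL_conj {K Y PK PY : ModuleCat.{u} A} {a b c : ℕ} (uK : K ⟶ PK) (uY : Y ⟶ PY)
    [IsIso uK] [IsIso uY] (g : Ext K Y b) (gg : Ext PK PY b) (x : Ext K K a) (xx : Ext PK PK a)
    (xY : Ext PY PY a) (s : ℤ) (hs : s = 1 ∨ s = -1) (h : a + b = c) (h' : b + a = c)
    (h3 : g.comp (Ext.mk₀ uY) (add_zero b) = (Ext.mk₀ uK).comp gg (zero_add b))
    (h1 : gg.comp xY h' = s • xx.comp gg h)
    (ht : (Ext.mk₀ uK).comp (xx.comp (Ext.mk₀ (inv uK)) (add_zero a)) (zero_add a) = x) :
    g.comp ((Ext.mk₀ uY).comp (xY.comp (Ext.mk₀ (inv uY)) (add_zero a)) (zero_add a)) h' =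
      s • x.comp g h := by
  have h4 : gg.comp (Ext.mk₀ (inv uY)) (add_zero b) = (Ext.mk₀ (inv uK)).comp g (zero_add b) := by
    have e1 : (Ext.mk₀ (inv uK)).comp (g.comp (Ext.mk₀ uY) (add_zero b)) (zero_add b) = gg := by
      rw [h3, Ext.mk₀_comp_mk₀_assoc, IsIso.inv_hom_id, Ext.mk₀_id_comp]
    rw [← e1, Ext.comp_assoc_of_third_deg_zero, Ext.comp_assoc_of_third_deg_zero,
      Ext.mk₀_comp_mk₀, IsIso.hom_inv_id, Ext.comp_mk₀_id]
  have e5 : g.comp ((Ext.mk₀ uY).comp (xY.comp (Ext.mk₀ (inv uY)) (add_zero a)) (zero_add a)) h' =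
      (g.comp (Ext.mk₀ uY) (add_zero b)).comp (xY.comp (Ext.mk₀ (inv uY)) (add_zero a)) h' :=
    (Ext.comp_assoc_of_second_deg_zero _ _ _ _).symm
  have e6 : ((Ext.mk₀ uK).comp gg (zero_add b)).comp
      (xY.comp (Ext.mk₀ (inv uY)) (add_zero a)) h' =
      (Ext.mk₀ uK).comp ((gg.comp xY h').comp (Ext.mk₀ (inv uY)) (add_zero c)) (zero_add c) := by
    rw [Ext.comp_assoc (Ext.mk₀ uK) gg _ (zero_add b) h' (by omega),
      Ext.comp_assoc_of_third_deg_zero]
  have e7 : (xx.comp gg h).comp (Ext.mk₀ (inv uY)) (add_zero c) =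
      (xx.comp (Ext.mk₀ (inv uK)) (add_zero a)).comp g h := by
    rw [Ext.comp_assoc_of_third_deg_zero, h4, Ext.comp_assoc_of_second_deg_zero]
  have e8 : (Ext.mk₀ uK).comp ((xx.comp gg h).comp (Ext.mk₀ (inv uY)) (add_zero c)) (zero_add c) =
      x.comp g h := by
    rw [e7, ← ht]
    exact (Ext.comp_assoc _ _ _ _ _ (by omega)).symm
  rw [e5, h3, e6, h1]
  rcases hs with rfl | rfl
  · rw [one_smul, one_smul, e8]
  · rw [neg_smul, one_smul, Ext.neg_comp, Ext.comp_neg, e8, neg_smul, one_smul]

theorem comm_rst (Y : ModuleCat.{u} A) {a b c : ℕ} (x : Ext (trivObj k A) (trivObj k A) a)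
    (g : Ext (trivObj k A) Y b) (h : a + b = c) (h' : b + a = c) :
    x.comp g h = ((-1 : ℤ) ^ (a * b)) • g.comp (rst k Y x) h' := by
  have h1 := TensL_comm k x g h h'
  have h2 := nat0 (TensL_unit k (A := A)) g
  rw [mapId] at h2
  have h5 : g.comp (rst k Y x) h' = ((-1 : ℤ) ^ (a * b)) • x.comp g h :=
    TensL_conj (unitMap k (trivObj k A)) (unitMap k Y) g
      (g.mapExactFunctor (TensL_fun k (trivObj k A))) x
      (x.mapExactFunctor (tensFunctor k (trivObj k A))) (x.mapExactFunctor (tensFunctor k Y))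
      ((-1 : ℤ) ^ (a * b)) (neg_one_pow_eq_or ℤ _) h h' h2 h1 (rst_triv k x)
  rw [h5, smul_smul, ← mul_pow]
  norm_num

/-- Graded commutativity of `Ext(k, k)`. -/
theorem comm_gr {a b c : ℕ} (x : Ext (trivObj k A) (trivObj k A) a)
    (y : Ext (trivObj k A) (trivObj k A) b) (h : a + b = c) (h' : b + a = c) :
    x.comp y h = ((-1 : ℤ) ^ (a * b)) • y.comp x h' := by
  rw [comm_rst k (trivObj k A) x y h h', rst_triv]

/-- Classes of even degree are central. -/
theorem comm_even {a b c : ℕ} (x : Ext (trivObj k A) (trivObj k A) a)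
    (y : Ext (trivObj k A) (trivObj k A) b) (h : a + b = c) (h' : b + a = c) (ha : Even a) :
    x.comp y h = y.comp x h' := by
  rw [comm_gr k x y h h', Even.neg_one_pow (ha.mul_right b), one_smul]

theorem comm_rst_even (Y : ModuleCat.{u} A) {a b c : ℕ} (x : Ext (trivObj k A) (trivObj k A) a)
    (g : Ext (trivObj k A) Y b) (h : a + b = c) (h' : b + a = c) (ha : Even a) :
    x.comp g h = g.comp (rst k Y x) h' := by
  rw [comm_rst k Y x g h h', Even.neg_one_pow (ha.mul_right b), one_smul]

end

end Pool.Agent.Helper90.FC
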