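import Pool.Agent.Helper90.FC.Bock

/-!
# Project FC, piece VMO: the Bockstein classes of a truncated polynomial algebra

`F` has coordinates `c : Coords k p F n`. For each `i` there are `F`-modules
`W = k[t]/(t^p)` (with `x_i` acting as `t` and `x_j` as `0` for `j ≠ i`), `W' = t W`, and exact
sequences `0 → k → W → W' → 0` (`1 ↦ t^(p-1)`, and multiplication by `t`) and
`0 → W' → W → k → 0`. We take `W = Fin p → k` with basis `e_0, …, e_{p-1}`, `x_i e_a = e_{a+1}`,
`x_i e_{p-1} = 0`.

The composite of the two extension classes is the class of the cocycle `bock i`. Proof: apply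
`cls_delta` twice. The invariant `1` of `k` lifts to `e_0`, whose coboundary is the cocycle
`f ↦ (f - ε f) e_0` with values in `W'`; with `ρ(f) = f e_0 = ∑ f_a e_a` this is
`∑_{a ≥ 1} f_a e_a`, and lifts along multiplication by `t` to the cochain
`h(f) = ∑_{a ≥ 1} f_a e_{a-1}` of `W`, whose coboundary at `(f, g)` is `f h(g) - h(fg) + h(f) ε(g)
= (∑_{a+b=p} f_a g_b) e_{p-1} = bock i f g • e_{p-1}` (`red f` has coefficient `f_a` at `X_i^a`).
-/

set_option linter.unusedSectionVars false
set_option autoImplicit false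

open CategoryTheory CategoryTheory.Abelian CategoryTheory.Limits
open scoped ModuleCat TensorProduct
open Pool.Agent.Helper59.FG

namespace Pool.Agent.Helper90.FC

universe u

section

variable {k : Type u} [Field k] {n : ℕ}

/-- The evaluation at `X_i = X` and `X_j = 0` for `j ≠ i`. -/
noncomputable def VMod_sig (i : Fin n) : MvPolynomial (Fin n) k →ₐ[k] Polynomial k :=
  MvPolynomial.aeval fun j => if j = i then Polynomial.X else 0

theorem VMod_sig_X (i : Fin n) :
    VMod_sig (k := k) i (MvPolynomial.X i) = Polynomial.X := by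
  simp [VMod_sig]

theorem VMod_sig_X' (i j : Fin n) (h : j ≠ i) :
    VMod_sig (k := k) i (MvPolynomial.X j) = 0 := by
  simp [VMod_sig, h]

theorem VMod_coeff_sig (i : Fin n) (g : MvPolynomial (Fin n) k) (m : ℕ) :
    (VMod_sig i g).coeff m = MvPolynomial.coeff (Finsupp.single i m) g := by
  classical
  induction g using MvPolynomial.induction_on' with
  | add p q hp hq => rw [map_add, Polynomial.coeff_add, hp, hq, MvPolynomial.coeff_add]
  | monomial a c =>
    rw [MvPolynomial.coeff_monomial]
    have h1 : VMod_sig i (MvPolynomial.monomial a c) =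
        if a = Finsupp.single i (a i) then Polynomial.C c * Polynomial.X ^ (a i) else 0 := by
      rw [VMod_sig, MvPolynomial.aeval_monomial, Finsupp.prod_fintype _ _ (fun j => pow_zero _)]
      split_ifs with h
      · congr 1
        rw [Finset.prod_eq_single i]
        · rw [if_pos rfl]
        · intro j _ hj
          rw [h, Finsupp.single_apply, if_neg (Ne.symm hj), pow_zero]
        · intro h'
          exact absurd (Finset.mem_univ i) h'
      · have h2 : ∃ j, j ≠ i ∧ a j ≠ 0 := by
          by_contra h3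
          push Not at h3
          apply h
          ext j
          by_cases hj : j = i
          · rw [hj, Finsupp.single_eq_same]
          · rw [Finsupp.single_apply, if_neg (Ne.symm hj)]
            exact h3 j hj
        obtain ⟨j, hj, haj⟩ := h2
        rw [Finset.prod_eq_zero (Finset.mem_univ j), mul_zero]
        rw [if_neg hj, zero_pow haj]
    rw [h1]
    by_cases h : a = Finsupp.single i (a i)
    · rw [if_pos h, Polynomial.coeff_C_mul_X_pow]
      by_cases hm : m = a i
      · rw [if_pos hm, if_pos (hm ▸ h)]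
      · rw [if_neg hm, if_neg]
        intro h4
        apply hm
        rw [h4, Finsupp.single_eq_same]
    · rw [if_neg h, Polynomial.coeff_zero, if_neg]
      intro h4
      apply h
      rw [h4, Finsupp.single_eq_same]

theorem VMod_lam (p : ℕ) (i : Fin n) (g : MvPolynomial (Fin n) k) :
    lam p i g = (VMod_sig i g).coeff p := by
  rw [VMod_coeff_sig]
  rfl

theorem VMod_const (i : Fin n) (g : MvPolynomial (Fin n) k) :
    MvPolynomial.constantCoeff g = (VMod_sig i g).coeff 0 := by
  rw [VMod_coeff_sig, Finsupp.single_zero]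
  rfl

theorem VMod_divX_mul (u v : Polynomial k) :
    (u * v).divX = u * v.divX + Polynomial.C (v.coeff 0) * u.divX := by
  have hX : (Polynomial.X : Polynomial k) ≠ 0 := Polynomial.X_ne_zero
  apply mul_right_cancel₀ hX
  have h1 := Polynomial.divX_mul_X_add (u * v)
  have h2 := Polynomial.divX_mul_X_add u
  have h3 := Polynomial.divX_mul_X_add v
  have h4 : (u * v).coeff 0 = u.coeff 0 * v.coeff 0 := Polynomial.mul_coeff_zero u v
  rw [h4, Polynomial.C_mul] at h1
  linear_combination h1 - u * h3 - Polynomial.C (v.coeff 0) * h2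

theorem VMod_divX_X_mul (s : Polynomial k) : (Polynomial.X * s).divX = s := by
  have h1 : (Polynomial.X : Polynomial k).divX = 1 := by
    simpa using Polynomial.divX_X_pow (R := k) (n := 1)
  rw [VMod_divX_mul, h1, mul_one, mul_comm, Polynomial.divX_mul_X_add]

end

section

variable {k : Type u} [Field k] {F : Type u} [CommRing F] [HopfAlgebra k F] [Module.Finite k F]

/-- `W` is the module `k[t]/(t^p)` on which `x_i` acts as `t` and the other coordinates as zero. -/
structure IsW (p : ℕ) {n : ℕ} (c : Coords k p F n) (i : Fin n) (W : ModuleCat.{u} F) where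
  e : ℕ → W
  zero : ∀ a, p ≤ a → e a = 0
  basis : Module.Basis (Fin p) k W
  basis_eq : ∀ a : Fin p, basis a = e a
  act : ∀ a, c.x i • e a = e (a + 1)
  act' : ∀ j, j ≠ i → ∀ a, c.x j • e a = 0

/-- The two extensions for the coordinate `x_i`. -/
structure VData (p : ℕ) {n : ℕ} (c : Coords k p F n) (i : Fin n) where
  W : ModuleCat.{u} F
  W' : ModuleCat.{u} F
  isW : IsW p c i W
  finW' : Module.Finite F W'
  i₁ : trivObj k F ⟶ W
  p₁ : W ⟶ W'
  w₁ : i₁ ≫ p₁ = 0
  s₁ : (ShortComplex.mk i₁ p₁ w₁).ShortExact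
  i₂ : W' ⟶ W
  p₂ : W ⟶ trivObj k F
  w₂ : i₂ ≫ p₂ = 0
  s₂ : (ShortComplex.mk i₂ p₂ w₂).ShortExact

/-- The class of degree two. -/
noncomputable def VData.cl {p : ℕ} {n : ℕ} {c : Coords k p F n} {i : Fin n} (D : VData p c i) :
    Ext (trivObj k F) (trivObj k F) 2 :=
  D.s₂.extClass.comp D.s₁.extClass rfl

variable {p : ℕ} {n : ℕ}

/-- The algebra `k[t]/(t^p)`. -/
abbrev VModR (k : Type u) [Field k] (p : ℕ) : Type u :=
  AdjoinRoot (Polynomial.X ^ p : Polynomial k)

/-- The projection `k[t] → k[t]/(t^p)`. -/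
noncomputable abbrev VMod_mk (p : ℕ) : Polynomial k →ₐ[k] VModR k p :=
  AdjoinRoot.mkₐ (Polynomial.X ^ p : Polynomial k)

theorem VMod_mk_eq_zero {g : Polynomial k} : VMod_mk p g = 0 ↔ Polynomial.X ^ p ∣ g :=
  AdjoinRoot.mk_eq_zero

theorem VMod_mk_surj : Function.Surjective (VMod_mk (k := k) p) :=
  AdjoinRoot.mk_surjective

/-- The map `F → k[t]/(t^p)`. -/
noncomputable def VMod_q0 (c : Coords k p F n) (i : Fin n) : F →ₗ[k] VModR k p :=
  (VMod_mk p).toLinearMap ∘ₗ (VMod_sig i).toLinearMap ∘ₗ c.red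

theorem VMod_q0_apply (c : Coords k p F n) (i : Fin n) (f : F) :
    VMod_q0 c i f = VMod_mk p (VMod_sig i (c.red f)) := rfl

theorem VMod_ker [Fact p.Prime] (c : Coords k p F n) (i : Fin n)
    (g : MvPolynomial (Fin n) k) (hg : c.ev g = 0) : VMod_mk p (VMod_sig i g) = 0 := by
  rw [VMod_mk_eq_zero, Polynomial.X_pow_dvd_iff]
  intro m hm
  rw [VMod_coeff_sig]
  apply (c.ev_eq_zero g).1 hg
  intro j
  by_cases hj : j = i
  · rw [hj, Finsupp.single_eq_same]
    exact hm
  · rw [Finsupp.single_apply, if_neg (Ne.symm hj)]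
    exact (Fact.out : p.Prime).pos

theorem VMod_q0_ev [Fact p.Prime] (c : Coords k p F n) (i : Fin n)
    (g : MvPolynomial (Fin n) k) : VMod_q0 c i (c.ev g) = VMod_mk p (VMod_sig i g) := by
  rw [VMod_q0_apply, ← sub_eq_zero, ← map_sub, ← map_sub]
  apply VMod_ker c i
  rw [map_sub, c.ev_red, sub_self]

/-- The homomorphism `F → k[t]/(t^p)`. -/
noncomputable def VMod_q [Fact p.Prime] (c : Coords k p F n) (i : Fin n) : F →ₐ[k] VModR k p :=
  AlgHom.ofLinearMap (VMod_q0 c i)
    (by
      have h := VMod_q0_ev c i 1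
      rw [map_one c.ev, map_one (VMod_sig i), map_one (VMod_mk p)] at h
      exact h)
    (by
      intro f f'
      have h := VMod_q0_ev c i (c.red f * c.red f')
      rw [map_mul c.ev, c.ev_red, c.ev_red, map_mul (VMod_sig i), map_mul (VMod_mk p)] at h
      exact h)

theorem VMod_q_apply [Fact p.Prime] (c : Coords k p F n) (i : Fin n) (f : F) :
    VMod_q c i f = VMod_mk p (VMod_sig i (c.red f)) := rfl

theorem VMod_q_x [Fact p.Prime] (c : Coords k p F n) (i : Fin n) :
    VMod_q c i (c.x i) = VMod_mk p Polynomial.X := by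
  have h := VMod_q0_ev c i (MvPolynomial.X i)
  rw [VMod_sig_X] at h
  have h2 : c.ev (MvPolynomial.X i) = c.x i := by simp [Coords.ev]
  rw [h2] at h
  exact h

theorem VMod_q_x' [Fact p.Prime] (c : Coords k p F n) (i j : Fin n) (hj : j ≠ i) :
    VMod_q c i (c.x j) = 0 := by
  have h := VMod_q0_ev c i (MvPolynomial.X j)
  rw [VMod_sig_X' i j hj, map_zero] at h
  have h2 : c.ev (MvPolynomial.X j) = c.x j := by simp [Coords.ev]
  rw [h2] at h
  exact h

/-- The module `W`. -/
noncomputable def VModW [Fact p.Prime] (c : Coords k p F n) (i : Fin n) : ModuleCat.{u} F :=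
  @ModuleCat.of F _ (VModR k p) _ (Module.compHom _ (VMod_q c i).toRingHom)

/-- An element of `k[t]/(t^p)` as an element of `W`. -/
def VMod_to [Fact p.Prime] (c : Coords k p F n) (i : Fin n) (w : VModR k p) : VModW c i := w

/-- An element of `W` as an element of `k[t]/(t^p)`. -/
def VMod_fr [Fact p.Prime] (c : Coords k p F n) (i : Fin n) (w : VModW c i) : VModR k p := w

variable [Fact p.Prime] (c : Coords k p F n) (i : Fin n)

theorem VMod_fr_add (w w' : VModW c i) :
    VMod_fr c i (w + w') = VMod_fr c i w + VMod_fr c i w' := rfl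

theorem VMod_fr_sub (w w' : VModW c i) :
    VMod_fr c i (w - w') = VMod_fr c i w - VMod_fr c i w' := rfl

theorem VMod_fr_zero : VMod_fr c i 0 = 0 := rfl

theorem VMod_fr_smul (f : F) (w : VModW c i) :
    VMod_fr c i (f • w) = VMod_q c i f * VMod_fr c i w := rfl

theorem VMod_fr_ksmul (a : k) (w : VModW c i) :
    VMod_fr c i (a • w) = a • VMod_fr c i w := by
  change VMod_q c i (algebraMap k F a) * VMod_fr c i w = _
  rw [AlgHom.commutes, Algebra.smul_def]

theorem VMod_fr_inj {w w' : VModW c i} (h : VMod_fr c i w = VMod_fr c i w') : w = w' := h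

theorem VMod_fr_to (w : VModR k p) : VMod_fr c i (VMod_to c i w) = w := rfl

theorem VMod_to_fr (w : VModW c i) : VMod_to c i (VMod_fr c i w) = w := rfl

/-- `W` is `k[t]/(t^p)`, `k`-linearly. -/
noncomputable def VMod_toL : VModR k p ≃ₗ[k] VModW c i :=
  LinearEquiv.symm
    { toFun := VMod_fr c i
      invFun := VMod_to c i
      map_add' := VMod_fr_add c i
      map_smul' := fun a w => VMod_fr_ksmul c i a w
      left_inv := fun _ => rfl
      right_inv := fun _ => rfl }

theorem VMod_toL_apply (w : VModR k p) : VMod_toL c i w = VMod_to c i w := rfl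

/-- The basis of `W`. -/
noncomputable def VMod_basis : Module.Basis (Fin p) k (VModW c i) :=
  (((AdjoinRoot.powerBasis' (Polynomial.monic_X_pow (R := k) p)).basis.reindex
    (finCongr (Polynomial.natDegree_X_pow p))).map (VMod_toL c i))

theorem VMod_basis_apply (a : Fin p) :
    VMod_basis c i a = VMod_to c i (VMod_mk p (Polynomial.X ^ (a : ℕ))) := by
  rw [VMod_basis, Module.Basis.map_apply, Module.Basis.reindex_apply, VMod_toL_apply]
  congr 1
  rw [PowerBasis.coe_basis, map_pow]
  rfl

/-- The structure of `W`. -/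
noncomputable def VMod_isW : IsW p c i (VModW c i) where
  e a := VMod_to c i (VMod_mk p (Polynomial.X ^ a))
  zero a ha := by
    apply VMod_fr_inj
    rw [VMod_fr_to, VMod_fr_zero, VMod_mk_eq_zero]
    exact pow_dvd_pow _ ha
  basis := VMod_basis c i
  basis_eq a := VMod_basis_apply c i a
  act a := by
    apply VMod_fr_inj
    rw [VMod_fr_smul, VMod_fr_to, VMod_fr_to, VMod_q_x, ← map_mul, pow_succ']
  act' j hj a := by
    apply VMod_fr_inj
    rw [VMod_fr_smul, VMod_q_x' c i j hj, zero_mul, VMod_fr_zero]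

theorem VMod_to_add (w w' : VModR k p) :
    VMod_to c i (w + w') = VMod_to c i w + VMod_to c i w' := rfl

theorem VMod_to_sub (w w' : VModR k p) :
    VMod_to c i (w - w') = VMod_to c i w - VMod_to c i w' := rfl

theorem VMod_smul_to (f : F) (w : VModR k p) :
    f • VMod_to c i w = VMod_to c i (VMod_q c i f * w) := rfl

theorem VMod_ksmul_to (a : k) (w : VModR k p) :
    a • VMod_to c i w = VMod_to c i (a • w) := ((VMod_toL c i).map_smul a w).symm

/-- The decomposition of the image of an element of `F`. -/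
theorem VMod_q_eq (f : F) : VMod_q c i f =
    VMod_mk p Polynomial.X * VMod_mk p (VMod_sig i (c.red f)).divX +
      algebraMap k (VModR k p) (Coalgebra.counit (R := k) f) := by
  have h := Polynomial.divX_mul_X_add (VMod_sig i (c.red f))
  rw [← VMod_const, c.const_red] at h
  rw [VMod_q_apply, ← map_mul]
  conv_lhs => rw [← h]
  rw [map_add, mul_comm]
  rfl

/-- Multiplication by `t`. -/
noncomputable def VMod_t : VModW c i →ₗ[F] VModW c i := LinearMap.lsmul F (VModW c i) (c.x i)

theorem VMod_t_apply (w : VModW c i) : VMod_t c i w = c.x i • w := rfl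

/-- The embedding of the trivial module. -/
noncomputable def VMod_i1 : trivObj k F ⟶ VModW c i :=
  ConcreteCategory.ofHom (C := ModuleCat.{u} F) (X := trivObj k F) (Y := VModW c i)
    { toFun := fun a => VMod_to c i ((show k from a) • VMod_mk p (Polynomial.X ^ (p - 1)))
      map_add' := fun a b => by
        rw [← VMod_to_add]
        congr 1
        exact add_smul (show k from a) (show k from b) _
      map_smul' := fun f a => by
        rw [RingHom.id_apply, VMod_smul_to]
        congr 1
        change (Coalgebra.counit (R := k) f * (show k from a)) • _ = _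
        rw [VMod_q_eq, add_mul, mul_smul_comm, mul_right_comm, ← map_mul, ← pow_succ',
          Nat.sub_add_cancel (Fact.out : p.Prime).one_lt.le]
        have h : VMod_mk (k := k) p (Polynomial.X ^ p) = 0 := VMod_mk_eq_zero.2 dvd_rfl
        rw [h, zero_mul, smul_zero, zero_add, Algebra.algebraMap_eq_smul_one, smul_mul_assoc,
          one_mul, smul_smul] }

theorem VMod_i1_apply (a : k) : (VMod_i1 c i).hom (show trivObj k F from a) =
    VMod_to c i (a • VMod_mk p (Polynomial.X ^ (p - 1))) := rfl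

/-- The evaluation at `t = 0`. -/
noncomputable def VMod_e0 : VModR k p →ₐ[k] k :=
  AdjoinRoot.liftAlgHom (Polynomial.X ^ p : Polynomial k) (AlgHom.id k k) 0 (by
    have hp : p ≠ 0 := (Fact.out : p.Prime).ne_zero
    simp [hp])

theorem VMod_e0_mk (g : Polynomial k) : VMod_e0 (VMod_mk p g) = g.coeff 0 := by
  rw [Polynomial.coeff_zero_eq_eval_zero]
  rfl

/-- The projection to the trivial module. -/
noncomputable def VMod_p2 : VModW c i ⟶ trivObj k F :=
  ConcreteCategory.ofHom (C := ModuleCat.{u} F) (X := VModW c i) (Y := trivObj k F)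
    { toFun := fun w => (show trivObj k F from (VMod_e0 (VMod_fr c i w) : k))
      map_add' := fun w w' => map_add (VMod_e0 (k := k) (p := p)) (VMod_fr c i w) (VMod_fr c i w')
      map_smul' := fun f w => by
        change VMod_e0 (VMod_fr c i (f • w)) = Coalgebra.counit (R := k) f *
          VMod_e0 (VMod_fr c i w)
        rw [VMod_fr_smul, map_mul, VMod_q_apply, VMod_e0_mk, ← VMod_const, c.const_red] }

theorem VMod_p2_apply (w : VModW c i) : (VMod_p2 c i).hom w =
    (show trivObj k F from (VMod_e0 (VMod_fr c i w) : k)) := rfl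

/-- The module `W' = t W`. -/
noncomputable def VModW' : ModuleCat.{u} F := ModuleCat.of F (LinearMap.range (VMod_t c i))

/-- Multiplication by `t` as a morphism to `W'`. -/
noncomputable def VMod_p1 : VModW c i ⟶ VModW' c i :=
  ConcreteCategory.ofHom (C := ModuleCat.{u} F) (X := VModW c i) (Y := VModW' c i)
    (LinearMap.rangeRestrict (VMod_t c i))

/-- The inclusion of `W'`. -/
noncomputable def VMod_i2 : VModW' c i ⟶ VModW c i :=
  ConcreteCategory.ofHom (C := ModuleCat.{u} F) (X := VModW' c i) (Y := VModW c i)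
    (LinearMap.range (VMod_t c i)).subtype

theorem VMod_i2_p1 (w : VModW c i) : (VMod_i2 c i).hom ((VMod_p1 c i).hom w) = c.x i • w := rfl

theorem VMod_i2_inj : Function.Injective (VMod_i2 c i).hom := Subtype.val_injective

theorem VMod_ker_t (w : VModW c i) : c.x i • w = 0 ↔
    ∃ a : k, VMod_to c i (a • VMod_mk p (Polynomial.X ^ (p - 1))) = w := by
  have hp : p - 1 + 1 = p := Nat.sub_add_cancel (Fact.out : p.Prime).one_lt.le
  obtain ⟨g, hg⟩ := VMod_mk_surj (VMod_fr c i w)
  constructor
  · intro h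
    have h1 : VMod_fr c i (c.x i • w) = 0 := by rw [h, VMod_fr_zero]
    rw [VMod_fr_smul, VMod_q_x, ← hg, ← map_mul, VMod_mk_eq_zero, ← hp, pow_succ'] at h1
    obtain ⟨s, hs⟩ := (mul_dvd_mul_iff_left Polynomial.X_ne_zero).1 h1
    refine ⟨s.coeff 0, ?_⟩
    apply VMod_fr_inj
    rw [VMod_fr_to, ← hg, ← map_smul, ← sub_eq_zero, ← map_sub, VMod_mk_eq_zero]
    refine ⟨-s.divX, ?_⟩
    have h2 := Polynomial.divX_mul_X_add s
    have h3 : (Polynomial.X ^ p : Polynomial k) =
        Polynomial.X ^ (p - 1) * Polynomial.X := by rw [← pow_succ, hp]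
    rw [hs, h3, Polynomial.smul_eq_C_mul]
    linear_combination (Polynomial.X ^ (p - 1)) * h2
  · rintro ⟨a, rfl⟩
    apply VMod_fr_inj
    rw [VMod_fr_smul, VMod_q_x, VMod_fr_to, VMod_fr_zero, mul_smul_comm, ← map_mul, ← pow_succ',
      hp, ← map_smul, VMod_mk_eq_zero, Polynomial.smul_eq_C_mul]
    exact dvd_mul_left _ _

theorem VMod_i1_inj : Function.Injective (VMod_i1 c i).hom := by
  intro a b h
  have h1 : VMod_fr c i ((VMod_i1 c i).hom a) = VMod_fr c i ((VMod_i1 c i).hom b) := by rw [h]
  have h2 : (show k from a) • VMod_mk (k := k) p (Polynomial.X ^ (p - 1)) =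
    (show k from b) • VMod_mk (k := k) p (Polynomial.X ^ (p - 1)) := h1
  rw [← sub_eq_zero, ← sub_smul, ← map_smul, VMod_mk_eq_zero, Polynomial.X_pow_dvd_iff] at h2
  have h3 := h2 (p - 1) (Nat.sub_lt (Fact.out : p.Prime).pos one_pos)
  rw [Polynomial.coeff_smul, Polynomial.coeff_X_pow_self, smul_eq_mul, mul_one, sub_eq_zero] at h3
  exact h3

theorem VMod_w1 : VMod_i1 c i ≫ VMod_p1 c i = 0 := by
  ext a
  apply VMod_i2_inj
  exact (VMod_ker_t c i _).2 ⟨(show k from a), rfl⟩

theorem VMod_s1 : (ShortComplex.mk (VMod_i1 c i) (VMod_p1 c i) (VMod_w1 c i)).ShortExact := by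
  refine ModuleCat.shortComplex_shortExact _ ?_ (VMod_i1_inj c i) ?_
  · intro w
    constructor
    · intro h
      have h1 : (VMod_i2 c i).hom ((VMod_p1 c i).hom w) = 0 := by
        have h2 : (VMod_p1 c i).hom w = 0 := h
        rw [h2, map_zero]
      exact (VMod_ker_t c i w).1 h1
    · rintro ⟨a, rfl⟩
      apply VMod_i2_inj
      exact (VMod_ker_t c i _).2 ⟨(show k from a), rfl⟩
  · exact LinearMap.surjective_rangeRestrict _

theorem VMod_w2 : VMod_i2 c i ≫ VMod_p2 c i = 0 := by
  ext a
  obtain ⟨_, w, rfl⟩ := a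
  change VMod_e0 (VMod_fr c i (c.x i • w)) = (0 : k)
  rw [VMod_fr_smul, VMod_q_x, map_mul, VMod_e0_mk, Polynomial.coeff_X_zero, zero_mul]

theorem VMod_s2 : (ShortComplex.mk (VMod_i2 c i) (VMod_p2 c i) (VMod_w2 c i)).ShortExact := by
  refine ModuleCat.shortComplex_shortExact _ ?_ (VMod_i2_inj c i) ?_
  · intro w
    constructor
    · intro h
      have h1 : VMod_e0 (VMod_fr c i w) = (0 : k) := h
      obtain ⟨g, hg⟩ := VMod_mk_surj (VMod_fr c i w)
      rw [← hg, VMod_e0_mk] at h1
      obtain ⟨s, hs⟩ := Polynomial.X_dvd_iff.2 h1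
      refine ⟨(VMod_p1 c i).hom (VMod_to c i (VMod_mk p s)), ?_⟩
      change c.x i • VMod_to c i (VMod_mk p s) = w
      apply VMod_fr_inj
      rw [VMod_fr_smul, VMod_fr_to, VMod_q_x, ← map_mul, ← hs, hg]
    · rintro ⟨⟨_, w, rfl⟩, rfl⟩
      change VMod_e0 (VMod_fr c i (c.x i • w)) = (0 : k)
      rw [VMod_fr_smul, VMod_q_x, map_mul, VMod_e0_mk, Polynomial.coeff_X_zero, zero_mul]
  · intro a
    refine ⟨VMod_to c i (VMod_mk p (Polynomial.C (show k from a))), ?_⟩
    change VMod_e0 (VMod_mk p (Polynomial.C (show k from a))) = (show k from a)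
    rw [VMod_e0_mk, Polynomial.coeff_C_zero]

theorem VMod_finW' : Module.Finite F (VModW' c i) := by
  have h1 : Module.Finite k (VModW c i) := Module.Finite.of_basis (VMod_basis c i)
  have h2 : Module.Finite F (VModW c i) := Module.Finite.of_restrictScalars_finite k F _
  exact Module.Finite.range (VMod_t c i)

/-- The cochain `h`: the coefficient of `t` in the image of an element. -/
noncomputable def VMod_h : F →ₗ[k] VModW c i :=
  (VMod_toL c i).toLinearMap ∘ₗ
    { toFun := fun f => VMod_mk p (VMod_sig i (c.red f)).divX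
      map_add' := fun f f' => by rw [map_add, map_add, Polynomial.divX_add, map_add]
      map_smul' := fun a f => by
        rw [map_smul, map_smul, Polynomial.smul_eq_C_mul, Polynomial.divX_C_mul,
          ← Polynomial.smul_eq_C_mul, map_smul, RingHom.id_apply] }

theorem VMod_h_apply (f : F) :
    VMod_h c i f = VMod_to c i (VMod_mk p (VMod_sig i (c.red f)).divX) := rfl

/-- The coboundary of `e_0`. -/
theorem VMod_d0 (f : F) : f • VMod_to c i 1 - Coalgebra.counit (R := k) f • VMod_to c i 1 =
    c.x i • VMod_h c i f := by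
  rw [VMod_smul_to, VMod_ksmul_to, VMod_h_apply, VMod_smul_to, VMod_q_x, ← VMod_to_sub]
  congr 1
  rw [VMod_q_eq c i f, mul_one, Algebra.algebraMap_eq_smul_one, add_sub_cancel_right]

/-- The coboundary of `h`. -/
theorem VMod_d1 (f g : F) :
    f • VMod_h c i g - VMod_h c i (f * g) + Coalgebra.counit (R := k) g • VMod_h c i f =
      VMod_to c i (c.bock i f g • VMod_mk p (Polynomial.X ^ (p - 1))) := by
  have hp : p - 1 + 1 = p := Nat.sub_add_cancel (Fact.out : p.Prime).one_lt.le
  rw [VMod_h_apply, VMod_h_apply, VMod_h_apply, VMod_smul_to, VMod_ksmul_to, ← VMod_to_sub,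
    ← VMod_to_add]
  congr 1
  have h1 : VMod_mk (k := k) p (VMod_sig i (c.red f * c.red g) - VMod_sig i (c.red (f * g))) =
      0 := by
    rw [← map_sub]
    apply VMod_ker c i
    rw [map_sub, map_mul, c.ev_red, c.ev_red, c.ev_red, sub_self]
  rw [VMod_mk_eq_zero] at h1
  obtain ⟨s, hs⟩ := h1
  rw [map_mul] at hs
  have h2 := VMod_divX_mul (VMod_sig i (c.red f)) (VMod_sig i (c.red g))
  have h3 : VMod_sig i (c.red f) * VMod_sig i (c.red g) =
      VMod_sig i (c.red (f * g)) + Polynomial.X * (Polynomial.X ^ (p - 1) * s) := by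
    rw [← mul_assoc, ← pow_succ', hp, ← hs]
    ring
  rw [h3, Polynomial.divX_add, VMod_divX_X_mul, ← VMod_const i (c.red g), c.const_red] at h2
  have h4 : c.bock i f g = s.coeff 0 := by
    rw [Coords.bock, VMod_lam, map_mul, h3, Polynomial.coeff_add, ← VMod_lam, c.lam_red, zero_add,
      ← mul_assoc, ← pow_succ', hp, Polynomial.coeff_X_pow_mul', if_pos le_rfl, Nat.sub_self]
  rw [h4, VMod_q_apply, ← map_mul, ← map_smul, ← map_smul, ← map_sub, ← map_add, ← sub_eq_zero,
    ← map_sub, VMod_mk_eq_zero]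
  refine ⟨s.divX, ?_⟩
  have h5 := Polynomial.divX_mul_X_add s
  have h6 : (Polynomial.X ^ p : Polynomial k) =
      Polynomial.X ^ (p - 1) * Polynomial.X := by rw [← pow_succ, hp]
  rw [Polynomial.smul_eq_C_mul, Polynomial.smul_eq_C_mul, h6]
  linear_combination (-1 : Polynomial k) * h2 + (- Polynomial.X ^ (p - 1)) * h5

/-- The two extensions. -/
noncomputable def VMod_data : VData p c i where
  W := VModW c i
  W' := VModW' c i
  isW := VMod_isW c i
  finW' := VMod_finW' c i
  i₁ := VMod_i1 c i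
  p₁ := VMod_p1 c i
  w₁ := VMod_w1 c i
  s₁ := VMod_s1 c i
  i₂ := VMod_i2 c i
  p₂ := VMod_p2 c i
  w₂ := VMod_w2 c i
  s₂ := VMod_s2 c i

theorem VMod_cls [CharP k p] (w : TA k (HD k F)) (hd : dd k (HD k F) w = 0)
    (hw : ∀ f g : F, val2 (evn k 2 w) f g = c.bock i f g) :
    clsT k 2 w hd = (VMod_data c i).cl := by
  have hx1 : dC k 1 (VModW c i) (show Cn k 1 (VModW c i) from mkI k (VMod_h c i)) =
      Cmap k 2 (kl k (VMod_i1 c i)) (evn k 2 w) := by
    refine IM_ext k (M := IM k (VModW c i)) fun b₂ => IM_ext k (M := VModW c i) fun b₁ => ?_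
    have h := VMod_d1 c i b₁ b₂
    rw [← hw] at h
    refine Eq.trans ?_ h
    change b₁ • VMod_h c i b₂ - (VMod_h c i (b₁ * b₂) -
      fn k (Coalgebra.counit (R := k) b₂ • (mkI k (VMod_h c i) : IM k (VModW c i))) b₁) = _
    rw [fn_ksmul]
    abel
  obtain ⟨hxz1, hz1, he1⟩ := cls_delta k 1 (VMod_i1 c i) (VMod_p1 c i) (VMod_w1 c i)
    (VMod_s1 c i) _ _ hx1
  have hx2 : dC k 0 (VModW c i) (show Cn k 0 (VModW c i) from VMod_to c i 1) =
      Cmap k 1 (kl k (VMod_i2 c i)) (Cmap k 1 (kl k (VMod_p1 c i))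
        (show Cn k 1 (VModW c i) from mkI k (VMod_h c i))) := by
    refine IM_ext k (M := VModW c i) fun b => ?_
    exact VMod_d0 c i b
  obtain ⟨hxz2, hz2, he2⟩ := cls_delta k 0 (VMod_i2 c i) (VMod_p2 c i) (VMod_w2 c i)
    (VMod_s2 c i) _ _ hx2
  have h0 : cls k 0 (trivObj k F) ⟨Cmap k 0 (kl k (VMod_p2 c i))
      (show Cn k 0 (VModW c i) from VMod_to c i 1), hz2⟩ = Ext.mk₀ (𝟙 _) := by
    rw [cls_zero]
    congr 1
    ext a
    change Coalgebra.counit (R := k) (algebraMap k F (show k from a)) *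
      VMod_e0 (VMod_fr c i (VMod_to c i 1)) = (show k from a)
    rw [VMod_fr_to, map_one, mul_one, Bialgebra.counit_algebraMap]
  rw [h0, Ext.mk₀_id_comp] at he2
  have h3 : clsT k 2 w hd = cls k 2 (trivObj k F) ⟨evn k 2 w, hxz1⟩ := rfl
  rw [h3, he1]
  have h4 : cls k 1 (VModW' c i) ⟨Cmap k 1 (kl k (VMod_p1 c i))
      (show Cn k 1 (VModW c i) from mkI k (VMod_h c i)), hz1⟩ = (VMod_s2 c i).extClass := he2
  rw [h4]
  rfl

end

section

variable {k : Type u} [Field k] {F : Type u} [CommRing F] [HopfAlgebra k F] [Module.Finite k F]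

theorem exists_vdata (p : ℕ) [Fact p.Prime] [CharP k p] {n : ℕ} (c : Coords k p F n)
    (i : Fin n) : ∃ D : VData p c i, ∀ (w : TA k (HD k F)) (_ : w ∈ Tn k (HD k F) 2)
      (hd : dd k (HD k F) w = 0) (_ : ∀ f g : F, val2 (evn k 2 w) f g = c.bock i f g),
      clsT k 2 w hd = D.cl :=
  ⟨VMod_data c i, fun w _ hd hw => VMod_cls c i w hd hw⟩

end

end Pool.Agent.Helper90.FC
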